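import Pool.Agent.Helper75.SX.Defs

/-!
# Avoiding countably many sets of the ideal (module SX-35)

Let `E` be the complement of the union of the sets `bset I (c i)`, a Borel set (boxes are open).

`E` is not countable.  Null case: `bset Idl.null (c i)` is contained in the union of the boxes with index `≥ N`, whose
volume (`MeasureTheory.volume`, `Real.volume_pi_Ioo`) is at most a tail of a convergent series, so it is a null set,
and so is the union over `i`; if `E` were countable it would be null as well (`Set.Countable.measure_zero`; the measure
has no atoms as `1 ≤ d`), and `univ` would be null: contradiction (volume of an open nonempty set is positive).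
Meager case: the complement of `bset Idl.meager (c i)` is the intersection over `m` of dense open sets, hence
residual/comeager; so `E` is residual; if `E` were countable, its complement would contain a countable
intersection of the dense open sets `{x}ᶜ` (`1 ≤ d`, no isolated points: `NeBot (𝓝[≠] x)`), so it would be residual
too: contradiction with the Baire category theorem (`dense_of_mem_residual`: the empty set would be dense).

Perfect set theorem for Borel sets: by `MeasurableSet.isClopenable` there is a finer Polish topology `t'` for which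
`E` is closed, and `IsClosed.exists_nat_bool_injection_of_not_countable` gives a continuous (for `t'`, hence for the
usual topology) injective map `Can → Euc d` with range in `E`.
-/

set_option autoImplicit false

open Set Topology

namespace SX

private theorem box_isOpen {d : ℕ} (b : Box d) : IsOpen b.set := by
  have h1 : b.set = Set.pi univ fun i => Ioo ((b i).1 : ℝ) ((b i).2 : ℝ) := by
    ext x
    simp [Box.set, Set.mem_pi]
  rw [h1]
  exact isOpen_set_pi finite_univ fun i _ => isOpen_Ioo

private theorem box_volume {d : ℕ} (b : Box d) :
    MeasureTheory.volume b.set = ENNReal.ofReal b.vol := by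
  have h1 : b.set = Set.pi univ fun i => Ioo ((b i).1 : ℝ) ((b i).2 : ℝ) := by
    ext x
    simp [Box.set, Set.mem_pi]
  rw [h1, Real.volume_pi_Ioo, Box.vol, ENNReal.ofReal_prod_of_nonneg fun _ _ => le_max_left _ _]
  refine Finset.prod_congr rfl fun i _ => ?_
  rcases le_total 0 (((b i).2 : ℝ) - ((b i).1 : ℝ)) with h | h
  · rw [max_eq_right h]
  · rw [max_eq_left h, ENNReal.ofReal_of_nonpos h, ENNReal.ofReal_zero]

private theorem bset_meas {d : ℕ} (I : Idl) (c : ℕ → Box d) : MeasurableSet (bset I c) := by
  cases I with
  | null =>
    have h1 : bset Idl.null c = ⋂ N : ℕ, ⋃ k : ℕ, ⋃ _ : N ≤ k, (c k).set := by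
      ext x
      simp [bset]
    rw [h1]
    exact MeasurableSet.iInter fun N => MeasurableSet.iUnion fun k => MeasurableSet.iUnion fun _ =>
      (box_isOpen (c k)).measurableSet
  | meager =>
    have h1 : bset Idl.meager c = ⋃ m : ℕ, ⋂ k : ℕ, ((c (Nat.pair m k)).set)ᶜ := by
      ext x
      simp [bset]
    rw [h1]
    exact MeasurableSet.iUnion fun m => MeasurableSet.iInter fun k =>
      (box_isOpen _).measurableSet.compl

private theorem bset_null {d : ℕ} {c : ℕ → Box d} (hc : Valid Idl.null c) :
    MeasureTheory.volume (bset Idl.null c) = 0 := by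
  have h1 : bset Idl.null c = Filter.limsup (fun k => (c k).set) Filter.atTop := by
    ext x
    rw [Filter.mem_limsup_iff_frequently_mem, Filter.frequently_atTop]
    rfl
  rw [h1]
  apply MeasureTheory.measure_limsup_atTop_eq_zero
  have h2 : ∀ k, MeasureTheory.volume (c k).set = ENNReal.ofReal (c k).vol := fun k => box_volume _
  simp only [h2]
  exact Summable.tsum_ofReal_ne_top hc

private theorem bset_meager {d : ℕ} {c : ℕ → Box d} (hc : Valid Idl.meager c) :
    (bset Idl.meager c)ᶜ ∈ residual (Euc d) := by
  have h1 : (bset Idl.meager c)ᶜ = ⋂ m : ℕ, ⋃ k : ℕ, (c (Nat.pair m k)).set := by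
    ext x
    simp [bset]
  rw [h1, countable_iInter_mem]
  intro m
  exact residual_of_dense_open (isOpen_iUnion fun k => box_isOpen _) (hc m)

theorem avoid {d : ℕ} (hd : 1 ≤ d) (I : Idl) (c : ℕ → ℕ → Box d) (hc : ∀ i, Valid I (c i)) :
    ∃ φ : Can → Euc d, Continuous φ ∧ Function.Injective φ ∧ ∀ i x, φ x ∉ bset I (c i) := by
  haveI : Nonempty (Fin d) := ⟨⟨0, hd⟩⟩
  haveI : Nontrivial (Euc d) := Function.nontrivial
  set E : Set (Euc d) := (⋃ i, bset I (c i))ᶜ with hE
  have hEm : MeasurableSet E := (MeasurableSet.iUnion fun i => bset_meas I (c i)).compl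
  have hunc : ¬ E.Countable := by
    intro hcount
    cases I with
    | null =>
      have h1 : MeasureTheory.volume (⋃ i, bset Idl.null (c i)) = 0 :=
        MeasureTheory.measure_iUnion_null fun i => bset_null (hc i)
      have h2 : MeasureTheory.volume E = 0 := hcount.measure_zero _
      have h3 : MeasureTheory.volume (univ : Set (Euc d)) = 0 := by
        have h4 : (univ : Set (Euc d)) = (⋃ i, bset Idl.null (c i)) ∪ E := by
          rw [hE, union_compl_self]
        rw [h4]
        exact MeasureTheory.measure_union_null h1 h2
      have h5 : 0 < MeasureTheory.volume (univ : Set (Euc d)) :=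
        isOpen_univ.measure_pos _ ⟨0, trivial⟩
      rw [h3] at h5
      exact lt_irrefl _ h5
    | meager =>
      have h1 : E ∈ residual (Euc d) := by
        rw [hE, compl_iUnion, countable_iInter_mem]
        exact fun i => bset_meager (hc i)
      have h2 : (⋂ x ∈ E, ({x}ᶜ : Set (Euc d))) ∈ residual (Euc d) := by
        rw [countable_bInter_mem hcount]
        intro x _
        exact residual_of_dense_open isOpen_compl_singleton (dense_compl_singleton x)
      have h3 := Filter.inter_mem h1 h2
      have h4 : E ∩ (⋂ x ∈ E, ({x}ᶜ : Set (Euc d))) = ∅ := by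
        ext y
        simp only [mem_inter_iff, mem_iInter, mem_compl_iff, mem_singleton_iff, mem_empty_iff_false,
          iff_false, not_and, not_forall]
        intro hy
        exact ⟨y, hy, fun h => h rfl⟩
      rw [h4] at h3
      have h5 := dense_of_mem_residual h3
      obtain ⟨y, hy⟩ := h5.nonempty
      exact hy
  obtain ⟨t', ht', hpol, hcl, _⟩ := hEm.isClopenable
  obtain ⟨φ, hφ1, hφ2, hφ3⟩ := @IsClosed.exists_nat_bool_injection_of_not_countable _ t' hpol E hcl hunc
  refine ⟨φ, ?_, hφ3, ?_⟩
  · exact continuous_le_rng ht' hφ2
  · intro i x hx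
    have h1 := hφ1 ⟨x, rfl⟩
    rw [hE] at h1
    exact h1 (mem_iUnion.2 ⟨i, hx⟩)

end SX
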