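import Pool.Agent.Helper75.SX.Sch

/-!
# Operations on conditions (module SX-03)

`upd p i P`: replace the coordinate `i` by `P`.  `glue p q T`: the coordinates of `p` in `T`, those of `q`
outside `T`.  `one`: the trivial condition.  The proof obligations are immediate.  `ext_S`: two
conditions with the same coordinates are equal (`cases`, `congr`).
-/

set_option autoImplicit false

open Set Topology

namespace SX

variable {J : Type}

theorem Cond.ext_S {p q : Cond J} (h : p.S = q.S) : p = q := by
  cases p
  cases q
  cases h
  rfl

theorem Cond.le_def {p q : Cond J} : p ≤ q ↔ ∀ i, p.S i ⊆ q.S i := Iff.rfl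

/-- the trivial condition -/
def one (J : Type) : Cond J :=
  ⟨fun _ => univ, fun _ => perf_univ, fun _ => ⟨fun _ => false, trivial⟩, by simp⟩

theorem le_one (p : Cond J) : p ≤ one J := fun _ => subset_univ _

open Classical in
/-- replace one coordinate -/
noncomputable def Cond.upd (p : Cond J) (i : J) (P : Set Can) (hP : Perfect P) (hne : P.Nonempty) : Cond J where
  S j := if j = i then P else p.S j
  perf j := by
    split_ifs
    · exact hP
    · exact p.perf j
  ne j := by
    split_ifs
    · exact hne
    · exact p.ne j
  supp := by
    refine (p.supp.insert i).mono ?_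
    intro j hj
    by_cases hji : j = i
    · exact Or.inl hji
    · right
      have h1 : (if j = i then P else p.S j) ≠ univ := hj
      rw [if_neg hji] at h1
      exact h1

open Classical in
theorem Cond.upd_S (p : Cond J) (i : J) (P : Set Can) (hP : Perfect P) (hne : P.Nonempty) (j : J) :
    (p.upd i P hP hne).S j = if j = i then P else p.S j := rfl

theorem Cond.upd_le (p : Cond J) (i : J) (P : Set Can) (hP : Perfect P) (hne : P.Nonempty)
    (h : P ⊆ p.S i) : p.upd i P hP hne ≤ p := by
  classical
  intro j
  rw [Cond.upd_S]
  by_cases hji : j = i
  · rw [if_pos hji, hji]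
    exact h
  · rw [if_neg hji]

open Classical in
/-- the coordinates of `p` in `T` and those of `q` outside `T` -/
noncomputable def Cond.glue (p q : Cond J) (T : Set J) : Cond J where
  S j := if j ∈ T then p.S j else q.S j
  perf j := by
    split_ifs
    · exact p.perf j
    · exact q.perf j
  ne j := by
    split_ifs
    · exact p.ne j
    · exact q.ne j
  supp := by
    refine (p.supp.union q.supp).mono ?_
    intro j hj
    have h1 : (if j ∈ T then p.S j else q.S j) ≠ univ := hj
    by_cases hjT : j ∈ T
    · rw [if_pos hjT] at h1
      exact Or.inl h1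
    · rw [if_neg hjT] at h1
      exact Or.inr h1

open Classical in
theorem Cond.glue_S (p q : Cond J) (T : Set J) (j : J) :
    (p.glue q T).S j = if j ∈ T then p.S j else q.S j := rfl

/-- two conditions which agree on the intersection of their supports are compatible -/
theorem Cond.compat {p q : Cond J} (h : ∀ i, p.S i ≠ univ → q.S i ≠ univ → p.S i = q.S i) :
    ∃ r, r ≤ p ∧ r ≤ q := by
  classical
  refine ⟨p.glue q {i | p.S i ≠ univ}, fun i => ?_, fun i => ?_⟩
  · rw [Cond.glue_S]
    by_cases hi : i ∈ {i | p.S i ≠ univ}
    · rw [if_pos hi]
    · rw [if_neg hi]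
      have h1 : p.S i = univ := by
        by_contra h2
        exact hi h2
      rw [h1]
      exact subset_univ _
  · rw [Cond.glue_S]
    by_cases hi : i ∈ {i | p.S i ≠ univ}
    · rw [if_pos hi]
      by_cases hq : q.S i = univ
      · rw [hq]
        exact subset_univ _
      · rw [h i hi hq]
    · rw [if_neg hi]

end SX
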