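import Pool.Agent.Helper75.SX.Defs

/-!
# Cardinalities (module SX-11)

* `mk_closed`: a closed set `P` is determined by the set of all lists `l : List Bool` such that the clopen set
  `{y | ∀ n (h : n < l.length), y n = l[n]}` meets `P`; so there is an injection into `Set (List Bool)`.
  (Or: second countable, `TopologicalSpace` lemmas on the number of open sets,
  e.g. `TopologicalSpace.IsTopologicalBasis` and countable basis: every open set is a union of basic sets.)
* `mk_cont`: a continuous map into a Hausdorff space is determined by its values on the countable dense set of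
  eventually false sequences (`Continuous.ext_on`); `𝔠 ^ ℵ₀ = 𝔠`.  Use it for `Y = Can` and `Y = Euc d`, where
  `#Y ≤ 𝔠`.
* `mk_can`, `mk_euc`, `mk_seq`: cardinal arithmetic.
-/

set_option autoImplicit false

open Set
open scoped Cardinal

namespace SX

theorem mk_can : #Can = 𝔠 := by
  change #(ℕ → Bool) = 𝔠
  simp

theorem mk_seq {A : Type} (hA : #A ≤ 𝔠) : #(ℕ → A) ≤ 𝔠 := by
  have : #(ℕ → A) = #A ^ Cardinal.aleph0 := by simp
  rw [this]
  exact (Cardinal.power_le_power_right hA).trans Cardinal.continuum_power_aleph0.le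

theorem mk_euc (d : ℕ) : #(Euc d) ≤ 𝔠 := by
  refine (Cardinal.mk_le_of_injective (f := fun x : Euc d =>
    (fun n => if h : n < d then x ⟨n, h⟩ else 0 : ℕ → ℝ)) ?_).trans (mk_seq Cardinal.mk_real.le)
  intro x y hxy
  funext i
  have := congrFun hxy i.1
  simpa [i.2] using this

theorem mk_closed : #{P : Set Can // IsClosed P} ≤ 𝔠 := by
  have hB := TopologicalSpace.isBasis_countableBasis Can
  have hBc := TopologicalSpace.countable_countableBasis Can
  have h1 : #(Set (TopologicalSpace.countableBasis Can)) ≤ 𝔠 := by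
    rw [Cardinal.mk_set]
    calc (2 : Cardinal) ^ #(TopologicalSpace.countableBasis Can) ≤ 2 ^ Cardinal.aleph0 :=
        Cardinal.power_le_power_left two_ne_zero
          (Cardinal.le_aleph0_iff_set_countable.mpr hBc)
      _ = 𝔠 := Cardinal.two_power_aleph0
  refine (Cardinal.mk_le_of_injective (f := fun P : {P : Set Can // IsClosed P} =>
    ({U | U.1 ⊆ P.1ᶜ} : Set (TopologicalSpace.countableBasis Can))) ?_).trans h1
  intro P Q hPQ
  have key : ∀ P : {P : Set Can // IsClosed P},
      P.1ᶜ = ⋃₀ (Subtype.val '' ({U | U.1 ⊆ P.1ᶜ} : Set (TopologicalSpace.countableBasis Can))) := by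
    intro P
    have h2 := hB.open_eq_sUnion' P.2.isOpen_compl
    refine h2.trans ?_
    congr 1
    ext U
    constructor
    · rintro ⟨hU, hU2⟩
      exact ⟨⟨U, hU⟩, hU2, rfl⟩
    · rintro ⟨V, hV, rfl⟩
      exact ⟨V.2, hV⟩
  apply Subtype.ext
  apply compl_injective
  rw [key P, key Q]
  have h3 : ({U | U.1 ⊆ P.1ᶜ} : Set (TopologicalSpace.countableBasis Can)) = {U | U.1 ⊆ Q.1ᶜ} := hPQ
  rw [h3]

theorem mk_cont {Y : Type} [TopologicalSpace Y] [T2Space Y] (hY : #Y ≤ 𝔠) :
    #{f : Can → Y // Continuous f} ≤ 𝔠 := by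
  obtain ⟨D, hDc, hDd⟩ := TopologicalSpace.exists_countable_dense Can
  have hne : D.Nonempty := hDd.nonempty
  obtain ⟨s, hs⟩ := hDc.exists_eq_range hne
  refine (Cardinal.mk_le_of_injective (f := fun f : {f : Can → Y // Continuous f} =>
    (fun k => f.1 (s k) : ℕ → Y)) ?_).trans (mk_seq hY)
  intro f g hfg
  apply Subtype.ext
  apply Continuous.ext_on hDd f.2 g.2
  intro x hx
  rw [hs] at hx
  obtain ⟨k, rfl⟩ := hx
  exact congrFun hfg k

end SX
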