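import Pool.Agent.Helper75.SX.Delta
import Pool.Agent.Helper75.SX.Count
import Pool.Agent.Helper75.SX.CondOps

/-!
# Antichains have cardinality at most continuum (module SX-12)

Let `S ξ = {i | (p ξ).S i ≠ univ}`, countable.  By `delta` there are `O'`, `R` with `S ξ ∩ S η = R` for different
`ξ, η ∈ O'`.  The map `ξ ↦ (i ↦ (p ξ).S i)` on `R` has values in `R → {P // IsClosed P}`, a type of cardinality
at most `𝔠 ^ ℵ₀ = 𝔠` (`mk_closed`; `R` is countable: inject `R → A` into `ℕ → A` or use cardinal powers).  By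
`pigeon` there are more than `𝔠` many, hence two different, `ξ, η ∈ O'` with the same value
(`𝔠 < #...` implies that the set has two different elements).  Then `p ξ` and `p η` agree at all `i` in the
intersection of the supports, which is `R`, and `Cond.compat` applies.
-/

set_option autoImplicit false

open Set
open scoped Cardinal

namespace SX

theorem cc {O J : Type} (p : O → Cond J) (hO : 𝔠 < #O) : ∃ ξ η, ξ ≠ η ∧ ∃ r, r ≤ p ξ ∧ r ≤ p η := by
  obtain ⟨O', hO', R, hR, hint⟩ := delta (fun ξ => {i | (p ξ).S i ≠ univ}) (fun ξ => (p ξ).supp) hO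
  let f : O → (R → {P : Set Can // IsClosed P}) := fun ξ i => ⟨(p ξ).S i, ((p ξ).perf i).closed⟩
  have hcard : #(R → {P : Set Can // IsClosed P}) ≤ 𝔠 := by
    have h1 : #(R → {P : Set Can // IsClosed P}) = #{P : Set Can // IsClosed P} ^ #R := by
      simp
    rw [h1]
    calc #{P : Set Can // IsClosed P} ^ #R ≤ 𝔠 ^ #R := Cardinal.power_le_power_right mk_closed
      _ ≤ 𝔠 ^ ℵ₀ := Cardinal.power_le_power_left Cardinal.continuum_ne_zero hR.le_aleph0
      _ = 𝔠 := Cardinal.continuum_power_aleph0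
  obtain ⟨a, ha⟩ := pigeon O' hO' f hcard
  have h1 : 1 < #{ξ | ξ ∈ O' ∧ f ξ = a} := lt_trans (Cardinal.nat_lt_continuum 1 |> (by simpa using ·)) ha
  have : Nontrivial {ξ | ξ ∈ O' ∧ f ξ = a} := Cardinal.one_lt_iff_nontrivial.1 h1
  obtain ⟨⟨ξ, hξ⟩, ⟨η, hη⟩, hne⟩ := exists_pair_ne {ξ | ξ ∈ O' ∧ f ξ = a}
  have hne' : ξ ≠ η := fun h => hne (Subtype.ext h)
  refine ⟨ξ, η, hne', Cond.compat fun i hi hi' => ?_⟩
  have hiR : i ∈ R := by
    rw [← hint ξ hξ.1 η hη.1 hne']
    exact ⟨hi, hi'⟩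
  have h2 : f ξ = f η := hξ.2.trans hη.2.symm
  have h3 := congrFun h2 ⟨i, hiR⟩
  exact congrArg Subtype.val h3

end SX
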