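import Pool.Agent.Helper75.SX.Read
import Pool.Agent.Helper75.SX.CC

/-!
# Cardinals are preserved (module SX-39)

Suppose `ℵ₀ ≤ #L < #M`, `F l` are names for elements of `M`, and (H) for all `m : M` and `q ≤ p` there are `r ≤ q` and `l`
with `Frc r (F l G = m)`.

Case 1: `#L = ℵ₀`.  Let `l : ℕ → L` be surjective, `X G k = F (l k) G`.  By `read_seq` (`T = ∅`) there is a scheme with
`h.top ≤ p` and `F'` such that `X G = F' x` for the branch `x`, where `F' x k` depends only on the values of `x` below `k`,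
so `F' · k` has finitely many values.  The set of all values is countable and `M` is not countable: let `m` be
another element.  (H) for `m` and `q = h.top` gives `r ≤ h.top`, `l k` with `Frc r (X G k = m)`, but for a.e. `G` containing
`r` there is a branch `x` (`exists_branch`) and `X G k = F' x k ≠ m`: `frc_exists` gives a contradiction.

Case 2: `ℵ₀ < #L`, so `ℵ_1 ≤ #L`, i.e. `𝔠 ≤ #L` by CH (`Cardinal.mk_pi`-free: `#(ℕ → Bool) = 2 ^ ℵ₀ = 𝔠`).  For `l : L` let
`M_l = {m | ∃ r ≤ p, Frc r (F l G = m)}`.  `#M_l ≤ 𝔠`: otherwise choose `r m` for `m : M_l` and apply `cc`: there are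
`m ≠ m'` and `s ≤ r m, r m'`, and `s` forces `m = F l G = m'`: contradiction (`frc_exists`).  By (H) (`q = p`) `M` is the
union of the `M_l`, so `#M ≤ #L * 𝔠 = #L < #M`: contradiction.
-/

set_option autoImplicit false

open Cardinal LM

namespace SX

/-- a point from finitely many bits -/
private def exq (k : ℕ) (w : Fin k → Bool) : Can := fun n => if hn : n < k then w ⟨n, hn⟩ else false

private theorem exq_apply {k : ℕ} (x : Can) : ∀ n < k, exq k (fun i => x i) n = x n := by
  intro n hn
  unfold exq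
  rw [dif_pos hn]

theorem card_pres (hCH : #(ℕ → Bool) = ℵ_ 1) (J : Type) [Nonempty J] : CardPres (Cond J) := by
  classical
  intro L M hL hLM F hF p H
  rcases hL.eq_or_lt with hL0 | hL1
  · -- countable case
    have hcL : Countable L := by
      rw [← Cardinal.mk_le_aleph0_iff, ← hL0]
    have hLne : Nonempty L := by
      rw [← Cardinal.mk_ne_zero_iff]
      rw [← hL0]
      exact Cardinal.aleph0_ne_zero
    obtain ⟨l, hl⟩ := exists_surjective_nat L
    obtain ⟨β, e, h, htop, _, F', hF1, _, hF3⟩ := read_seq (fun G k => F (l k) G) (fun k => hF (l k)) p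
      (T := ∅) Set.countable_empty
    have hV : (Set.range fun w : (Σ k : ℕ, (Fin k → Bool)) => F' (exq w.1 w.2) w.1).Countable :=
      Set.countable_range _
    have hM : ∃ m : M, m ∉ Set.range fun w : (Σ k : ℕ, (Fin k → Bool)) => F' (exq w.1 w.2) w.1 := by
      by_contra hcon
      push Not at hcon
      have h1 : (Set.univ : Set M).Countable := hV.mono fun m _ => hcon m
      rw [Set.countable_univ_iff] at h1
      have h2 : #M ≤ ℵ₀ := Cardinal.mk_le_aleph0
      exact absurd (hL0.le.trans_lt hLM) (not_lt.2 h2)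
    obtain ⟨m, hm⟩ := hM
    obtain ⟨r, hr, lm, hfr⟩ := H m h.top htop
    obtain ⟨k, rfl⟩ := hl lm
    obtain ⟨G, hG, hG1, hG2⟩ := frc_exists (hfr.and (frc_of_ae (p := r) hF3))
    have hGt : h.top ∈ G.S := G.up hG hr
    obtain ⟨x, hx⟩ := exists_branch h hGt
    have h3 := congrFun (hG2 hGt x hx) k
    apply hm
    refine ⟨⟨k, fun i => x i⟩, ?_⟩
    show F' (exq k fun i => x i) k = m
    rw [hF1 _ x k (exq_apply x), ← h3]
    exact hG1
  · -- uncountable case
    have hc : 𝔠 ≤ #L := by
      have h1 : 𝔠 = ℵ_ 1 := by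
        rw [← hCH]
        exact mk_can.symm
      rw [h1, ← Cardinal.succ_aleph0]
      exact Order.succ_le_of_lt hL1
    set Ml : L → Set M := fun l => {m | ∃ r ≤ p, Frc r fun G => F l G = m} with hMl
    have hcard : ∀ l, #(Ml l) ≤ 𝔠 := by
      intro l
      by_contra hcon
      push Not at hcon
      have h1 : ∀ m : Ml l, ∃ r ≤ p, Frc r fun G => F l G = m := fun m => m.2
      choose r _ hrf using h1
      obtain ⟨m, m', hne, s, hs1, hs2⟩ := cc r hcon
      obtain ⟨G, _, h2, h3⟩ := frc_exists (((hrf m).anti hs1).and ((hrf m').anti hs2))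
      exact hne (Subtype.ext (h2.symm.trans h3))
    have hsurj : Function.Surjective fun w : (Σ l : L, Ml l) => (w.2 : M) := by
      intro m
      obtain ⟨r, hr, l, hfr⟩ := H m p (le_refl p)
      exact ⟨⟨l, ⟨m, r, hr, hfr⟩⟩, rfl⟩
    have h1 := Cardinal.mk_le_of_surjective hsurj
    rw [Cardinal.mk_sigma] at h1
    have h2 : (Cardinal.sum fun l : L => #(Ml l)) ≤ Cardinal.sum fun _ : L => 𝔠 :=
      Cardinal.sum_le_sum _ _ hcard
    rw [Cardinal.sum_const'] at h2
    have h3 : #L * 𝔠 ≤ #L := by
      calc #L * 𝔠 ≤ #L * #L := mul_le_mul_right hc _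
        _ = #L := Cardinal.mul_eq_self hL
    exact absurd (h1.trans (h2.trans h3)) (not_le.2 hLM)

end SX
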