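import Pool.Agent.Helper75.SX.FamC

/-!
# The fusion theorem (module SX-08)

Take `β, R` from `fam_seq`.  For `i` in the range of `β` and `x : Can` the sets `(R m x).S i` are decreasing
in `m`, nonempty and compact, and contained in sets `cyl y m'` with `m'` arbitrarily large (for the `m'` with
`β m' = i`, at stage `m' + 1`); so the intersection over `m` is a single point; let `E i x` be a chosen element of the
intersection `{c | ∀ m, c ∈ (R m x).S i}` and `e n x = E (β n) x`.  (Choose as a function of the set
`{c | ∀ m, c ∈ (R m x).S i}`, so that equal sets give equal points.)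
* `inf` is in `fam_seq`; `coh` holds since `e n` depends only on `β n`.
* `inj`: if `x, y` agree on all bits `m` with `β m = β n` then `(R m x).S (β n) = (R m y).S (β n)` for all `m`, so
  the points are equal; if `x m ≠ y m` for some `m` with `β m = β n` then the sets at stage `m + 1` are disjoint.
* `cont`: given `k` take `m ≥ k` with `β m = β n`; if `x, y` agree below `m + 1` then `(R (m+1) x).S (β n) =
  (R (m+1) y).S (β n)` is contained in some `cyl z m`, so `e n x` and `e n y` agree below `k`.  (Continuity of a
  map into `Can = ℕ → Bool`: `continuous_pi`, each coordinate is locally constant; or `cyl_basis`.)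
* `e n '' cyl x m ⊆ (R m x).S (β n)`: for `y ∈ cyl x m`, `e n y ∈ (R m y).S (β n) = (R m x).S (β n)`.  For
  `i ∉ range β`: `(R m x).S i = univ`.  Hence `h.node x m ≤ R m x`, so `h.node x m ∈ D m` since `D m` is open, and
  `h.top ≤ R 0 x ≤ p` (`h.top = h.node _ 0`).
-/

set_option autoImplicit false

open Set Topology LM

namespace SX

variable {J : Type}

open Classical in
/-- a chosen element of a set -/
private noncomputable def pick (s : Set Can) : Can := if h : s.Nonempty then h.some else fun _ => false

private theorem pick_mem {s : Set Can} (h : s.Nonempty) : pick s ∈ s := by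
  unfold pick
  rw [dif_pos h]
  exact h.some_mem

theorem fusion [Nonempty J] (p : Cond J) {T : Set J} (hT : T.Countable) (D : ℕ → Set (Cond J))
    (hD : ∀ m q, ∃ r ∈ D m, r ≤ q) (hDo : ∀ m, ∀ q ∈ D m, ∀ r ≤ q, r ∈ D m) :
    ∃ (β : ℕ → J) (e : ℕ → Can → Can) (h : Sch β e), h.top ≤ p ∧ T ⊆ range β ∧
      ∀ m x, h.node x m ∈ D m := by
  obtain ⟨β, R, h0, hPS, hdec, hRD, hcyl, hTβ, hsup, hinf⟩ := fam_seq p hT D hD hDo
  set K : J → Can → Set Can := fun i x => ⋂ m, (R m x).S i with hK
  have hKne : ∀ i x, (K i x).Nonempty := by
    intro i x
    refine IsCompact.nonempty_iInter_of_sequence_nonempty_isCompact_isClosed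
      (fun m => (R m x).S i) (fun m => hdec m x i) (fun m => (R m x).ne i)
      ((R 0 x).perf i).closed.isCompact fun m => ((R m x).perf i).closed
  set e : ℕ → Can → Can := fun n x => pick (K (β n) x) with he
  have hmem : ∀ n x m, e n x ∈ (R m x).S (β n) := by
    intro n x m
    have h1 := pick_mem (hKne (β n) x)
    exact mem_iInter.1 h1 m
  have hloc : ∀ n m x y, (∀ k < m, y k = x k) → (R m y).S (β n) = (R m x).S (β n) := by
    intro n m x y h
    exact (hPS m).1 y x (β n) fun k hk _ => h k hk
  have hsch : Sch β e := by
    refine ⟨hinf, ?_, ?_, ?_⟩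
    · intro n
      rw [continuous_pi_iff]
      intro k
      rw [continuous_iff_continuousAt]
      intro x
      obtain ⟨m, hm, hmn⟩ := hinf n (k + 1)
      obtain ⟨z, hz⟩ := hcyl m x
      rw [hmn] at hz
      have h1 : ∀ y ∈ cyl x (m + 1), e n y k = e n x k := by
        intro y hy
        have h2 := hmem n y (m + 1)
        rw [hloc n (m + 1) x y hy] at h2
        have h3 := hz h2 k (by omega)
        have h4 := hz (hmem n x (m + 1)) k (by omega)
        rw [h3, h4]
      have h2 : (fun y => e n y k) =ᶠ[𝓝 x] fun _ => e n x k := by
        have h3 : cyl x (m + 1) ∈ 𝓝 x :=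
          (isClopen_cyl x (m + 1)).isOpen.mem_nhds fun _ _ => rfl
        filter_upwards [h3] with y hy
        exact h1 y hy
      exact continuousAt_const.congr h2.symm
    · intro n x y
      constructor
      · intro hxy
        by_contra hcon
        push Not at hcon
        obtain ⟨m, hmn, hne⟩ := hcon
        have h1 := (hPS (m + 1)).2 m (by omega) x y hne
        rw [hmn] at h1
        have h2 := hmem n x (m + 1)
        have h3 := hmem n y (m + 1)
        rw [← hxy] at h3
        exact Set.disjoint_left.1 h1 h2 h3
      · intro h
        have h1 : K (β n) x = K (β n) y := by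
          simp only [hK]
          congr 1
          funext m
          exact (hPS m).1 x y (β n) fun k _ hk => h k hk
        simp only [he]
        rw [h1]
    · intro n m hnm
      funext x
      simp only [he]
      rw [hnm]
  have hnode : ∀ m x, hsch.node x m ≤ R m x := by
    intro m x i
    rw [hsch.node_S]
    by_cases hi : i ∈ range β
    · obtain ⟨n, rfl⟩ := hi
      intro c hc
      obtain ⟨y, hy, rfl⟩ := hc n rfl
      have h1 := hmem n y m
      rwa [hloc n m x y hy] at h1
    · have h1 : (R m x).S i = univ := by
        by_contra hcon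
        exact hi (hsup m x i hcon)
      rw [h1]
      exact subset_univ _
  exact ⟨β, e, hsch, (hnode 0 _).trans (h0 _), hTβ, fun m x => hDo m _ (hRD m x) _ (hnode m x)⟩

end SX
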