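import Pool.Agent.Helper75.SX.CondOps

/-!
# The generic sequence of reals (module SX-04)

* `gen_exists`: for every filter `G` and `i` the sets `p.S i`, `p ∈ G`, form a directed family of nonempty
  compact closed sets, so their intersection is nonempty
  (`IsCompact.nonempty_iInter_of_directed_nonempty_isCompact_isClosed`, index type `G.S`).
* `branch_of`: `c (β n) = e n (y n)` for some `y n : Can`.  If `β m = β n`, then
  `e n (y n) = c (β n) = e m (y m) = e n (y m)` (`coh`), so `y n` and `y m` agree on all bits of this coordinate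
  (`inj`).  Put `x n = y n n`; then `e n x = e n (y n)` by `inj`.
* `exists_branch`: `branch_of` for `c = gen G`, since `gen G (β n)` lies in `h.top.S (β n) = e n '' univ`.
* `branch_unique`: `inj` at `n` gives `x n = y n`.
* `node_pre`: let `q ≤ h.top`.  Choose `c i ∈ q.S i` for all `i`, and by `branch_of` a point `x` with
  `e n x = c (β n)` for all `n`.  For `n < m` the set `B = {z | ∃ m' < m, β m' = β n ∧ z m' ≠ x m'}` is compact and
  `e n x ∉ e n '' B` by `inj`; so there is `k n` with `cyl (c (β n)) (k n)` disjoint from `e n '' B` (`cyl_basis`).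
  Let `k` be the maximum and let `r` be the condition with coordinates `q.S i ∩ cyl (c i) k` for
  `i ∈ β '' {n | n < m}` and `q.S i` otherwise (`perf_cyl`).  Then `r ≤ q` and `r ≤ h.node x m`: let `i = β n` and
  `c' ∈ r.S i ⊆ q.S i ⊆ e n '' univ`, `c' = e n z`; let `z'` agree with `x` below `m` and with `z` from `m` on.  If
  `m' < m` and `β m' = β n` then `i ∈ β '' {n | n < m}` (witness `m'`; note `e m' = e n` by `coh`), so `z ∉ B`, which
  gives `z m' = x m' = z' m'`.  Hence `c' = e n z'` and `z' ∈ cyl x m`.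
* `node_mem`: by `node_pre` and `frc_of_dense` (or `frc_mts`), for a.e. `G` containing `h.top` and all `m` there
  is `x'` with `h.node x' m ∈ G.S`.  If `e n x = gen G (β n)` for all `n`, then `e n x ∈ e n '' cyl x' m` by
  `gen_mem`, so `x` and `x'` agree below `m` (use `inj` at `n < m`), and `cyl x m = cyl x' m`, so
  `h.node x m = h.node x' m`.
* `frc_gen_mem`: immediate from `gen_mem`.
* `gen_sep`: for `i ≠ j` and a condition `p` and two points `a ∈ p.S i`, `b ∈ p.S j` and `k` there is `r ≤ p` with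
  `r.S i ⊆ cyl a k` and `r.S j ⊆ cyl b k` (use `upd` twice and `perf_cyl`).
-/

set_option autoImplicit false

open Set Topology LM

namespace SX

variable {J : Type}

theorem gen_exists (G : Flt (Cond J)) (i : J) : ∃ c : Can, ∀ p ∈ G.S, c ∈ p.S i := by
  have : Nonempty {p : Cond J // p ∈ G.S} := by
    obtain ⟨p, hp⟩ := G.ne
    exact ⟨⟨p, hp⟩⟩
  have h1 : (⋂ p : {p : Cond J // p ∈ G.S}, p.1.S i).Nonempty := by
    refine IsCompact.nonempty_iInter_of_directed_nonempty_isCompact_isClosed
      (fun p : {p : Cond J // p ∈ G.S} => p.1.S i) ?_ (fun p => p.1.ne i)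
      (fun p => (p.1.perf i).closed.isCompact) (fun p => (p.1.perf i).closed)
    rintro ⟨p, hp⟩ ⟨q, hq⟩
    obtain ⟨r, hr, h1, h2⟩ := G.dir hp hq
    exact ⟨⟨r, hr⟩, h1 i, h2 i⟩
  obtain ⟨c, hc⟩ := h1
  exact ⟨c, fun p hp => mem_iInter.1 hc ⟨p, hp⟩⟩

/-- the generic sequence -/
noncomputable def gen (G : Flt (Cond J)) (i : J) : Can := Classical.choose (gen_exists G i)

theorem gen_mem {G : Flt (Cond J)} {p : Cond J} (hp : p ∈ G.S) (i : J) : gen G i ∈ p.S i :=
  Classical.choose_spec (gen_exists G i) p hp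

theorem branch_of {β : ℕ → J} {e : ℕ → Can → Can} (h : Sch β e) (c : J → Can)
    (hc : ∀ n, c (β n) ∈ range (e n)) : ∃ x, ∀ n, e n x = c (β n) := by
  choose y hy using hc
  refine ⟨fun n => y n n, fun n => ?_⟩
  rw [← hy n, h.inj]
  intro m hm
  have h1 : e n (y m) = e n (y n) := by
    rw [hy n, h.coh n m hm.symm, hy m, hm]
  exact (h.inj n _ _).1 h1 m hm

theorem exists_branch {β : ℕ → J} {e : ℕ → Can → Can} (h : Sch β e) {G : Flt (Cond J)}
    (hG : h.top ∈ G.S) : ∃ x, ∀ n, e n x = gen G (β n) := by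
  refine branch_of h (gen G) fun n => ?_
  have h1 := gen_mem hG (β n)
  rw [h.top_S, mem_scv h, image_univ] at h1
  exact h1

theorem branch_unique {β : ℕ → J} {e : ℕ → Can → Can} (h : Sch β e) {x y : Can}
    (hxy : ∀ n, e n x = e n y) : x = y := by
  funext n
  exact (h.inj n x y).1 (hxy n) n rfl

private theorem cyl_anti (x : Can) {k m : ℕ} (h : k ≤ m) : cyl x m ⊆ cyl x k :=
  fun _ hy n hn => hy n (hn.trans_le h)

open Classical in
/-- restrict finitely many coordinates to cylinders -/
private noncomputable def cut (q : Cond J) (F : Set J) (c : J → Can) (hc : ∀ i, c i ∈ q.S i) (k : ℕ)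
    (hF : F.Countable) : Cond J where
  S i := if i ∈ F then q.S i ∩ cyl (c i) k else q.S i
  perf i := by
    split_ifs
    · exact perf_cyl (q.perf i) _ _
    · exact q.perf i
  ne i := by
    split_ifs
    · exact ⟨c i, hc i, fun _ _ => rfl⟩
    · exact q.ne i
  supp := by
    refine (hF.union q.supp).mono ?_
    intro i hi
    by_cases h : i ∈ F
    · exact Or.inl h
    · right
      simpa [h] using hi

theorem node_pre {β : ℕ → J} {e : ℕ → Can → Can} (h : Sch β e) {q : Cond J} (hq : q ≤ h.top) (m : ℕ) :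
    ∃ r ≤ q, ∃ x, r ≤ h.node x m := by
  classical
  choose c hc using q.ne
  have hq' : ∀ n, q.S (β n) ⊆ e n '' univ := by
    intro n c' hc'
    have h1 := hq (β n) hc'
    rwa [h.top_S, mem_scv h] at h1
  obtain ⟨x, hx⟩ := branch_of h c fun n => by
    have := hq' n (hc (β n))
    rwa [image_univ] at this
  have hB : ∀ n, ∃ k, cyl (c (β n)) k ⊆ (e n '' {z | ∃ m' < m, β m' = β n ∧ z m' ≠ x m'})ᶜ := by
    intro n
    apply cyl_basis
    have h1 : IsClosed {z : Can | ∃ m' < m, β m' = β n ∧ z m' ≠ x m'} := by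
      have h2 : {z : Can | ∃ m' < m, β m' = β n ∧ z m' ≠ x m'} =
          ⋃ m' ∈ {m' | m' < m ∧ β m' = β n}, {z : Can | z m' ≠ x m'} := by
        ext z
        simp [and_assoc]
      rw [h2]
      refine Set.Finite.isClosed_biUnion ((Set.finite_lt_nat m).subset fun m' h => h.1) ?_
      intro m' _
      have h3 : IsClosed ((fun z : Can => z m') ⁻¹' {b : Bool | b ≠ x m'}) :=
        (isClosed_discrete {b : Bool | b ≠ x m'}).preimage (continuous_apply m')
      exact h3
    refine (h1.isCompact.image (h.cont n)).isClosed.isOpen_compl.mem_nhds ?_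
    rintro ⟨z, ⟨m', hm', hβ, hz⟩, hzx⟩
    rw [← hx n] at hzx
    exact hz ((h.inj n z x).1 hzx m' hβ)
  choose k hk using hB
  have hF : (β '' {n | n < m}).Countable := ((Set.finite_lt_nat m).image β).countable
  refine ⟨cut q (β '' {n | n < m}) c hc ((Finset.range m).sup k) hF, ?_, x, ?_⟩
  · intro i
    show (if i ∈ β '' {n | n < m} then q.S i ∩ cyl (c i) _ else q.S i) ⊆ q.S i
    split_ifs
    · exact inter_subset_left
    · exact Subset.rfl
  · rintro _ c' hc' n rfl
    change c' ∈ (if β n ∈ β '' {n | n < m} then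
      q.S (β n) ∩ cyl (c (β n)) ((Finset.range m).sup k) else q.S (β n)) at hc'
    have h1 : c' ∈ q.S (β n) := by
      split_ifs at hc'
      · exact hc'.1
      · exact hc'
    obtain ⟨z, -, hz⟩ := hq' n h1
    refine ⟨fun j => if j < m then x j else z j, fun j hj => if_pos hj, ?_⟩
    rw [← hz, h.inj]
    intro m' hm'
    by_cases hlt : m' < m
    · rw [if_pos hlt]
      by_contra hne
      have h2 : β n ∈ β '' {n | n < m} := ⟨m', hlt, hm'⟩
      rw [if_pos h2] at hc'
      have h3 : c' ∈ cyl (c (β m')) (k m') := by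
        rw [hm']
        exact cyl_anti _ (Finset.le_sup (Finset.mem_range.2 hlt)) hc'.2
      refine hk m' h3 ⟨z, ⟨m', hlt, rfl, fun h4 => hne h4.symm⟩, ?_⟩
      rw [h.coh m' n hm', hz]
    · rw [if_neg hlt]

theorem node_mem {β : ℕ → J} {e : ℕ → Can → Can} (h : Sch β e) :
    ∀ᶠ G in Gen (Cond J), h.top ∈ G.S → ∀ x, (∀ n, e n x = gen G (β n)) → ∀ m, h.node x m ∈ G.S := by
  have h1 : ∀ m, Frc h.top (Mts {r | ∃ x, r = h.node x m}) := by
    intro m
    refine frc_of_dense fun q hq => ?_
    obtain ⟨r, hr, x, hx⟩ := node_pre h hq m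
    exact ⟨r, hr, Filter.Eventually.of_forall fun G hG => ⟨_, ⟨x, rfl⟩, G.up hG hx⟩⟩
  have h2 := frc_forall h1
  unfold Frc at h2
  filter_upwards [h2] with G hG htop x hx m
  obtain ⟨r, ⟨x', rfl⟩, hr⟩ := hG htop m
  have h3 : ∀ n < m, x n = x' n := by
    intro n hn
    have h4 := gen_mem hr (β n)
    rw [h.node_S, mem_scv h, ← hx n] at h4
    obtain ⟨y, hy, hyx⟩ := h4
    rw [← hy n hn]
    exact ((h.inj n y x).1 hyx n rfl).symm
  have h5 : cyl x m = cyl x' m := by
    ext y
    constructor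
    · intro hy n hn
      rw [hy n hn, h3 n hn]
    · intro hy n hn
      rw [hy n hn, h3 n hn]
  have h6 : h.node x m = h.node x' m := by
    apply Cond.ext_S
    funext i
    rw [h.node_S, h.node_S, h5]
  rw [h6]
  exact hr

theorem gen_sep {i j : J} (hij : i ≠ j) (p : Cond J) {a b : Can} (ha : a ∈ p.S i) (hb : b ∈ p.S j)
    (k : ℕ) : ∃ r ≤ p, r.S i ⊆ cyl a k ∧ r.S j ⊆ cyl b k := by
  classical
  have hji : j ≠ i := fun h => hij h.symm
  let p1 := p.upd i (p.S i ∩ cyl a k) (perf_cyl (p.perf i) a k) ⟨a, ha, fun _ _ => rfl⟩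
  have h1 : p1 ≤ p := p.upd_le i _ _ _ inter_subset_left
  have hj1 : p1.S j = p.S j := by
    show (p.upd i _ _ _).S j = _
    rw [Cond.upd_S, if_neg hji]
  have hi1 : p1.S i = p.S i ∩ cyl a k := by
    show (p.upd i _ _ _).S i = _
    rw [Cond.upd_S, if_pos rfl]
  have hb1 : b ∈ p1.S j := by
    rw [hj1]
    exact hb
  refine ⟨p1.upd j (p1.S j ∩ cyl b k) (perf_cyl (p1.perf j) b k) ⟨b, hb1, fun _ _ => rfl⟩,
    (p1.upd_le j _ _ _ inter_subset_left).trans h1, ?_, ?_⟩
  · rw [Cond.upd_S, if_neg hij, hi1]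
    exact inter_subset_right
  · rw [Cond.upd_S, if_pos rfl]
    exact inter_subset_right

end SX
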