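import Pool.Agent.Helper75.SX.Perf

/-!
# Schemes: fused conditions (module SX-02)

A scheme is a pair `(β, e)`: the bit number `n` of a point `x : Can` belongs to the coordinate `β n : J`,
every coordinate in the range of `β` has infinitely many bits, and `e n x` is the `β n`-th generic real
with bits `x`: it depends continuously on `x`, and exactly on the bits which belong to the coordinate `β n`.
The condition `node x m` consists of all sequences of reals given by the `y` which agree with `x`
below `m`; coordinates outside the range of `β` are not restricted.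

Proofs.
* `node_perf`: for `i` outside the range of `β` the set is `univ` (`perf_univ`).  For `i = β n` the set is
  `e n '' cyl x m` (by `coh`); apply `perf_image`: given `y ∈ cyl x m` and `k`, take `m' ≥ max k m` with
  `β m' = β n` and flip the bit `m'` of `y`; then `inj` gives `e n z ≠ e n y`.
* `node_ne`, `node_supp` (the support is contained in `range β`).
* `continuous_mix`: coordinatewise (`continuous_pi`, `split_ifs` after `by_cases n ∈ N`).
* `comp`: all clauses are immediate (`inf`, `coh` from `h`; `inj` from `h.inj` and `hφ.iff`).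
-/

set_option autoImplicit false

open Set Topology

namespace SX

variable {J : Type}

/-- schemes -/
structure Sch (β : ℕ → J) (e : ℕ → Can → Can) : Prop where
  inf : ∀ n k, ∃ m, k ≤ m ∧ β m = β n
  cont : ∀ n, Continuous (e n)
  inj : ∀ n x y, e n x = e n y ↔ ∀ m, β m = β n → x m = y m
  coh : ∀ n m, β n = β m → e n = e m

/-- the coordinates of the set of all sequences of reals with bits in `A` -/
def scv (β : ℕ → J) (e : ℕ → Can → Can) (A : Set Can) (i : J) : Set Can :=
  {c | ∀ n, β n = i → c ∈ e n '' A}

/-- embeddings which respect the coordinates -/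
structure Emb (β : ℕ → J) (φ : Can → Can) : Prop where
  cont : Continuous φ
  iff : ∀ n x y, (∀ m, β m = β n → φ x m = φ y m) ↔ ∀ m, β m = β n → x m = y m

open Classical in
/-- `κ` on `N` and `a` outside `N` -/
noncomputable def mix (N : Set ℕ) (κ a : Can) : Can := fun n => if n ∈ N then κ n else a n

theorem mix_mem {N : Set ℕ} (κ a : Can) {n : ℕ} (h : n ∈ N) : mix N κ a n = κ n := if_pos h

theorem mix_notMem {N : Set ℕ} (κ a : Can) {n : ℕ} (h : n ∉ N) : mix N κ a n = a n := if_neg h

/-- `κ` on `N` and `false` outside `N` -/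
noncomputable def mask (N : Set ℕ) (κ : Can) : Can := mix N κ fun _ => false

theorem continuous_mix (N : Set ℕ) : Continuous fun q : Can × Can => mix N q.1 q.2 := by
  refine continuous_pi fun n => ?_
  by_cases h : n ∈ N
  · simp only [mix_mem _ _ h]
    exact (continuous_apply n).comp continuous_fst
  · simp only [mix_notMem _ _ h]
    exact (continuous_apply n).comp continuous_snd

theorem mix_mask (N : Set ℕ) (κ a : Can) : mix N (mask N κ) a = mix N κ a := by
  funext n
  by_cases h : n ∈ N
  · rw [mix_mem _ _ h, mix_mem _ _ h, mask, mix_mem _ _ h]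
  · rw [mix_notMem _ _ h, mix_notMem _ _ h]

theorem scv_mono {β : ℕ → J} {e : ℕ → Can → Can} {A B : Set Can} (h : A ⊆ B) (i : J) :
    scv β e A i ⊆ scv β e B i := fun _ hc n hn => image_mono h (hc n hn)

theorem mem_scv {β : ℕ → J} {e : ℕ → Can → Can} {A : Set Can} (h : Sch β e) {n : ℕ} {c : Can} :
    c ∈ scv β e A (β n) ↔ c ∈ e n '' A := by
  constructor
  · intro hc
    exact hc n rfl
  · intro hc m hm
    rw [h.coh m n hm]
    exact hc

theorem scv_univ {β : ℕ → J} {e : ℕ → Can → Can} {A : Set Can} {i : J} (hi : i ∉ range β) :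
    scv β e A i = univ := by
  refine eq_univ_of_forall fun c n hn => ?_
  exact absurd ⟨n, hn⟩ hi

theorem Sch.node_perf {β : ℕ → J} {e : ℕ → Can → Can} (h : Sch β e) (x : Can) (m : ℕ) (i : J) :
    Perfect (scv β e (cyl x m) i) := by
  by_cases hi : i ∈ range β
  · obtain ⟨n, rfl⟩ := hi
    have h1 : scv β e (cyl x m) (β n) = e n '' cyl x m := by
      ext c
      exact mem_scv h
    rw [h1]
    refine perf_image (isClopen_cyl x m).isClosed.isCompact (h.cont n) fun y hy k => ?_
    obtain ⟨m', hm', hβ⟩ := h.inf n (max k m)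
    have hk : k ≤ m' := (le_max_left _ _).trans hm'
    have hm : m ≤ m' := (le_max_right _ _).trans hm'
    refine ⟨Function.update y m' (!y m'), ?_, ?_, ?_⟩
    · intro j hj
      rw [Function.update_of_ne (by omega)]
      exact hy j hj
    · intro j hj
      rw [Function.update_of_ne (by omega)]
    · intro heq
      have h2 := (h.inj n _ _).1 heq m' hβ
      simp at h2
  · rw [scv_univ hi]
    exact perf_univ

theorem Sch.node_ne {β : ℕ → J} {e : ℕ → Can → Can} (h : Sch β e) (x : Can) (m : ℕ) (i : J) :
    (scv β e (cyl x m) i).Nonempty := by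
  by_cases hi : i ∈ range β
  · obtain ⟨n, rfl⟩ := hi
    exact ⟨e n x, (mem_scv h).2 ⟨x, fun _ _ => rfl, rfl⟩⟩
  · rw [scv_univ hi]
    exact univ_nonempty

theorem Sch.node_supp {β : ℕ → J} {e : ℕ → Can → Can} (h : Sch β e) (x : Can) (m : ℕ) :
    {i | scv β e (cyl x m) i ≠ univ}.Countable := by
  refine (countable_range β).mono fun i hi => ?_
  by_contra hcon
  exact hi (scv_univ hcon)

/-- the condition given by the bits which agree with `x` below `m` -/
def Sch.node {β : ℕ → J} {e : ℕ → Can → Can} (h : Sch β e) (x : Can) (m : ℕ) : Cond J :=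
  ⟨scv β e (cyl x m), h.node_perf x m, h.node_ne x m, h.node_supp x m⟩

/-- the condition of the scheme -/
def Sch.top {β : ℕ → J} {e : ℕ → Can → Can} (h : Sch β e) : Cond J := h.node (fun _ => false) 0

theorem Sch.node_S {β : ℕ → J} {e : ℕ → Can → Can} (h : Sch β e) (x : Can) (m : ℕ) (i : J) :
    (h.node x m).S i = scv β e (cyl x m) i := rfl

theorem Sch.top_S {β : ℕ → J} {e : ℕ → Can → Can} (h : Sch β e) (i : J) :
    h.top.S i = scv β e univ i := by
  have h1 : cyl (fun _ => false) 0 = univ :=
    eq_univ_of_forall fun y n hn => absurd hn (Nat.not_lt_zero n)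
  change scv β e (cyl (fun _ => false) 0) i = scv β e univ i
  rw [h1]

theorem Sch.node_le_top {β : ℕ → J} {e : ℕ → Can → Can} (h : Sch β e) (x : Can) (m : ℕ) :
    h.node x m ≤ h.top := by
  intro i
  rw [h.top_S]
  exact scv_mono (subset_univ _) i

theorem Sch.comp {β : ℕ → J} {e : ℕ → Can → Can} (h : Sch β e) {φ : Can → Can} (hφ : Emb β φ) :
    Sch β (fun n x => e n (φ x)) := by
  refine ⟨h.inf, fun n => (h.cont n).comp hφ.cont, fun n x y => ?_, fun n m hnm => ?_⟩
  · exact (h.inj n _ _).trans (hφ.iff n x y)
  · funext x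
    rw [h.coh n m hnm]

end SX
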