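import Pool.Agent.Helper75.SX.KFA
import Pool.Agent.Helper75.SX.Sch

/-!
# Spreading the bits (module SX-33)

`spr pos j u` (file `KFA.lean`) has the bits `u i`, `i < j`, at the positions `pos i` and `false` elsewhere;
`sprd pos u` uses all bits.

* `exists_pos`: recursion: given the values `pos l`, `l < i` (extended by `0`, say), let `pos i` be a number with
  `β (pos i) = β i` which is larger than all previous values and at least `bd i pos` (`hβ`).  E.g. define
  `s : ℕ → (ℕ → ℕ)` by `s 0 = 0`, `s (i+1) = Function.update (s i) i _` with a chosen value, and `pos i = s (i+1) i`.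
* `emb_sprd`: `Emb β (sprd pos)`: continuity coordinatewise (a coordinate depends on at most one bit of `u`).
  `iff`: (→) if `β i = β n` then `β (pos i) = β n` and `u i = sprd u (pos i) = sprd v (pos i) = v i`;
  (←) if `β m = β n` and `m = pos i` then `β i = β m = β n`, so `u i = v i`.
* `sprd_agree`: the bits `i ≥ j` sit at positions `pos i ≥ pos j`.
* `spr_finite`: `spr pos j u` depends only on `u i`, `i < j`.
-/

set_option autoImplicit false

open Set Topology

namespace SX

/-- all bits of `u` at the positions `pos i` -/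
noncomputable def sprd (pos : ℕ → ℕ) (u : Can) : Can := fun p => by
  classical exact decide (∃ i, pos i = p ∧ u i = true)

theorem exists_pos {J : Type} {β : ℕ → J} (hβ : ∀ n k, ∃ m, k ≤ m ∧ β m = β n)
    (bd : ℕ → (ℕ → ℕ) → ℕ) (hbd : ∀ i pos pos', (∀ l < i, pos l = pos' l) → bd i pos = bd i pos') :
    ∃ pos : ℕ → ℕ, StrictMono pos ∧ (∀ i, β (pos i) = β i) ∧ ∀ i, bd i pos ≤ pos i := by
  classical
  choose nx0 hnx0 using hβ
  let nx : ℕ → (ℕ → ℕ) → ℕ := fun i q => nx0 i (max (bd i q) ((Finset.range i).sup q + 1))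
  let s : ℕ → (ℕ → ℕ) := fun n => Nat.rec (fun _ => 0) (fun i q => Function.update q i (nx i q)) n
  have hs : ∀ i, s (i + 1) = Function.update (s i) i (nx i (s i)) := fun i => rfl
  set pos : ℕ → ℕ := fun i => nx i (s i) with hpos
  have hval : ∀ i l, l < i → s i l = pos l := by
    intro i
    induction i with
    | zero => intro l hl; omega
    | succ i ih =>
      intro l hl
      rw [hs i]
      rcases Nat.lt_succ_iff_lt_or_eq.mp hl with h | h
      · rw [Function.update_of_ne (by omega), ih l h]
      · subst h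
        rw [Function.update_self]
  have hge : ∀ i, max (bd i (s i)) ((Finset.range i).sup (s i) + 1) ≤ pos i := fun i => (hnx0 _ _).1
  refine ⟨pos, ?_, fun i => (hnx0 _ _).2, fun i => ?_⟩
  · refine strictMono_nat_of_lt_succ fun i => ?_
    have h1 := (le_max_right _ _).trans (hge (i + 1))
    have h2 : s (i + 1) i ≤ (Finset.range (i + 1)).sup (s (i + 1)) :=
      Finset.le_sup (f := s (i + 1)) (Finset.mem_range.mpr (Nat.lt_succ_self i))
    rw [hval (i + 1) i (Nat.lt_succ_self i)] at h2
    omega
  · have h1 := (le_max_left _ _).trans (hge i)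
    rwa [hbd i (s i) pos (fun l hl => hval i l hl)] at h1

private theorem sprd_pos {pos : ℕ → ℕ} (h : StrictMono pos) (u : Can) (i : ℕ) :
    sprd pos u (pos i) = u i := by
  classical
  unfold sprd
  by_cases hu : u i = true
  · rw [hu, decide_eq_true_eq]
    exact ⟨i, rfl, hu⟩
  · rw [Bool.not_eq_true] at hu
    rw [hu, decide_eq_false_iff_not]
    rintro ⟨l, hl, hl'⟩
    rw [h.injective hl, hu] at hl'
    exact absurd hl' (by decide)

private theorem sprd_notMem {pos : ℕ → ℕ} (u : Can) {p : ℕ} (hp : p ∉ range pos) :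
    sprd pos u p = false := by
  classical
  unfold sprd
  rw [decide_eq_false_iff_not]
  rintro ⟨l, hl, -⟩
  exact hp ⟨l, hl⟩

theorem emb_sprd {J : Type} {β : ℕ → J} {pos : ℕ → ℕ} (h : StrictMono pos) (hβ : ∀ i, β (pos i) = β i) :
    Emb β (sprd pos) := by
  refine ⟨?_, ?_⟩
  · refine continuous_pi fun p => ?_
    by_cases hp : p ∈ range pos
    · obtain ⟨i, rfl⟩ := hp
      simp only [sprd_pos h]
      exact continuous_apply i
    · simp only [sprd_notMem _ hp]
      exact continuous_const
  · intro n x y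
    constructor
    · intro H m hm
      have := H (pos m) ((hβ m).trans hm)
      rwa [sprd_pos h, sprd_pos h] at this
    · intro H m hm
      by_cases hp : m ∈ range pos
      · obtain ⟨i, rfl⟩ := hp
        rw [sprd_pos h, sprd_pos h]
        exact H i ((hβ i).symm.trans hm)
      · rw [sprd_notMem _ hp, sprd_notMem _ hp]

theorem sprd_agree {pos : ℕ → ℕ} (h : StrictMono pos) (u : Can) (j : ℕ) :
    ∀ p < pos j, sprd pos u p = spr pos j u p := by
  intro p hp
  unfold sprd spr
  rw [decide_eq_decide]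
  constructor
  · rintro ⟨i, hi, hu⟩
    refine ⟨i, ?_, hi, hu⟩
    rw [← hi] at hp
    exact h.lt_iff_lt.mp hp
  · rintro ⟨i, -, hi, hu⟩
    exact ⟨i, hi, hu⟩

theorem spr_finite (pos : ℕ → ℕ) (j : ℕ) : (range (spr pos j)).Finite := by
  classical
  let g : (Fin j → Bool) → Can := fun w p => decide (∃ i : Fin j, pos i = p ∧ w i = true)
  refine (Set.finite_range g).subset ?_
  rintro _ ⟨u, rfl⟩
  refine ⟨fun i => u i, ?_⟩
  funext p
  simp only [g, spr]
  rw [decide_eq_decide]
  constructor
  · rintro ⟨i, hi, hu⟩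
    exact ⟨i, i.2, hi, hu⟩
  · rintro ⟨i, hij, hi, hu⟩
    exact ⟨⟨i, hij⟩, hi, hu⟩

theorem spr_congr {pos pos' : ℕ → ℕ} {j : ℕ} (h : ∀ l < j, pos l = pos' l) : spr pos j = spr pos' j := by
  funext u p
  unfold spr
  rw [decide_eq_decide]
  constructor
  · rintro ⟨i, hi, h1, h2⟩
    exact ⟨i, hi, by rw [← h i hi]; exact h1, h2⟩
  · rintro ⟨i, hi, h1, h2⟩
    exact ⟨i, hi, by rw [h i hi]; exact h1, h2⟩

end SX
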