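import Pool.Agent.Helper75.SX.Dec
import Pool.Agent.Helper75.SX.FamD
import Pool.Agent.Helper75.SX.GenSeq
import Pool.Agent.Helper75.SX.Spread

/-!
# Meager sets of the extension are covered by meager sets of the ground model (module SX-34)

Write `U_j(G) = ⋃ k, (c G (pair j k)).set`, forced by `q` to be dense for all `j`.  Let `dec : ℕ → ℕ × Box d` be the
decoding of natural numbers with `dec (Encodable.encode a) = a` (`Encodable (ℕ × Box d)`; `Encodable.decode`, or use a
bijection/surjection `ℕ → ℕ × Box d` and a right inverse `num`).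

Let `D n`, for `dec n = (j, W)`, be the set of all conditions `r` such that: no `s` is below both `r` and `q`, or
`W.set = ∅`, or there is a box `V` with `V.set.Nonempty`, `V.set ⊆ W.set` and `Frc r (fun G => V.set ⊆ U_j(G))`.  `D n` is
open.  It is dense: let `p` be given, `p' ≤ p, q`, `W.set` nonempty (an open set).  `p'` forces that there is `k` with
`((c G (pair j k)).set ∩ W.set).Nonempty`; by `frc_ex` and `DName.dec` there are `r ≤ p'` and `k` such that `r` forces
this; then decide `c G (pair j k) = b` (the decided box `b` meets `W`, by `frc_exists`), and let `V i = (max .. .., min .. ..)`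
be the intersection of the boxes `b` and `W`.

Let `(β, e)`, `h` be given by `fusion` below `q` (`T = ∅`) and `D`.  For `x`, `n` with `dec n = (j, W)`, `W.set` nonempty, let
`F x n = V n (h.node x n)` be the chosen box (chosen as a function of `n` and the condition); `F x n` depends only on
the values of `x` below `n`.

* `shrink_fin`: for a finite set `Y` of points, `j`, and `W` with `W.set` nonempty there are a box `V` and `N` with
  `V.set` nonempty, `V.set ⊆ W.set`, and for all `y ∈ Y` there is `n ≤ N` with `(dec n).1 = j`, `(dec n).2.set` nonempty and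
  `V.set ⊆ (F y n).set`.  Induction on `Y`: for `insert y Y` take `V₀, N₀` for `Y`, let `n = num (j, V₀)` and
  `V = F y n ⊆ V₀`, `N = max N₀ n`.

For `i, j, l` and `pos` let `V i j l pos`, `N i j l pos` be the box and number of `shrink_fin` for the finite set
`range (spr pos i)`, `j`, and the box `W_l = (dec l).2` (junk if `W_l.set = ∅`), chosen as a function of the SET
`range (spr pos i)` and `j, l`, so that they depend only on the values of `pos` below `i` (`spr_congr`).  Let
`bd i pos` be the maximum of `N i j l pos` over `j, l ≤ i`, and let `pos` be given by `exists_pos`.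

`c' (pair j (pair i l)) = V i j l pos` if `j ≤ i`, `l ≤ i` and `W_l.set` is nonempty, and the empty box `fun _ => (0, 0)`
otherwise (empty as `1 ≤ d`).  `Valid`: every nonempty open set contains a nonempty rational box `W = W_l`
(boxes with rational endpoints form a basis of `Fin d → ℝ`), which contains the nonempty set
`(c' (pair j (pair (max j l) l))).set`.

Let `r = (h.comp (emb_sprd ..)).top ≤ h.top ≤ q`.  For a.e. `G` containing `r` there is `u` with
`e n (sprd pos u) = gen G (β n)` for all `n` (`exists_branch`); let `x = sprd pos u`; `h.node x n ∈ G.S` for all `n`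
(`node_mem`), and the statements forced by the countably many conditions `h.node x n` hold if these are in `G.S`.
Let `z ∈ V i j l pos`, `j, l ≤ i`.  For `y = spr pos i u` there is `n ≤ N i j l pos ≤ pos i` with `V ⊆ F y n`, `(dec n).1 = j`.
`x` and `y` agree below `pos i` (`sprd_agree`), so `F x n = F y n`, and `z ∈ (F x n).set ⊆ U_j(G)`.
So for all `j`: `⋃ k, (c' (pair j k)).set ⊆ U_j(G)`, which gives `bset (c G) ⊆ bset c'`.
-/

set_option autoImplicit false

open Set Topology LM

namespace SX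

namespace CovM

variable {d : ℕ}

/-- the intersection of two boxes -/
def bi (b c : Box d) : Box d := fun i => (max (b i).1 (c i).1, min (b i).2 (c i).2)

theorem bi_set (b c : Box d) : (bi b c).set = b.set ∩ c.set := by
  ext x
  simp only [Box.set, bi, mem_ofPred_eq, mem_inter_iff, Rat.cast_max, Rat.cast_min, max_lt_iff, lt_min_iff]
  constructor
  · intro h
    exact ⟨fun i => ⟨(h i).1.1, (h i).2.1⟩, fun i => ⟨(h i).1.2, (h i).2.2⟩⟩
  · rintro ⟨h1, h2⟩ i
    exact ⟨⟨(h1 i).1, (h2 i).1⟩, ⟨(h1 i).2, (h2 i).2⟩⟩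

theorem box_open (b : Box d) : IsOpen b.set := by
  have h1 : b.set = ⋂ i, {x : Euc d | ((b i).1 : ℝ) < x i ∧ x i < ((b i).2 : ℝ)} := by
    ext x
    simp [Box.set]
  rw [h1]
  refine isOpen_iInter_of_finite fun i => ?_
  exact (isOpen_lt continuous_const (continuous_apply i)).inter (isOpen_lt (continuous_apply i) continuous_const)

theorem box_basis {U : Set (Euc d)} (hU : IsOpen U) {x : Euc d} (hx : x ∈ U) :
    ∃ W : Box d, x ∈ W.set ∧ W.set ⊆ U := by
  obtain ⟨ε, hε, hball⟩ := Metric.isOpen_iff.1 hU x hx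
  have h1 : ∀ i, ∃ p : ℚ, x i - ε / 2 < p ∧ (p : ℝ) < x i := fun i => exists_rat_btwn (by linarith)
  have h2 : ∀ i, ∃ p : ℚ, x i < p ∧ (p : ℝ) < x i + ε / 2 := fun i => exists_rat_btwn (by linarith)
  choose p hp1 hp2 using h1
  choose p' hp1' hp2' using h2
  refine ⟨fun i => (p i, p' i), fun i => ⟨hp2 i, hp1' i⟩, fun y hy => hball ?_⟩
  rw [Metric.mem_ball]
  have h3 : dist y x ≤ ε / 2 := by
    rw [dist_pi_le_iff (by linarith)]
    intro i
    have h4 := (hy i).1
    have h5 := (hy i).2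
    have h6 := hp1 i
    have h7 := hp2' i
    simp only at h4 h5
    rw [Real.dist_eq, abs_le]
    constructor <;> linarith
  linarith

theorem zero_box (hd : 1 ≤ d) : Box.set (d := d) (fun _ => (0, 0)) = ∅ := by
  apply eq_empty_of_forall_notMem
  intro x hx
  have h1 := hx ⟨0, hd⟩
  simp only [Rat.cast_zero] at h1
  linarith [h1.1, h1.2]

/-- the decoding -/
noncomputable def dc (d : ℕ) (n : ℕ) : ℕ × Box d :=
  ((Encodable.decode n : Option (ℕ × Box d))).getD (0, fun _ => (0, 0))

theorem dc_encode (a : ℕ × Box d) : dc d (Encodable.encode a) = a := by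
  unfold dc
  rw [Encodable.encodek]
  rfl

/-- a point from finitely many bits -/
def cb (k : ℕ) (x : Can) : Can := fun n => if n < k then x n else false

theorem cb_apply {k : ℕ} (x : Can) : ∀ n < k, cb k x n = x n := fun _ hn => if_pos hn

theorem cb_congr {k : ℕ} {x y : Can} (hxy : ∀ n < k, x n = y n) : cb k x = cb k y := by
  funext n
  unfold cb
  by_cases h : n < k
  · rw [if_pos h, if_pos h, hxy n h]
  · rw [if_neg h, if_neg h]

theorem cb_countable (k : ℕ) : (range (cb k)).Countable := by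
  have h1 : range (cb k) ⊆ range (fun w : Fin k → Bool => fun n => if hn : n < k then w ⟨n, hn⟩ else false) := by
    rintro _ ⟨x, rfl⟩
    refine ⟨fun i => x i, ?_⟩
    funext n
    unfold cb
    by_cases h : n < k <;> simp [h]
  exact (countable_range _).mono h1

theorem nd_congr {J : Type} {β : ℕ → J} {e : ℕ → Can → Can} (h : Sch β e) {x y : Can} {k : ℕ}
    (hxy : ∀ n < k, x n = y n) : h.node x k = h.node y k := by
  apply Cond.ext_S
  have h1 : cyl x k = cyl y k := by
    ext z
    constructor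
    · intro hz n hn
      rw [← hxy n hn]
      exact hz n hn
    · intro hz n hn
      rw [hxy n hn]
      exact hz n hn
  funext i
  rw [h.node_S, h.node_S, h1]

theorem shrink_fin {F : Can → ℕ → Box d}
    (hF : ∀ y n, (dc d n).2.set.Nonempty → (F y n).set.Nonempty ∧ (F y n).set ⊆ (dc d n).2.set)
    {Y : Set Can} (hY : Y.Finite) (j : ℕ) (W : Box d) (hW : W.set.Nonempty) :
    ∃ (V : Box d) (N : ℕ), V.set.Nonempty ∧ V.set ⊆ W.set ∧
      ∀ y ∈ Y, ∃ n ≤ N, (dc d n).1 = j ∧ (dc d n).2.set.Nonempty ∧ V.set ⊆ (F y n).set := by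
  induction Y, hY using Set.Finite.induction_on with
  | empty => exact ⟨W, 0, hW, Subset.rfl, fun y hy => absurd hy (notMem_empty y)⟩
  | insert ha hs ih =>
    rename_i a s
    obtain ⟨V, N, h1, h2, h3⟩ := ih
    set n := Encodable.encode (j, V) with hn
    have hdn : dc d n = (j, V) := dc_encode (j, V)
    obtain ⟨h4, h5⟩ := hF a n (by rw [hdn]; exact h1)
    rw [hdn] at h5
    refine ⟨F a n, max N n, h4, h5.trans h2, ?_⟩
    intro y hy
    rcases hy with rfl | hy
    · exact ⟨n, le_max_right _ _, by rw [hdn], by rw [hdn]; exact h1, Subset.rfl⟩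
    · obtain ⟨m, hm, h6, h7, h8⟩ := h3 y hy
      exact ⟨m, hm.trans (le_max_left _ _), h6, h7, h5.trans h8⟩

/-- the union of the boxes of the row `j` -/
def Uj (c : ℕ → Box d) (j : ℕ) : Set (Euc d) := ⋃ k, (c (Nat.pair j k)).set

/-- the dense sets -/
def Dn {J : Type} (c : Flt (Cond J) → ℕ → Box d) (q : Cond J) (n : ℕ) : Set (Cond J) :=
  {r | (∀ s, s ≤ r → ¬ s ≤ q) ∨ (dc d n).2.set = ∅ ∨
    ∃ V : Box d, V.set.Nonempty ∧ V.set ⊆ (dc d n).2.set ∧ Frc r fun G => V.set ⊆ Uj (c G) (dc d n).1}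

theorem Dn_open {J : Type} {c : Flt (Cond J) → ℕ → Box d} {q : Cond J} (n : ℕ) :
    ∀ p ∈ Dn c q n, ∀ r ≤ p, r ∈ Dn c q n := by
  rintro p (h1 | h1 | ⟨V, h1, h2, h3⟩) r hr
  · exact Or.inl fun s hs => h1 s (hs.trans hr)
  · exact Or.inr (Or.inl h1)
  · exact Or.inr (Or.inr ⟨V, h1, h2, h3.anti hr⟩)

theorem Dn_dense {J : Type} {c : Flt (Cond J) → ℕ → Box d} (hc : CName c) {q : Cond J}
    (hq : Frc q fun G => Valid Idl.meager (c G)) (n : ℕ) : ∀ p, ∃ r ∈ Dn c q n, r ≤ p := by
  intro p
  by_cases h0 : ∀ s, s ≤ p → ¬ s ≤ q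
  · exact ⟨p, Or.inl h0, le_rfl⟩
  push Not at h0
  obtain ⟨s, hsp, hsq⟩ := h0
  rcases (dc d n).2.set.eq_empty_or_nonempty with hW | hW
  · exact ⟨p, Or.inr (Or.inl hW), le_rfl⟩
  have h1 : Frc s fun G => ∃ k, ((c G (Nat.pair (dc d n).1 k)).set ∩ (dc d n).2.set).Nonempty := by
    refine hq.mono hsq fun G hG => ?_
    have h2 : Dense (⋃ k, (c G (Nat.pair (dc d n).1 k)).set) := hG (dc d n).1
    obtain ⟨x, hxW, hx⟩ := h2.inter_open_nonempty _ (box_open (dc d n).2) hW
    obtain ⟨k, hk⟩ := mem_iUnion.1 hx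
    exact ⟨k, x, hk, hxW⟩
  obtain ⟨r, hr, k, hk⟩ := frc_ex (fun k => (hc (Nat.pair (dc d n).1 k)).dec
    fun b => (b.set ∩ (dc d n).2.set).Nonempty) h1
  obtain ⟨r', hr', b, hb⟩ := hc (Nat.pair (dc d n).1 k) r
  obtain ⟨G, _, hG1, hG2⟩ := frc_exists ((hk.anti hr').and hb)
  have hG2' : c G (Nat.pair (dc d n).1 k) = b := hG2
  have hne : (b.set ∩ (dc d n).2.set).Nonempty := by
    rw [← hG2']
    exact hG1
  refine ⟨r', Or.inr (Or.inr ⟨bi b (dc d n).2, ?_, ?_, ?_⟩), (hr'.trans hr).trans hsp⟩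
  · rw [bi_set]
    exact hne
  · rw [bi_set]
    exact inter_subset_right
  · refine hb.mono le_rfl fun G hG => ?_
    rw [bi_set]
    refine inter_subset_left.trans ?_
    have hG' : c G (Nat.pair (dc d n).1 k) = b := hG
    rw [← hG']
    exact subset_iUnion (fun k => (c G (Nat.pair (dc d n).1 k)).set) k

end CovM

open CovM in
theorem cover_meager {J : Type} [Nonempty J] {d : ℕ} (hd : 1 ≤ d) {c : Flt (Cond J) → ℕ → Box d}
    (hc : CName c) {q : Cond J} (hq : Frc q fun G => Valid Idl.meager (c G)) :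
    ∃ r ≤ q, ∃ c' : ℕ → Box d, Valid Idl.meager c' ∧
      Frc r fun G => bset Idl.meager (c G) ⊆ bset Idl.meager c' := by
  classical
  obtain ⟨β, e, h, htop, _, hnode⟩ := fusion q (T := ∅) countable_empty (Dn c q) (Dn_dense hc hq) Dn_open
  -- the chosen boxes
  have hV : ∀ (n : ℕ) (x : Can), ∃ V : Box d, (dc d n).2.set.Nonempty → V.set.Nonempty ∧
      V.set ⊆ (dc d n).2.set ∧ Frc (h.node x n) fun G => V.set ⊆ Uj (c G) (dc d n).1 := by
    intro n x
    rcases hnode n x with h1 | h1 | ⟨V, h1, h2, h3⟩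
    · exact absurd ((h.node_le_top x n).trans htop) (h1 _ le_rfl)
    · exact ⟨fun _ => (0, 0), fun h2 => absurd h1 h2.ne_empty⟩
    · exact ⟨V, fun _ => ⟨h1, h2, h3⟩⟩
  choose V0 hV0 using hV
  set F : Can → ℕ → Box d := fun x n => V0 n (cb n x) with hF
  have hFc : ∀ x y n, (∀ m < n, x m = y m) → F x n = F y n := by
    intro x y n hxy
    simp only [hF]
    rw [cb_congr hxy]
  have hF1 : ∀ y n, (dc d n).2.set.Nonempty → (F y n).set.Nonempty ∧ (F y n).set ⊆ (dc d n).2.set :=
    fun y n hn => ⟨(hV0 n (cb n y) hn).1, (hV0 n (cb n y) hn).2.1⟩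
  -- shrinking
  have hsh : ∀ (Y : Set Can) (j : ℕ) (W : Box d), ∃ (V : Box d) (N : ℕ), Y.Finite → W.set.Nonempty →
      V.set.Nonempty ∧ V.set ⊆ W.set ∧
        ∀ y ∈ Y, ∃ n ≤ N, (dc d n).1 = j ∧ (dc d n).2.set.Nonempty ∧ V.set ⊆ (F y n).set := by
    intro Y j W
    by_cases hY : Y.Finite ∧ W.set.Nonempty
    · obtain ⟨V, N, h1⟩ := shrink_fin hF1 hY.1 j W hY.2
      exact ⟨V, N, fun _ _ => h1⟩
    · exact ⟨W, 0, fun h1 h2 => absurd ⟨h1, h2⟩ hY⟩
  choose Vf Nf hVN using hsh
  let bd : ℕ → (ℕ → ℕ) → ℕ := fun i pos =>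
    (Finset.range (i + 1)).sup fun j => (Finset.range (i + 1)).sup fun l => Nf (range (spr pos i)) j (dc d l).2
  obtain ⟨pos, hpos, hβ, hbd⟩ := exists_pos h.inf bd (by
    intro i pos pos' hpp
    simp only [bd]
    rw [spr_congr hpp])
  set Vb : ℕ → ℕ → ℕ → Box d := fun i j l => Vf (range (spr pos i)) j (dc d l).2 with hVb
  set c' : ℕ → Box d := fun m =>
    if (Nat.unpair m).1 ≤ (Nat.unpair (Nat.unpair m).2).1 ∧
      (Nat.unpair (Nat.unpair m).2).2 ≤ (Nat.unpair (Nat.unpair m).2).1 ∧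
      (dc d (Nat.unpair (Nat.unpair m).2).2).2.set.Nonempty
    then Vb (Nat.unpair (Nat.unpair m).2).1 (Nat.unpair m).1 (Nat.unpair (Nat.unpair m).2).2
    else fun _ => (0, 0) with hc'
  have hc'1 : ∀ j i l, j ≤ i → l ≤ i → (dc d l).2.set.Nonempty → c' (Nat.pair j (Nat.pair i l)) = Vb i j l := by
    intro j i l h1 h2 h3
    simp only [hc', Nat.unpair_pair]
    rw [if_pos ⟨h1, h2, h3⟩]
  have hc'2 : ∀ j k z, z ∈ (c' (Nat.pair j k)).set → ∃ i l, j ≤ i ∧ l ≤ i ∧ (dc d l).2.set.Nonempty ∧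
      z ∈ (Vb i j l).set := by
    intro j k z hz
    simp only [hc', Nat.unpair_pair] at hz
    by_cases h1 : j ≤ (Nat.unpair k).1 ∧ (Nat.unpair k).2 ≤ (Nat.unpair k).1 ∧ (dc d (Nat.unpair k).2).2.set.Nonempty
    · rw [if_pos h1] at hz
      exact ⟨_, _, h1.1, h1.2.1, h1.2.2, hz⟩
    · rw [if_neg h1, zero_box hd] at hz
      exact absurd hz (notMem_empty z)
  have hfin : ∀ i, (range (spr pos i)).Finite := fun i => spr_finite pos i
  set φ := emb_sprd (β := β) hpos hβ with hφ
  refine ⟨(h.comp φ).top, ?_, c', ?_, ?_⟩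
  · refine le_trans ?_ htop
    intro i
    rw [Sch.top_S, Sch.top_S]
    intro z hz n hn
    obtain ⟨y, _, hy⟩ := hz n hn
    exact ⟨sprd pos y, mem_univ _, hy⟩
  · intro j
    rw [dense_iff_inter_open]
    rintro U hU ⟨x, hx⟩
    obtain ⟨W, hxW, hWU⟩ := box_basis hU hx
    set l := Encodable.encode (0, W) with hl
    have hdl : dc d l = (0, W) := dc_encode (0, W)
    have hWne : (dc d l).2.set.Nonempty := by
      rw [hdl]
      exact ⟨x, hxW⟩
    obtain ⟨h1, h2, _⟩ := hVN (range (spr pos (max j l))) j (dc d l).2 (hfin _) hWne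
    obtain ⟨y, hy⟩ := h1
    refine ⟨y, hWU ?_, mem_iUnion.2 ⟨Nat.pair (max j l) l, ?_⟩⟩
    · have h3 := h2 hy
      rwa [hdl] at h3
    · rw [hc'1 j (max j l) l (le_max_left _ _) (le_max_right _ _) hWne]
      exact hy
  · have hae : ∀ᶠ G in Gen (Cond J), ∀ n, ∀ w : range (cb n), (dc d n).2.set.Nonempty →
        h.node w.1 n ∈ G.S → (V0 n w.1).set ⊆ Uj (c G) (dc d n).1 := by
      rw [eventually_countable_forall]
      intro n
      have : Countable (range (cb n)) := (cb_countable n).to_subtype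
      rw [eventually_countable_forall]
      intro w
      by_cases hn : (dc d n).2.set.Nonempty
      · have h1 := (hV0 n w.1 hn).2.2
        unfold Frc at h1
        filter_upwards [h1] with G hG _ hGn
        exact hG hGn
      · exact Filter.Eventually.of_forall fun G h1 => absurd h1 hn
    unfold Frc
    filter_upwards [hae, node_mem h] with G hG1 hG2 hGr
    obtain ⟨u, hu⟩ := exists_branch (h.comp φ) hGr
    have hGtop : h.top ∈ G.S := by
      refine G.up hGr ?_
      intro i
      rw [Sch.top_S, Sch.top_S]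
      intro z hz n hn
      obtain ⟨y, _, hy⟩ := hz n hn
      exact ⟨sprd pos y, mem_univ _, hy⟩
    have hnd := hG2 hGtop (sprd pos u) hu
    rintro z ⟨j, hj⟩
    refine ⟨j, fun k hzk => ?_⟩
    obtain ⟨i, l, hji, hli, hWl, hz⟩ := hc'2 j k z hzk
    obtain ⟨_, _, h3⟩ := hVN (range (spr pos i)) j (dc d l).2 (hfin _) hWl
    obtain ⟨n, hnN, hn1, hn2, hn3⟩ := h3 (spr pos i u) ⟨u, rfl⟩
    have hnpos : n ≤ pos i := by
      refine (hnN.trans ?_).trans (hbd i)
      have e1 : Nf (range (spr pos i)) j (dc d l).2 ≤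
          (Finset.range (i + 1)).sup fun l => Nf (range (spr pos i)) j (dc d l).2 :=
        Finset.le_sup (f := fun l => Nf (range (spr pos i)) j (dc d l).2) (Finset.mem_range.2 (by omega))
      refine e1.trans ?_
      exact Finset.le_sup (f := fun j => (Finset.range (i + 1)).sup fun l => Nf (range (spr pos i)) j (dc d l).2)
        (Finset.mem_range.2 (by omega))
    have hag : ∀ m < n, sprd pos u m = spr pos i u m := fun m hm => sprd_agree hpos u i m (by omega)
    have hz2 : z ∈ (F (sprd pos u) n).set := by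
      rw [hFc _ _ n hag]
      exact hn3 hz
    have h5 := hG1 n ⟨cb n (sprd pos u), ⟨_, rfl⟩⟩ hn2 (by
      rw [nd_congr h (cb_apply (k := n) (sprd pos u))]
      exact hnd n)
    have h6 := h5 hz2
    rw [hn1] at h6
    obtain ⟨k', hk'⟩ := mem_iUnion.1 h6
    exact hj k' hk'

end SX
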