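import Pool.Agent.Helper75.SX.Dec
import Pool.Agent.Helper75.SX.FamD
import Pool.Agent.Helper75.SX.GenSeq

/-!
# Null sets of the extension are covered by null sets of the ground model (module SX-32)

Let `D m` be the set of all conditions `r` such that either no `s` is below both `r` and `q`, or there are
`N ≥ m` and `v : ℕ → Box d` with `Frc r (fun G => ∀ M, ∑ k ∈ Finset.Ico N M, (c G k).vol ≤ (1/8)^m)` and
`∀ k < N, Frc r (fun G => c G k = v k)`.  `D m` is open (`Frc.anti`).  It is dense: let `p` be given, with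
`p' ≤ p, q`.  `p'` forces that `c G` is summable, hence `∃ N, ∀ M, ∑ k ∈ Ico (m + N) M, vol ≤ (1/8)^m` (tails of a
convergent series of nonnegative terms).  For fixed `N, M` the sum is densely decided (`dec_fin` for the numbers
below `M`), so `∀ M, ...` is densely decided (`Dec.all`), and `frc_ex` gives `r ≤ p'` and `N`; then apply `dec_fin`.

By `fusion` below `q` (`T = ∅`) there are `(β, e)`, `h : Sch β e`, `h.top ≤ q`, with `h.node x m ∈ D m` for all `m, x`; the
first alternative is impossible as `h.node x m ≤ h.top ≤ q`.  Let `N m r`, `v m r` be chosen for `r ∈ D m`.  Consider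
for `m : ℕ` and a 0-1-sequence `t : Fin (m + 1) → Bool` the point `x_t` (extended by `false`), and the boxes
`v (m+1) (h.node x_t (m+1)) k` for `N m (h.node x_t m) ≤ k < N (m+1) (h.node x_t (m+1))`.  Their total volume is at
most `(1/8)^m`, because for some filter `G` containing `h.node x_t (m+1) ≤ h.node x_t m` all these statements are true
(`frc_exists`), and these boxes are the boxes `c G k`.  So the total volume of all the boxes for a given `m` is at
most `2^(m+1) (1/8)^m ≤ 2 (1/4)^m`.  Let `c'` enumerate all these boxes: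
`c' (pair m (pair a k)) = ` the box number `k` of the sequence `t` with number `a < 2^(m+1)`
(`a.testBit i`, `i ≤ m`), if it exists, and the box `fun _ => (0, 0)` (of volume `0` as `1 ≤ d`) otherwise.  It is
summable: e.g. via `Nat.pairEquiv` and `summable_prod_of_nonneg` / or bound all finite partial sums.

`r = h.top`.  For a.e. `G` containing `r`: let `x` be the branch (`exists_branch`); `h.node x m ∈ G.S` for all `m`
(`node_mem`), and `c G k = v m (h.node x m) k` for all `k < N m (h.node x m)` (countably many statements: there are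
only countably many conditions `h.node x m`, as this condition only depends on the values of `x` below `m`; quantify
over finite sequences and use `eventually_countable_forall` / `frc_forall`-like arguments).  Let `z` be in infinitely
many boxes `c G k`.  Let `N_m = N m (h.node x m) ≥ m`.  For every `k ≥ N_0` with `z ∈ c G k` let `m` be the least
number with `k < N_{m+1}` (exists as `N_m ≥ m`); then `N_m ≤ k`, so `c G k` is one of the boxes of `c'` with first
coordinate `m`.  For every `m` only finitely many `k` (those below `N_{m+1}`) are treated there, so infinitely many `m`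
occur, and `z` is in `c' n` for infinitely many `n` (`m ≤ pair m _`).
-/

set_option autoImplicit false

open Set Topology LM

namespace SX

private theorem vol_nonneg {d : ℕ} (b : Box d) : 0 ≤ b.vol :=
  Finset.prod_nonneg fun _ _ => le_max_left _ _

private theorem vol_zero {d : ℕ} (hd : 1 ≤ d) : Box.vol (fun _ : Fin d => ((0 : ℚ), (0 : ℚ))) = 0 := by
  unfold Box.vol
  refine Finset.prod_eq_zero (Finset.mem_univ (⟨0, hd⟩ : Fin d)) ?_
  simp

private theorem node_congr {J : Type} {β : ℕ → J} {e : ℕ → Can → Can} (h : Sch β e) {x y : Can} {m : ℕ}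
    (hxy : ∀ n < m, x n = y n) : h.node x m = h.node y m := by
  have h5 : cyl x m = cyl y m := by
    ext z
    constructor
    · intro hz n hn
      rw [hz n hn, hxy n hn]
    · intro hz n hn
      rw [hz n hn, hxy n hn]
  apply Cond.ext_S
  funext i
  rw [h.node_S, h.node_S, h5]

private theorem node_succ_le {J : Type} {β : ℕ → J} {e : ℕ → Can → Can} (h : Sch β e) (x : Can) (m : ℕ) :
    h.node x (m + 1) ≤ h.node x m := by
  intro i
  rw [h.node_S, h.node_S]
  refine scv_mono ?_ i
  intro y hy n hn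
  exact hy n (by omega)

/-- the sequence `t` extended by `false` -/
private def exn {m : ℕ} (t : Fin m → Bool) : Can := fun i => if hi : i < m then t ⟨i, hi⟩ else false

private theorem exn_res (x : Can) (m : ℕ) : ∀ n < m, exn (fun i : Fin m => x i) n = x n := by
  intro n hn
  unfold exn
  rw [dif_pos hn]

private theorem dec_sum {C : Type} [Preorder C] {d : ℕ} {c : Flt C → ℕ → Box d} (hc : CName c) (N M : ℕ)
    (ε : ℝ) : Dec fun G => ∑ k ∈ Finset.Ico N M, (c G k).vol ≤ ε := by
  intro p
  obtain ⟨r, hr, v, hv⟩ := dec_fin (X := c) hc M p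
  have h1 : Frc r fun G => ∀ k : ℕ, k < M → c G k = v k := by
    refine frc_forall fun k => ?_
    by_cases hk : k < M
    · exact (hv k hk).mono le_rfl fun G hG _ => hG
    · exact frc_of_ae (Filter.Eventually.of_forall fun G h => absurd h hk)
  have h2 : ∀ G : Flt C, (∀ k : ℕ, k < M → c G k = v k) →
      ∑ k ∈ Finset.Ico N M, (c G k).vol = ∑ k ∈ Finset.Ico N M, (v k).vol := by
    intro G hG
    refine Finset.sum_congr rfl fun k hk => ?_
    rw [hG k (Finset.mem_Ico.1 hk).2]
  refine ⟨r, hr, ?_⟩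
  by_cases hε : ∑ k ∈ Finset.Ico N M, (v k).vol ≤ ε
  · exact Or.inl (h1.mono le_rfl fun G hG => by rw [h2 G hG]; exact hε)
  · exact Or.inr (h1.mono le_rfl fun G hG h3 => hε (by rw [← h2 G hG]; exact h3))

/-- the good numbers and boxes for the condition `r` -/
private def Gd {J : Type} {d : ℕ} (c : Flt (Cond J) → ℕ → Box d) (m : ℕ) (r : Cond J) (N : ℕ)
    (v : ℕ → Box d) : Prop :=
  m ≤ N ∧ (Frc r fun G => ∀ M, ∑ k ∈ Finset.Ico N M, (c G k).vol ≤ (1 / 8 : ℝ) ^ m) ∧
    ∀ k < N, Frc r fun G => c G k = v k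

private theorem tail_small {a : ℕ → ℝ} (ha : ∀ k, 0 ≤ a k) (hs : Summable a) (m : ℕ) :
    ∃ N, ∀ M, ∑ k ∈ Finset.Ico (m + N) M, a k ≤ (1 / 8 : ℝ) ^ m := by
  have h1 := (summable_iff_vanishing_norm (f := a)).1 hs ((1 / 8 : ℝ) ^ m) (by positivity)
  obtain ⟨s, hs⟩ := h1
  refine ⟨s.sup id + 1, fun M => ?_⟩
  have h2 := hs (Finset.Ico (m + (s.sup id + 1)) M) (by
    rw [Finset.disjoint_left]
    intro k hk hks
    have h3 : k ≤ s.sup id := Finset.le_sup (f := id) hks
    have h4 := (Finset.mem_Ico.1 hk).1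
    omega)
  rw [Real.norm_eq_abs, abs_of_nonneg (Finset.sum_nonneg fun k _ => ha k)] at h2
  exact h2.le

private theorem good_dense {J : Type} {d : ℕ} {c : Flt (Cond J) → ℕ → Box d}
    (hc : CName c) {q : Cond J} (hq : Frc q fun G => Valid Idl.null (c G)) (m : ℕ) {p : Cond J}
    (hp : p ≤ q) : ∃ r ≤ p, ∃ N v, Gd c m r N v := by
  have h1 : Frc p fun G => ∃ N, ∀ M, ∑ k ∈ Finset.Ico (m + N) M, (c G k).vol ≤ (1 / 8 : ℝ) ^ m :=
    hq.mono hp fun G hG => tail_small (fun k => vol_nonneg _) hG m
  obtain ⟨r, hr, N, hN⟩ := frc_ex (fun N => Dec.all fun M => dec_sum hc (m + N) M _) h1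
  obtain ⟨r', hr', v, hv⟩ := dec_fin (X := c) hc (m + N) r
  exact ⟨r', hr'.trans hr, m + N, v, by omega, hN.anti hr', hv⟩

/-- the index set of the boxes -/
private abbrev Ix : Type := (m : ℕ) × ((Fin (m + 1) → Bool) × ℕ)

private theorem cover_of {J : Type} {d : ℕ} (hd : 1 ≤ d) {c : Flt (Cond J) → ℕ → Box d}
    {β : ℕ → J} {e : ℕ → Can → Can} (h : Sch β e) (N : ℕ → Cond J → ℕ) (v : ℕ → Cond J → ℕ → Box d)
    (hg : ∀ m x, Gd c m (h.node x m) (N m (h.node x m)) (v m (h.node x m))) :
    ∃ c' : ℕ → Box d, Valid Idl.null c' ∧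
      Frc h.top fun G => bset Idl.null (c G) ⊆ bset Idl.null c' := by
  classical
  let b : Ix → Box d := fun i =>
    if N i.1 (h.node (exn i.2.1) i.1) ≤ i.2.2 ∧ i.2.2 < N (i.1 + 1) (h.node (exn i.2.1) (i.1 + 1)) then
      v (i.1 + 1) (h.node (exn i.2.1) (i.1 + 1)) i.2.2 else fun _ => (0, 0)
  -- the boxes are eventually equal to the boxes of `c G`
  have hv : ∀ m x, Frc (h.node x m) fun G => ∀ k, k < N m (h.node x m) → c G k = v m (h.node x m) k := by
    intro m x
    refine frc_forall fun k => ?_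
    by_cases hk : k < N m (h.node x m)
    · exact ((hg m x).2.2 k hk).mono le_rfl fun G hG _ => hG
    · exact frc_of_ae (Filter.Eventually.of_forall fun G h => absurd h hk)
  have hsum : ∀ m x, ∑ k ∈ Finset.Ico (N m (h.node x m)) (N (m + 1) (h.node x (m + 1))),
      (v (m + 1) (h.node x (m + 1)) k).vol ≤ (1 / 8 : ℝ) ^ m := by
    intro m x
    obtain ⟨G, -, h1, h2⟩ := frc_exists ((hv (m + 1) x).and ((hg m x).2.1.anti (node_succ_le h x m)))
    refine le_trans (le_of_eq ?_) (h2 (N (m + 1) (h.node x (m + 1))))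
    refine Finset.sum_congr rfl fun k hk => ?_
    rw [h1 k (Finset.mem_Ico.1 hk).2]
  have hb0 : ∀ i, 0 ≤ (b i).vol := fun i => vol_nonneg _
  have hbs : Summable fun i => (b i).vol := by
    rw [summable_sigma_of_nonneg hb0]
    have hfin : ∀ m, ∃ K, ∀ y : (Fin (m + 1) → Bool) × ℕ,
        y ∉ (Finset.univ : Finset (Fin (m + 1) → Bool)) ×ˢ Finset.range K → (b ⟨m, y⟩).vol = 0 := by
      intro m
      refine ⟨Finset.univ.sup fun t : Fin (m + 1) → Bool => N (m + 1) (h.node (exn t) (m + 1)), ?_⟩
      rintro ⟨t, k⟩ hy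
      simp only [Finset.mem_product, Finset.mem_univ, Finset.mem_range, true_and, not_lt] at hy
      have h1 : N (m + 1) (h.node (exn t) (m + 1)) ≤ k := by
        refine le_trans ?_ hy
        exact Finset.le_sup (f := fun t : Fin (m + 1) → Bool => N (m + 1) (h.node (exn t) (m + 1)))
          (Finset.mem_univ t)
      have h2 : b ⟨m, t, k⟩ = fun _ => (0, 0) := by
        simp only [b]
        rw [if_neg]
        intro h3
        omega
      rw [h2]
      exact vol_zero hd
    choose K hK using hfin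
    have hle : ∀ m, ∑' y, (b ⟨m, y⟩).vol ≤ 2 * (1 / 4 : ℝ) ^ m := by
      intro m
      rw [tsum_eq_sum (fun y hy => hK m y hy), Finset.sum_product]
      have h1 : ∀ t : Fin (m + 1) → Bool, ∑ k ∈ Finset.range (K m), (b ⟨m, t, k⟩).vol ≤ (1 / 8 : ℝ) ^ m := by
        intro t
        refine le_trans ?_ (hsum m (exn t))
        have h2 : ∀ k ∈ Finset.range (K m), (b ⟨m, t, k⟩).vol =
            if k ∈ Finset.Ico (N m (h.node (exn t) m)) (N (m + 1) (h.node (exn t) (m + 1))) then
              (v (m + 1) (h.node (exn t) (m + 1)) k).vol else 0 := by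
          intro k _
          by_cases hk : N m (h.node (exn t) m) ≤ k ∧ k < N (m + 1) (h.node (exn t) (m + 1))
          · simp only [b, Finset.mem_Ico]
            rw [if_pos hk, if_pos hk]
          · simp only [b, Finset.mem_Ico]
            rw [if_neg hk, if_neg hk]
            exact vol_zero hd
        rw [Finset.sum_congr rfl h2, ← Finset.sum_filter]
        refine Finset.sum_le_sum_of_subset_of_nonneg ?_ fun k _ _ => vol_nonneg _
        intro k hk
        exact (Finset.mem_filter.1 hk).2
      refine le_trans (Finset.sum_le_sum fun t _ => h1 t) ?_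
      rw [Finset.sum_const, Finset.card_univ, Fintype.card_fun, Fintype.card_bool, Fintype.card_fin,
        nsmul_eq_mul]
      have h3 : ((2 ^ (m + 1) : ℕ) : ℝ) * (1 / 8) ^ m = 2 * (1 / 4) ^ m := by
        push_cast
        rw [pow_succ, mul_comm ((2 : ℝ) ^ m) 2, mul_assoc, ← mul_pow]
        norm_num
      rw [h3]
    refine ⟨fun m => summable_of_ne_finset_zero (s := _) (fun y hy => hK m y hy), ?_⟩
    refine Summable.of_nonneg_of_le (fun m => tsum_nonneg fun y => hb0 _) hle ?_
    exact (summable_geometric_of_lt_one (by norm_num) (by norm_num)).mul_left 2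
  obtain ⟨en⟩ : Nonempty (ℕ ≃ Ix) := by
    have : Infinite Ix := Infinite.of_injective (fun m : ℕ => (⟨m, fun _ => false, 0⟩ : Ix)) (by
      intro m m' h
      exact congrArg Sigma.fst h)
    exact nonempty_equiv_of_countable
  refine ⟨fun n => b (en n), ?_, ?_⟩
  · exact (en.summable_iff (f := fun i => (b i).vol)).2 hbs
  have hcount : ∀ᶠ G in Gen (Cond J), ∀ i : (m : ℕ) × (Fin m → Bool), h.node (exn i.2) i.1 ∈ G.S →
      ∀ k, k < N i.1 (h.node (exn i.2) i.1) → c G k = v i.1 (h.node (exn i.2) i.1) k :=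
    eventually_countable_forall.2 fun i => hv i.1 (exn i.2)
  unfold Frc
  filter_upwards [hcount, node_mem h] with G hG1 hG2 htop z hz
  obtain ⟨x, hx⟩ := exists_branch h htop
  have hx2 := hG2 htop x hx
  have hcv : ∀ m k, k < N m (h.node x m) → c G k = v m (h.node x m) k := by
    intro m k hk
    have h1 := hG1 ⟨m, fun i : Fin m => x i⟩
    have h2 : h.node (exn fun i : Fin m => x i) m = h.node x m := node_congr h (exn_res x m)
    simp only [h2] at h1
    exact h1 (hx2 m) k hk
  have hN : ∀ m, m ≤ N m (h.node x m) := fun m => (hg m x).1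
  intro n0
  have hz' : ∀ K, ∃ k, K ≤ k ∧ z ∈ (c G k).set := hz
  set m0 := (Finset.range n0).sup (fun n => (en n).1 + 1) with hm0
  set K0 := (Finset.range (m0 + 1)).sup (fun m => N m (h.node x m)) with hK0
  obtain ⟨k, hk, hzk⟩ := hz' K0
  have hex : ∃ m, k < N (m + 1) (h.node x (m + 1)) := ⟨k, by have := hN (k + 1); omega⟩
  have hKle : ∀ m ≤ m0, N m (h.node x m) ≤ k := by
    intro m hm
    refine le_trans ?_ hk
    exact Finset.le_sup (f := fun m => N m (h.node x m)) (Finset.mem_range.2 (by omega))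
  set m := Nat.find hex with hm
  have hm1 : k < N (m + 1) (h.node x (m + 1)) := Nat.find_spec hex
  have hm2 : N m (h.node x m) ≤ k := by
    rcases Nat.eq_zero_or_pos m with h0 | h0
    · rw [h0]
      exact hKle 0 (by omega)
    · obtain ⟨m', hm'⟩ := Nat.exists_eq_succ_of_ne_zero h0.ne'
      have h1 : ¬ k < N (m' + 1) (h.node x (m' + 1)) := Nat.find_min hex (by omega)
      rw [hm']
      exact not_lt.1 h1
  have hm3 : m0 ≤ m := by
    by_contra hcon
    have h1 := hKle (m + 1) (by omega)
    omega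
  refine ⟨en.symm ⟨m, fun i : Fin (m + 1) => x i, k⟩, ?_, ?_⟩
  · by_contra hcon
    have h1 : (en (en.symm ⟨m, fun i : Fin (m + 1) => x i, k⟩)).1 + 1 ≤ m0 :=
      Finset.le_sup (f := fun n => (en n).1 + 1) (Finset.mem_range.2 (by omega))
    rw [Equiv.apply_symm_apply] at h1
    simp only at h1
    omega
  · simp only [Equiv.apply_symm_apply]
    have h2 : h.node (exn fun i : Fin (m + 1) => x i) (m + 1) = h.node x (m + 1) :=
      node_congr h (exn_res x (m + 1))
    have h3 : h.node (exn fun i : Fin (m + 1) => x i) m = h.node x m :=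
      node_congr h fun n hn => exn_res x (m + 1) n (by omega)
    have h4 : b ⟨m, fun i : Fin (m + 1) => x i, k⟩ = v (m + 1) (h.node x (m + 1)) k := by
      simp only [b]
      rw [h2, h3, if_pos ⟨hm2, hm1⟩]
    rw [h4, ← hcv (m + 1) k hm1]
    exact hzk

theorem cover_null {J : Type} [Nonempty J] {d : ℕ} (hd : 1 ≤ d) {c : Flt (Cond J) → ℕ → Box d}
    (hc : CName c) {q : Cond J} (hq : Frc q fun G => Valid Idl.null (c G)) :
    ∃ r ≤ q, ∃ c' : ℕ → Box d, Valid Idl.null c' ∧
      Frc r fun G => bset Idl.null (c G) ⊆ bset Idl.null c' := by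
  obtain ⟨β, e, h, htop, -, hD⟩ := fusion q (T := ∅) countable_empty
    (fun m => {r : Cond J | (¬ ∃ s, s ≤ r ∧ s ≤ q) ∨ ∃ N v, Gd c m r N v}) (by
      intro m p
      by_cases hp : ∃ s, s ≤ p ∧ s ≤ q
      · obtain ⟨s, hsp, hsq⟩ := hp
        obtain ⟨r, hr, h1⟩ := good_dense hc hq m hsq
        exact ⟨r, Or.inr h1, hr.trans hsp⟩
      · exact ⟨p, Or.inl hp, le_rfl⟩) (by
      rintro m p (hp | ⟨N, v, h1, h2, h3⟩) r hr
      · left
        rintro ⟨s, hs1, hs2⟩
        exact hp ⟨s, hs1.trans hr, hs2⟩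
      · exact Or.inr ⟨N, v, h1, h2.anti hr, fun k hk => (h3 k hk).anti hr⟩)
  have h1 : ∀ m (r : Cond J), ∃ N v, (∃ N v, Gd c m r N v) → Gd c m r N v := by
    intro m r
    by_cases h2 : ∃ N v, Gd c m r N v
    · obtain ⟨N, v, h3⟩ := h2
      exact ⟨N, v, fun _ => h3⟩
    · exact ⟨0, fun _ _ => (0, 0), fun h3 => absurd h3 h2⟩
  choose N v hNv using h1
  obtain ⟨c', hc', hF⟩ := cover_of hd h N v fun m x => hNv m _ (by
    rcases hD m x with h2 | h2
    · exact absurd ⟨h.node x m, le_rfl, (h.node_le_top x m).trans htop⟩ h2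
    · exact h2)
  exact ⟨h.top, htop, c', hc', hF⟩

end SX
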