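import Mathlib

/-!
# Covering a finite group by few translates (module SX-20)

Greedy algorithm.  `step`: for `W ⊆ G` there is `u` with `#W * #Y ≤ #G * #(W ∩ (u + Y))`, because the sum over
all `u` of `#(W ∩ (u + Y))` is `#W * #Y` (double counting: for `w ∈ W`, `y ∈ Y` exactly one `u` with
`u + y = w`).  So `#(W \ (u + Y)) ≤ #W * (1 - #Y / #G)`.  Iterating `t` times from `W = univ`: there is `U₀` with
`#U₀ ≤ t` and at most `#G * (1 - #Y/#G)^t ≤ #G * exp (-(t * #Y / #G))` elements are not of the form `u + y`,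
`u ∈ U₀`, `y ∈ Y`.  Take `t = ⌈ε #G / 2⌉₊` and `M` with `exp (-(ε M / 2)) ≤ ε / 2`, `1 ≤ M`; add for every uncovered `g`
the element `g - y₀` (`y₀ ∈ Y` fixed).  Total at most `ε #G / 2 + 1 + ε #G / 2`.
-/

set_option autoImplicit false

open Finset

namespace SX

open Classical in
private noncomputable def unc {G : Type} [AddCommGroup G] [Fintype G] (Y U : Finset G) : Finset G :=
  Finset.univ.filter (fun g => ∀ u ∈ U, g - u ∉ Y)

open Classical in
private theorem step {G : Type} [AddCommGroup G] [Fintype G] (Y W : Finset G) :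
    ∃ u : G, W.card * Y.card ≤ Fintype.card G * (W.filter (fun g => g - u ∈ Y)).card := by
  by_contra hcon
  push Not at hcon
  have h1 : ∑ u : G, (W.filter (fun g => g - u ∈ Y)).card = W.card * Y.card := by
    have h2 : ∀ u : G, (W.filter (fun g => g - u ∈ Y)).card =
        ∑ g ∈ W, if g - u ∈ Y then 1 else 0 := by
      intro u
      rw [Finset.card_filter]
    simp_rw [h2]
    rw [Finset.sum_comm]
    have h3 : ∀ g ∈ W, ∑ u : G, (if g - u ∈ Y then 1 else 0) = Y.card := by
      intro g _
      rw [← Finset.card_filter]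
      refine Finset.card_bij (fun u _ => g - u) ?_ ?_ ?_
      · intro u hu
        exact (Finset.mem_filter.1 hu).2
      · intro u _ v _ huv
        exact sub_right_injective huv
      · intro y hy
        refine ⟨g - y, ?_, ?_⟩
        · rw [Finset.mem_filter]
          refine ⟨Finset.mem_univ _, ?_⟩
          rw [sub_sub_cancel]
          exact hy
        · exact sub_sub_cancel g y
    rw [Finset.sum_congr rfl h3, Finset.sum_const, smul_eq_mul]
  have h4 : ∑ u : G, Fintype.card G * (W.filter (fun g => g - u ∈ Y)).card <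
      ∑ u : G, W.card * Y.card :=
    Finset.sum_lt_sum_of_nonempty ⟨0, Finset.mem_univ _⟩ fun u _ => hcon u
  rw [← Finset.mul_sum, h1, Finset.sum_const, smul_eq_mul, Finset.card_univ] at h4
  exact lt_irrefl _ h4

private theorem greedy {G : Type} [AddCommGroup G] [Fintype G] (Y : Finset G) (t : ℕ) :
    ∃ U : Finset G, U.card ≤ t ∧ ((unc Y U).card : ℝ) ≤
      Fintype.card G * (1 - (Y.card : ℝ) / Fintype.card G) ^ t := by
  classical
  have hG : (0 : ℝ) < Fintype.card G := by
    exact_mod_cast Fintype.card_pos_iff.2 ⟨(0 : G)⟩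
  have hYG : (Y.card : ℝ) / Fintype.card G ≤ 1 := by
    rw [div_le_one hG]
    exact_mod_cast Finset.card_le_univ Y
  induction t with
  | zero =>
    refine ⟨∅, by simp, ?_⟩
    rw [pow_zero, mul_one]
    exact_mod_cast Finset.card_le_univ _
  | succ t ih =>
    obtain ⟨U, hU, hc⟩ := ih
    obtain ⟨u, hu⟩ := step Y (unc Y U)
    refine ⟨insert u U, (Finset.card_insert_le _ _).trans (by omega), ?_⟩
    have h1 : unc Y (insert u U) ⊆ (unc Y U) \ ((unc Y U).filter (fun g => g - u ∈ Y)) := by
      intro g hg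
      unfold unc at hg
      rw [Finset.mem_filter] at hg
      rw [Finset.mem_sdiff, Finset.mem_filter]
      refine ⟨?_, fun h => ?_⟩
      · unfold unc
        rw [Finset.mem_filter]
        exact ⟨Finset.mem_univ _, fun v hv => hg.2 v (Finset.mem_insert_of_mem hv)⟩
      · exact hg.2 u (Finset.mem_insert_self _ _) h.2
    have h2 := Finset.card_le_card h1
    rw [Finset.card_sdiff_of_subset (Finset.filter_subset _ _)] at h2
    have h3 : ((unc Y U).filter (fun g => g - u ∈ Y)).card ≤ (unc Y U).card :=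
      Finset.card_le_card (Finset.filter_subset _ _)
    have h4 : ((unc Y (insert u U)).card : ℝ) ≤ ((unc Y U).card : ℝ) -
        (((unc Y U).filter (fun g => g - u ∈ Y)).card : ℝ) := by
      rw [← Nat.cast_sub h3]
      exact_mod_cast h2
    have h5 : ((unc Y U).card : ℝ) * Y.card ≤ Fintype.card G *
        (((unc Y U).filter (fun g => g - u ∈ Y)).card : ℝ) := by
      exact_mod_cast hu
    have h6 : ((unc Y U).card : ℝ) * ((Y.card : ℝ) / Fintype.card G) ≤
        (((unc Y U).filter (fun g => g - u ∈ Y)).card : ℝ) := by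
      rw [← mul_div_assoc, div_le_iff₀ hG]
      linarith
    have h7 : 0 ≤ 1 - (Y.card : ℝ) / Fintype.card G := by linarith
    calc ((unc Y (insert u U)).card : ℝ)
        ≤ ((unc Y U).card : ℝ) * (1 - (Y.card : ℝ) / Fintype.card G) := by
          rw [mul_sub, mul_one]
          linarith
      _ ≤ (Fintype.card G * (1 - (Y.card : ℝ) / Fintype.card G) ^ t) *
          (1 - (Y.card : ℝ) / Fintype.card G) := mul_le_mul_of_nonneg_right hc h7
      _ = _ := by ring

theorem cover (ε : ℝ) (hε : 0 < ε) : ∃ M : ℕ, ∀ (G : Type) [AddCommGroup G] [Fintype G] (Y : Finset G),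
    M ≤ Y.card → ∃ U : Finset G, (∀ g : G, ∃ u ∈ U, ∃ y ∈ Y, u + y = g) ∧
      (U.card : ℝ) ≤ ε * Fintype.card G + 1 := by
  classical
  obtain ⟨M0, hM0⟩ := exists_nat_ge (2 / ε * (-Real.log (ε / 2)))
  refine ⟨M0 + 1, ?_⟩
  intro G _ _ Y hY
  have hG : (0 : ℝ) < Fintype.card G := by
    exact_mod_cast Fintype.card_pos_iff.2 ⟨(0 : G)⟩
  obtain ⟨U, hUt, hUc⟩ := greedy Y ⌈ε * Fintype.card G / 2⌉₊
  have hYpos : 0 < Y.card := by omega
  obtain ⟨y0, hy0⟩ := Finset.card_pos.1 hYpos
  refine ⟨U ∪ (unc Y U).image (fun g => g - y0), ?_, ?_⟩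
  · intro g
    by_cases hg : g ∈ unc Y U
    · exact ⟨g - y0, Finset.mem_union_right _ (Finset.mem_image_of_mem _ hg), y0, hy0,
        sub_add_cancel g y0⟩
    · unfold unc at hg
      rw [Finset.mem_filter] at hg
      push Not at hg
      obtain ⟨u, hu, huY⟩ := hg (Finset.mem_univ _)
      exact ⟨u, Finset.mem_union_left _ hu, g - u, huY, add_sub_cancel u g⟩
  · have h1 : (U ∪ (unc Y U).image (fun g => g - y0)).card ≤ U.card + (unc Y U).card :=
      (Finset.card_union_le _ _).trans (Nat.add_le_add_left Finset.card_image_le _)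
    have h2 : ((U ∪ (unc Y U).image (fun g => g - y0)).card : ℝ) ≤
        (U.card : ℝ) + ((unc Y U).card : ℝ) := by exact_mod_cast h1
    have h3 : (U.card : ℝ) ≤ ε * Fintype.card G / 2 + 1 := by
      have h4 : (U.card : ℝ) ≤ (⌈ε * Fintype.card G / 2⌉₊ : ℝ) := by exact_mod_cast hUt
      exact h4.trans (Nat.ceil_lt_add_one (by positivity)).le
    have h5 : ((unc Y U).card : ℝ) ≤ Fintype.card G * (ε / 2) := by
      refine hUc.trans (mul_le_mul_of_nonneg_left ?_ hG.le)
      have hYG : (Y.card : ℝ) / Fintype.card G ≤ 1 := by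
        rw [div_le_one hG]
        exact_mod_cast Finset.card_le_univ Y
      have h6 : (1 - (Y.card : ℝ) / Fintype.card G) ^ ⌈ε * (Fintype.card G : ℝ) / 2⌉₊ ≤
          Real.exp (-((Y.card : ℝ) / Fintype.card G)) ^ ⌈ε * (Fintype.card G : ℝ) / 2⌉₊ := by
        refine pow_le_pow_left₀ (by linarith) ?_ _
        exact Real.one_sub_le_exp_neg _
      refine h6.trans ?_
      rw [← Real.exp_nat_mul]
      have h7 : ε * (Fintype.card G : ℝ) / 2 ≤ (⌈ε * (Fintype.card G : ℝ) / 2⌉₊ : ℝ) :=
        Nat.le_ceil _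
      have h8 : ε / 2 * Y.card ≤ (⌈ε * (Fintype.card G : ℝ) / 2⌉₊ : ℝ) *
          ((Y.card : ℝ) / Fintype.card G) := by
        have h9 : ε / 2 * Y.card = (ε * (Fintype.card G : ℝ) / 2) *
            ((Y.card : ℝ) / Fintype.card G) := by
          field_simp
        rw [h9]
        exact mul_le_mul_of_nonneg_right h7 (by positivity)
      have h10 : -Real.log (ε / 2) ≤ ε / 2 * Y.card := by
        have h11 : (M0 : ℝ) ≤ Y.card := by
          have : M0 ≤ Y.card := by omega
          exact_mod_cast this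
        have h12 : 2 / ε * (-Real.log (ε / 2)) ≤ Y.card := hM0.trans h11
        have h13 := mul_le_mul_of_nonneg_left h12 (by positivity : 0 ≤ ε / 2)
        have h14 : ε / 2 * (2 / ε * (-Real.log (ε / 2))) = -Real.log (ε / 2) := by
          field_simp
        linarith
      calc Real.exp ((⌈ε * (Fintype.card G : ℝ) / 2⌉₊ : ℝ) *
            -((Y.card : ℝ) / Fintype.card G))
          ≤ Real.exp (Real.log (ε / 2)) := by
            apply Real.exp_le_exp.2
            linarith
        _ = ε / 2 := Real.exp_log (by positivity)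
    linarith

end SX
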