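import Pool.Agent.Helper75.SX.Defs

/-!
# Densely decided statements (module SX-31)

A statement about filters is densely decided if every condition has an extension which forces the statement or
its negation.

* `DName.dec`: if `r` forces `X G = a` then `r` forces `P (X G)` if `P a` holds, and its negation otherwise.
* `Dec.not`: `¬ ¬ φ` follows from `φ`.
* `Dec.all`: let `p` be given.  If some `r ≤ p` forces `¬ φ i` for some `i` take this `r` (it forces the negation of
  `∀ i, φ i`).  Otherwise for every `i` and `q ≤ p` there is `r ≤ q` which forces `φ i` (`h i` at `q`), so `p` forces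
  `φ i` (`frc_of_dense`) and `p` forces `∀ i, φ i` (`frc_forall`).
* `Dec.ex`: from `Dec.all` and `Dec.not`, or directly.
* `frc_ex`: if no `r ≤ p` forces `φ i` for any `i`, then for every `i` and `q ≤ p` there is `r ≤ q` forcing `¬ φ i`, so
  `p` forces `∀ i, ¬ φ i`: contradiction with `frc_absurd`.
* `dec_fin`: induction on `N`: extend `r` to decide `X · N` and use `Function.update v N a`.
* `dname_of_dec`: `frc_ex` for the statements `X G = a`, `a : A`; the hypothesis `Frc p (∃ a, X G = a)` is trivial.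
-/

set_option autoImplicit false

open Set LM

namespace SX

variable {C : Type} [Preorder C]

/-- densely decided statements -/
def Dec (φ : Flt C → Prop) : Prop := ∀ p : C, ∃ r ≤ p, Frc r φ ∨ Frc r fun G => ¬ φ G

theorem DName.dec {A : Type} {X : Flt C → A} (h : DName X) (P : A → Prop) : Dec fun G => P (X G) := by
  intro p
  obtain ⟨r, hr, a, ha⟩ := h p
  refine ⟨r, hr, ?_⟩
  by_cases hP : P a
  · exact Or.inl (ha.mono le_rfl fun G hG => hG ▸ hP)
  · exact Or.inr (ha.mono le_rfl fun G hG h2 => hP (by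
      have h3 : P (X G) := h2
      rwa [hG] at h3))

theorem Dec.not {φ : Flt C → Prop} (h : Dec φ) : Dec fun G => ¬ φ G := by
  intro p
  obtain ⟨r, hr, h1 | h1⟩ := h p
  · exact ⟨r, hr, Or.inr (h1.mono le_rfl fun G hG hn => hn hG)⟩
  · exact ⟨r, hr, Or.inl h1⟩

theorem Dec.all {ι : Type} [Countable ι] {φ : ι → Flt C → Prop} (h : ∀ i, Dec (φ i)) :
    Dec fun G => ∀ i, φ i G := by
  intro p
  by_cases hc : ∃ r ≤ p, ∃ i, Frc r fun G => ¬ φ i G
  · obtain ⟨r, hr, i, hi⟩ := hc
    exact ⟨r, hr, Or.inr (hi.mono le_rfl fun G hG hall => hG (hall i))⟩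
  · refine ⟨p, le_rfl, Or.inl (frc_forall fun i => frc_of_dense fun q hq => ?_)⟩
    obtain ⟨r, hr, h1 | h1⟩ := h i q
    · exact ⟨r, hr, h1⟩
    · exact absurd ⟨r, hr.trans hq, i, h1⟩ hc

theorem Dec.ex {ι : Type} [Countable ι] {φ : ι → Flt C → Prop} (h : ∀ i, Dec (φ i)) :
    Dec fun G => ∃ i, φ i G := by
  intro p
  obtain ⟨r, hr, h1 | h1⟩ := (Dec.all fun i => (h i).not) p
  · exact ⟨r, hr, Or.inr (h1.mono le_rfl fun G hG hex => by
      obtain ⟨i, hi⟩ := hex
      exact hG i hi)⟩
  · exact ⟨r, hr, Or.inl (h1.mono le_rfl fun G hG => by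
      by_contra hex
      exact hG fun i hi => hex ⟨i, hi⟩)⟩

theorem frc_ex {ι : Type} [Countable ι] {φ : ι → Flt C → Prop} (h : ∀ i, Dec (φ i)) {p : C}
    (hp : Frc p fun G => ∃ i, φ i G) : ∃ r ≤ p, ∃ i, Frc r (φ i) := by
  by_contra hc
  have h1 : Frc p fun G => ∀ i, ¬ φ i G := by
    refine frc_forall fun i => frc_of_dense fun q hq => ?_
    obtain ⟨r, hr, h1 | h1⟩ := h i q
    · exact absurd ⟨r, hr.trans hq, i, h1⟩ hc
    · exact ⟨r, hr, h1⟩
  refine frc_absurd hp (h1.mono le_rfl fun G hG hex => ?_)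
  obtain ⟨i, hi⟩ := hex
  exact hG i hi

theorem dec_fin {A : Type} {X : Flt C → ℕ → A} (hX : ∀ k, DName fun G => X G k) (N : ℕ) (p : C) :
    ∃ r ≤ p, ∃ v : ℕ → A, ∀ k < N, Frc r fun G => X G k = v k := by
  induction N with
  | zero =>
    obtain ⟨r, hr, a, _⟩ := hX 0 p
    exact ⟨r, hr, fun _ => a, fun k hk => absurd hk (Nat.not_lt_zero k)⟩
  | succ N ih =>
    obtain ⟨r, hr, v, hv⟩ := ih
    obtain ⟨r', hr', a, ha⟩ := hX N r
    refine ⟨r', hr'.trans hr, Function.update v N a, fun k hk => ?_⟩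
    rcases Nat.lt_succ_iff_lt_or_eq.1 hk with h1 | h1
    · rw [Function.update_of_ne (by omega)]
      exact (hv k h1).anti hr'
    · subst h1
      rw [Function.update_self]
      exact ha

theorem dname_of_dec {A : Type} [Countable A] {X : Flt C → A} (h : ∀ a, Dec fun G => X G = a) :
    DName X := by
  intro p
  exact frc_ex h (frc_of_ae (Filter.Eventually.of_forall fun G => ⟨X G, rfl⟩))

end SX
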