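import Mathlib
import Pool.Agent.Helper18.LM.Gen

/-!
# Countable support products of Sacks forcings, and κ-Luzin sets in their generic extensions

Forcing is treated with filters of conditions (`LM.Flt`).  `LM.Frc p φ` (the condition `p` forces `φ`)
says that there are countably many dense sets of conditions such that `φ G` holds for every filter `G`
which contains `p` and meets all of them.
-/

set_option autoImplicit false

open Cardinal LM

namespace SX

/-- Cantor space -/
abbrev Can : Type := ℕ → Bool

/-- A condition of the countable support product of Sacks forcings along the index set `J`: a nonempty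
perfect subset `S i` of Cantor space for every `i : J`, equal to the whole space for all but countably
many `i`. -/
structure Cond (J : Type) where
  S : J → Set Can
  perf : ∀ i, Perfect (S i)
  ne : ∀ i, (S i).Nonempty
  supp : {i | S i ≠ Set.univ}.Countable

/-- `p ≤ q` (the condition `p` is stronger) iff `p` is contained in `q` at every coordinate. -/
instance (J : Type) : Preorder (Cond J) where
  le p q := ∀ i, p.S i ⊆ q.S i
  le_refl p i := Set.Subset.rfl
  le_trans p q r h1 h2 i := (h1 i).trans (h2 i)

/-! ### Boxes and codes of null sets and of meager sets -/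

/-- Euclidean space -/
abbrev Euc (d : ℕ) : Type := Fin d → ℝ

/-- A rational box in dimension `d`, given by the endpoints of its sides. -/
abbrev Box (d : ℕ) : Type := Fin d → ℚ × ℚ

/-- the open box -/
def Box.set {d : ℕ} (b : Box d) : Set (Euc d) := {x | ∀ i, ((b i).1 : ℝ) < x i ∧ x i < ((b i).2 : ℝ)}

/-- the volume of the box -/
def Box.vol {d : ℕ} (b : Box d) : ℝ := ∏ i, max 0 (((b i).2 : ℝ) - ((b i).1 : ℝ))

/-- the two ideals: null sets and meager sets -/
inductive Idl | null | meager

/-- Codes are sequences of boxes.  A sequence of boxes codes a null set if the sum of the volumes is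
finite.  It codes a meager set if for every `m` the union of the boxes with index `⟨m, k⟩`, `k : ℕ`, is
dense. -/
def Valid {d : ℕ} : Idl → (ℕ → Box d) → Prop
  | Idl.null, c => Summable fun k => (c k).vol
  | Idl.meager, c => ∀ m, Dense (⋃ k, (c (Nat.pair m k)).set)

/-- The set with code `c`: in the case of null sets the set of all points which lie in infinitely many of
the boxes, in the case of meager sets the complement of the intersection over `m` of the unions of the
boxes with index `⟨m, k⟩`. -/
def bset {d : ℕ} : Idl → (ℕ → Box d) → Set (Euc d)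
  | Idl.null, c => {x | ∀ N, ∃ k, N ≤ k ∧ x ∈ (c k).set}
  | Idl.meager, c => {x | ∃ m, ∀ k, x ∉ (c (Nat.pair m k)).set}

/-! ### Names -/

section Names

variable {C : Type} [Preorder C]

/-- `X` is a name for an element of the ground model set `A`: every condition has an extension deciding
the value of `X`. -/
def DName {A : Type} (X : Flt C → A) : Prop := ∀ p : C, ∃ r ≤ p, ∃ a : A, Frc r fun G => X G = a

/-- `X` is a name for a point of `ℝ^d`: every condition has extensions deciding `X` with arbitrary
precision. -/
def RName {d : ℕ} (X : Flt C → Euc d) : Prop :=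
  ∀ p : C, ∀ ε : ℝ, 0 < ε → ∃ r ≤ p, ∃ y : Euc d, Frc r fun G => dist (X G) y < ε

/-- `c` is a name for a sequence of boxes. -/
def CName {d : ℕ} (c : Flt C → ℕ → Box d) : Prop := ∀ k, DName fun G => c G k

/-- A name for a set of points of `ℝ^d` is given by the relation `mem p X`: the condition `p` forces that
`X` belongs to the set. -/
structure SetName (C : Type) [Preorder C] (d : ℕ) where
  mem : C → (Flt C → Euc d) → Prop
  mono : ∀ (p q : C) (X : Flt C → Euc d), q ≤ p → mem p X → mem q X
  dense : ∀ (p : C) (X : Flt C → Euc d), (∀ q ≤ p, ∃ r ≤ q, mem r X) → mem p X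
  congr : ∀ (p : C) (X Y : Flt C → Euc d), Frc p (fun G => X G = Y G) → mem p X → mem p Y

/-- `p` forces that the set `A` is a subgroup of `ℝ^d`. -/
def FSubgroup {d : ℕ} (A : SetName C d) (p : C) : Prop :=
  A.mem p (fun _ => 0) ∧ ∀ q ≤ p, ∀ X Y : Flt C → Euc d, RName X → RName Y →
    A.mem q X → A.mem q Y → A.mem q (fun G => X G - Y G)

/-- `p` forces that the set `A` is a `κ`-Luzin set for the ideal `I`, where `κ` is the cardinality of
`J` (a cardinal of the extension as well, see `CardPres`): (1) it is forced that there is a family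
`(y_j)`, `j : J`, of pairwise different elements of `A`; (2) for every name `c` of a code it is forced
that there are a subset `S` of `J` of cardinality less than `κ` and a family `(z_s)`, `s ∈ S`, such that
every element of `A` in the set coded by `c` is one of the `z_s`. -/
def FLuz {d : ℕ} (J : Type) (I : Idl) (A : SetName C d) (p : C) : Prop :=
  ∀ q ≤ p,
    (∃ r ≤ q, ∃ y : J → Flt C → Euc d, (∀ j, RName (y j)) ∧ (∀ j, A.mem r (y j)) ∧
      ∀ i j, i ≠ j → Frc r fun G => y i G ≠ y j G) ∧
    ∀ c : Flt C → ℕ → Box d, CName c → Frc q (fun G => Valid I (c G)) →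
      ∃ r ≤ q, ∃ S : Set J, #S < #J ∧ ∃ z : J → Flt C → Euc d, (∀ s ∈ S, RName (z s)) ∧
        ∀ r' ≤ r, ∀ X : Flt C → Euc d, RName X → A.mem r' X → Frc r' (fun G => X G ∈ bset I (c G)) →
          ∃ r'' ≤ r', ∃ s ∈ S, Frc r'' fun G => X G = z s G

end Names

/-- All cardinals are preserved: no condition forces that some function maps a set `L` onto a set `M` of
larger cardinality, where `L` is infinite. -/
def CardPres (C : Type) [Preorder C] : Prop :=
  ∀ L M : Type, ℵ₀ ≤ #L → #L < #M → ∀ F : L → Flt C → M, (∀ l, DName (F l)) → ∀ p : C,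
    ¬ ∀ m : M, ∀ q ≤ p, ∃ r ≤ q, ∃ l, Frc r fun G => F l G = m

/-- The main theorem: assume CH and let `J` have cardinality `ℵ_{ω₁}`.  The countable support product of
Sacks forcings along `J` preserves cardinals, and for every `d ≥ 1` and both ideals it forces: there is a
`κ`-Luzin set in `ℝ^d`, but no subgroup of `ℝ^d` is a `κ`-Luzin set, where `κ = ℵ_{ω₁}`. -/
def Main : Prop :=
  #(ℕ → Bool) = ℵ_ 1 → ∀ J : Type, #J = ℵ_ (Ordinal.omega 1) →
    CardPres (Cond J) ∧ ∀ d : ℕ, 1 ≤ d → ∀ I : Idl,
      (∃ A : SetName (Cond J) d, ∀ p, FLuz J I A p) ∧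
      ∀ (A : SetName (Cond J) d) (p : Cond J), FSubgroup A p → ¬ FLuz J I A p

end SX
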