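import Mathlib

/-!
# Delta systems of more than continuum many countable sets (module SX-10)

* `pigeon`: if all fibres `{ξ ∈ O | f ξ = a}` had cardinality at most `𝔠`, then
  `#O ≤ sum over a of 𝔠 ≤ #A * 𝔠 ≤ 𝔠` (`Cardinal.mk_sigma`, `Cardinal.sum_le_...`, `mul_eq_self`).
* `closure_c`: if `F0` is empty and `J` is empty everything is trivial; if `F0 = ∅` take `N = ∅` (no function
  `ℕ → J` has range in `∅`).  Otherwise fix `j0 ∈ F0`.  Consider the `W`-type with shapes
  `(ℕ → Bool) ⊕ (ℕ → Bool)`, arity `Empty` for `inl a` and `ℕ` for `inr a`; its cardinality is at most `𝔠`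
  by `WType.cardinalMk_le_of_le'` (sum over `𝔠` many shapes of `𝔠 ^ 0` or `𝔠 ^ ℵ₀ = 𝔠`).  Evaluate in `J`:
  `inl a ↦ g0 a` with `g0 : (ℕ → Bool) → J` a function with range `F0`, and
  `(inr a, children) ↦ g (fun k => value of child k) a` where `g s : (ℕ → Bool) → J` has range `F s` if `F s` is
  nonempty (and is constant `j0` otherwise); such functions exist as the sets have cardinality at most `𝔠`.  `N` is
  the range of the evaluation.
* `delta`: suppose the conclusion fails.  For a countable set `R` let `M R` be a maximal set of indices `ξ` with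
  `R ⊆ S ξ` and pairwise intersections equal to `R` (Zorn; `zorn_subset`); `#(M R) ≤ 𝔠` by assumption (if
  `M R` has at most one element this is clear too).  Let `U R = ⋃ ξ ∈ M R, S ξ`, `#(U R) ≤ 𝔠`.  Let `N` be as in
  `closure_c` for `F0 = U ∅`, `F s = U (range s)`.  Then `U R ⊆ N` for every countable `R ⊆ N` (`R = ∅` or
  `R = range s`).  Claim: `S ξ ⊆ N` for all `ξ`.  Otherwise let `R = S ξ ∩ N`; `ξ ∉ M R` since `S ξ` is not contained in
  `N ⊇ U R`; for `η ∈ M R`: `R ⊆ S η ∩ S ξ ⊆ N ∩ S ξ = R`; so `M R ∪ {ξ}` contradicts the maximality.  So every `S ξ`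
  is a countable subset of `N`; there are at most `𝔠 ^ ℵ₀ = 𝔠` of them (each is empty or the range of a function
  `ℕ → N`), so by `pigeon` more than `𝔠` many `ξ` have the same `S ξ = R`: contradiction.
-/

set_option autoImplicit false

open Set
open scoped Cardinal

namespace SX

theorem pigeon {O A : Type} (O' : Set O) (h : 𝔠 < #O') (f : O → A) (hA : #A ≤ 𝔠) :
    ∃ a, 𝔠 < #{ξ | ξ ∈ O' ∧ f ξ = a} := by
  by_contra hcon
  push Not at hcon
  apply absurd h
  rw [not_lt]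
  have h1 : #O' ≤ #(Σ a : A, {ξ | ξ ∈ O' ∧ f ξ = a}) := by
    refine Cardinal.mk_le_of_injective
      (f := fun ξ : O' => (⟨f ξ.1, ⟨ξ.1, ξ.2, rfl⟩⟩ : Σ a : A, {ξ | ξ ∈ O' ∧ f ξ = a})) ?_
    intro x y hxy
    have h2 : (f x.1) = f y.1 := congrArg (fun z => z.1) hxy
    have h3 := congrArg (fun z : (Σ a : A, {ξ | ξ ∈ O' ∧ f ξ = a}) => (z.2.1 : O)) hxy
    exact Subtype.ext h3
  refine h1.trans ?_
  rw [Cardinal.mk_sigma]
  refine (Cardinal.sum_le_sum _ (fun _ => 𝔠) hcon).trans ?_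
  rw [Cardinal.sum_const']
  calc #A * 𝔠 ≤ 𝔠 * 𝔠 := mul_le_mul_left hA _
    _ = 𝔠 := Cardinal.continuum_mul_self

/-- arity of the closure tree -/
def arC : ((ℕ → Bool) ⊕ (ℕ → Bool)) → Type
  | Sum.inl _ => Empty
  | Sum.inr _ => ℕ

theorem card_tree : #(WType arC) ≤ 𝔠 := by
  apply WType.cardinalMk_le_of_le
  have h1 : ∀ a : ((ℕ → Bool) ⊕ (ℕ → Bool)), (𝔠 : Cardinal) ^ #(arC a) ≤ 𝔠 := by
    rintro (a | a)
    · have : #(arC (Sum.inl a)) = 0 := by
        change #Empty = 0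
        simp
      rw [this, Cardinal.power_zero]
      exact (Cardinal.one_lt_aleph0.le).trans Cardinal.aleph0_le_continuum
    · have : #(arC (Sum.inr a)) = Cardinal.aleph0 := by
        change #ℕ = _
        exact Cardinal.mk_nat
      rw [this, Cardinal.continuum_power_aleph0]
  refine (Cardinal.sum_le_sum _ (fun _ => 𝔠) h1).trans ?_
  rw [Cardinal.sum_const']
  have h2 : #((ℕ → Bool) ⊕ (ℕ → Bool)) ≤ 𝔠 := by
    simp
  calc #((ℕ → Bool) ⊕ (ℕ → Bool)) * 𝔠 ≤ 𝔠 * 𝔠 := mul_le_mul_left h2 _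
    _ = 𝔠 := Cardinal.continuum_mul_self

theorem exists_surj {J : Type} (A : Set J) (hA : #A ≤ 𝔠) (hne : A.Nonempty) :
    ∃ g : (ℕ → Bool) → J, range g = A := by
  haveI : Nonempty A := hne.to_subtype
  have h1 : #A ≤ #(ℕ → Bool) := by
    simpa using hA
  obtain ⟨e⟩ := h1
  refine ⟨fun x => (Function.invFun e x : A).1, ?_⟩
  ext y
  constructor
  · rintro ⟨x, rfl⟩
    exact (Function.invFun e x).2
  · intro hy
    exact ⟨e ⟨y, hy⟩, congrArg Subtype.val (Function.leftInverse_invFun e.injective ⟨y, hy⟩)⟩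

theorem closure_c {J : Type} (F0 : Set J) (h0 : #F0 ≤ 𝔠) (F : (ℕ → J) → Set J) (hF : ∀ s, #(F s) ≤ 𝔠) :
    ∃ N : Set J, #N ≤ 𝔠 ∧ F0 ⊆ N ∧ ∀ s : ℕ → J, range s ⊆ N → F s ⊆ N := by
  classical
  rcases F0.eq_empty_or_nonempty with he | hne
  · refine ⟨∅, by simp, by simp [he], ?_⟩
    intro s hs
    exact absurd (hs (mem_range_self 0)) (by simp)
  · obtain ⟨j0, hj0⟩ := hne
    obtain ⟨g0, hg0⟩ := exists_surj F0 h0 ⟨j0, hj0⟩
    have hg : ∀ s : ℕ → J, ∃ g : (ℕ → Bool) → J, F s ⊆ range g ∧ (range g ⊆ F s ∨ ∀ x, g x = j0) := by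
      intro s
      rcases (F s).eq_empty_or_nonempty with he | hne
      · exact ⟨fun _ => j0, by simp [he], Or.inr fun _ => rfl⟩
      · obtain ⟨g, hg⟩ := exists_surj (F s) (hF s) hne
        exact ⟨g, hg.ge, Or.inl hg.le⟩
    choose g hg1 hg2 using hg
    let ev : WType arC → J := WType.elim J (fun x => match x with
      | ⟨Sum.inl a, _⟩ => g0 a
      | ⟨Sum.inr a, ch⟩ => g ch a)
    refine ⟨range ev, Cardinal.mk_range_le.trans card_tree, ?_, ?_⟩
    · intro y hy
      rw [← hg0] at hy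
      obtain ⟨a, rfl⟩ := hy
      exact ⟨WType.mk (Sum.inl a) (fun e => Empty.elim e), rfl⟩
    · intro s hs y hy
      obtain ⟨a, ha⟩ := hg1 s hy
      choose t ht using fun k => hs (mem_range_self k)
      refine ⟨WType.mk (Sum.inr a) t, ?_⟩
      change g (fun k => ev (t k)) a = y
      have : (fun k => ev (t k)) = s := funext ht
      rw [this, ha]

theorem delta {O J : Type} (S : O → Set J) (hS : ∀ ξ, (S ξ).Countable) (hO : 𝔠 < #O) :
    ∃ O' : Set O, 𝔠 < #O' ∧ ∃ R : Set J, R.Countable ∧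
      ∀ ξ ∈ O', ∀ η ∈ O', ξ ≠ η → S ξ ∩ S η = R := by
  classical
  by_contra hcon
  have hcon' : ∀ O' : Set O, ∀ R : Set J, R.Countable →
      (∀ ξ ∈ O', ∀ η ∈ O', ξ ≠ η → S ξ ∩ S η = R) → #O' ≤ 𝔠 := by
    intro O' R hR h
    by_contra hc
    exact hcon ⟨O', not_le.mp hc, R, hR, h⟩
  let P : Set J → Set (Set O) := fun R =>
    {M | (∀ ξ ∈ M, R ⊆ S ξ) ∧ ∀ ξ ∈ M, ∀ η ∈ M, ξ ≠ η → S ξ ∩ S η = R}
  have hz : ∀ R, ∃ M, Maximal (· ∈ P R) M := by
    intro R
    apply zorn_subset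
    intro c hc hch
    refine ⟨⋃₀ c, ⟨?_, ?_⟩, fun s hs => subset_sUnion_of_mem hs⟩
    · rintro ξ ⟨m, hm, hξ⟩
      exact (hc hm).1 ξ hξ
    · rintro ξ ⟨m, hm, hξ⟩ η ⟨m', hm', hη⟩ hne
      rcases eq_or_ne m m' with rfl | hmm
      · exact (hc hm).2 ξ hξ η hη hne
      · rcases hch hm hm' hmm with h | h
        · exact (hc hm').2 ξ (h hξ) η hη hne
        · exact (hc hm).2 ξ hξ η (h hη) hne
  choose M hM using hz
  have hMc : ∀ R : Set J, R.Countable → #(M R) ≤ 𝔠 := fun R hR =>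
    hcon' (M R) R hR (hM R).prop.2
  let U : Set J → Set J := fun R => ⋃ ξ : M R, S ξ.1
  have hU : ∀ R : Set J, R.Countable → #(U R) ≤ 𝔠 := by
    intro R hR
    refine (Cardinal.mk_iUnion_le_sum_mk).trans ?_
    have hb : ∀ ξ : M R, #(S ξ.1) ≤ 𝔠 := fun ξ =>
      ((Cardinal.le_aleph0_iff_set_countable.mpr (hS ξ.1))).trans Cardinal.aleph0_le_continuum
    refine (Cardinal.sum_le_sum _ (fun _ => 𝔠) hb).trans ?_
    rw [Cardinal.sum_const']
    calc #(M R) * 𝔠 ≤ 𝔠 * 𝔠 := mul_le_mul_left (hMc R hR) _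
      _ = 𝔠 := Cardinal.continuum_mul_self
  obtain ⟨N, hN, hN0, hNs⟩ := closure_c (U ∅) (hU ∅ countable_empty) (fun s => U (range s))
    (fun s => hU _ (countable_range s))
  have hUN : ∀ R : Set J, R.Countable → R ⊆ N → U R ⊆ N := by
    intro R hR hRN
    rcases R.eq_empty_or_nonempty with rfl | hne
    · exact hN0
    · obtain ⟨s, rfl⟩ := hR.exists_eq_range hne
      exact hNs s hRN
  have hSN : ∀ ξ, S ξ ⊆ N := by
    intro ξ
    by_contra hξ
    have hR : (S ξ ∩ N).Countable := (hS ξ).mono inter_subset_left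
    have hUR := hUN (S ξ ∩ N) hR inter_subset_right
    have hmem : ∀ η ∈ M (S ξ ∩ N), S η ⊆ N := fun η hη =>
      (subset_iUnion (fun ζ : M (S ξ ∩ N) => S ζ.1) ⟨η, hη⟩).trans hUR
    have hnot : ξ ∉ M (S ξ ∩ N) := fun h => hξ (hmem ξ h)
    have hprop := (hM (S ξ ∩ N)).prop
    have hint : ∀ η ∈ M (S ξ ∩ N), S ξ ∩ S η = S ξ ∩ N := by
      intro η hη
      apply Subset.antisymm
      · intro x hx
        exact ⟨hx.1, hmem η hη hx.2⟩
      · intro x hx
        exact ⟨hx.1, hprop.1 η hη hx⟩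
    have hins : insert ξ (M (S ξ ∩ N)) ∈ P (S ξ ∩ N) := by
      refine ⟨?_, ?_⟩
      · intro η hη
        rcases hη with rfl | hη
        · exact inter_subset_left
        · exact hprop.1 η hη
      · intro η hη ζ hζ hne
        rcases hη with rfl | hη
        · rcases hζ with rfl | hζ
          · exact absurd rfl hne
          · exact hint ζ hζ
        · rcases hζ with rfl | hζ
          · rw [inter_comm]
            exact hint η hη
          · exact hprop.2 η hη ζ hζ hne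
    have := (hM (S ξ ∩ N)).le_of_ge hins (subset_insert _ _)
    exact hnot (this (mem_insert _ _))
  have hcard : #{T : Set J | T ⊆ N ∧ T.Countable} ≤ 𝔠 := by
    let φ : Option (ℕ → N) → {T : Set J | T ⊆ N ∧ T.Countable} := fun o => match o with
      | none => ⟨∅, empty_subset _, countable_empty⟩
      | some s => ⟨range (fun k => (s k).1), by rintro _ ⟨k, rfl⟩; exact (s k).2, countable_range _⟩
    have hφ : Function.Surjective φ := by
      rintro ⟨T, hT, hTc⟩
      rcases T.eq_empty_or_nonempty with rfl | hne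
      · exact ⟨none, rfl⟩
      · obtain ⟨s, hs⟩ := hTc.exists_eq_range hne
        refine ⟨some (fun k => ⟨s k, hT (hs ▸ mem_range_self k)⟩), ?_⟩
        apply Subtype.ext
        exact hs.symm
    refine (Cardinal.mk_le_of_surjective hφ).trans ?_
    rw [Cardinal.mk_option]
    have h1 : #(ℕ → N) ≤ 𝔠 := by
      have : #(ℕ → N) = #N ^ Cardinal.aleph0 := by simp
      rw [this]
      exact (Cardinal.power_le_power_right hN).trans Cardinal.continuum_power_aleph0.le
    calc #(ℕ → N) + 1 ≤ 𝔠 + 𝔠 :=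
        add_le_add h1 ((Cardinal.one_lt_aleph0.le).trans Cardinal.aleph0_le_continuum)
      _ = 𝔠 := Cardinal.continuum_add_self
  have huniv : 𝔠 < #(univ : Set O) := by
    rw [Cardinal.mk_univ]
    exact hO
  obtain ⟨a, ha⟩ := pigeon (univ : Set O) huniv
    (fun ξ => (⟨S ξ, hSN ξ, hS ξ⟩ : {T : Set J | T ⊆ N ∧ T.Countable})) hcard
  refine absurd ha (not_lt.mpr ?_)
  apply hcon' _ a.1 a.2.2
  intro ξ hξ η hη _
  have h1 : S ξ = a.1 := congrArg Subtype.val hξ.2
  have h2 : S η = a.1 := congrArg Subtype.val hη.2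
  rw [h1, h2, inter_self]

end SX
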