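import Pool.Agent.Helper75.SX.GenSeq

/-!
# Images of the generic reals (module SX-37)

* `rname_gen`: given `p` and `ε`, take `y ∈ p.S j` and `k` with `φ '' cyl y k ⊆ ball (φ y) ε` (continuity, `cyl_basis`),
  and let `r` be `p` with the coordinate `j` replaced by `p.S j ∩ cyl y k` (`Cond.upd`, `perf_cyl`).  `r` forces
  `gen G j ∈ r.S j` (`frc_gen_mem` or `gen_mem`).
* `frc_gen_ne`: by `frc_of_dense` it suffices to find for every `q` some `r ≤ q` forcing the statement.  Let `a ∈ q.S i`;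
  `q.S j` has two different points (`perf_two`), so there is `b ∈ q.S j` with `ψ b ≠ φ a` (`ψ` injective).  By
  continuity there is `k` such that `φ '' cyl a k` and `ψ '' cyl b k` are disjoint; apply `gen_sep` and `gen_mem`.
-/

set_option autoImplicit false

open Set Topology LM

namespace SX

variable {J : Type}

theorem rname_gen {d : ℕ} {φ : Can → Euc d} (hφ : Continuous φ) (j : J) :
    RName fun G : Flt (Cond J) => φ (gen G j) := by
  classical
  intro p ε hε
  obtain ⟨y, hy⟩ := p.ne j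
  obtain ⟨k, hk⟩ := cyl_basis (hφ.continuousAt (Metric.ball_mem_nhds (φ y) hε))
  refine ⟨p.upd j (p.S j ∩ cyl y k) (perf_cyl (p.perf j) y k) ⟨y, hy, fun _ _ => rfl⟩,
    Cond.upd_le _ _ _ _ _ inter_subset_left, φ y, ?_⟩
  refine Filter.Eventually.of_forall fun G hG => ?_
  have h1 := gen_mem hG j
  rw [Cond.upd_S, if_pos rfl] at h1
  exact hk h1.2

theorem frc_gen_ne {d : ℕ} {φ ψ : Can → Euc d} (hφ : Continuous φ) (hψ : Continuous ψ)
    (hψi : Function.Injective ψ) {i j : J} (hij : i ≠ j) (p : Cond J) :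
    Frc p fun G => φ (gen G i) ≠ ψ (gen G j) := by
  refine frc_of_dense fun q _ => ?_
  obtain ⟨a, ha⟩ := q.ne i
  have hb : ∃ b ∈ q.S j, ψ b ≠ φ a := by
    obtain ⟨b1, hb1⟩ := q.ne j
    obtain ⟨b2, hb2, hne⟩ := perf_two (q.perf j) hb1
    by_cases h1 : ψ b1 = φ a
    · refine ⟨b2, hb2, fun h2 => hne (hψi ?_)⟩
      rw [h1, h2]
    · exact ⟨b1, hb1, h1⟩
  obtain ⟨b, hb, hba⟩ := hb
  obtain ⟨U, V, hU, hV, haU, hbV, hUV⟩ := t2_separation (Ne.symm hba)
  obtain ⟨k1, hk1⟩ := cyl_basis (hφ.continuousAt (hU.mem_nhds haU))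
  obtain ⟨k2, hk2⟩ := cyl_basis (hψ.continuousAt (hV.mem_nhds hbV))
  obtain ⟨r, hr, hri, hrj⟩ := gen_sep hij q ha hb (max k1 k2)
  refine ⟨r, hr, Filter.Eventually.of_forall fun G hG heq => ?_⟩
  have h1 : gen G i ∈ cyl a k1 := fun n hn =>
    hri (gen_mem hG i) n (lt_of_lt_of_le hn (le_max_left _ _))
  have h2 : gen G j ∈ cyl b k2 := fun n hn =>
    hrj (gen_mem hG j) n (lt_of_lt_of_le hn (le_max_right _ _))
  have h3 : φ (gen G i) ∈ U := hk1 h1
  have h4 : ψ (gen G j) ∈ V := hk2 h2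
  rw [heq] at h3
  exact Set.disjoint_left.mp hUV h3 h4

end SX
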