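import Pool.Agent.Helper75.SX.Defs

/-!
# A rank function (module SX-36)

`#J = ℵ_ (ω_1)`.  Let `W` be the type of all ordinals below `ω_1` (`(Ordinal.omega 1).ToType`, a well-ordered type of
cardinality `ℵ₁` with countable initial segments).  `J` is in bijection with the set of all ordinals below
`Ordinal.omega (Ordinal.omega 1)`, which is the supremum of the ordinals `Ordinal.omega ξ`, `ξ < ω_1` (`ω_1` is a limit
ordinal, `Ordinal.omega` is a normal function, `Ordinal.isNormal_omega`).  Let `ρ j` be some `ξ < ω_1` with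
`j < Ordinal.omega ξ`.  Then `{j | ρ j ≤ w}` is contained in `Ordinal.omega w`, which has
cardinality `ℵ_w < ℵ_ (ω_1)`.
-/

set_option autoImplicit false

open Cardinal Ordinal

namespace SX

theorem rank {J : Type} (hJ : #J = ℵ_ (Ordinal.omega 1)) :
    ∃ (W : Type) (_ : LinearOrder W), #W = ℵ_ 1 ∧ (∀ w : W, {v | v ≤ w}.Countable) ∧
      ∃ ρ : J → W, ∀ w, #{j | ρ j ≤ w} < #J := by
  classical
  let W : Type := (Ordinal.omega 1).ToType
  let K : Type := (Ordinal.omega (Ordinal.omega 1)).ToType
  have hW : #W = ℵ_ 1 := by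
    simp only [W]
    rw [mk_toType, card_omega]
  have hK : #K = ℵ_ (Ordinal.omega 1) := by
    simp only [K]
    rw [mk_toType, card_omega]
  obtain ⟨eq⟩ := Cardinal.eq.1 (hJ.trans hK.symm)
  have tW : type (α := W) (· < ·) = Ordinal.omega 1 := type_toType _
  have tK : type (α := K) (· < ·) = Ordinal.omega (Ordinal.omega 1) := type_toType _
  have h1 : ∀ k : K, ∃ w : W, typein (α := K) (· < ·) k < Ordinal.omega (typein (α := W) (· < ·) w) := by
    intro k
    have h2 : typein (α := K) (· < ·) k < Ordinal.omega (Ordinal.omega 1) :=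
      (typein_lt_type (α := K) (· < ·) k).trans_eq tK
    obtain ⟨c, hc, hc'⟩ := (isNormal_omega.lt_iff_exists_lt (isSuccLimit_omega 1)).1 h2
    have h3 : c < type (α := W) (· < ·) := by
      rw [tW]
      exact hc
    refine ⟨enum (α := W) (· < ·) ⟨c, h3⟩, ?_⟩
    rw [typein_enum]
    exact hc'
  choose g hg using h1
  refine ⟨W, inferInstance, hW, fun w => ?_, fun j => g (eq j), fun w => ?_⟩
  · have h2 : #(Set.Iio w) < ℵ_ 1 := by
      rw [← hW]
      refine mk_Iio_lt w ?_
      rw [hW, ord_aleph]
      exact tW.symm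
    have h3 : (Set.Iio w).Countable := by
      rw [← Cardinal.le_aleph0_iff_set_countable]
      exact lt_aleph_one_iff.1 h2
    refine (h3.insert w).mono ?_
    intro v hv
    rcases (le_iff_eq_or_lt (α := W)).1 hv with h | h
    · exact Or.inl h
    · exact Or.inr h
  · have hw : typein (α := W) (· < ·) w < Ordinal.omega 1 :=
      (typein_lt_type (α := W) (· < ·) w).trans_eq tW
    set a := typein (α := W) (· < ·) w with ha
    have h2 : Ordinal.omega a < type (α := K) (· < ·) := by
      rw [tK]
      exact omega_lt_omega.2 hw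
    have h3 : #{k : K | typein (α := K) (· < ·) k < Ordinal.omega a} = ℵ_ a := by
      have h4 := card_typein (r := ((· < ·) : K → K → Prop)) (enum (α := K) (· < ·) ⟨Ordinal.omega a, h2⟩)
      rw [typein_enum, card_omega] at h4
      rw [h4]
      have h5 : ∀ k : K, typein (α := K) (· < ·) k < Ordinal.omega a ↔
          k < enum (α := K) (· < ·) ⟨Ordinal.omega a, h2⟩ := by
        intro k
        rw [← typein_lt_typein (α := K) (· < ·), typein_enum]
      exact Cardinal.mk_congr (Equiv.subtypeEquivRight h5)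
    rw [hJ]
    refine lt_of_le_of_lt ?_ (aleph_lt_aleph.2 hw)
    rw [← h3]
    refine Cardinal.mk_le_of_injective (f := fun j : {j | g (eq j) ≤ w} => ⟨eq j.1, ?_⟩) ?_
    · have h5 : typein (α := W) (· < ·) (g (eq j.1)) ≤ a := by
        rw [ha]
        exact (typein_le_typein (α := W) (· < ·)).2 (not_lt.2 j.2)
      exact (hg (eq j.1)).trans_le (omega_le_omega.2 h5)
    · rintro ⟨i, hi⟩ ⟨j, hj⟩ hij
      simp only [Subtype.mk.injEq, EmbeddingLike.apply_eq_iff_eq] at hij
      subst hij
      rfl

end SX
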