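import Pool.Agent.Helper75.SX.Avoid
import Pool.Agent.Helper75.SX.Rank
import Pool.Agent.Helper75.SX.GenName
import Pool.Agent.Helper75.SX.CovNull
import Pool.Agent.Helper75.SX.CovMeager

/-!
# There is a Luzin set in the extension (module SX-38)

Let `W`, `ρ` be given by `rank` (`J` is nonempty).  The set of all valid codes is nonempty and has
cardinality at most `#(ℕ → Box d) ≤ 𝔠 = #(ℕ → Bool) = ℵ_1 = #W` (`Box d` is countable), so there is a function
`cd : W → ℕ → Box d` whose range is the set of all valid codes.  For `w : W` the set `{v | v ≤ w}` is countable and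
nonempty, so by `avoid` there is a continuous injective `φ w : Can → Euc d` with
`φ w x ∉ bset I (cd v)` for all `x` and all `v ≤ w`.

Let `x j G = φ (ρ j) (gen G j)` and `A.mem p X := ∀ q ≤ p, ∃ r ≤ q, ∃ j, Frc r (fun G => X G = x j G)`.
-/

set_option autoImplicit false

open Cardinal LM

namespace SX

theorem exists_valid {d : ℕ} (hd : 1 ≤ d) (I : Idl) : ∃ c : ℕ → Box d, Valid I c := by
  cases I with
  | null =>
    refine ⟨fun _ _ => (0, 0), ?_⟩
    have h1 : Box.vol (fun _ => (0, 0) : Box d) = 0 := by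
      unfold Box.vol
      exact Finset.prod_eq_zero (Finset.mem_univ (⟨0, hd⟩ : Fin d)) (by simp)
    show Summable fun _ : ℕ => Box.vol (fun _ => (0, 0) : Box d)
    rw [h1]
    exact summable_zero
  | meager =>
    refine ⟨fun n _ => (-((n.unpair.2 : ℚ) + 1), (n.unpair.2 : ℚ) + 1), ?_⟩
    intro m
    have h1 : (⋃ k : ℕ, Box.set ((fun n _ => (-((n.unpair.2 : ℚ) + 1), (n.unpair.2 : ℚ) + 1) : ℕ → Box d)
        (Nat.pair m k))) = Set.univ := by
      refine Set.eq_univ_of_forall fun x => ?_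
      rw [Set.mem_iUnion]
      obtain ⟨k, hk⟩ := exists_nat_ge ‖x‖
      refine ⟨k, fun i => ?_⟩
      have h2 : |x i| ≤ ‖x‖ := norm_le_pi_norm x i
      have h3 := abs_le.1 (h2.trans hk)
      simp only [Nat.unpair_pair]
      push_cast
      constructor
      · linarith [h3.1]
      · linarith [h3.2]
    rw [h1]
    exact dense_univ

theorem exists_enum (hCH : #(ℕ → Bool) = ℵ_ 1) {W : Type} (hW : #W = ℵ_ 1) {d : ℕ} (hd : 1 ≤ d)
    (I : Idl) : ∃ cd : W → ℕ → Box d, (∀ w, Valid I (cd w)) ∧ ∀ c, Valid I c → ∃ w, cd w = c := by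
  have h1 : #{c : ℕ → Box d // Valid I c} ≤ #W := by
    rw [hW, ← hCH]
    calc #{c : ℕ → Box d // Valid I c} ≤ #(ℕ → Box d) := mk_subtype_le _
      _ ≤ #(ℕ → Bool) := by
        simp only [mk_pi, prod_const, lift_id, mk_nat, mk_bool]
        rw [two_power_aleph0, ← aleph0_power_aleph0]
        exact power_le_power_right (mk_le_aleph0 (α := Box d))
  obtain ⟨g⟩ := h1
  obtain ⟨c0, hc0⟩ := exists_valid hd I
  have : Nonempty {c : ℕ → Box d // Valid I c} := ⟨⟨c0, hc0⟩⟩
  refine ⟨fun w => (Function.invFun g w).1, fun w => (Function.invFun g w).2, fun c hc => ?_⟩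
  refine ⟨g ⟨c, hc⟩, ?_⟩
  show (Function.invFun g (g ⟨c, hc⟩)).1 = c
  rw [Function.leftInverse_invFun g.injective]

theorem cover_code {J : Type} [Nonempty J] {d : ℕ} (hd : 1 ≤ d) {I : Idl} {c : Flt (Cond J) → ℕ → Box d}
    (hc : CName c) {q : Cond J} (hq : Frc q fun G => Valid I (c G)) :
    ∃ r ≤ q, ∃ c' : ℕ → Box d, Valid I c' ∧ Frc r fun G => bset I (c G) ⊆ bset I c' := by
  cases I with
  | null => exact cover_null hd hc hq
  | meager => exact cover_meager hd hc hq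

/-- the name of the set of all `x j` -/
def setOf {J : Type} {d : ℕ} (x : J → Flt (Cond J) → Euc d) : SetName (Cond J) d where
  mem p X := ∀ q ≤ p, ∃ r ≤ q, ∃ j, Frc r fun G => X G = x j G
  mono p q X hq h := fun q' hq' => h q' (hq'.trans hq)
  dense p X h := fun q hq => by
    obtain ⟨r, hr, h1⟩ := h q hq
    obtain ⟨r', hr', j, h2⟩ := h1 r (le_refl r)
    exact ⟨r', hr'.trans hr, j, h2⟩
  congr p X Y h h1 := fun q hq => by
    obtain ⟨r, hr, j, h2⟩ := h1 q hq
    exact ⟨r, hr, j, ((h.anti (hr.trans hq)).and h2).mono (le_refl r) fun G h3 => h3.1.symm.trans h3.2⟩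

theorem exists_luz (hCH : #(ℕ → Bool) = ℵ_ 1) {J : Type} (hJ : #J = ℵ_ (Ordinal.omega 1)) {d : ℕ}
    (hd : 1 ≤ d) (I : Idl) : ∃ A : SetName (Cond J) d, ∀ p, FLuz J I A p := by
  classical
  obtain ⟨W, instW, hW, hWc, ρ, hρ⟩ := rank hJ
  have hne : Nonempty J := by
    rw [← mk_ne_zero_iff, hJ]
    exact (aleph0_pos.trans_le (aleph0_le_aleph _)).ne'
  obtain ⟨cd, hcd, hcd'⟩ := exists_enum hCH hW hd I
  have h1 : ∀ w : W, ∃ φ : Can → Euc d, Continuous φ ∧ Function.Injective φ ∧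
      ∀ v ≤ w, ∀ x, φ x ∉ bset I (cd v) := by
    intro w
    obtain ⟨g, hg⟩ := (hWc w).exists_eq_range ⟨w, le_refl w⟩
    obtain ⟨φ, h1, h2, h3⟩ := avoid hd I (fun i => cd (g i)) fun i => hcd _
    refine ⟨φ, h1, h2, fun v hv x => ?_⟩
    have h4 : v ∈ Set.range g := by
      rw [← hg]
      exact hv
    obtain ⟨i, rfl⟩ := h4
    exact h3 i x
  choose φ hφc hφi hφa using h1
  refine ⟨setOf fun j G => φ (ρ j) (gen G j), fun p q hq => ⟨?_, ?_⟩⟩
  · exact ⟨q, le_refl q, fun j G => φ (ρ j) (gen G j), fun j => rname_gen (hφc _) j,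
      fun j q' _ => ⟨q', le_refl _, j, frc_of_ae (Filter.Eventually.of_forall fun G => rfl)⟩,
      fun i j hij => frc_gen_ne (hφc _) (hφc _) (hφi _) hij q⟩
  · intro c hc hv
    obtain ⟨r, hr, c', hc', h2⟩ := cover_code hd hc hv
    obtain ⟨w, rfl⟩ := hcd' c' hc'
    refine ⟨r, hr, {j | ρ j ≤ w}, hρ w, fun j G => φ (ρ j) (gen G j), fun j _ => rname_gen (hφc _) j, ?_⟩
    intro r' hr' X _ hX h3
    obtain ⟨r'', hr'', j, h4⟩ := hX r' (le_refl r')
    refine ⟨r'', hr'', j, ?_, h4⟩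
    show ρ j ≤ w
    by_contra hcon
    have hcon' : w ≤ ρ j := (not_le.1 hcon).le
    obtain ⟨G, _, ⟨h5, h6⟩, h7⟩ := frc_exists ((h4.and (h3.anti hr'')).and (h2.anti (hr''.trans hr')))
    have h8 := h7 h6
    rw [h5] at h8
    exact hφa (ρ j) w hcon' _ h8

end SX
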