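import Pool.Agent.Helper75.SX.Defs

/-!
# Preservation of the cardinality of `J` (definition)
-/

set_option autoImplicit false

open Cardinal LM

namespace SX

/-- The cardinality of `J` is preserved: if `L` has smaller cardinality then no condition forces that the
names `F l`, `l : L`, for elements of `J` exhaust `J`. -/
def KPres (C : Type) [Preorder C] (J : Type) : Prop :=
  ∀ L : Type, #L < #J → ∀ F : L → Flt C → J, (∀ l, DName (F l)) → ∀ p : C,
    ¬ ∀ j : J, ∀ q ≤ p, ∃ r ≤ q, ∃ l, Frc r fun G => F l G = j

end SX
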