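import Pool.Agent.Helper75.SX.Defs

/-!
# A rank function for a set whose cardinality has cofinality `ω₁`
-/

set_option autoImplicit false

open Cardinal Ordinal

namespace SX

theorem rank2 {J : Type} (hc : (#J).ord.cof = ℵ_ 1) :
    ∃ (W : Type) (_ : LinearOrder W), #W = ℵ_ 1 ∧ (∀ w : W, {v | v ≤ w}.Countable) ∧
      ∃ ρ : J → W, ∀ w, #{j | ρ j ≤ w} < #J := by
  classical
  let W : Type := (Ordinal.omega 1).ToType
  let K : Type := (#J).ord.ToType
  have hW : #W = ℵ_ 1 := by
    simp only [W]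
    rw [mk_toType, card_omega]
  have hK : #K = #J := by
    simp only [K]
    rw [mk_toType, card_ord]
  obtain ⟨eq⟩ := Cardinal.eq.1 hK.symm
  have tW : type (α := W) (· < ·) = Ordinal.omega 1 := type_toType _
  have hcK : Order.cof K = ℵ_ 1 := by
    simp only [K]
    rw [cof_toType, hc]
  have hWc : ∀ w : W, {v | v ≤ w}.Countable := by
    intro w
    have h2 : #(Set.Iio w) < ℵ_ 1 := by
      rw [← hW]
      refine mk_Iio_lt w ?_
      rw [hW, ord_aleph]
      exact tW.symm
    have h3 : (Set.Iio w).Countable := by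
      rw [← Cardinal.le_aleph0_iff_set_countable]
      exact lt_aleph_one_iff.1 h2
    refine (h3.insert w).mono ?_
    intro v hv
    rcases (le_iff_eq_or_lt (α := W)).1 hv with h | h
    · exact Or.inl h
    · exact Or.inr h
  obtain ⟨s, hs, hs'⟩ := Order.exists_cof_eq K
  rw [hcK] at hs'
  obtain ⟨g⟩ := Cardinal.eq.1 (hW.trans hs'.symm)
  have h1 : ∀ k : K, ∃ w : W, k ≤ (g w).1 := by
    intro k
    obtain ⟨k', hk', h2⟩ := hs k
    exact ⟨g.symm ⟨k', hk'⟩, by rw [Equiv.apply_symm_apply]; exact h2⟩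
  choose ρ hρ using h1
  refine ⟨W, inferInstance, hW, hWc, fun j => ρ (eq j), fun w => ?_⟩
  have h2 : ¬ IsCofinal ((fun v : W => (g v).1) '' {v | v ≤ w}) := by
    intro h3
    have h4 := Order.cof_le h3
    rw [hcK] at h4
    have h5 : #((fun v : W => (g v).1) '' {v | v ≤ w}) ≤ ℵ₀ :=
      Cardinal.le_aleph0_iff_set_countable.2 ((hWc w).image _)
    exact absurd (h4.trans h5) (not_le.2 aleph0_lt_aleph_one)
  unfold IsCofinal at h2
  push Not at h2
  obtain ⟨u, hu⟩ := h2
  have h3 : #(Set.Iio u) < #J := by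
    refine (mk_Iio_lt u ?_).trans_eq hK
    rw [hK]
    exact (type_toType _).symm
  refine lt_of_le_of_lt ?_ h3
  have h4 : ∀ j : {j | ρ (eq j) ≤ w}, eq j.1 ∈ Set.Iio u := fun j =>
    (hρ (eq j.1)).trans_lt (hu _ ⟨ρ (eq j.1), j.2, rfl⟩)
  refine Cardinal.mk_le_of_injective
    (f := fun j : {j | ρ (eq j) ≤ w} => (⟨eq j.1, h4 j⟩ : Set.Iio u)) ?_
  intro i j hij
  exact Subtype.ext (eq.injective (congrArg Subtype.val hij))

/-- there are such sets -/
theorem exists_J : ∃ J : Type, Order.succ 𝔠 < #J ∧ (#J).ord.cof = ℵ_ 1 := by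
  obtain ⟨o, ho⟩ := mem_range_aleph_iff.2 aleph0_le_continuum
  refine ⟨(Ordinal.omega (o + Ordinal.omega 1)).ToType, ?_, ?_⟩
  · rw [mk_toType, card_omega, ← ho, succ_aleph]
    apply aleph_lt_aleph.2
    have h1 : (1 : Ordinal) < Ordinal.omega 1 :=
      one_lt_omega0.trans_le (Ordinal.omega0_le_omega 1)
    exact (add_lt_add_iff_left o).2 h1
  · rw [mk_toType, card_omega, ord_aleph, cof_omega, cof_add, cof_omega_one]
    · exact (isSuccLimit_omega 1).ne_bot
    · exact isSuccLimit_add o (isSuccLimit_omega 1)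

end SX
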