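import Pool.Agent.Helper75.SX.Exist
import Pool.Agent.Helper75.SX.Rank2
import Pool.Agent.Helper75.SX.CC
import Pool.Agent.Helper75.SX.KDef

/-!
# A Luzin set in the extension, without the continuum hypothesis

`J` is a set whose cardinality is larger than the successor of the continuum and has cofinality `ω₁`.  The first
bits of the generic reals enumerate the ground model reals in order type `ω₁` (this is the well known
collapse of the continuum by countable support products), so that the construction of `Exist.lean` can be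
done in the extension.
-/

set_option autoImplicit false

open Cardinal LM

namespace SX

variable {J : Type}

/-- shrink the coordinates in a countable set to cylinders -/
theorem cutc (p : Cond J) {T : Set J} (hT : T.Countable) (c : J → Can) (hc : ∀ i, c i ∈ p.S i) :
    ∃ r ≤ p, ∀ i ∈ T, r.S i ⊆ cyl (c i) 1 := by
  classical
  have hp : ∀ i, Perfect (if i ∈ T then p.S i ∩ cyl (c i) 1 else p.S i) := by
    intro i
    split_ifs
    · exact perf_cyl (p.perf i) _ _
    · exact p.perf i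
  have hn : ∀ i, (if i ∈ T then p.S i ∩ cyl (c i) 1 else p.S i).Nonempty := by
    intro i
    split_ifs
    · exact ⟨c i, hc i, fun _ _ => rfl⟩
    · exact p.ne i
  have hs : {i | (if i ∈ T then p.S i ∩ cyl (c i) 1 else p.S i) ≠ Set.univ}.Countable := by
    refine (hT.union p.supp).mono ?_
    intro i hi
    by_cases h : i ∈ T
    · exact Or.inl h
    · right
      have h1 : (if i ∈ T then p.S i ∩ cyl (c i) 1 else p.S i) ≠ Set.univ := hi
      rwa [if_neg h] at h1
  refine ⟨⟨_, hp, hn, hs⟩, fun i => ?_, fun i hi => ?_⟩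
  · show (if i ∈ T then p.S i ∩ cyl (c i) 1 else p.S i) ⊆ p.S i
    split_ifs
    · exact Set.inter_subset_left
    · exact subset_rfl
  · show (if i ∈ T then p.S i ∩ cyl (c i) 1 else p.S i) ⊆ cyl (c i) 1
    rw [if_pos hi]
    exact Set.inter_subset_right

section

variable {W : Type} [LinearOrder W]

open Classical in
/-- the first bits of the generic reals with the numbers `B v n`, `v ≤ w` -/
noncomputable def bits (B : W → ℕ → J) (w : W) (G : Flt (Cond J)) (v : W) (n : ℕ) : Bool :=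
  if v ≤ w then gen G (B v n) 0 else false

theorem dname_bits (hWc : ∀ w : W, {v | v ≤ w}.Countable) (B : W → ℕ → J) (w : W) :
    DName fun G : Flt (Cond J) => bits B w G := by
  classical
  intro p
  choose c hc using p.ne
  have hT : {i | ∃ v ≤ w, ∃ n, B v n = i}.Countable := by
    have h1 : {i | ∃ v ≤ w, ∃ n, B v n = i} = ⋃ v ∈ {v | v ≤ w}, Set.range (B v) := by
      ext i
      simp
    rw [h1]
    exact (hWc w).biUnion fun v _ => Set.countable_range _
  obtain ⟨r, hr, h1⟩ := cutc p hT c hc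
  refine ⟨r, hr, fun v n => if v ≤ w then c (B v n) 0 else false,
    Filter.Eventually.of_forall fun G hG => ?_⟩
  funext v n
  show (if v ≤ w then gen G (B v n) 0 else false) = if v ≤ w then c (B v n) 0 else false
  by_cases h : v ≤ w
  · rw [if_pos h, if_pos h]
    exact h1 _ ⟨v, h, n, rfl⟩ (gen_mem hG _) 0 Nat.one_pos
  · rw [if_neg h, if_neg h]

omit [LinearOrder W] in
theorem guess (hW : ℵ₀ < #W) {B : W → ℕ → J} (hB : ∀ v n v' n', B v n = B v' n' → v = v' ∧ n = n')
    (p : Cond J) (x : Can) : ∃ w : W, ∃ r ≤ p, Frc r fun G => ∀ n, gen G (B w n) 0 = x n := by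
  classical
  have h1 : {w | ∃ n, B w n ∈ {i | p.S i ≠ Set.univ}}.Countable := by
    have h2 : ∀ n, {w | B w n ∈ {i | p.S i ≠ Set.univ}}.Countable := fun n =>
      p.supp.preimage_of_injOn fun v _ v' _ h => (hB v n v' n h).1
    have h3 : {w | ∃ n, B w n ∈ {i | p.S i ≠ Set.univ}} = ⋃ n, {w | B w n ∈ {i | p.S i ≠ Set.univ}} := by
      ext w
      simp
    rw [h3]
    exact Set.countable_iUnion h2
  have h2 : ∃ w, w ∉ {w | ∃ n, B w n ∈ {i | p.S i ≠ Set.univ}} := by
    by_contra hcon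
    push Not at hcon
    have h3 : (Set.univ : Set W).Countable := h1.mono fun w _ => hcon w
    have h4 : #W ≤ ℵ₀ := by
      rw [Cardinal.mk_le_aleph0_iff]
      exact Set.countable_univ_iff.1 h3
    exact absurd h4 (not_le.2 hW)
  obtain ⟨w, hw⟩ := h2
  have hw' : ∀ n, p.S (B w n) = Set.univ := by
    intro n
    by_contra h
    exact hw ⟨n, h⟩
  have h3 : ∃ c : J → Can, (∀ i, c i ∈ p.S i) ∧ ∀ n, c (B w n) 0 = x n := by
    choose c0 hc0 using p.ne
    refine ⟨fun i => if h : ∃ n, B w n = i then fun _ => x (Classical.choose h) else c0 i, ?_, ?_⟩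
    · intro i
      by_cases h : ∃ n, B w n = i
      · obtain ⟨n, rfl⟩ := h
        rw [hw' n]
        trivial
      · beta_reduce
        rw [dif_neg h]
        exact hc0 i
    · intro n
      have h : ∃ m, B w m = B w n := ⟨n, rfl⟩
      beta_reduce
      rw [dif_pos h]
      rw [(hB _ _ _ _ (Classical.choose_spec h)).2]
  obtain ⟨c, hc, hc'⟩ := h3
  obtain ⟨r, hr, h4⟩ := cutc p (Set.countable_range (B w)) c hc
  refine ⟨w, r, hr, Filter.Eventually.of_forall fun G hG n => ?_⟩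
  rw [← hc' n]
  exact h4 _ ⟨n, rfl⟩ (gen_mem hG _) 0 Nat.one_pos

end

theorem exists_dec {d : ℕ} (hd : 1 ≤ d) (I : Idl) :
    ∃ dec : Can → ℕ → Box d, (∀ x, Valid I (dec x)) ∧ ∀ c, Valid I c → ∃ x, dec x = c := by
  have h1 : #{c : ℕ → Box d // Valid I c} ≤ #Can := by
    calc #{c : ℕ → Box d // Valid I c} ≤ #(ℕ → Box d) := mk_subtype_le _
      _ ≤ #(ℕ → Bool) := by
        simp only [mk_pi, prod_const, lift_id, mk_nat, mk_bool]
        rw [two_power_aleph0, ← aleph0_power_aleph0]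
        exact power_le_power_right (mk_le_aleph0 (α := Box d))
  obtain ⟨g⟩ := h1
  obtain ⟨c0, hc0⟩ := exists_valid hd I
  have : Nonempty {c : ℕ → Box d // Valid I c} := ⟨⟨c0, hc0⟩⟩
  refine ⟨fun w => (Function.invFun g w).1, fun w => (Function.invFun g w).2, fun c hc => ?_⟩
  refine ⟨g ⟨c, hc⟩, ?_⟩
  show (Function.invFun g (g ⟨c, hc⟩)).1 = c
  rw [Function.leftInverse_invFun g.injective]

theorem exists_luz2 {J : Type} (hJ : ℵ_ 1 ≤ #J) (hc : (#J).ord.cof = ℵ_ 1) {d : ℕ}
    (hd : 1 ≤ d) (I : Idl) : ∃ A : SetName (Cond J) d, ∀ p, FLuz J I A p := by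
  classical
  obtain ⟨W, instW, hW, hWc, ρ, hρ⟩ := rank2 hc
  have hJ0 : ℵ₀ ≤ #J := aleph0_lt_aleph_one.le.trans hJ
  have hne : Nonempty J := mk_ne_zero_iff.1 (aleph0_pos.trans_le hJ0).ne'
  -- the coordinates
  have hι : #((W × ℕ) ⊕ J) ≤ #J := by
    simp only [mk_sum, mk_prod, lift_id, mk_nat, hW]
    refine (add_le_add (mul_le_max_of_aleph0_le_left (aleph0_le_aleph 1)) le_rfl).trans ?_
    rw [max_eq_left (aleph0_le_aleph 1)]
    exact (add_eq_right hJ0 hJ).le
  obtain ⟨ι⟩ := hι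
  let B : W → ℕ → J := fun v n => ι (Sum.inl (v, n))
  let R : J → J := fun j => ι (Sum.inr j)
  have hB : ∀ v n v' n', B v n = B v' n' → v = v' ∧ n = n' := by
    intro v n v' n' h
    have h1 := ι.injective h
    simpa using h1
  have hR : ∀ i j, i ≠ j → R i ≠ R j := fun i j hij h => hij (Sum.inr_injective (ι.injective h))
  obtain ⟨dec, hdec, hdec'⟩ := exists_dec hd I
  have h1 : ∀ (w : W) (F : W → ℕ → Bool), ∃ φ : Can → Euc d, Continuous φ ∧ Function.Injective φ ∧
      ∀ v ≤ w, ∀ x, φ x ∉ bset I (dec (F v)) := by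
    intro w F
    obtain ⟨g, hg⟩ := (hWc w).exists_eq_range ⟨w, le_refl w⟩
    obtain ⟨φ, h1, h2, h3⟩ := avoid hd I (fun i => dec (F (g i))) fun i => hdec _
    refine ⟨φ, h1, h2, fun v hv x => ?_⟩
    have h4 : v ∈ Set.range g := by
      rw [← hg]
      exact hv
    obtain ⟨i, rfl⟩ := h4
    exact h3 i x
  choose φ hφc hφi hφa using h1
  let X : J → Flt (Cond J) → Euc d := fun j G => φ (ρ j) (bits B (ρ j) G) (gen G (R j))
  have hXr : ∀ j, RName (X j) := by
    intro j p ε hε
    obtain ⟨r1, hr1, F, hF⟩ := dname_bits hWc B (ρ j) p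
    obtain ⟨r2, hr2, y, hy⟩ := rname_gen (hφc (ρ j) F) (R j) r1 ε hε
    refine ⟨r2, hr2.trans hr1, y, (hy.and (hF.anti hr2)).mono (le_refl r2) fun G hG => ?_⟩
    obtain ⟨h2, h3⟩ := hG
    beta_reduce at h2 h3
    show dist (φ (ρ j) (bits B (ρ j) G) (gen G (R j))) y < ε
    rw [h3]
    exact h2
  have hXne : ∀ i j, i ≠ j → ∀ p, Frc p fun G => X i G ≠ X j G := by
    intro i j hij p
    refine frc_of_dense fun q _ => ?_
    obtain ⟨r1, hr1, F, hF⟩ := dname_bits hWc B (ρ i) q
    obtain ⟨r2, hr2, F', hF'⟩ := dname_bits hWc B (ρ j) r1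
    refine ⟨r2, hr2.trans hr1, ?_⟩
    have h2 := frc_gen_ne (hφc (ρ i) F) (hφc (ρ j) F') (hφi (ρ j) F') (hR i j hij) r2
    refine (h2.and ((hF.anti hr2).and hF')).mono (le_refl r2) fun G hG => ?_
    obtain ⟨h3, h4, h5⟩ := hG
    beta_reduce at h3 h4 h5
    show φ (ρ i) (bits B (ρ i) G) (gen G (R i)) ≠ φ (ρ j) (bits B (ρ j) G) (gen G (R j))
    rw [h4, h5]
    exact h3
  refine ⟨setOf X, fun p q hq => ⟨?_, ?_⟩⟩
  · exact ⟨q, le_refl q, X, hXr,
      fun j q' _ => ⟨q', le_refl _, j, frc_of_ae (Filter.Eventually.of_forall fun G => rfl)⟩,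
      fun i j hij => hXne i j hij q⟩
  · intro c hcn hv
    obtain ⟨r, hr, c', hc', h2⟩ := cover_code hd hcn hv
    obtain ⟨x, rfl⟩ := hdec' c' hc'
    have hW' : ℵ₀ < #W := by
      rw [hW]
      exact aleph0_lt_aleph_one
    obtain ⟨w, r1, hr1, hw⟩ := guess hW' hB r x
    refine ⟨r1, hr1.trans hr, {j | ρ j ≤ w}, hρ w, X, fun j _ => hXr j, ?_⟩
    intro r' hr' Y _ hY h3
    obtain ⟨r'', hr'', j, h4⟩ := hY r' (le_refl r')
    refine ⟨r'', hr'', j, ?_, h4⟩
    show ρ j ≤ w
    by_contra hcon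
    have hcon' : w ≤ ρ j := (not_le.1 hcon).le
    obtain ⟨G, _, ⟨⟨h5, h6⟩, h7⟩, h8⟩ := frc_exists
      (((h4.and (h3.anti hr'')).and (h2.anti (hr''.trans (hr'.trans hr1)))).and (hw.anti (hr''.trans hr')))
    have h9 := h7 h6
    have h10 : bits B (ρ j) G w = x := by
      funext n
      unfold bits
      rw [if_pos hcon']
      exact h8 n
    rw [← h10, h5] at h9
    exact hφa (ρ j) (bits B (ρ j) G) w hcon' _ h9

theorem kpres {J : Type} (hJ : Order.succ 𝔠 < #J) : KPres (Cond J) J := by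
  classical
  intro L hL F _ p hH
  -- the possible values
  let M : L → Set J := fun l => {j | ∃ r ≤ p, Frc r fun G => F l G = j}
  have hM : ∀ l, #(M l) ≤ 𝔠 := by
    intro l
    by_contra hcon
    have hcon' : 𝔠 < #(M l) := not_le.1 hcon
    have h1 : ∀ j : M l, ∃ r ≤ p, Frc r fun G => F l G = j.1 := fun j => j.2
    choose r hr hr' using h1
    obtain ⟨i, j, hij, t, ht1, ht2⟩ := cc r hcon'
    obtain ⟨G, _, h2, h3⟩ := frc_exists (((hr' i).anti ht1).and ((hr' j).anti ht2))
    exact hij (Subtype.ext (h2.symm.trans h3))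
  have h1 : #J ≤ #(⋃ l, M l) := by
    rw [← mk_univ]
    refine mk_le_mk_of_subset fun j _ => ?_
    obtain ⟨r, hr, l, h2⟩ := hH j p (le_refl p)
    exact Set.mem_iUnion.2 ⟨l, r, hr, h2⟩
  have h2 : #(⋃ l, M l) ≤ #L * 𝔠 := by
    refine (mk_iUnion_le_sum_mk).trans ?_
    refine (sum_le_sum _ (fun _ => 𝔠) hM).trans ?_
    rw [sum_const, lift_id, lift_id]
  have h3 : #L * 𝔠 < #J :=
    mul_lt_of_lt (aleph0_le_continuum.trans ((Order.le_succ 𝔠).trans hJ.le)) hL
      ((Order.le_succ 𝔠).trans_lt hJ)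
  exact absurd (h1.trans h2) (not_le.2 h3)

end SX
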