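import Pool.Agent.Helper75.SX.CondOps

/-!
# Product structured families of conditions: refinement (module SX-05)

A family `R : Can → Cond J` at depth `m` for `β : ℕ → J` (only the values below `m` matter) is product
structured if the coordinate `i` of `R x` depends only on those bits `x n`, `n < m`, which belong to `i`
(`β n = i`), and if different bits give disjoint sets.

* `refine_one`: the new family has the coordinates
  `(R' x).S i = if ∀ n < m, β n = i → x n = τ n then r.S i else (R x).S i`.  If the condition of the `if` holds, then
  `r.S i ⊆ (R τ).S i = (R x).S i` by product structure, so `R' x ≤ R x`; the support of `R' x` is contained in the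
  union of the two supports; both clauses of `PS` are immediate, and `R' τ = r`.
* `refine`: `R x` depends only on the values of `x` below `m` (`PS` and `Cond.ext_S`), so there are only
  finitely many different conditions; let `F` be the finite set of all `x` with `x n = false` for `n ≥ m` (image of
  `Fin m → Bool`).  By induction over finite sets there is a product structured `R' ≤ R` with `R' τ ∈ D` for all
  `τ ∈ F`: in the induction step take `r ∈ D` with `r ≤ R' τ` and apply `refine_one`; the elements treated before
  stay in `D` since `D` is open.  Finally `R' x = R' τ` where `τ ∈ F` agrees with `x` below `m`.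
-/

set_option autoImplicit false

open Set Topology LM

namespace SX

variable {J : Type}

/-- product structured families of depth `m` -/
def PS (β : ℕ → J) (m : ℕ) (R : Can → Cond J) : Prop :=
  (∀ x y i, (∀ n < m, β n = i → x n = y n) → (R x).S i = (R y).S i) ∧
    ∀ n < m, ∀ x y, x n ≠ y n → Disjoint ((R x).S (β n)) ((R y).S (β n))

open Classical in
theorem PS.refine_one {β : ℕ → J} {m : ℕ} {R : Can → Cond J} (h : PS β m R) (τ : Can) {r : Cond J}
    (hr : r ≤ R τ) : ∃ R' : Can → Cond J, PS β m R' ∧ (∀ x, R' x ≤ R x) ∧ R' τ ≤ r := by
  let R' : Can → Cond J := fun x =>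
    { S := fun i => if ∀ n < m, β n = i → x n = τ n then r.S i else (R x).S i
      perf := fun i => by
        split_ifs
        · exact r.perf i
        · exact (R x).perf i
      ne := fun i => by
        split_ifs
        · exact r.ne i
        · exact (R x).ne i
      supp := by
        refine (r.supp.union (R x).supp).mono ?_
        intro i hi
        change (if _ then _ else _) ≠ _ at hi
        split_ifs at hi with h1
        · exact Or.inl hi
        · exact Or.inr hi }
  have hS : ∀ x i, (R' x).S i = if ∀ n < m, β n = i → x n = τ n then r.S i else (R x).S i :=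
    fun x i => rfl
  have hle : ∀ x i, (R' x).S i ⊆ (R x).S i := by
    intro x i
    rw [hS]
    split_ifs with h1
    · rw [h.1 x τ i h1]
      exact hr i
    · exact Subset.rfl
  refine ⟨R', ⟨?_, ?_⟩, fun x i => hle x i, ?_⟩
  · intro x y i hxy
    rw [hS, hS]
    by_cases h1 : ∀ n < m, β n = i → x n = τ n
    · have h2 : ∀ n < m, β n = i → y n = τ n := by
        intro n hn hi
        rw [← hxy n hn hi]
        exact h1 n hn hi
      rw [if_pos h1, if_pos h2]
    · have h2 : ¬ ∀ n < m, β n = i → y n = τ n := by
        intro h3
        apply h1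
        intro n hn hi
        rw [hxy n hn hi]
        exact h3 n hn hi
      rw [if_neg h1, if_neg h2]
      exact h.1 x y i hxy
  · intro n hn x y hxy
    exact (h.2 n hn x y hxy).mono (hle x _) (hle y _)
  · intro i
    rw [hS, if_pos (fun _ _ _ => rfl)]

theorem PS.refine {β : ℕ → J} {m : ℕ} {R : Can → Cond J} (h : PS β m R) {D : Set (Cond J)}
    (hD : ∀ q, ∃ r ∈ D, r ≤ q) (hDo : ∀ q ∈ D, ∀ r ≤ q, r ∈ D) :
    ∃ R' : Can → Cond J, PS β m R' ∧ (∀ x, R' x ≤ R x) ∧ ∀ x, R' x ∈ D := by
  classical
  let ex : (Fin m → Bool) → Can := fun v n => if hn : n < m then v ⟨n, hn⟩ else false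
  have key : ∀ F : Finset (Fin m → Bool), ∃ R' : Can → Cond J, PS β m R' ∧ (∀ x, R' x ≤ R x) ∧
      ∀ v ∈ F, R' (ex v) ∈ D := by
    intro F
    induction F using Finset.induction_on with
    | empty => exact ⟨R, h, fun x => le_refl _, by simp⟩
    | insert v F hv ih =>
      obtain ⟨R1, h1, h2, h3⟩ := ih
      obtain ⟨r, hrD, hr⟩ := hD (R1 (ex v))
      obtain ⟨R2, g1, g2, g3⟩ := h1.refine_one (ex v) hr
      refine ⟨R2, g1, fun x => (g2 x).trans (h2 x), ?_⟩
      intro w hw
      rcases Finset.mem_insert.mp hw with rfl | hw
      · exact hDo r hrD _ g3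
      · exact hDo _ (h3 w hw) _ (g2 _)
  obtain ⟨R', h1, h2, h3⟩ := key Finset.univ
  refine ⟨R', h1, h2, ?_⟩
  intro x
  have h4 : R' x = R' (ex fun i => x i) := by
    apply Cond.ext_S
    funext i
    apply h1.1
    intro n hn _
    simp only [ex]
    rw [dif_pos hn]
  rw [h4]
  exact h3 (fun i : Fin m => x i) (Finset.mem_univ _)

end SX
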