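import Pool.Agent.Helper75.SX.FamA

/-!
# Product structured families of conditions: splitting (module SX-06)

Choose for every perfect nonempty set `P` a splitting `half P : Bool → Set Can` as in `perf_split P m`
(a function of the set `P` only, by `Classical.choice`), and let
`(R' x).S j = if j = i then half ((R x).S i) (x m) else (R x).S j` (use `Cond.upd`).  With
`β' = Function.update β m i`:
* clause 1 of `PS β' (m+1) R'`: if `x, y` agree on all bits `n < m + 1` with `β' n = j`, then they agree on all bits
  `n < m` with `β n = j` (as `β' n = β n` for `n < m`), so `(R x).S j = (R y).S j`; for `j = i` moreover `x m = y m`.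
* clause 2: for `n < m` the sets are contained in those of `R` (`β' n = β n`), which are disjoint.  For `n = m`,
  `x m ≠ y m`, `β' m = i`: if `(R x).S i = (R y).S i` use the disjointness of the two halves; otherwise (by clause 1
  for `R`, contraposition) there is `n < m` with `β n = i` and `x n ≠ y n`, and the sets are disjoint by clause 2
  for `R`.
-/

set_option autoImplicit false

open Set Topology LM

namespace SX

variable {J : Type}

theorem PS.split {β : ℕ → J} {m : ℕ} {R : Can → Cond J} (h : PS β m R) (i : J) :
    ∃ R' : Can → Cond J, PS (Function.update β m i) (m + 1) R' ∧ (∀ x, R' x ≤ R x) ∧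
      (∀ x, ∃ y, (R' x).S i ⊆ cyl y m) := by
  classical
  have hex : ∀ P : Set Can, ∃ Q : Bool → Set Can, Perfect P → P.Nonempty →
      (∀ b, Perfect (Q b) ∧ (Q b).Nonempty ∧ Q b ⊆ P ∧ ∃ y, Q b ⊆ cyl y m) ∧
        Disjoint (Q false) (Q true) := by
    intro P
    by_cases hP : Perfect P ∧ P.Nonempty
    · obtain ⟨Q, hQ⟩ := perf_split hP.1 hP.2 m
      exact ⟨Q, fun _ _ => hQ⟩
    · exact ⟨fun _ => P, fun h1 h2 => absurd ⟨h1, h2⟩ hP⟩
  choose half hhalf using hex
  have hb : ∀ x b, Perfect (half ((R x).S i) b) ∧ (half ((R x).S i) b).Nonempty ∧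
      half ((R x).S i) b ⊆ (R x).S i ∧ ∃ y, half ((R x).S i) b ⊆ cyl y m := fun x b =>
    (hhalf _ ((R x).perf i) ((R x).ne i)).1 b
  have hd : ∀ x, ∀ a b : Bool, a ≠ b →
      Disjoint (half ((R x).S i) a) (half ((R x).S i) b) := by
    intro x a b hab
    have h1 := (hhalf _ ((R x).perf i) ((R x).ne i)).2
    cases a <;> cases b
    · exact absurd rfl hab
    · exact h1
    · exact h1.symm
    · exact absurd rfl hab
  let R' : Can → Cond J := fun x =>
    (R x).upd i (half ((R x).S i) (x m)) (hb x (x m)).1 (hb x (x m)).2.1
  have hS : ∀ x j, (R' x).S j = if j = i then half ((R x).S i) (x m) else (R x).S j :=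
    fun x j => Cond.upd_S _ _ _ _ _ _
  have hle : ∀ x j, (R' x).S j ⊆ (R x).S j := by
    intro x j
    rw [hS]
    split_ifs with h1
    · rw [h1]
      exact (hb x (x m)).2.2.1
    · exact Subset.rfl
  refine ⟨R', ⟨?_, ?_⟩, fun x j => hle x j, ?_⟩
  · intro x y j hxy
    have h1 : ∀ j', j' = j → (R x).S j' = (R y).S j' := by
      rintro _ rfl
      apply h.1 x y
      intro n hn hj
      apply hxy n (by omega)
      rw [Function.update_of_ne (by omega)]
      exact hj
    rw [hS, hS]
    split_ifs with h2
    · have h3 : x m = y m := hxy m (by omega) (by rw [Function.update_self, h2])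
      rw [h3, h1 i h2.symm]
    · exact h1 j rfl
  · intro n hn x y hxy
    by_cases hnm : n = m
    · subst hnm
      rw [Function.update_self]
      by_cases h2 : (R x).S i = (R y).S i
      · rw [hS, hS, if_pos rfl, if_pos rfl, ← h2]
        exact hd x _ _ hxy
      · have h3 : ∃ k < n, β k = i ∧ x k ≠ y k := by
          by_contra hcon
          push Not at hcon
          exact h2 (h.1 x y i hcon)
        obtain ⟨k, hk, hki, hk2⟩ := h3
        have h4 := h.2 k hk x y hk2
        rw [hki] at h4
        exact h4.mono (hle x _) (hle y _)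
    · rw [Function.update_of_ne hnm]
      exact (h.2 n (by omega) x y hxy).mono (hle x _) (hle y _)
  · intro x
    obtain ⟨y, hy⟩ := (hb x (x m)).2.2.2
    refine ⟨y, ?_⟩
    rw [hS, if_pos rfl]
    exact hy

end SX
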