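import Pool.Agent.Helper75.SX.FamB

/-!
# The fusion sequence (module SX-07)

Build `β` and `R m` by recursion.  For a family `R : Can → Cond J` which is product structured of depth `m`
the set `⋃ x, {i | (R x).S i ≠ univ}` is countable, because there are only finitely many different `R x`
(`R x` depends only on the values of `x` below `m`, `PS` and `Cond.ext_S`).  Choose an enumeration
`en R : ℕ → J` whose range contains this set (any function if it is not countable).  Let `t : ℕ → J`
be a function whose range contains `T` (it exists since `J` is nonempty and `T` countable).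

State at stage `m`: `(β, R, E)` with `β : ℕ → J`, `R : Can → Cond J` with `PS β m R`, `R x ∈ D m`, and a table
`E : ℕ → ℕ → J` of enumerations with `E 0 = t`, and `E (a + 1) = en (R_a)` for `a ≤ m`.
Stage `0`: `R = ` refinement (`PS.refine`, depth `0`) of the constant family `p` by `D 0`.
Step: write `m = pair c (pair a b)`; then `a ≤ m` (`Nat.unpair_right_le`, `Nat.unpair_left_le`).  Let
`i = E a b`, `β' = update β m i`, split (`PS.split`), refine by `D (m+1)` (`PS.refine`), and put
`E' = update E (m + 2) (en R')` (the row for `R_{m+1}`).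
The final `β` has `β m = ` the `i` chosen at stage `m` (values below `m` are never changed later;
`PS β m R` only depends on the values of `β` below `m`).
* `T ⊆ range β` : `t b = E 0 b` is chosen at the stages `pair c (pair 0 b)`, all `c`.
* if `(R a x).S i ≠ univ` then `i = en (R_a) b` for some `b`, chosen at all stages `m = pair c (pair (a+1) b)`
  with `a + 1 ≤ m + 1`, i.e. the row `a + 1` is already in the table at stage `m ≥ a`; this holds for all large
  `c`, so `i` is chosen infinitely often (`Nat.left_le_pair`: `c ≤ pair c _`).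
* every value of `β` is chosen infinitely often: `β m = E a b` with `m = pair c (pair a b)` and `E a b` is chosen at
  all stages `pair c' (pair a b)`, `c' ≥ c` (the row `a` of the table does not change any more).

A convenient way to organise this: define the state sequence `s : ℕ → State` by `Nat.rec` (State = a
structure or subtype over `Σ' m`-free data plus `choose` for existence), prove the invariants by
induction, and define `β m = (s (m+1)).β m`.
-/

set_option autoImplicit false

open Set Topology LM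

namespace SX

variable {J : Type}

private theorem famc_congr {β β' : ℕ → J} {m : ℕ} {R : Can → Cond J} (h : PS β m R)
    (hβ : ∀ n < m, β n = β' n) : PS β' m R := by
  refine ⟨fun x y i hxy => h.1 x y i fun n hn hi => hxy n hn ?_, fun n hn x y hxy => ?_⟩
  · rw [← hβ n hn]
    exact hi
  · rw [← hβ n hn]
    exact h.2 n hn x y hxy

private theorem famc_enum [Nonempty J] {T : Set J} (hT : T.Countable) :
    ∃ t : ℕ → J, T ⊆ range t := by
  rcases T.eq_empty_or_nonempty with h | h
  · obtain ⟨j⟩ := ‹Nonempty J›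
    exact ⟨fun _ => j, by
      rw [h]
      exact empty_subset _⟩
  · obtain ⟨t, ht⟩ := hT.exists_eq_range h
    exact ⟨t, ht.subset⟩

private theorem famc_ctb {β : ℕ → J} {m : ℕ} {R : Can → Cond J} (h : PS β m R) :
    (⋃ x, {i | (R x).S i ≠ univ}).Countable := by
  classical
  let ex : (Fin m → Bool) → Can := fun v n => if hn : n < m then v ⟨n, hn⟩ else false
  have h1 : (⋃ x, {i | (R x).S i ≠ univ}) ⊆ ⋃ v, {i | (R (ex v)).S i ≠ univ} := by
    intro i hi
    rw [mem_iUnion] at hi ⊢
    obtain ⟨x, hx⟩ := hi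
    refine ⟨fun n => x n, ?_⟩
    have h2 : (R x).S i = (R (ex fun n => x n)).S i := by
      apply h.1
      intro n hn _
      simp only [ex]
      rw [dif_pos hn]
    change (R (ex fun n => x n)).S i ≠ univ
    rw [← h2]
    exact hx
  exact (countable_iUnion fun v => (R (ex v)).supp).mono h1

private theorem famc_step {D : ℕ → Set (Cond J)} (hD : ∀ m q, ∃ r ∈ D m, r ≤ q)
    (hDo : ∀ m, ∀ q ∈ D m, ∀ r ≤ q, r ∈ D m) (m : ℕ) (β : ℕ → J) (R : Can → Cond J) (i : J) :
    ∃ R' : Can → Cond J, PS β m R → (PS (Function.update β m i) (m + 1) R' ∧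
      (∀ x, R' x ≤ R x) ∧ (∀ x, R' x ∈ D (m + 1)) ∧ ∀ x, ∃ y, (R' x).S i ⊆ cyl y m) := by
  by_cases h : PS β m R
  · obtain ⟨R1, h1, h2, h3⟩ := h.split i
    obtain ⟨R2, g1, g2, g3⟩ := h1.refine (hD (m + 1)) (hDo (m + 1))
    refine ⟨R2, fun _ => ⟨g1, fun x => (g2 x).trans (h2 x), g3, fun x => ?_⟩⟩
    obtain ⟨y, hy⟩ := h3 x
    exact ⟨y, (g2 x i).trans hy⟩
  · exact ⟨R, fun h' => absurd h' h⟩

theorem fam_seq [Nonempty J] (p : Cond J) {T : Set J} (hT : T.Countable) (D : ℕ → Set (Cond J))
    (hD : ∀ m q, ∃ r ∈ D m, r ≤ q) (hDo : ∀ m, ∀ q ∈ D m, ∀ r ≤ q, r ∈ D m) :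
    ∃ (β : ℕ → J) (R : ℕ → Can → Cond J), (∀ x, R 0 x ≤ p) ∧ (∀ m, PS β m (R m)) ∧
      (∀ m x, R (m + 1) x ≤ R m x) ∧ (∀ m x, R m x ∈ D m) ∧
      (∀ m x, ∃ y, (R (m + 1) x).S (β m) ⊆ cyl y m) ∧ T ⊆ range β ∧
      (∀ m x i, (R m x).S i ≠ univ → i ∈ range β) ∧ ∀ n k, ∃ m, k ≤ m ∧ β m = β n := by
  classical
  obtain ⟨t, ht⟩ := famc_enum hT
  choose nx hnx using famc_step hD hDo
  have hen : ∀ R : Can → Cond J, ∃ f : ℕ → J, (⋃ x, {i | (R x).S i ≠ univ}).Countable →
      (⋃ x, {i | (R x).S i ≠ univ}) ⊆ range f := by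
    intro R
    by_cases h : (⋃ x, {i | (R x).S i ≠ univ}).Countable
    · obtain ⟨f, hf⟩ := famc_enum h
      exact ⟨f, fun _ => hf⟩
    · exact ⟨t, fun h' => absurd h' h⟩
  choose en hen using hen
  have hps0 : PS (fun _ => t 0) 0 (fun _ => p) :=
    ⟨fun _ _ _ _ => rfl, fun n hn => absurd hn (Nat.not_lt_zero n)⟩
  obtain ⟨R0, hR0, hR0p, hR0D⟩ := hps0.refine (hD 0) (hDo 0)
  let ix : (ℕ → ℕ → J) → ℕ → J := fun E m => E m.unpair.2.unpair.1 m.unpair.2.unpair.2
  let st : ℕ → (ℕ → J) × (Can → Cond J) × (ℕ → ℕ → J) := fun m => Nat.rec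
    (fun _ => t 0, R0, fun a => if a = 0 then t else en R0)
    (fun m s => (Function.update s.1 m (ix s.2.2 m), nx m s.1 s.2.1 (ix s.2.2 m),
      Function.update s.2.2 (m + 2) (en (nx m s.1 s.2.1 (ix s.2.2 m))))) m
  have hst : ∀ m, st (m + 1) = (Function.update (st m).1 m (ix (st m).2.2 m),
      nx m (st m).1 (st m).2.1 (ix (st m).2.2 m),
      Function.update (st m).2.2 (m + 2) (en (nx m (st m).1 (st m).2.1 (ix (st m).2.2 m)))) :=
    fun m => rfl
  let β : ℕ → J := fun m => ix (st m).2.2 m
  let R : ℕ → Can → Cond J := fun m => (st m).2.1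
  have hRs : ∀ m, R (m + 1) = nx m (st m).1 (R m) (β m) := fun m => rfl
  have hβs : ∀ m, (st (m + 1)).1 = Function.update (st m).1 m (β m) := fun m => rfl
  have hinv : ∀ m, PS (st m).1 m (R m) := by
    intro m
    induction m with
    | zero => exact hR0
    | succ m ih =>
      rw [hRs, hβs]
      exact (hnx m (st m).1 (R m) (β m) ih).1
  have hβ : ∀ m, ∀ n < m, (st m).1 n = β n := by
    intro m
    induction m with
    | zero => exact fun n hn => absurd hn (Nat.not_lt_zero n)
    | succ m ih =>
      intro n hn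
      rw [hβs]
      by_cases h : n = m
      · rw [h, Function.update_self]
      · rw [Function.update_of_ne h]
        exact ih n (by omega)
  let Ef : ℕ → ℕ → J := fun a => if a = 0 then t else en (R (a - 1))
  have hE : ∀ m, ∀ a ≤ m + 1, (st m).2.2 a = Ef a := by
    intro m
    induction m with
    | zero =>
      intro a ha
      change (if a = 0 then t else en R0) = if a = 0 then t else en (R (a - 1))
      split_ifs with h0
      · rfl
      · have h1 : a - 1 = 0 := by omega
        rw [h1]
        rfl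
    | succ m ih =>
      intro a ha
      have h1 : (st (m + 1)).2.2 = Function.update (st m).2.2 (m + 2) (en (R (m + 1))) := rfl
      rw [h1]
      by_cases h : a = m + 2
      · rw [h, Function.update_self]
        rfl
      · rw [Function.update_of_ne h]
        exact ih a (by omega)
  have hβE : ∀ c a b, β (Nat.pair c (Nat.pair a b)) = Ef a b := by
    intro c a b
    have h1 : β (Nat.pair c (Nat.pair a b)) =
        (st (Nat.pair c (Nat.pair a b))).2.2 a b := by
      change ix (st (Nat.pair c (Nat.pair a b))).2.2 (Nat.pair c (Nat.pair a b)) = _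
      simp only [ix, Nat.unpair_pair]
    rw [h1, hE _ a]
    have h2 : a ≤ Nat.pair a b := Nat.left_le_pair a b
    have h3 : Nat.pair a b ≤ Nat.pair c (Nat.pair a b) := Nat.right_le_pair c _
    omega
  have hPS : ∀ m, PS β m (R m) := fun m => famc_congr (hinv m) (hβ m)
  refine ⟨β, R, hR0p, hPS, fun m x => ?_, fun m x => ?_, fun m x => ?_, ?_, ?_, ?_⟩
  · rw [hRs]
    exact (hnx m (st m).1 (R m) (β m) (hinv m)).2.1 x
  · cases m with
    | zero => exact hR0D x
    | succ m =>
      rw [hRs]
      exact (hnx m (st m).1 (R m) (β m) (hinv m)).2.2.1 x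
  · rw [hRs]
    exact (hnx m (st m).1 (R m) (β m) (hinv m)).2.2.2 x
  · intro x hx
    obtain ⟨b, rfl⟩ := ht hx
    exact ⟨_, hβE 0 0 b⟩
  · intro m x i hi
    obtain ⟨b, rfl⟩ := hen (R m) (famc_ctb (hPS m)) (mem_iUnion.2 ⟨x, hi⟩)
    exact ⟨_, hβE 0 (m + 1) b⟩
  · intro n k
    have h1 : n = Nat.pair n.unpair.1 (Nat.pair n.unpair.2.unpair.1 n.unpair.2.unpair.2) := by
      rw [Nat.pair_unpair, Nat.pair_unpair]
    refine ⟨Nat.pair k (Nat.pair n.unpair.2.unpair.1 n.unpair.2.unpair.2),
      Nat.left_le_pair _ _, ?_⟩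
    rw [hβE, h1, hβE]
    simp only [Nat.unpair_pair]

end SX
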