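import Pool.Agent.Helper75.SX.Tasks

/-!
# The two-sided fusion, the sequence (module SX-18)

`spr pos j u` is the point with the bits `u i`, `i < j`, at the positions `pos i` and `false` elsewhere.

`kf_seq`.  Choose for every `n` a position `sp n` with `Λ' n ≤ sp n < Λ (n+1)` and `β₂ (sp n) = β₂ (blk n)`
(hypothesis `room` for `j = blk n ≤ n`).  Then define by recursion on `n` the state `(pos, k, B)`, where
`pos : ℕ → ℕ` (only the values below `blk n` matter), `k : ℕ`, `B : Can → Can`: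
* Start: `pos = 0`, `k = 0`, `B v = fun _ => false`.
* Step: let `a₀ = spr pos (blk n) (s n)`, `τ₀ = B (t n)`.  If `n₀ ≤ n` let `b` be given by `hR n a₀ τ₀`, otherwise `b = τ₀`.
  If `n₀ ≤ n`: the set `{a₀} ×ˢ cyl b (Λ' n)` is compact and contained in the open set `P n`, so there is `k'` with
  `cyl a₀ k' ×ˢ cyl b (Λ' n) ⊆ P n` (`generalized_tube_lemma`, `cyl_basis`); otherwise `k' = 0`.  The new `k` is
  `max k k'`, increased if necessary so that it is larger than all `pos i`, `i < blk n`.  The new `B` is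
  `fun v p => if p < Λ n then B v p else if p < Λ' n then (if ∀ i < blk n, β₂ i = β₂ p → v i = t n i then b p else false)
  else if blk (n+1) = blk n + 1 ∧ p = sp n then v (blk n) else false`.
  If `blk (n+1) = blk n + 1` choose a new value `pos (blk n) ≥ k_new` with `β₁ (pos (blk n)) = β₁ (blk n)` (hypothesis
  `h₁`; `pos := Function.update pos (blk n) _`), otherwise `pos` is not changed.
The final `pos i` is the value chosen at the end of block `i` (`Tasks.exists_end`); the values below `blk n` do not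
change after stage `n` (`Tasks.mono`).  `pos i ≥ k (n+1)` for `blk n ≤ i`: it is chosen at a stage `n' ≥ n` and
`k` is monotone.  `StrictMono pos`: the new value is at least the new `k`, which is larger than all previous values.
-/

set_option autoImplicit false

open Set Topology

namespace SX

/-- the bits `u i`, `i < j`, at the positions `pos i` -/
noncomputable def spr (pos : ℕ → ℕ) (j : ℕ) (u : Can) : Can := fun p => by
  classical exact decide (∃ i < j, pos i = p ∧ u i = true)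

private theorem spr_congr_aux {pos pos' : ℕ → ℕ} {j : ℕ} (h : ∀ i < j, pos i = pos' i) (u : Can) :
    spr pos j u = spr pos' j u := by
  funext p
  unfold spr
  rw [decide_eq_decide]
  constructor
  · rintro ⟨i, hi, h1, h2⟩
    exact ⟨i, hi, by rw [← h i hi]; exact h1, h2⟩
  · rintro ⟨i, hi, h1, h2⟩
    exact ⟨i, hi, by rw [h i hi]; exact h1, h2⟩

open Classical in
/-- the new value of `B` -/
private noncomputable def newB {J₂ : Type} (K : Tasks) (β₂ : ℕ → J₂) (Λ Λ' sp : ℕ → ℕ) (n : ℕ)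
    (b : Can) (B : Can → Can) : Can → Can := fun v p =>
  if p < Λ n then B v p
  else if p < Λ' n then (if ∀ i < K.blk n, β₂ i = β₂ p → v i = K.t n i then b p else false)
  else if K.blk (n + 1) = K.blk n + 1 ∧ p = sp n then v (K.blk n) else false

theorem kf_seq (K : Tasks) {J₁ J₂ : Type} (β₁ : ℕ → J₁) (β₂ : ℕ → J₂)
    (h₁ : ∀ n k, ∃ m, k ≤ m ∧ β₁ m = β₁ n) (Λ Λ' : ℕ → ℕ) (hΛ : ∀ n, Λ n ≤ Λ' n ∧ Λ' n ≤ Λ (n + 1))
    (room : ∀ n, ∀ j ≤ n, ∃ p, Λ' n ≤ p ∧ p < Λ (n + 1) ∧ β₂ p = β₂ j) (P : ℕ → Set (Can × Can))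
    (hP : ∀ n, IsOpen (P n)) (n₀ : ℕ)
    (hR : ∀ n, n₀ ≤ n → ∀ a τ, ∃ b ∈ cyl τ (Λ n), ∀ b' ∈ cyl b (Λ' n), (a, b') ∈ P n) :
    ∃ (pos k sp : ℕ → ℕ) (B : ℕ → Can → Can) (b : ℕ → Can),
      StrictMono pos ∧ (∀ i, β₁ (pos i) = β₁ i) ∧ Monotone k ∧ (∀ n i, K.blk n ≤ i → k (n + 1) ≤ pos i) ∧
      (∀ n, Λ' n ≤ sp n ∧ sp n < Λ (n + 1) ∧ β₂ (sp n) = β₂ (K.blk n)) ∧
      (∀ v, B 0 v = fun _ => false) ∧
      (∀ n v p, p < Λ n → B (n + 1) v p = B n v p) ∧
      (∀ n v p, Λ n ≤ p → p < Λ' n → (∀ i < K.blk n, β₂ i = β₂ p → v i = K.t n i) →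
        B (n + 1) v p = b n p) ∧
      (∀ n v p, Λ n ≤ p → p < Λ' n → (¬ ∀ i < K.blk n, β₂ i = β₂ p → v i = K.t n i) →
        B (n + 1) v p = false) ∧
      (∀ n v p, Λ' n ≤ p → K.blk (n + 1) = K.blk n + 1 → p = sp n → B (n + 1) v p = v (K.blk n)) ∧
      (∀ n v p, Λ' n ≤ p → ¬ (K.blk (n + 1) = K.blk n + 1 ∧ p = sp n) → B (n + 1) v p = false) ∧
      (∀ n, b n ∈ cyl (B n (K.t n)) (Λ n)) ∧
      ∀ n, n₀ ≤ n → ∀ a ∈ cyl (spr pos (K.blk n) (K.s n)) (k (n + 1)), ∀ b' ∈ cyl (b n) (Λ' n),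
        (a, b') ∈ P n := by
  classical
  have hA : ∀ (n : ℕ) (a₀ τ₀ : Can), ∃ (b : Can) (k' : ℕ), b ∈ cyl τ₀ (Λ n) ∧
      (n₀ ≤ n → ∀ a ∈ cyl a₀ k', ∀ b' ∈ cyl b (Λ' n), (a, b') ∈ P n) := by
    intro n a₀ τ₀
    by_cases hn : n₀ ≤ n
    · obtain ⟨b, hb, hb'⟩ := hR n hn a₀ τ₀
      obtain ⟨u, v, hu, _, hau, htv, huv⟩ := generalized_tube_lemma (s := {a₀}) isCompact_singleton
        (t := cyl b (Λ' n)) (isClopen_cyl b (Λ' n)).isClosed.isCompact (hP n) (by
          rintro ⟨x, y⟩ ⟨hx, hy⟩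
          have hx' : x = a₀ := hx
          subst hx'
          exact hb' y hy)
      obtain ⟨k', hk'⟩ := cyl_basis (hu.mem_nhds (hau rfl))
      exact ⟨b, k', hb, fun _ a ha b' hb' => huv ⟨hk' ha, htv hb'⟩⟩
    · exact ⟨τ₀, 0, fun _ _ => rfl, fun h => absurd h hn⟩
  choose bf kf hbf hPf using hA
  choose pf hpf1 hpf2 using h₁
  have hsp : ∀ n, ∃ p, Λ' n ≤ p ∧ p < Λ (n + 1) ∧ β₂ p = β₂ (K.blk n) :=
    fun n => room n (K.blk n) (K.blk_le n)
  choose sp hsp1 hsp2 hsp3 using hsp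
  have hen : ∀ i, ∃ n, K.blk n = i ∧ K.blk (n + 1) = i + 1 := K.exists_end
  choose en hen1 hen2 using hen
  let a0 : ℕ → ((ℕ → ℕ) × ℕ × (Can → Can)) → Can := fun n σ => spr σ.1 (K.blk n) (K.s n)
  let bn : ℕ → ((ℕ → ℕ) × ℕ × (Can → Can)) → Can := fun n σ => bf n (a0 n σ) (σ.2.2 (K.t n))
  let kn : ℕ → ((ℕ → ℕ) × ℕ × (Can → Can)) → ℕ := fun n σ =>
    max (max σ.2.1 (kf n (a0 n σ) (σ.2.2 (K.t n)))) (1 + ∑ i ∈ Finset.range (K.blk n), σ.1 i)
  let seq : ℕ → ((ℕ → ℕ) × ℕ × (Can → Can)) := fun n =>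
    Nat.rec (fun _ => 0, 0, fun _ _ => false) (fun n σ =>
      (if K.blk (n + 1) = K.blk n + 1 then Function.update σ.1 (K.blk n) (pf (K.blk n) (kn n σ)) else σ.1,
        kn n σ, newB K β₂ Λ Λ' sp n (bn n σ) σ.2.2)) n
  have hs0 : seq 0 = (fun _ => 0, 0, fun _ _ => false) := rfl
  have hs1 : ∀ n, seq (n + 1) = (if K.blk (n + 1) = K.blk n + 1 then
      Function.update (seq n).1 (K.blk n) (pf (K.blk n) (kn n (seq n))) else (seq n).1,
        kn n (seq n), newB K β₂ Λ Λ' sp n (bn n (seq n)) (seq n).2.2) := fun n => rfl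
  set k : ℕ → ℕ := fun n => (seq n).2.1 with hk
  have hk1 : ∀ n, k (n + 1) = kn n (seq n) := fun n => rfl
  set pos : ℕ → ℕ := fun i => pf i (k (en i + 1)) with hpos
  have hmono : Monotone K.blk := K.mono
  have huniq : ∀ n, K.blk (n + 1) = K.blk n + 1 → en (K.blk n) = n := by
    intro n hn
    rcases lt_trichotomy (en (K.blk n)) n with h | h | h
    · have h1 := hmono (Nat.succ_le_of_lt h)
      have h2 := hen2 (K.blk n)
      rw [Nat.succ_eq_add_one, h2] at h1
      omega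
    · exact h
    · have h1 := hmono (Nat.succ_le_of_lt h)
      have h2 := hen1 (K.blk n)
      rw [Nat.succ_eq_add_one, hn, h2] at h1
      omega
  have hpeq : ∀ n, ∀ i < K.blk n, (seq n).1 i = pos i := by
    intro n
    induction n with
    | zero =>
      intro i hi
      rw [K.zero] at hi
      omega
    | succ n ih =>
      intro i hi
      rw [hs1]
      by_cases hb : K.blk (n + 1) = K.blk n + 1
      · simp only [if_pos hb]
        rw [hb] at hi
        by_cases hin : i = K.blk n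
        · subst hin
          rw [Function.update_self]
          simp only [hpos]
          rw [huniq n hb, hk1]
        · rw [Function.update_of_ne hin]
          exact ih i (by omega)
      · simp only [if_neg hb]
        have h1 : K.blk (n + 1) = K.blk n := (K.step n).resolve_right hb
        rw [h1] at hi
        exact ih i hi
  have hkmono : Monotone k := by
    refine monotone_nat_of_le_succ fun n => ?_
    rw [hk1]
    exact (le_max_left _ _).trans (le_max_left _ _)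
  have hkbig : ∀ n, ∀ i < K.blk n, pos i < k (n + 1) := by
    intro n i hi
    rw [hk1, ← hpeq n i hi]
    have h1 : (seq n).1 i ≤ ∑ i ∈ Finset.range (K.blk n), (seq n).1 i :=
      Finset.single_le_sum (f := fun i => (seq n).1 i) (fun _ _ => Nat.zero_le _)
        (Finset.mem_range.2 hi)
    have h2 : 1 + ∑ i ∈ Finset.range (K.blk n), (seq n).1 i ≤ kn n (seq n) := le_max_right _ _
    omega
  have hBdef : ∀ n v p, (seq (n + 1)).2.2 v p =
      newB K β₂ Λ Λ' sp n (bn n (seq n)) (seq n).2.2 v p := fun n v p => rfl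
  refine ⟨pos, k, sp, fun n => (seq n).2.2, fun n => bn n (seq n), ?_, ?_, hkmono, ?_, ?_, ?_, ?_, ?_,
    ?_, ?_, ?_, ?_, ?_⟩
  · refine strictMono_nat_of_lt_succ fun i => ?_
    have h1 : pos i < k (en (i + 1) + 1) := hkbig _ _ (by rw [hen1]; omega)
    exact lt_of_lt_of_le h1 (hpf1 _ _)
  · intro i
    exact hpf2 _ _
  · intro n i hni
    have h1 : n ≤ en i := by
      by_contra hcon
      push Not at hcon
      have h2 := hmono (Nat.succ_le_of_lt hcon)
      rw [Nat.succ_eq_add_one, hen2 i] at h2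
      omega
    exact (hkmono (Nat.succ_le_succ h1)).trans (hpf1 _ _)
  · exact fun n => ⟨hsp1 n, hsp2 n, hsp3 n⟩
  · intro v
    rfl
  · intro n v p hp
    show (seq (n + 1)).2.2 v p = (seq n).2.2 v p
    rw [hBdef]
    unfold newB
    rw [if_pos hp]
  · intro n v p hp1 hp2 hv
    show (seq (n + 1)).2.2 v p = bn n (seq n) p
    rw [hBdef]
    unfold newB
    rw [if_neg (not_lt.2 hp1), if_pos hp2, if_pos hv]
  · intro n v p hp1 hp2 hv
    show (seq (n + 1)).2.2 v p = false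
    rw [hBdef]
    unfold newB
    rw [if_neg (not_lt.2 hp1), if_pos hp2, if_neg hv]
  · intro n v p hp1 hb hps
    show (seq (n + 1)).2.2 v p = v (K.blk n)
    rw [hBdef]
    unfold newB
    rw [if_neg (not_lt.2 ((hΛ n).1.trans hp1)), if_neg (not_lt.2 hp1), if_pos ⟨hb, hps⟩]
  · intro n v p hp1 hb
    show (seq (n + 1)).2.2 v p = false
    rw [hBdef]
    unfold newB
    rw [if_neg (not_lt.2 ((hΛ n).1.trans hp1)), if_neg (not_lt.2 hp1), if_neg hb]
  · intro n
    exact hbf _ _ _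
  · intro n hn a ha b' hb'
    have h1 : spr pos (K.blk n) (K.s n) = a0 n (seq n) :=
      (spr_congr_aux (fun i hi => hpeq n i hi) (K.s n)).symm
    rw [h1] at ha
    refine hPf n (a0 n (seq n)) ((seq n).2.2 (K.t n)) hn a (fun i hi => ha i ?_) b' hb'
    refine lt_of_lt_of_le hi ?_
    rw [hk1]
    exact (le_max_right _ _).trans (le_max_left _ _)

end SX
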