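import Pool.Agent.Helper75.SX.KFA
import Pool.Agent.Helper75.SX.Sch

/-!
# The two-sided fusion (module SX-19)

Take the objects of `kf_seq`.  `Λ` is strictly increasing (`room n n` and `hΛ`), so `n ≤ Λ n`.

`φ₁ u p = decide (∃ i, pos i = p ∧ u i = true)` (all bits).  `Emb β₁ φ₁`: continuity coordinatewise (a coordinate
depends on at most one bit of `u`).  `iff`: (→) if `β₁ i = β₁ n` then `β₁ (pos i) = β₁ n` and
`u i = φ₁ u (pos i) = φ₁ v (pos i) = v i`; (←) if `β₁ m = β₁ n` and `m = pos i` then `β₁ i = β₁ m = β₁ n`, so `u i = v i`.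

`φ₂ v p = B n v p` for any `n` with `p < Λ n` (e.g. `n = p + 1`), well defined since `B (n+1) v p = B n v p` for
`p < Λ n`.  Facts, by induction on `n`: (i) `B n v` depends only on the bits `v i`, `i < blk n`;
(ii) if `v i = v' i` for all `i` with `β₂ i = β₂ q` then `B n v p = B n v' p` for all `p` with `β₂ p = β₂ q` (for
`p = sp n`: `β₂ (blk n) = β₂ (sp n) = β₂ q`).  So `φ₂` is continuous (coordinates depend on finitely many bits) and
(←) of `iff` holds.  (→): for `i` take `n` with `blk n = i`, `blk (n+1) = i + 1` (`Tasks.exists_end`); then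
`φ₂ v (sp n) = B (n+1) v (sp n) = v i` (`sp n < Λ (n+1)`) and `β₂ (sp n) = β₂ i`.

Conclusion: given `u, v, j` take `n` from `K.cov j u v`; `n₀ ≤ n` by hypothesis.  (a) `φ₁ u` agrees with
`spr pos j (K.s n)` below `k (n+1)`: the bits `i < j` agree, and the bits `i ≥ j = blk n` sit at positions
`pos i ≥ k (n+1)`.  (b) `φ₂ v` agrees with `B (n+1) v` below `Λ (n+1) ≥ Λ' n`, and `B (n+1) v` agrees with `b n` below
`Λ' n`: for `p < Λ n`, `B (n+1) v p = B n v p = B n (K.t n) p` (by (i)) `= b n p`; for `Λ n ≤ p < Λ' n` the condition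
`∀ i < blk n, β₂ i = β₂ p → v i = K.t n i` holds.  So `(φ₁ u, φ₂ v) ∈ P n`.
-/

set_option autoImplicit false

open Set Topology

namespace SX

private theorem cont_of_bits {φ : Can → Can} (h : ∀ p, ∃ m, ∀ x y : Can, (∀ i < m, x i = y i) → φ x p = φ y p) :
    Continuous φ := by
  rw [continuous_pi_iff]
  intro p
  rw [continuous_iff_continuousAt]
  intro x
  obtain ⟨m, hm⟩ := h p
  have h1 : (fun y => φ y p) =ᶠ[𝓝 x] fun _ => φ x p := by
    have h2 : cyl x m ∈ 𝓝 x := (isClopen_cyl x m).isOpen.mem_nhds fun _ _ => rfl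
    filter_upwards [h2] with y hy
    exact hm y x hy
  exact continuousAt_const.congr h1.symm

theorem kf (K : Tasks) {J₁ J₂ : Type} (β₁ : ℕ → J₁) (β₂ : ℕ → J₂)
    (h₁ : ∀ n k, ∃ m, k ≤ m ∧ β₁ m = β₁ n) (Λ Λ' : ℕ → ℕ) (hΛ : ∀ n, Λ n ≤ Λ' n ∧ Λ' n ≤ Λ (n + 1))
    (room : ∀ n, ∀ j ≤ n, ∃ p, Λ' n ≤ p ∧ p < Λ (n + 1) ∧ β₂ p = β₂ j) (P : ℕ → Set (Can × Can))
    (hP : ∀ n, IsOpen (P n)) (n₀ : ℕ)
    (hR : ∀ n, n₀ ≤ n → ∀ a τ, ∃ b ∈ cyl τ (Λ n), ∀ b' ∈ cyl b (Λ' n), (a, b') ∈ P n) :
    ∃ φ₁ φ₂ : Can → Can, Emb β₁ φ₁ ∧ Emb β₂ φ₂ ∧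
      ∀ (u v : Can) (j : ℕ), (∀ n, K.blk n = j → n₀ ≤ n) → ∃ n, K.blk n = j ∧ (φ₁ u, φ₂ v) ∈ P n := by
  classical
  obtain ⟨pos, k, sp, B, b, hpos, hβ₁, hk, hkpos, hsp, hB0, hB1, hB2, hB3, hB4, hB5, hb, hPn⟩ :=
    kf_seq K β₁ β₂ h₁ Λ Λ' hΛ room P hP n₀ hR
  have hΛmono : StrictMono Λ := by
    refine strictMono_nat_of_lt_succ fun n => ?_
    obtain ⟨h2, h3, _⟩ := hsp n
    exact lt_of_le_of_lt ((hΛ n).1.trans h2) h3
  have hΛn : ∀ n, n ≤ Λ n := hΛmono.id_le
  set φ₁ : Can → Can := fun u p => decide (∃ i, pos i = p ∧ u i = true) with hφ₁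
  set φ₂ : Can → Can := fun v p => B (p + 1) v p with hφ₂
  -- stability
  have hst : ∀ n m v p, p < Λ n → n ≤ m → B m v p = B n v p := by
    intro n m v p hp hnm
    induction m, hnm using Nat.le_induction with
    | base => rfl
    | succ m hm ih =>
      rw [hB1 m v p (lt_of_lt_of_le hp (hΛmono.monotone hm)), ih]
  have hst2 : ∀ n v p, p < Λ n → φ₂ v p = B n v p := by
    intro n v p hp
    have hp1 : p < Λ (p + 1) := hΛn (p + 1)
    show B (p + 1) v p = B n v p
    rcases le_total n (p + 1) with h | h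
    · exact hst n (p + 1) v p hp h
    · exact (hst (p + 1) n v p hp1 h).symm
  have hloc : ∀ n v v', (∀ i < K.blk n, v i = v' i) → ∀ p, B n v p = B n v' p := by
    intro n
    induction n with
    | zero =>
      intro v v' _ p
      rw [hB0, hB0]
    | succ n ih =>
      intro v v' h p
      have hm : K.blk n ≤ K.blk (n + 1) := K.mono (Nat.le_succ n)
      have h' : ∀ i < K.blk n, v i = v' i := fun i hi => h i (lt_of_lt_of_le hi hm)
      rcases lt_or_ge p (Λ n) with hp | hp
      · rw [hB1 n v p hp, hB1 n v' p hp]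
        exact ih v v' h' p
      · rcases lt_or_ge p (Λ' n) with hp2 | hp2
        · by_cases hc : ∀ i < K.blk n, β₂ i = β₂ p → v i = K.t n i
          · have hc' : ∀ i < K.blk n, β₂ i = β₂ p → v' i = K.t n i := fun i hi hip => by
              rw [← h' i hi]
              exact hc i hi hip
            rw [hB2 n v p hp hp2 hc, hB2 n v' p hp hp2 hc']
          · have hc' : ¬ ∀ i < K.blk n, β₂ i = β₂ p → v' i = K.t n i := fun hcc => hc
              fun i hi hip => by
                rw [h' i hi]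
                exact hcc i hi hip
            rw [hB3 n v p hp hp2 hc, hB3 n v' p hp hp2 hc']
        · by_cases hc : K.blk (n + 1) = K.blk n + 1 ∧ p = sp n
          · rw [hB4 n v p hp2 hc.1 hc.2, hB4 n v' p hp2 hc.1 hc.2]
            exact h _ (by omega)
          · rw [hB5 n v p hp2 hc, hB5 n v' p hp2 hc]
  have hcoord : ∀ n q v v', (∀ i, β₂ i = β₂ q → v i = v' i) → ∀ p, β₂ p = β₂ q →
      B n v p = B n v' p := by
    intro n q
    induction n with
    | zero =>
      intro v v' _ p _
      rw [hB0, hB0]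
    | succ n ih =>
      intro v v' h p hpq
      rcases lt_or_ge p (Λ n) with hp | hp
      · rw [hB1 n v p hp, hB1 n v' p hp]
        exact ih v v' h p hpq
      · rcases lt_or_ge p (Λ' n) with hp2 | hp2
        · by_cases hc : ∀ i < K.blk n, β₂ i = β₂ p → v i = K.t n i
          · have hc' : ∀ i < K.blk n, β₂ i = β₂ p → v' i = K.t n i := fun i hi hip => by
              rw [← h i (hip.trans hpq)]
              exact hc i hi hip
            rw [hB2 n v p hp hp2 hc, hB2 n v' p hp hp2 hc']
          · have hc' : ¬ ∀ i < K.blk n, β₂ i = β₂ p → v' i = K.t n i := fun hcc => hc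
              fun i hi hip => by
                rw [h i (hip.trans hpq)]
                exact hcc i hi hip
            rw [hB3 n v p hp hp2 hc, hB3 n v' p hp hp2 hc']
        · by_cases hc : K.blk (n + 1) = K.blk n + 1 ∧ p = sp n
          · rw [hB4 n v p hp2 hc.1 hc.2, hB4 n v' p hp2 hc.1 hc.2]
            apply h
            rw [← (hsp n).2.2, ← hc.2]
            exact hpq
          · rw [hB5 n v p hp2 hc, hB5 n v' p hp2 hc]
  have hE1 : Emb β₁ φ₁ := by
    constructor
    · refine cont_of_bits fun p => ⟨p + 1, fun x y hxy => ?_⟩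
      simp only [hφ₁]
      rw [decide_eq_decide]
      constructor
      · rintro ⟨i, hi, hx⟩
        have h2 := hpos.id_le i
        simp only [id] at h2
        exact ⟨i, hi, by rw [← hxy i (by omega)]; exact hx⟩
      · rintro ⟨i, hi, hx⟩
        have h2 := hpos.id_le i
        simp only [id] at h2
        exact ⟨i, hi, by rw [hxy i (by omega)]; exact hx⟩
    · intro n x y
      have hval : ∀ (u : Can) (i : ℕ), φ₁ u (pos i) = u i := by
        intro u i
        simp only [hφ₁]
        rcases hui : u i with _ | _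
        · rw [decide_eq_false_iff_not]
          rintro ⟨i', h2, h3⟩
          rw [hpos.injective h2, hui] at h3
          exact absurd h3 (by decide)
        · rw [decide_eq_true_iff]
          exact ⟨i, rfl, hui⟩
      constructor
      · intro h i hi
        have h2 := h (pos i) ((hβ₁ i).trans hi)
        rwa [hval, hval] at h2
      · intro h m hm
        simp only [hφ₁]
        rw [decide_eq_decide]
        constructor
        · rintro ⟨i, hi, hx⟩
          refine ⟨i, hi, ?_⟩
          rw [← h i (by rw [← hβ₁ i, hi]; exact hm)]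
          exact hx
        · rintro ⟨i, hi, hx⟩
          refine ⟨i, hi, ?_⟩
          rw [h i (by rw [← hβ₁ i, hi]; exact hm)]
          exact hx
  have hE2 : Emb β₂ φ₂ := by
    constructor
    · exact cont_of_bits fun p => ⟨K.blk (p + 1), fun x y hxy => hloc (p + 1) x y hxy p⟩
    · intro n x y
      constructor
      · intro h i hi
        obtain ⟨m, hm1, hm2⟩ := K.exists_end i
        obtain ⟨h2, h3, h4⟩ := hsp m
        have h5 : ∀ v, φ₂ v (sp m) = v i := by
          intro v
          rw [hst2 (m + 1) v (sp m) h3, hB4 m v (sp m) h2 (by rw [hm2, hm1]) rfl, hm1]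
        have h6 := h (sp m) (by rw [h4, hm1]; exact hi)
        rwa [h5, h5] at h6
      · intro h m hm
        exact hcoord (m + 1) n x y h m hm
  refine ⟨φ₁, φ₂, hE1, hE2, ?_⟩
  intro u v j hj
  obtain ⟨n, hn, hs, ht⟩ := K.cov j u v
  refine ⟨n, hn, ?_⟩
  refine hPn n (hj n hn) (φ₁ u) ?_ (φ₂ v) ?_
  · intro p hp
    simp only [hφ₁, spr]
    rw [decide_eq_decide]
    constructor
    · rintro ⟨i, hi, hx⟩
      have hij : i < K.blk n := by
        by_contra hcon
        push Not at hcon
        have := hkpos n i hcon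
        omega
      refine ⟨i, hij, hi, ?_⟩
      rw [hs i (by omega)]
      exact hx
    · rintro ⟨i, hij, hi, hx⟩
      refine ⟨i, hi, ?_⟩
      rw [← hs i (by omega)]
      exact hx
  · intro p hp
    have hv : ∀ i < K.blk n, v i = K.t n i := fun i hi => (ht i (by omega)).symm
    rcases lt_or_ge p (Λ n) with hp2 | hp2
    · rw [hst2 n v p hp2, hloc n v (K.t n) hv p]
      exact (hb n p hp2).symm
    · rw [hst2 (n + 1) v p (lt_of_lt_of_le hp (hΛ n).2)]
      exact hB2 n v p hp2 hp fun i hi _ => hv i hi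

end SX
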