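import Pool.Agent.Helper75.SX.Tasks
import Pool.Agent.Helper75.SX.Sch

/-!
# Response systems (definition)
-/

set_option autoImplicit false

open Set Topology

namespace SX

/-- A response system for the function `f (mix N κ a)`, `κ ∈ Z`: levels `Λ n ≤ Λ' n ≤ Λ (n+1)` with room for
the positions of all labels, open sets `B n` such that for every `κ ∈ Z`, every `z` in a bounded set and all
large `n` every node of level `Λ n` has an extension of level `Λ' n` on which `(κ, z - f (mix N κ ·))` stays in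
`B n`; and a code, locally constant in `κ`, for a set in the ideal which contains all `z` which are in `B n` for
some `n` in every late block. -/
structure Resp (K : Tasks) {J : Type} (β : ℕ → J) {d : ℕ} (I : Idl) (N : Set ℕ) (f : Can → Euc d)
    (Z : Set Can) where
  Λ : ℕ → ℕ
  Λ' : ℕ → ℕ
  hΛ : ∀ n, Λ n ≤ Λ' n ∧ Λ' n ≤ Λ (n + 1)
  room : ∀ n, ∀ j ≤ n, ∃ p, Λ' n ≤ p ∧ p < Λ (n + 1) ∧ β p = β j
  B : ℕ → Set (Can × Euc d)
  opn : ∀ n, IsOpen (B n)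
  resp : ∀ M : ℝ, ∃ n₀ : ℕ, ∀ n, n₀ ≤ n → ∀ κ ∈ Z, ∀ z : Euc d, ‖z‖ ≤ M → ∀ τ,
    ∃ a ∈ cyl τ (Λ n), ∀ a' ∈ cyl a (Λ' n), (κ, z - f (mix N κ a')) ∈ B n
  code : Can → ℕ → Box d
  loc : ∀ k, ∃ l, ∀ κ κ', (∀ i < l, κ i = κ' i) → code κ k = code κ' k
  valid : ∀ κ, Valid I (code κ)
  hit : ∀ (κ : Can) (z : Euc d), (∃ j₀ : ℕ, ∀ j, j₀ ≤ j → ∃ n, K.blk n = j ∧ (κ, z) ∈ B n) →
    z ∈ bset I (code κ)

end SX
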