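import Pool.Agent.Helper75.SX.Local
import Pool.Agent.Helper75.SX.RespDef

/-!
# The root generic (module SX-28)

`kap h N q G` is the point `κ` with `e n κ = gen G (β n)` for `n ∈ N` and `κ n = false` for `n ∉ N`, if `q ∈ G` and such
a point exists (it is unique by `inj`), and `fun _ => false` otherwise.

* `kap_eq`: uniqueness.
* `cname_kap`: let `p` be a condition and `k : ℕ`; let `l` be such that `code κ k` depends only on the values of `κ` below
  `l` (`loc`).  If there is no `s ≤ p, q`, then no filter contains `p` and `q`, so `p` forces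
  `code (kap G) k = code (fun _ => false) k`.  Otherwise let `s ≤ p, q`.  Choose points `c n ∈ s.S (β n)` depending only
  on `β n` and by `branch_of`-like argument a point `κ₀` with `e n κ₀ = c (β n)` for all `n ∈ N` (`s.S (β n) ⊆ q.S (β n) ⊆
  range (e n)` for `n ∈ N`; for the other coordinates take `c (β n) = e n (fun _ => false)`, and apply `branch_of h c`).
  Apply `localize` to `s`, `κ₀` and the open set `O = cyl (mask N κ₀) l`: `r' ≤ s` such that every `κ` with
  `e n κ ∈ r'.S (β n)` for all `n ∈ N` satisfies `mask N κ ∈ cyl (mask N κ₀) l`.  For a filter `G` containing `r'`: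
  `q ∈ G.S`; the point `κ = kap G` (if it exists, then `e n κ = gen G (β n) ∈ r'.S (β n)`, and `mask N κ = κ`) agrees with
  `mask N κ₀` below `l`.  The point exists: by `branch_of h` for the function `i ↦ gen G i` on `β '' N` and
  `e n (fun _ => false)` on the other coordinates, then `mask N` of it (`e_mix`).  So `r'` forces
  `code (kap G) k = code (mask N κ₀) k`.
-/

set_option autoImplicit false

open Set Topology LM

namespace SX

variable {J : Type}

open Classical in
/-- the root generic -/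
noncomputable def kap (β : ℕ → J) (e : ℕ → Can → Can) (N : Set ℕ) (q : Cond J) (G : Flt (Cond J)) : Can :=
  if h : q ∈ G.S ∧ ∃ κ : Can, (∀ n ∈ N, e n κ = gen G (β n)) ∧ ∀ n, n ∉ N → κ n = false then
    Classical.choose h.2 else fun _ => false

theorem kap_eq {β : ℕ → J} {e : ℕ → Can → Can} (h : Sch β e) {N : Set ℕ}
    (hN : ∀ n m, β n = β m → (n ∈ N ↔ m ∈ N)) {q : Cond J} {G : Flt (Cond J)} (hq : q ∈ G.S) {κ : Can}
    (h1 : ∀ n ∈ N, e n κ = gen G (β n)) (h2 : ∀ n, n ∉ N → κ n = false) : kap β e N q G = κ := by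
  have _ := hN
  have hex : q ∈ G.S ∧ ∃ κ : Can, (∀ n ∈ N, e n κ = gen G (β n)) ∧ ∀ n, n ∉ N → κ n = false :=
    ⟨hq, κ, h1, h2⟩
  rw [kap, dif_pos hex]
  obtain ⟨g1, g2⟩ := Classical.choose_spec hex.2
  funext n
  by_cases hn : n ∈ N
  · exact (h.inj n _ _).1 ((g1 n hn).trans (h1 n hn).symm) n rfl
  · rw [g2 n hn, h2 n hn]

theorem branch_on {β : ℕ → J} {e : ℕ → Can → Can} (h : Sch β e) {N : Set ℕ}
    (hN : ∀ n m, β n = β m → (n ∈ N ↔ m ∈ N)) (c : J → Can) (hc : ∀ n ∈ N, c (β n) ∈ range (e n)) :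
    ∃ κ, ∀ n ∈ N, e n κ = c (β n) := by
  classical
  let c' : J → Can := fun i => if ∃ n ∈ N, β n = i then c i else
    if hi : ∃ n, β n = i then e (Classical.choose hi) (fun _ => false) else fun _ => false
  have hc' : ∀ n, c' (β n) ∈ range (e n) := by
    intro n
    by_cases hn : n ∈ N
    · have h1 : ∃ m ∈ N, β m = β n := ⟨n, hn, rfl⟩
      change (if ∃ m ∈ N, β m = β n then c (β n) else _) ∈ range (e n)
      rw [if_pos h1]
      exact hc n hn
    · have h1 : ¬ ∃ m ∈ N, β m = β n := by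
        rintro ⟨m, hm, hmn⟩
        exact hn ((hN m n hmn).1 hm)
      have h2 : ∃ m, β m = β n := ⟨n, rfl⟩
      change (if ∃ m ∈ N, β m = β n then c (β n) else
        if hi : ∃ m, β m = β n then e (Classical.choose hi) (fun _ => false) else fun _ => false) ∈ _
      rw [if_neg h1, dif_pos h2]
      have h3 := Classical.choose_spec h2
      rw [h.coh _ _ h3]
      exact ⟨_, rfl⟩
  obtain ⟨κ, hκ⟩ := branch_of h c' hc'
  refine ⟨κ, fun n hn => ?_⟩
  rw [hκ n]
  have h1 : ∃ m ∈ N, β m = β n := ⟨n, hn, rfl⟩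
  change (if ∃ m ∈ N, β m = β n then c (β n) else _) = c (β n)
  rw [if_pos h1]

theorem cname_kap {β : ℕ → J} {e : ℕ → Can → Can} (h : Sch β e) {N : Set ℕ}
    (hN : ∀ n m, β n = β m → (n ∈ N ↔ m ∈ N)) {q : Cond J} (hq : ∀ n ∈ N, q.S (β n) ⊆ range (e n))
    {d : ℕ} (code : Can → ℕ → Box d)
    (loc : ∀ k, ∃ l, ∀ κ κ', (∀ i < l, κ i = κ' i) → code κ k = code κ' k) :
    CName fun G : Flt (Cond J) => code (kap β e N q G) := by
  classical
  intro k p
  obtain ⟨l, hl⟩ := loc k
  by_cases hcomp : ∃ s, s ≤ p ∧ s ≤ q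
  · obtain ⟨s, hsp, hsq⟩ := hcomp
    choose c hc using s.ne
    obtain ⟨κ₀, hκ₀⟩ := branch_on h hN c fun n hn => hq n hn (hsq (β n) (hc (β n)))
    have h₀ : ∀ n ∈ N, e n κ₀ ∈ s.S (β n) := by
      intro n hn
      rw [hκ₀ n hn]
      exact hc (β n)
    obtain ⟨r', hr', _, hr3⟩ := localize h hN s κ₀ h₀ (O := cyl (mask N κ₀) l)
      (isClopen_cyl (mask N κ₀) l).isOpen (fun _ _ => rfl)
    refine ⟨r', hr'.trans hsp, code (mask N κ₀) k, ?_⟩
    refine Filter.Eventually.of_forall fun G hG => ?_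
    have hqG : q ∈ G.S := G.up hG (hr'.trans hsq)
    obtain ⟨κ₁, hκ₁⟩ := branch_on h hN (gen G) fun n hn =>
      hq n hn ((hr'.trans hsq) (β n) (gen_mem hG (β n)))
    have e1 : ∀ n ∈ N, e n (mask N κ₁) = gen G (β n) := by
      intro n hn
      rw [mask, e_mix h hN κ₁ _ hn, hκ₁ n hn]
    have e2 : ∀ n, n ∉ N → mask N κ₁ n = false := fun n hn => mix_notMem _ _ hn
    have e3 : kap β e N q G = mask N κ₁ := kap_eq h hN hqG e1 e2
    have e4 : mask N (mask N κ₁) ∈ cyl (mask N κ₀) l := by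
      apply hr3
      intro n hn
      rw [e1 n hn]
      exact gen_mem hG (β n)
    have e5 : mask N (mask N κ₁) = mask N κ₁ := mix_mask N κ₁ _
    rw [e5] at e4
    change code (kap β e N q G) k = _
    rw [e3]
    exact hl _ _ e4
  · refine ⟨p, le_refl p, code (fun _ => false) k, ?_⟩
    refine Filter.Eventually.of_forall fun G hG => ?_
    have hqG : ¬ (q ∈ G.S ∧ ∃ κ : Can, (∀ n ∈ N, e n κ = gen G (β n)) ∧ ∀ n, n ∉ N → κ n = false) := by
      rintro ⟨h1, _⟩
      obtain ⟨s, _, hs1, hs2⟩ := G.dir hG h1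
      exact hcomp ⟨s, hs1, hs2⟩
    change code (kap β e N q G) k = _
    rw [kap, dif_neg hqG]

end SX
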