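import Pool.Agent.Helper75.SX.GenSeq

/-!
# Localisation of root points (module SX-14)

Here `N` is a set of positions which is a union of coordinates of the scheme, and `r` is a condition
whose coordinates `β n`, `n ∈ N`, are contained in the ranges of the maps `e n`.

* `localize`: for `k` let `r k` be the condition with the coordinate `r.S i ∩ cyl (e n κ₀) k` for `i = β n`,
  `n ∈ N`, `n < k` (well defined by `coh`: `β n = β m` gives `e n = e m`) and `r.S i` for the other `i` (`perf_cyl`; the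
  support is countable).  The sets `Z k = {κ | mask N κ = κ ∧ ∀ n ∈ N, e n κ ∈ (r k).S (β n)}` are closed subsets of
  Cantor space, decreasing, and every `κ` in all of them has `e n κ = e n κ₀` for all `n ∈ N` (as
  `e n κ ∈ cyl (e n κ₀) k` for all large `k`), so `κ m = κ₀ m` for all `m ∈ N` (`inj` at `n = m`), `κ = mask N κ₀ ∈ O`.
  By compactness `Z k ⊆ O` for some `k` (`IsCompact.inter_iInter_nonempty` or
  `exists_subset_nhds_of_isCompact`).  For arbitrary `κ` with `e n κ ∈ (r k).S (β n)` for all `n ∈ N` the point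
  `mask N κ` is in `Z k`, because `e n (mask N κ) = e n κ` for `n ∈ N` (`inj`: if `β m = β n` then `m ∈ N`, so
  `mask N κ m = κ m`).
* `e_mix`: the same use of `inj`.
-/

set_option autoImplicit false

open Set Topology LM

namespace SX

variable {J : Type}

theorem e_mix {β : ℕ → J} {e : ℕ → Can → Can} (h : Sch β e) {N : Set ℕ}
    (hN : ∀ n m, β n = β m → (n ∈ N ↔ m ∈ N)) (κ a : Can) {n : ℕ} (hn : n ∈ N) :
    e n (mix N κ a) = e n κ :=
  (h.inj n _ _).2 fun m hm => mix_mem κ a ((hN m n hm).2 hn)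

private def locD (β : ℕ → J) (e : ℕ → Can → Can) (N : Set ℕ) (r : Cond J) (κ₀ : Can) (k : ℕ) (i : J) :
    Set Can :=
  {c | c ∈ r.S i ∧ ∀ n ∈ N, n < k → β n = i → c ∈ cyl (e n κ₀) k}

private theorem locD_of {β : ℕ → J} {e : ℕ → Can → Can} (h : Sch β e) {N : Set ℕ} (r : Cond J)
    (κ₀ : Can) (k : ℕ) {n : ℕ} (hn : n ∈ N) (hk : n < k) :
    locD β e N r κ₀ k (β n) = r.S (β n) ∩ cyl (e n κ₀) k := by
  ext c
  constructor
  · rintro ⟨h1, h2⟩
    exact ⟨h1, h2 n hn hk rfl⟩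
  · rintro ⟨h1, h2⟩
    refine ⟨h1, fun m _ _ hm => ?_⟩
    rw [h.coh m n hm]
    exact h2

private theorem locD_not {β : ℕ → J} {e : ℕ → Can → Can} {N : Set ℕ} (r : Cond J)
    (κ₀ : Can) (k : ℕ) {i : J} (hi : ¬ ∃ n, n ∈ N ∧ n < k ∧ β n = i) :
    locD β e N r κ₀ k i = r.S i := by
  ext c
  constructor
  · rintro ⟨h1, _⟩
    exact h1
  · intro h1
    exact ⟨h1, fun n hn hk hm => absurd ⟨n, hn, hk, hm⟩ hi⟩

private def locC {β : ℕ → J} {e : ℕ → Can → Can} (h : Sch β e) {N : Set ℕ} (r : Cond J) (κ₀ : Can)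
    (h₀ : ∀ n ∈ N, e n κ₀ ∈ r.S (β n)) (k : ℕ) : Cond J where
  S := locD β e N r κ₀ k
  perf i := by
    by_cases hi : ∃ n, n ∈ N ∧ n < k ∧ β n = i
    · obtain ⟨n, hn, hk, rfl⟩ := hi
      rw [locD_of h r κ₀ k hn hk]
      exact perf_cyl (r.perf _) _ _
    · rw [locD_not r κ₀ k hi]
      exact r.perf i
  ne i := by
    by_cases hi : ∃ n, n ∈ N ∧ n < k ∧ β n = i
    · obtain ⟨n, hn, hk, rfl⟩ := hi
      rw [locD_of h r κ₀ k hn hk]
      exact ⟨e n κ₀, h₀ n hn, fun _ _ => rfl⟩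
    · rw [locD_not r κ₀ k hi]
      exact r.ne i
  supp := by
    refine (r.supp.union (countable_range β)).mono fun i hi => ?_
    by_cases hj : ∃ n, n ∈ N ∧ n < k ∧ β n = i
    · obtain ⟨n, _, _, rfl⟩ := hj
      exact Or.inr ⟨n, rfl⟩
    · left
      rw [mem_ofPred_eq, locD_not r κ₀ k hj] at hi
      exact hi

theorem localize {β : ℕ → J} {e : ℕ → Can → Can} (h : Sch β e) {N : Set ℕ}
    (hN : ∀ n m, β n = β m → (n ∈ N ↔ m ∈ N)) (r : Cond J) (κ₀ : Can)
    (h₀ : ∀ n ∈ N, e n κ₀ ∈ r.S (β n)) {O : Set Can} (hO : IsOpen O) (hκ : mask N κ₀ ∈ O) :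
    ∃ r' ≤ r, (∀ n ∈ N, e n κ₀ ∈ r'.S (β n)) ∧
      ∀ κ, (∀ n ∈ N, e n κ ∈ r'.S (β n)) → mask N κ ∈ O := by
  have hmask : Continuous (mask N) :=
    (continuous_mix N).comp (continuous_id.prodMk continuous_const)
  let Z : ℕ → Set Can := fun k =>
    {κ | mask N κ = κ ∧ ∀ n ∈ N, e n κ ∈ locD β e N r κ₀ k (β n)}
  have hcl : ∀ k, IsClosed (Z k) := by
    intro k
    have h1 : Z k = {κ | mask N κ = κ} ∩ ⋂ n ∈ N, e n ⁻¹' (locD β e N r κ₀ k (β n)) := by
      ext κ
      simp only [Z, mem_ofPred_eq, mem_inter_iff, mem_iInter, mem_preimage]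
    rw [h1]
    refine (isClosed_eq hmask continuous_id).inter (isClosed_biInter fun n _ => ?_)
    exact ((locC h r κ₀ h₀ k).perf (β n)).closed.preimage (h.cont n)
  have hmono : ∀ k k', k ≤ k' → Z k' ⊆ Z k := by
    rintro k k' hk κ ⟨h1, h2⟩
    refine ⟨h1, fun n hn => ⟨(h2 n hn).1, fun m hm hmk hmi => ?_⟩⟩
    intro j hj
    exact (h2 n hn).2 m hm (lt_of_lt_of_le hmk hk) hmi j (lt_of_lt_of_le hj hk)
  have hmain : ∃ k, Z k ⊆ O := by
    refine exists_subset_nhds_of_isCompact' (V := Z) ?_ (fun k => (hcl k).isCompact) hcl ?_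
    · intro i j
      exact ⟨max i j, hmono _ _ (le_max_left _ _), hmono _ _ (le_max_right _ _)⟩
    · intro κ hκ'
      rw [mem_iInter] at hκ'
      have h1 : ∀ n ∈ N, κ n = κ₀ n := by
        intro n hn
        have h2 : e n κ = e n κ₀ := by
          funext j
          exact ((hκ' (max n j + 1)).2 n hn).2 n hn (by omega) rfl j (by omega)
        exact (h.inj n _ _).1 h2 n rfl
      have h3 : κ = mask N κ₀ := by
        rw [← (hκ' 0).1]
        funext n
        by_cases hn : n ∈ N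
        · rw [mask, mask, mix_mem _ _ hn, mix_mem _ _ hn, h1 n hn]
        · rw [mask, mask, mix_notMem _ _ hn, mix_notMem _ _ hn]
      rw [h3]
      exact hO.mem_nhds hκ
  obtain ⟨k, hk⟩ := hmain
  refine ⟨locC h r κ₀ h₀ k, fun i c hc => hc.1, fun n hn => ⟨h₀ n hn, fun m _ _ hm => ?_⟩, ?_⟩
  · rw [h.coh m n hm]
    exact fun _ _ => rfl
  · intro κ hκ'
    apply hk
    refine ⟨mix_mask N κ _, fun n hn => ?_⟩
    rw [mask, e_mix h hN κ _ hn]
    exact hκ' n hn

end SX
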