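import Pool.Agent.Helper75.SX.NoGroup
import Pool.Agent.Helper75.SX.Exist
import Pool.Agent.Helper75.SX.CardP

/-!
# The main theorem
-/

set_option autoImplicit false

open Cardinal LM

namespace SX

theorem main : Main := by
  intro hCH J hJ
  have h0 : ℵ₀ ≤ #J := by
    rw [hJ]
    exact aleph0_le_aleph _
  have hne : Nonempty J := mk_ne_zero_iff.1 (aleph0_pos.trans_le h0).ne'
  have hc : 𝔠 = ℵ_ 1 := by
    rw [← hCH]
    simp
  have hJ2 : Order.succ 𝔠 < #J := by
    rw [hc, hJ, succ_aleph]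
    apply aleph_lt_aleph.2
    have h1 : Ordinal.omega0 ≤ Ordinal.omega 1 := Ordinal.omega0_le_omega 1
    have h2 : (1 : Ordinal) + 1 < Ordinal.omega0 := by
      rw [one_add_one_eq_two]
      exact_mod_cast Ordinal.natCast_lt_omega0 2
    exact h2.trans_le h1
  exact ⟨card_pres hCH J, fun d hd I => ⟨exists_luz hCH hJ hd I, fun A p hA => no_group hJ2 hd I A p hA⟩⟩

end SX
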