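import Pool.Agent.Helper75.SX.NoGroup
import Pool.Agent.Helper75.SX.Exist2

/-!
# The main theorem without the continuum hypothesis
-/

set_option autoImplicit false

open Cardinal LM

namespace SX

theorem main2 (J : Type) (hJ : Order.succ 𝔠 < #J) (hc : (#J).ord.cof = ℵ_ 1) :
    KPres (Cond J) J ∧ ∀ d : ℕ, 1 ≤ d → ∀ I : Idl,
      (∃ A : SetName (Cond J) d, ∀ p, FLuz J I A p) ∧
        ∀ (A : SetName (Cond J) d) (p : Cond J), FSubgroup A p → ¬ FLuz J I A p := by
  have h1 : ℵ_ 1 ≤ #J :=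
    (aleph_one_le_iff.2 aleph0_lt_continuum).trans ((Order.le_succ 𝔠).trans hJ.le)
  exact ⟨kpres hJ, fun d hd I => ⟨exists_luz2 h1 hc hd I, fun A p hA => no_group hJ hd I A p hA⟩⟩

end SX
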