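import Pool.Agent.Helper75.SX.Sch

/-!
# Nonconstant on all nodes (module SX-22)

`g : Can → Y` continuous, `Y` metric, and not constant on any `cyl τ k`.
* `many`: for all `m`, `τ`, `k` there is an injective family of `m` values `g (a i)` with `a i ∈ cyl τ k`.  Induction on
  `m`: choose `a, b ∈ cyl τ k` with `g a ≠ g b`; by continuity there is `k' ≥ k` such that `g b ∉ g '' cyl a k'`
  (`cyl_basis`); apply the induction hypothesis to `cyl a k' ⊆ cyl τ k` and add the point `b` (`Fin.snoc` or
  `Fin.cons`, or use `Finset` language).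
* `osc`: uniform continuity of `(κ, a) ↦ f (mix N κ a)` on the compact space: for every `ε > 0` there is `l` such
  that `dist (f (mix N κ a)) (f (mix N κ' a')) < ε` if `κ, κ'` agree below `l` and `a, a'` agree below `l`.  (By
  compactness of `Can × Can` and `cyl_basis`; or: `x ↦ f x` satisfies this since `Can` is compact, and `mix` of
  pairs which agree below `l` agree below `l`.)
-/

set_option autoImplicit false

open Set Topology

namespace SX

theorem many {Y : Type} [MetricSpace Y] {g : Can → Y} (hg : Continuous g)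
    (nc : ∀ τ k, ∃ a ∈ cyl τ k, ∃ b ∈ cyl τ k, g a ≠ g b) (m : ℕ) (τ : Can) (k : ℕ) :
    ∃ a : Fin m → Can, (∀ i, a i ∈ cyl τ k) ∧ Function.Injective fun i => g (a i) := by
  induction m generalizing τ k with
  | zero => exact ⟨fun i => i.elim0, fun i => i.elim0, fun i => i.elim0⟩
  | succ m ih =>
    obtain ⟨a, ha, b, hb, hab⟩ := nc τ k
    have h1 : g ⁻¹' {g b}ᶜ ∈ 𝓝 a := hg.continuousAt (isOpen_compl_singleton.mem_nhds hab)
    obtain ⟨k0, hk0⟩ := cyl_basis h1
    obtain ⟨c, hc, hinj⟩ := ih a (max k k0)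
    refine ⟨Fin.cons b c, ?_, ?_⟩
    · intro i
      refine Fin.cases ?_ (fun i => ?_) i
      · rw [Fin.cons_zero]
        exact hb
      · rw [Fin.cons_succ]
        intro n hn
        rw [hc i n (lt_of_lt_of_le hn (le_max_left _ _)), ha n hn]
    · have hne : ∀ i, g (c i) ≠ g b := by
        intro i
        have h2 : c i ∈ cyl a k0 := fun n hn => hc i n (lt_of_lt_of_le hn (le_max_right _ _))
        exact hk0 h2
      intro i j
      refine Fin.cases ?_ (fun i => ?_) i
      · refine Fin.cases (fun _ => rfl) (fun j => ?_) j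
        intro h
        simp only [Fin.cons_zero, Fin.cons_succ] at h
        exact absurd h.symm (hne j)
      · refine Fin.cases ?_ (fun j => ?_) j
        · intro h
          simp only [Fin.cons_zero, Fin.cons_succ] at h
          exact absurd h (hne i)
        · intro h
          simp only [Fin.cons_succ] at h
          exact congrArg Fin.succ (hinj h)

theorem osc {Y : Type} [MetricSpace Y] {f : Can → Y} (hf : Continuous f) {ε : ℝ} (hε : 0 < ε) :
    ∃ l : ℕ, ∀ x y : Can, (∀ i < l, x i = y i) → dist (f x) (f y) < ε := by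
  have h1 : ∀ x : Can, ∃ m, cyl x m ⊆ f ⁻¹' Metric.ball (f x) (ε / 2) := fun x =>
    cyl_basis (hf.continuousAt (Metric.ball_mem_nhds _ (half_pos hε)))
  choose m hm using h1
  obtain ⟨t, _, ht⟩ := isCompact_univ.elim_nhds_subcover (fun x => cyl x (m x))
    (fun x _ => (isClopen_cyl x (m x)).isOpen.mem_nhds (fun _ _ => rfl))
  refine ⟨t.sup m, fun x y hxy => ?_⟩
  obtain ⟨c, hc, hxc⟩ := mem_iUnion₂.1 (ht (mem_univ x))
  have hmc : m c ≤ t.sup m := Finset.le_sup hc
  have hyc : y ∈ cyl c (m c) := fun n hn => by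
    rw [← hxy n (lt_of_lt_of_le hn hmc)]
    exact hxc n hn
  have h2 := hm c hxc
  have h3 := hm c hyc
  rw [mem_preimage, Metric.mem_ball] at h2 h3
  calc dist (f x) (f y) ≤ dist (f x) (f c) + dist (f y) (f c) := dist_triangle_right _ _ _
    _ < ε := by linarith

theorem mix_agree (N : Set ℕ) {κ κ' a a' : Can} {l : ℕ} (h : ∀ i < l, κ i = κ' i)
    (h' : ∀ i < l, a i = a' i) : ∀ i < l, mix N κ a i = mix N κ' a' i := by
  intro i hi
  by_cases hN : i ∈ N
  · rw [mix_mem _ _ hN, mix_mem _ _ hN, h i hi]
  · rw [mix_notMem _ _ hN, mix_notMem _ _ hN, h' i hi]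

end SX
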