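import Pool.Agent.Helper75.SX.Many

/-!
# One step of the response, meager case (module SX-24)

By `osc` choose `k₁ ≥ k` with `dist (f (mix N κ a)) (f (mix N κ b)) < ε` whenever `a, b` agree below `k₁`.  Fix
`κ₀ ∈ Z` and `τ`.  By `nc` there are `a, b ∈ cyl τ k₁` with `f (mix N κ₀ a) ≠ f (mix N κ₀ b)`; let `3 η` be their distance.
By `osc` there is `l ≥ k₁` such that `dist (f (mix N κ a')) (f (mix N κ b')) ≥ η` for all `κ` which agree with `κ₀` below
`l` and all `a' ∈ cyl a l`, `b' ∈ cyl b l`.  Only finitely many sets `cyl τ k₁` exist, so `l` and `η` can be chosen for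
all `τ` simultaneously; by compactness of `Z` (finite cover by the sets `cyl κ₀ (l κ₀)`) there are `k' ≥ k` and
`η > 0` for all `κ ∈ Z` and all `τ`.  The upper bound `≤ ε` holds since `a', b'` agree with `τ` below `k₁ ≤ k'`.
-/

set_option autoImplicit false

open Set Topology

namespace SX

theorem sep_step {d : ℕ} (N : Set ℕ) {f : Can → Euc d} (hf : Continuous f) {Z : Set Can}
    (hZ : IsCompact Z) (nc : ∀ κ ∈ Z, ∀ τ k, ∃ a ∈ cyl τ k, ∃ b ∈ cyl τ k, f (mix N κ a) ≠ f (mix N κ b))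
    (k : ℕ) (ε : ℝ) (hε : 0 < ε) :
    ∃ k' : ℕ, k ≤ k' ∧ ∃ η : ℝ, 0 < η ∧ ∀ κ ∈ Z, ∀ τ, ∃ a ∈ cyl τ k, ∃ b ∈ cyl τ k,
      ∀ a' ∈ cyl a k', ∀ b' ∈ cyl b k',
        η ≤ dist (f (mix N κ a')) (f (mix N κ b')) ∧ dist (f (mix N κ a')) (f (mix N κ b')) ≤ ε := by
  obtain ⟨l₁, hl₁⟩ := osc hf hε
  have hloc : ∀ q : Can × Can, ∃ l : ℕ, q.1 ∈ Z → max k l₁ ≤ l ∧ ∀ κ ∈ cyl q.1 l, ∀ τ ∈ cyl q.2 l,
      ∃ a ∈ cyl τ k, ∃ b ∈ cyl τ k, ∀ l' ≥ l, ∀ a' ∈ cyl a l', ∀ b' ∈ cyl b l',
        1 / ((l' : ℝ) + 1) ≤ dist (f (mix N κ a')) (f (mix N κ b')) ∧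
          dist (f (mix N κ a')) (f (mix N κ b')) ≤ ε := by
    rintro ⟨κ₀, τ₀⟩
    by_cases hκ : κ₀ ∈ Z
    · obtain ⟨a, ha, b, hb, hab⟩ := nc κ₀ hκ τ₀ (max k l₁)
      have hd : 0 < dist (f (mix N κ₀ a)) (f (mix N κ₀ b)) := dist_pos.mpr hab
      set D := dist (f (mix N κ₀ a)) (f (mix N κ₀ b)) with hD
      have hd3 : 0 < D / 3 := by positivity
      obtain ⟨l₂, hl₂⟩ := osc hf hd3
      obtain ⟨m, hm⟩ := exists_nat_one_div_lt hd3
      refine ⟨max (max k l₁) (max l₂ m), fun _ => ⟨le_max_left _ _, ?_⟩⟩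
      intro κ hκ' τ hτ
      simp only at hκ' hτ
      have ha2 : ∀ i < max k l₁, a i = τ₀ i := ha
      have hb2 : ∀ i < max k l₁, b i = τ₀ i := hb
      refine ⟨a, ?_, b, ?_, ?_⟩
      · intro n hn
        rw [ha2 n (by omega), hτ n (by omega)]
      · intro n hn
        rw [hb2 n (by omega), hτ n (by omega)]
      · intro l' hl' a' ha' b' hb'
        have h1 : dist (f (mix N κ a')) (f (mix N κ₀ a)) < D / 3 := by
          apply hl₂
          apply mix_agree
          · intro i hi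
            exact hκ' i (by omega)
          · intro i hi
            exact ha' i (by omega)
        have h2 : dist (f (mix N κ b')) (f (mix N κ₀ b)) < D / 3 := by
          apply hl₂
          apply mix_agree
          · intro i hi
            exact hκ' i (by omega)
          · intro i hi
            exact hb' i (by omega)
        constructor
        · have h3 : D ≤ dist (f (mix N κ a')) (f (mix N κ₀ a)) +
              dist (f (mix N κ a')) (f (mix N κ b')) + dist (f (mix N κ b')) (f (mix N κ₀ b)) := by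
            calc D ≤ dist (f (mix N κ₀ a)) (f (mix N κ a')) +
                  dist (f (mix N κ a')) (f (mix N κ b')) +
                  dist (f (mix N κ b')) (f (mix N κ₀ b)) := dist_triangle4 _ _ _ _
              _ = _ := by rw [dist_comm (f (mix N κ₀ a))]
          have h4 : 1 / ((l' : ℝ) + 1) ≤ 1 / ((m : ℝ) + 1) := by
            apply one_div_le_one_div_of_le (by positivity)
            have : (m : ℝ) ≤ (l' : ℝ) := by
              exact_mod_cast (show m ≤ l' by omega)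
            linarith
          linarith
        · apply le_of_lt
          apply hl₁
          apply mix_agree
          · intro i _
            rfl
          · intro i hi
            rw [ha' i (by omega), hb' i (by omega), ha2 i (by omega), hb2 i (by omega)]
    · exact ⟨0, fun hh => absurd hh hκ⟩
  choose l hl using hloc
  obtain ⟨t, ht1, ht2⟩ := (hZ.prod (isCompact_univ (X := Can))).elim_nhds_subcover
    (fun q => cyl q.1 (l q) ×ˢ cyl q.2 (l q)) (fun q _ => prod_mem_nhds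
      ((isClopen_cyl q.1 (l q)).isOpen.mem_nhds (fun _ _ => rfl))
      ((isClopen_cyl q.2 (l q)).isOpen.mem_nhds (fun _ _ => rfl)))
  refine ⟨max k (t.sup l), le_max_left _ _, 1 / (((max k (t.sup l) : ℕ) : ℝ) + 1), by positivity, ?_⟩
  intro κ hκ τ
  have h1 : ((κ, τ) : Can × Can) ∈ Z ×ˢ (univ : Set Can) := ⟨hκ, mem_univ _⟩
  obtain ⟨q, hq, hq2⟩ := mem_iUnion₂.1 (ht2 h1)
  have hqZ : q.1 ∈ Z := (ht1 q hq).1
  obtain ⟨a, ha, b, hb, hab⟩ := (hl q hqZ).2 κ hq2.1 τ hq2.2
  refine ⟨a, ha, b, hb, fun a' ha' b' hb' => hab _ ?_ a' ha' b' hb'⟩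
  exact (Finset.le_sup hq).trans (le_max_right _ _)

end SX
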