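import Pool.Agent.Helper75.SX.RespDef
import Pool.Agent.Helper75.SX.SepStep

/-!
# Response systems, meager case (module SX-26)

Let `k'` and `η` be given by `sep_step N hf hZ nc k (ε := (1/2)^(blk n) / 4)` as functions `kf n k`, `ηf n k`.  Define
`Λ 0 = 0`, `Λ' n = kf n (Λ n)` and `Λ (n+1)` = a number larger than `Λ' n` such that for every `j ≤ n` there is `p` with
`Λ' n ≤ p < Λ (n+1)` and `β p = β j` (finitely many uses of `hβ`).  Let `η n = ηf n (Λ n) > 0`.  For every block `j` the set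
`{n | blk n = j}` is finite (`K.fin`), so there is a rational `δ j` with `0 < δ j ≤ (1/2)^j / 8` and
`4 * δ j ≤ η n` for all `n` with `blk n = j`.

Let `gr j = {x : Euc d | ∃ g : Fin d → ℤ, x = fun i => (g i : ℝ) * (1/2)^j}` (a nonempty grid), and
`B n = {q | (δ (blk n) : ℝ) < Metric.infDist q.2 (gr (blk n))}`, open by continuity of `infDist`.

`resp` (`n₀ = 0`): given `κ, z, τ` take `a, b ∈ cyl τ (Λ n)` from `sep_step`.  If both fail there are
`a' ∈ cyl a (Λ' n)`, `b' ∈ cyl b (Λ' n)` with `infDist (z - f (mix N κ a')) (gr j) ≤ δ j` and the same for `b'`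
(`j = blk n`); choose grid points `g, g'` with distances `< 3/2 * δ j` (`Metric.infDist_lt_iff`).  Then
`D = dist (f (mix N κ a')) (f (mix N κ b'))` satisfies `|D - dist g g'| < 3 δ j`.  If `g = g'` then `D < 3 δ j < η n`:
contradiction.  If `g ≠ g'` then `dist g g' ≥ (1/2)^j` and `D > (1/2)^j - 3 δ j ≥ (1/2)^j * 5/8 > (1/2)^j / 4`:
contradiction.

The code does not depend on `κ`: let `u : ℕ → ℕ × (Fin d → ℤ)` be surjective, and let `code κ (pair m k)` be the box with
centre `g * (1/2)^j` and half side `δ j` if `u k = (j, g)` and `m ≤ j`, and the empty box `fun _ => (0, 0)` otherwise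
(empty if `d ≥ 1`).  `valid`: `⋃ k, (code κ (pair m k)).set` contains all grid points of level `j ≥ m`, and these are
dense (dyadic rationals).  `hit`: with `m = j₀`: for `k` with `u k = (j, g)`, `j₀ ≤ j`, there is `n` with `blk n = j` and
`δ j < infDist z (gr j)`, so `z` is not in the box with centre `g * (1/2)^j` and half side `δ j` (sup distance; use
`d ≥ 1`-free: a point of the box has distance `< δ j`... in dimension `d ≥ 1` `dist_pi_lt_iff`); for the other `k` the
box is empty.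
-/

set_option autoImplicit false

open Set Topology

namespace SX

private def gr (d j : ℕ) : Set (Euc d) :=
  {x | ∃ g : Fin d → ℤ, x = fun i => (g i : ℝ) * (1 / 2) ^ j}

private lemma gr_ne (d j : ℕ) : (gr d j).Nonempty := ⟨_, fun _ => 0, rfl⟩

private lemma gr_dist {d j : ℕ} {x y : Euc d} (hx : x ∈ gr d j) (hy : y ∈ gr d j) (hne : x ≠ y) :
    (1 / 2 : ℝ) ^ j ≤ dist x y := by
  obtain ⟨g, rfl⟩ := hx
  obtain ⟨g', rfl⟩ := hy
  have h1 : ∃ i, g i ≠ g' i := by
    by_contra h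
    push Not at h
    exact hne (by rw [funext h])
  obtain ⟨i, hi⟩ := h1
  refine le_trans ?_ (dist_le_pi_dist _ _ i)
  rw [Real.dist_eq, ← sub_mul, abs_mul, abs_of_pos (by positivity : (0 : ℝ) < (1 / 2) ^ j)]
  have h2 : (1 : ℝ) ≤ |(g i : ℝ) - (g' i : ℝ)| := by
    have h3 : 1 ≤ |g i - g' i| := Int.one_le_abs (sub_ne_zero.2 hi)
    exact_mod_cast h3
  exact le_mul_of_one_le_left (by positivity) h2

private lemma exists_delta (K : Tasks) (η : ℕ → ℝ) (hη : ∀ n, 0 < η n) (j : ℕ) :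
    ∃ δ : ℚ, 0 < (δ : ℝ) ∧ (δ : ℝ) ≤ (1 / 2) ^ j / 8 ∧ ∀ n, K.blk n = j → 4 * (δ : ℝ) ≤ η n := by
  have h1 : ∀ s : Finset ℕ, ∃ r : ℝ, 0 < r ∧ r ≤ (1 / 2) ^ j / 8 ∧ ∀ n ∈ s, 4 * r ≤ η n := by
    intro s
    induction s using Finset.induction_on with
    | empty => exact ⟨(1 / 2) ^ j / 8, by positivity, le_rfl, by simp⟩
    | insert a s _ ih =>
      obtain ⟨r, h1, h2, h3⟩ := ih
      refine ⟨min r (η a / 4), lt_min h1 (by have := hη a; positivity),
        (min_le_left _ _).trans h2, ?_⟩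
      intro n hn
      rw [Finset.mem_insert] at hn
      rcases hn with rfl | hn
      · have := min_le_right r (η n / 4)
        linarith
      · have := min_le_left r (η a / 4)
        have := h3 n hn
        linarith
  obtain ⟨r, h1, h2, h3⟩ := h1 (K.fin j).toFinset
  obtain ⟨δ, hδ1, hδ2⟩ := exists_rat_btwn h1
  refine ⟨δ, hδ1, by linarith, fun n hn => ?_⟩
  have := h3 n (by rw [Set.Finite.mem_toFinset]; exact hn)
  linarith

theorem resp_meager (K : Tasks) {J : Type} (β : ℕ → J) (hβ : ∀ n k, ∃ m, k ≤ m ∧ β m = β n) {d : ℕ}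
    (hd : 1 ≤ d) (N : Set ℕ) {f : Can → Euc d} (hf : Continuous f) {Z : Set Can} (hZ : IsCompact Z)
    (nc : ∀ κ ∈ Z, ∀ τ k, ∃ a ∈ cyl τ k, ∃ b ∈ cyl τ k, f (mix N κ a) ≠ f (mix N κ b)) :
    Nonempty (Resp K β Idl.meager N f Z) := by
  choose kf hkf ηf hηf hsep using fun (n k : ℕ) =>
    sep_step N hf hZ nc k ((1 / 2) ^ (K.blk n) / 4) (by positivity)
  have hroom : ∀ n L : ℕ, ∃ L' : ℕ, L ≤ L' ∧ ∀ j ≤ n, ∃ p, L ≤ p ∧ p < L' ∧ β p = β j := by
    intro n L
    induction n with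
    | zero =>
      obtain ⟨m, hm, hm2⟩ := hβ 0 L
      refine ⟨m + 1, by omega, fun j hj => ⟨m, hm, by omega, ?_⟩⟩
      rw [hm2, Nat.le_zero.1 hj]
    | succ n ih =>
      obtain ⟨L', h1, h2⟩ := ih
      obtain ⟨m, hm, hm2⟩ := hβ (n + 1) L
      refine ⟨max L' (m + 1), h1.trans (le_max_left _ _), fun j hj => ?_⟩
      rcases Nat.lt_or_ge n j with h | h
      · have : j = n + 1 := by omega
        subst this
        exact ⟨m, hm, lt_of_lt_of_le (Nat.lt_succ_self m) (le_max_right _ _), hm2⟩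
      · obtain ⟨p, hp1, hp2, hp3⟩ := h2 j h
        exact ⟨p, hp1, lt_of_lt_of_le hp2 (le_max_left _ _), hp3⟩
  choose Rf hRf1 hRf2 using hroom
  let Λ : ℕ → ℕ := fun n => Nat.rec 0 (fun n L => Rf n (kf n L)) n
  have hΛs : ∀ n, Λ (n + 1) = Rf n (kf n (Λ n)) := fun n => rfl
  let η : ℕ → ℝ := fun n => ηf n (Λ n)
  have hη : ∀ n, 0 < η n := fun n => hηf n (Λ n)
  choose δ hδ0 hδ1 hδ2 using exists_delta K η hη
  obtain ⟨u, hu⟩ := exists_surjective_nat (ℕ × (Fin d → ℤ))
  let cd : ℕ → Box d := fun q => if (Nat.unpair q).1 ≤ (u (Nat.unpair q).2).1 then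
    (fun i => (((u (Nat.unpair q).2).2 i : ℚ) * (1 / 2) ^ (u (Nat.unpair q).2).1 -
        δ (u (Nat.unpair q).2).1,
      ((u (Nat.unpair q).2).2 i : ℚ) * (1 / 2) ^ (u (Nat.unpair q).2).1 +
        δ (u (Nat.unpair q).2).1)) else fun _ => (0, 0)
  have hcd : ∀ (m k j : ℕ) (g : Fin d → ℤ), u k = (j, g) → m ≤ j → ∀ z : Euc d,
      z ∈ (cd (Nat.pair m k)).set ↔ ∀ i, |z i - (g i : ℝ) * (1 / 2) ^ j| < δ j := by
    intro m k j g hk hmj z
    have e : cd (Nat.pair m k) = fun i => ((g i : ℚ) * (1 / 2) ^ j - δ j,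
        (g i : ℚ) * (1 / 2) ^ j + δ j) := by
      show (if _ then _ else _) = _
      rw [Nat.unpair_pair]
      simp only [hk]
      rw [if_pos hmj]
    rw [e]
    unfold Box.set
    rw [mem_setOf_eq]
    refine forall_congr' fun i => ?_
    push_cast
    rw [abs_lt]
    constructor
    · rintro ⟨h1, h2⟩
      constructor <;> linarith
    · rintro ⟨h1, h2⟩
      constructor <;> linarith
  have hcd0 : ∀ m k : ℕ, ¬ m ≤ (u k).1 → ∀ z : Euc d, z ∉ (cd (Nat.pair m k)).set := by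
    intro m k hk z hz
    have e : cd (Nat.pair m k) = fun _ => (0, 0) := by
      show (if _ then _ else _) = _
      rw [Nat.unpair_pair]
      exact if_neg hk
    rw [e] at hz
    have h1 := hz ⟨0, hd⟩
    simp only [Rat.cast_zero] at h1
    linarith [h1.1, h1.2]
  refine ⟨{
    Λ := Λ
    Λ' := fun n => kf n (Λ n)
    hΛ := fun n => ⟨hkf n (Λ n), hRf1 n _⟩
    room := fun n j hj => hRf2 n _ j hj
    B := fun n => {q | (δ (K.blk n) : ℝ) < Metric.infDist q.2 (gr d (K.blk n))}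
    opn := fun n => isOpen_lt continuous_const ((Metric.continuous_infDist_pt _).comp continuous_snd)
    resp := ?_
    code := fun _ => cd
    loc := fun k => ⟨0, fun _ _ _ => rfl⟩
    valid := ?_
    hit := ?_ }⟩
  · intro M
    refine ⟨0, fun n _ κ hκ z _ τ => ?_⟩
    obtain ⟨a, ha, b, hb, hab⟩ := hsep n (Λ n) κ hκ τ
    by_contra hcon
    push Not at hcon
    obtain ⟨a', ha', ha2⟩ := hcon a ha
    obtain ⟨b', hb', hb2⟩ := hcon b hb
    obtain ⟨h1, h2⟩ := hab a' ha' b' hb'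
    rw [mem_setOf_eq, not_lt] at ha2 hb2
    have hδp := hδ0 (K.blk n)
    have hδq := hδ1 (K.blk n)
    have hδr : 4 * (δ (K.blk n) : ℝ) ≤ ηf n (Λ n) := hδ2 (K.blk n) n rfl
    obtain ⟨g, hg, hg2⟩ := (Metric.infDist_lt_iff (gr_ne d (K.blk n))).1
      (lt_of_le_of_lt ha2 (by linarith : (δ (K.blk n) : ℝ) < 3 / 2 * δ (K.blk n)))
    obtain ⟨g', hg', hg2'⟩ := (Metric.infDist_lt_iff (gr_ne d (K.blk n))).1
      (lt_of_le_of_lt hb2 (by linarith : (δ (K.blk n) : ℝ) < 3 / 2 * δ (K.blk n)))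
    have hD : dist (z - f (mix N κ a')) (z - f (mix N κ b')) =
        dist (f (mix N κ a')) (f (mix N κ b')) := dist_sub_left _ _ _
    rw [← hD] at h1 h2
    by_cases hgg : g = g'
    · subst hgg
      have h3 := dist_triangle_right (z - f (mix N κ a')) (z - f (mix N κ b')) g
      linarith
    · have h3 := gr_dist hg hg' hgg
      have h4 := dist_triangle4 g (z - f (mix N κ a')) (z - f (mix N κ b')) g'
      rw [dist_comm g (z - f (mix N κ a'))] at h4
      have h5 : (0 : ℝ) < (1 / 2) ^ K.blk n := by positivity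
      linarith
  · intro κ m
    rw [Metric.dense_iff]
    intro x r hr
    obtain ⟨j0, hj0⟩ := exists_pow_lt_of_lt_one hr (by norm_num : (1 / 2 : ℝ) < 1)
    set j := max m j0 with hj
    have hjr : (1 / 2 : ℝ) ^ j < r := by
      refine lt_of_le_of_lt ?_ hj0
      exact pow_le_pow_of_le_one (by norm_num) (by norm_num) (le_max_right _ _)
    obtain ⟨k, hk⟩ := hu (j, fun i => round (x i * 2 ^ j))
    refine ⟨fun i => ((round (x i * 2 ^ j) : ℤ) : ℝ) * (1 / 2) ^ j, ?_, ?_⟩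
    · rw [Metric.mem_ball, dist_pi_lt_iff hr]
      intro i
      rw [Real.dist_eq]
      have h1 := abs_sub_round (x i * 2 ^ j)
      have h2 : x i = x i * 2 ^ j * (1 / 2) ^ j := by
        rw [mul_assoc, ← mul_pow]
        norm_num
      have h3 : ((round (x i * 2 ^ j) : ℤ) : ℝ) * (1 / 2) ^ j - x i =
          -(x i * 2 ^ j - (round (x i * 2 ^ j) : ℤ)) * (1 / 2) ^ j := by
        rw [neg_sub, sub_mul, ← h2]
      rw [h3, abs_mul, abs_neg, abs_of_pos (by positivity : (0 : ℝ) < (1 / 2) ^ j)]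
      have h4 : (0 : ℝ) < (1 / 2) ^ j := by positivity
      calc |x i * 2 ^ j - (round (x i * 2 ^ j) : ℤ)| * (1 / 2) ^ j ≤ 1 * (1 / 2) ^ j :=
            mul_le_mul_of_nonneg_right (h1.trans (by norm_num)) h4.le
        _ < r := by rw [one_mul]; exact hjr
    · rw [mem_iUnion]
      refine ⟨k, ?_⟩
      rw [hcd m k j _ hk (le_max_left _ _)]
      intro i
      simp only [sub_self, abs_zero]
      exact hδ0 j
  · rintro κ z ⟨j₀, hj₀⟩
    refine ⟨j₀, fun k hk => ?_⟩
    by_cases h1 : j₀ ≤ (u k).1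
    · obtain ⟨n, hn, hn2⟩ := hj₀ _ h1
      rw [mem_setOf_eq, hn] at hn2
      have h2 := (hcd j₀ k (u k).1 (u k).2 rfl h1 z).1 hk
      have h3 : dist z (fun i => ((u k).2 i : ℝ) * (1 / 2) ^ (u k).1) < δ (u k).1 := by
        rw [dist_pi_lt_iff (hδ0 _)]
        intro i
        rw [Real.dist_eq]
        exact h2 i
      have h4 : Metric.infDist z (gr d (u k).1) ≤
          dist z (fun i => ((u k).2 i : ℝ) * (1 / 2) ^ (u k).1) :=
        Metric.infDist_le_dist_of_mem ⟨(u k).2, rfl⟩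
      simp only at hn2
      linarith
    · exact hcd0 j₀ k h1 z hk

end SX
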