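import Pool.Agent.Helper75.SX.Defs
import Pool.Agent.Helper75.SX.Cover

/-!
# Few boxes which meet all translates of a finite set (module SX-21)

Euclidean space `Euc d = Fin d → ℝ` carries the sup distance.  Given `ε, A`; let `W = 4 * (⌈A⌉₊ + 1) : ℕ` and let `M` be
the number of `cover` for `ε' = ε / (2 * (4 W)^d)` (take `M ≥ 1`).  Let `w : Fin m → Euc d` be injective with
`‖w i‖ ≤ A`, `M ≤ m`.  Choose `L : ℕ` so large that with `η = W / L` (rational): `η < 1/4`, `η < dist (w i) (w j) / 4` for
`i ≠ j`, and `(4 η)^d ≤ ε / 2`, in the case `d ≥ 1` (if `d = 0` then `Euc 0` has one point and `m ≤ 1`;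
since `w` is injective choose `M ≥ 2` to make this case vacuous).
Let `G = Fin d → ZMod L`, a finite group of cardinality `L^d`, and for `x : Euc d` let
`r x : G` be the class of the vector `round (x i / η)`.  The points `r (w i)` are pairwise different: if
`r (w i) = r (w j)` then for each coordinate `a` the integers `round (w i a / η)` and `round (w j a / η)` are congruent
mod `L`, and their difference has absolute value at most `2 A / η + 1 < L` (`W ≥ 4 A + 4`), so they are equal and
`dist (w i) (w j) ≤ η`.  Let `Y = {r (w i)}`, `#Y = m ≥ M`, and let `U` be given by `cover`,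
`#U ≤ ε' L^d + 1`.  For `u : G` let `lift u : Fin d → ℤ` be the representative with entries in `[-L/2, L/2]`
(`ZMod.valMinAbs`), and let `b u` be the rational box with centre `η * lift u` and half side `2 η`, of volume `(4 η)^d`.
Total volume `≤ (ε' L^d + 1) (4 η)^d = ε' (4 W)^d + (4 η)^d ≤ ε / 2 + ε / 2` (as `L η = W`).

Let `δ = η / 4`.  Let `‖z‖ ≤ A`.  There are `u ∈ U` and `i` with `u + r (w i) = r z`.  If `dist w' (w i) ≤ δ` then each
coordinate of `z - w'` differs by at most `η + δ < 2 η` from `η * (round (z a / η) - round (w i a / η))`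
(rounding errors at most `η / 2` each).  The integer `round (z a / η) - round (w i a / η)` is congruent to `lift u a` mod
`L`, and has absolute value at most `2 A / η + 1 < L / 2` (since `W ≥ 4 A + 4`, `η < 1/4`: `2 A / η + 1 ≤ (2 A + 1) / η <
W / (2 η) = L / 2`), so it is equal to `lift u a` (`|lift u a| ≤ L / 2`; use `ZMod.valMinAbs` uniqueness).  Hence
`z - w' ∈ (b u).set`.
-/

set_option autoImplicit false

open Finset

namespace SX

private theorem int_eq {L : ℕ} {k l : ℤ} (h : ((k : ℤ) : ZMod L) = (l : ℤ)) (hb : |k - l| < L) :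
    k = l := by
  have h1 : (L : ℤ) ∣ k - l := by
    have h2 : (((k - l : ℤ)) : ZMod L) = 0 := by
      rw [Int.cast_sub, h, sub_self]
    exact (ZMod.intCast_zmod_eq_zero_iff_dvd _ _).1 h2
  have h3 := Int.eq_zero_of_abs_lt_dvd h1 hb
  omega

private theorem round_near {η x : ℝ} (hη : 0 < η) : |x - η * (round (x / η) : ℝ)| ≤ η / 2 := by
  have h := abs_sub_round (x / η)
  have e : x - η * (round (x / η) : ℝ) = η * (x / η - (round (x / η) : ℝ)) := by
    field_simp
  rw [e, abs_mul, abs_of_pos hη]
  have := mul_le_mul_of_nonneg_left h hη.le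
  linarith

private theorem round_diff {η A x y : ℝ} (hη : 0 < η) (hx : |x| ≤ A) (hy : |y| ≤ A) :
    |((round (x / η) - round (y / η) : ℤ) : ℝ)| ≤ 2 * A / η + 1 := by
  have h1 := round_near (x := x) hη
  have h2 := round_near (x := y) hη
  have e : ((round (x / η) - round (y / η) : ℤ) : ℝ) * η = (x - y) -
      ((x - η * (round (x / η) : ℝ)) - (y - η * (round (y / η) : ℝ))) := by
    push_cast
    ring
  have h3 : |((round (x / η) - round (y / η) : ℤ) : ℝ) * η| ≤ 2 * A + η := by
    rw [e]
    rw [abs_le] at h1 h2 hx hy ⊢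
    constructor <;> linarith
  rw [abs_mul, abs_of_pos hη] at h3
  have e2 : 2 * A / η + 1 = (2 * A + η) / η := by
    field_simp
  rw [e2, le_div_iff₀ hη]
  exact h3

theorem null_box (d : ℕ) (A ε : ℝ) (hε : 0 < ε) : ∃ M : ℕ, ∀ (m : ℕ), M ≤ m → ∀ w : Fin m → Euc d,
    Function.Injective w → (∀ i, ‖w i‖ ≤ A) →
    ∃ δ : ℝ, 0 < δ ∧ ∃ B : Finset (Box d), ∑ b ∈ B, b.vol ≤ ε ∧
      ∀ z : Euc d, ‖z‖ ≤ A → ∃ i, ∀ w' : Euc d, dist w' (w i) ≤ δ → ∃ b ∈ B, z - w' ∈ b.set := by
  classical
  set W : ℕ := 4 * (⌈A⌉₊ + 1) with hW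
  have hWpos : (0 : ℝ) < W := by
    rw [hW]
    positivity
  have hWA : 4 * A + 4 ≤ (W : ℝ) := by
    rw [hW]
    push_cast
    have := Nat.le_ceil A
    linarith
  obtain ⟨M0, hM0⟩ := cover (ε / (2 * (4 * (W : ℝ)) ^ d)) (by positivity)
  refine ⟨max M0 2, ?_⟩
  intro m hm w hw hwA
  have hm2 : 2 ≤ m := (le_max_right _ _).trans hm
  have hd : d ≠ 0 := by
    rintro rfl
    have h1 : (⟨0, by omega⟩ : Fin m) = ⟨1, by omega⟩ := hw (Subsingleton.elim _ _)
    simp at h1
  -- choice of L
  have hlim : Filter.Tendsto (fun L : ℕ => (W : ℝ) / L) Filter.atTop (nhds 0) :=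
    tendsto_const_div_atTop_nhds_zero_nat (W : ℝ)
  have hev1 : ∀ᶠ L : ℕ in Filter.atTop, (W : ℝ) / L < 1 / 4 :=
    hlim.eventually (gt_mem_nhds (by norm_num))
  have hev2 : ∀ᶠ L : ℕ in Filter.atTop, ∀ i j : Fin m, i ≠ j →
      (W : ℝ) / L < dist (w i) (w j) / 4 := by
    rw [Filter.eventually_all]
    intro i
    rw [Filter.eventually_all]
    intro j
    by_cases hij : i = j
    · exact Filter.Eventually.of_forall fun L h => absurd hij h
    · have hpos : 0 < dist (w i) (w j) / 4 := by
        have := dist_pos.2 (fun h => hij (hw h))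
        positivity
      filter_upwards [hlim.eventually (gt_mem_nhds hpos)] with L hL _
      exact hL
  have hev3 : ∀ᶠ L : ℕ in Filter.atTop, (4 * ((W : ℝ) / L)) ^ d < ε / 2 := by
    have h1 : Filter.Tendsto (fun L : ℕ => (4 * ((W : ℝ) / L)) ^ d) Filter.atTop
        (nhds ((4 * 0) ^ d)) := (hlim.const_mul 4).pow d
    rw [mul_zero, zero_pow hd] at h1
    exact h1.eventually (gt_mem_nhds (by positivity))
  obtain ⟨L, hL1, hL2, hL3, hL0⟩ :=
    (hev1.and (hev2.and (hev3.and (Filter.eventually_ge_atTop 1)))).exists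
  have : NeZero L := ⟨by omega⟩
  have hLR : (0 : ℝ) < L := by exact_mod_cast hL0
  set ηq : ℚ := (W : ℚ) / L with hηq
  set η : ℝ := (W : ℝ) / L with hη
  have hηcast : ((ηq : ℚ) : ℝ) = η := by
    rw [hηq, hη]
    push_cast
    rfl
  have hη0 : 0 < η := by positivity
  have hLη : (L : ℝ) * η = W := by
    rw [hη]
    field_simp
  have hbig : 2 * A / η + 1 < (L : ℝ) / 2 := by
    have h1 : (L : ℝ) / 2 = (W : ℝ) / 2 / η := by
      rw [← hLη]
      field_simp
    rw [h1, ← sub_pos]
    have h2 : (W : ℝ) / 2 / η - (2 * A / η + 1) = ((W : ℝ) / 2 - 2 * A - η) / η := by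
      field_simp
      ring
    rw [h2]
    refine div_pos ?_ hη0
    linarith
  have hcoord : ∀ (x : Euc d), ‖x‖ ≤ A → ∀ a, |x a| ≤ A := by
    intro x hx a
    have := norm_le_pi_norm x a
    rw [Real.norm_eq_abs] at this
    exact this.trans hx
  let r : Euc d → (Fin d → ZMod L) := fun x a => ((round (x a / η) : ℤ) : ZMod L)
  have hrinj : Function.Injective (fun i => r (w i)) := by
    intro i j hij
    by_contra hne
    have h1 := hL2 i j hne
    have h2 : dist (w i) (w j) ≤ η := by
      rw [dist_pi_le_iff hη0.le]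
      intro a
      have h3 : ((round (w i a / η) : ℤ) : ZMod L) = ((round (w j a / η) : ℤ) : ZMod L) :=
        congrFun hij a
      have h4 := round_diff hη0 (hcoord _ (hwA i) a) (hcoord _ (hwA j) a)
      have h5 : round (w i a / η) = round (w j a / η) := by
        refine int_eq h3 ?_
        have h6 : |((round (w i a / η) - round (w j a / η) : ℤ) : ℝ)| < (L : ℝ) := by
          linarith
        rw [← Int.cast_abs] at h6
        exact_mod_cast h6
      have h7 := round_near (x := w i a) hη0
      have h8 := round_near (x := w j a) hη0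
      rw [h5] at h7
      rw [Real.dist_eq]
      rw [abs_le] at h7 h8 ⊢
      constructor <;> linarith
    have h9 : 0 ≤ dist (w i) (w j) := dist_nonneg
    linarith
  have hYcard : (Finset.univ.image (fun i => r (w i))).card = m := by
    rw [Finset.card_image_of_injective _ hrinj, Finset.card_univ, Fintype.card_fin]
  obtain ⟨U, hU, hUc⟩ := hM0 (Fin d → ZMod L) (Finset.univ.image (fun i => r (w i)))
    (by rw [hYcard]; exact (le_max_left _ _).trans hm)
  let bx : (Fin d → ZMod L) → Box d := fun u a =>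
    (ηq * ((u a).valMinAbs : ℤ) - 2 * ηq, ηq * ((u a).valMinAbs : ℤ) + 2 * ηq)
  have hvol : ∀ u, (bx u).vol = (4 * η) ^ d := by
    intro u
    unfold Box.vol
    have h1 : ∀ a : Fin d, max 0 ((((bx u) a).2 : ℝ) - (((bx u) a).1 : ℝ)) = 4 * η := by
      intro a
      simp only [bx]
      push_cast
      rw [hηcast]
      have h2 : η * ((u a).valMinAbs : ℝ) + 2 * η - (η * ((u a).valMinAbs : ℝ) - 2 * η) =
        4 * η := by ring
      rw [h2]
      exact max_eq_right (by positivity)
    rw [Finset.prod_congr rfl fun a _ => h1 a, Finset.prod_const, Finset.card_univ,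
      Fintype.card_fin]
  refine ⟨η / 4, by positivity, U.image bx, ?_, ?_⟩
  · have h1 : ∑ b ∈ U.image bx, b.vol = ((U.image bx).card : ℝ) * (4 * η) ^ d := by
      rw [← nsmul_eq_mul, ← Finset.sum_const]
      refine Finset.sum_congr rfl fun b hb => ?_
      obtain ⟨u, _, rfl⟩ := Finset.mem_image.1 hb
      exact hvol u
    have h2 : ((U.image bx).card : ℝ) ≤ U.card := by exact_mod_cast Finset.card_image_le
    have hG : (Fintype.card (Fin d → ZMod L) : ℝ) = (L : ℝ) ^ d := by
      rw [Fintype.card_fun, ZMod.card, Fintype.card_fin]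
      push_cast
      rfl
    rw [hG] at hUc
    have hp : 0 ≤ (4 * η) ^ d := by positivity
    rw [h1]
    calc ((U.image bx).card : ℝ) * (4 * η) ^ d ≤ (U.card : ℝ) * (4 * η) ^ d :=
          mul_le_mul_of_nonneg_right h2 hp
      _ ≤ (ε / (2 * (4 * (W : ℝ)) ^ d) * (L : ℝ) ^ d + 1) * (4 * η) ^ d :=
          mul_le_mul_of_nonneg_right hUc hp
      _ = ε / (2 * (4 * (W : ℝ)) ^ d) * (4 * ((L : ℝ) * η)) ^ d + (4 * η) ^ d := by
          rw [mul_pow 4 ((L : ℝ) * η), mul_pow (L : ℝ) η, mul_pow 4 η]
          ring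
      _ ≤ ε / 2 + ε / 2 := by
          rw [hLη]
          refine add_le_add ?_ hL3.le
          have h3 : (4 * (W : ℝ)) ^ d ≠ 0 := by positivity
          rw [div_mul_eq_mul_div, mul_div_mul_right _ _ h3]
      _ = ε := by ring
  · intro z hz
    obtain ⟨u, hu, y, hy, huy⟩ := hU (r z)
    obtain ⟨i, _, rfl⟩ := Finset.mem_image.1 hy
    refine ⟨i, fun w' hw' => ⟨bx u, Finset.mem_image_of_mem _ hu, ?_⟩⟩
    intro a
    have h1 : u a + ((round (w i a / η) : ℤ) : ZMod L) = ((round (z a / η) : ℤ) : ZMod L) :=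
      congrFun huy a
    have h2 : (((u a).valMinAbs : ℤ) : ZMod L) =
        ((round (z a / η) - round (w i a / η) : ℤ) : ZMod L) := by
      rw [ZMod.coe_valMinAbs]
      push_cast
      rw [← h1]
      ring
    have h3 := ZMod.valMinAbs_mem_Ioc (u a)
    have h4 := round_diff hη0 (hcoord _ hz a) (hcoord _ (hwA i) a)
    have h5 : (u a).valMinAbs = round (z a / η) - round (w i a / η) := by
      refine int_eq h2 ?_
      have h6 : |((u a).valMinAbs : ℝ)| ≤ (L : ℝ) / 2 := by
        have h7 : (-(L : ℝ)) < ((u a).valMinAbs : ℝ) * 2 := by exact_mod_cast h3.1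
        have h8 : ((u a).valMinAbs : ℝ) * 2 ≤ (L : ℝ) := by exact_mod_cast h3.2
        rw [abs_le]
        constructor <;> linarith
      have h9 : |((((u a).valMinAbs - (round (z a / η) - round (w i a / η)) : ℤ)) : ℝ)| <
          (L : ℝ) := by
        rw [Int.cast_sub]
        refine (abs_sub _ _).trans_lt ?_
        linarith
      rw [← Int.cast_abs] at h9
      exact_mod_cast h9
    have h10 := round_near (x := z a) hη0
    have h11 := round_near (x := w i a) hη0
    have h12 : |w' a - w i a| ≤ η / 4 := by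
      have := dist_le_pi_dist w' (w i) a
      rw [Real.dist_eq] at this
      exact this.trans hw'
    have h13 : (((u a).valMinAbs : ℤ) : ℝ) =
        (round (z a / η) : ℝ) - (round (w i a / η) : ℝ) := by
      rw [h5]
      push_cast
      rfl
    simp only [bx]
    push_cast
    rw [hηcast, h13, Pi.sub_apply, mul_sub]
    rw [abs_le] at h10 h11 h12
    constructor <;> linarith

end SX
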