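import Pool.Agent.Helper75.SX.Many
import Pool.Agent.Helper75.SX.NullBox

/-!
# One step of the response, null case (module SX-23)

Let `A = max M (sup ‖f‖)` (`f` is bounded since `Can` is compact) and let `M₀` be the number of `null_box` for
`d, A, ε / 2^k`.

Local version: fix `κ₀ ∈ Z` and `τ`.  By `many` for `g = fun a => f (mix N κ₀ a)` there are `a i ∈ cyl τ k`, `i : Fin M₀`,
with different values `w i = f (mix N κ₀ (a i))`.  `null_box` gives `δ > 0` and `B`.  By `osc` there is `l ≥ k` such that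
`dist (f (mix N κ a')) (w i) ≤ δ` for all `κ` which agree with `κ₀` below `l` and all `a' ∈ cyl (a i) l`.  So for all such
`κ` and all `‖z‖ ≤ M` there is `i` such that for all `a' ∈ cyl (a i) l` some `b ∈ B` has
`z - f (mix N κ a') ∈ b.set`.  There are `2^k` different sets `cyl τ k`: let `l(κ₀)` be the maximum and `B(κ₀)` the union
(`Finset.biUnion` over `τ` in the image of `Fin k → Bool`), of total volume at most `2^k * (ε / 2^k) = ε`
(volumes are nonnegative).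

Compactness: `Z` is covered by finitely many sets `cyl κ₀ (l(κ₀))`, `κ₀ ∈ F ⊆ Z` finite.  Let `l = k'` be the maximum of
the `l(κ₀)` and `k`.  For `κ` which agrees below `l(κ₀)` with some `κ₀ ∈ F` let `B κ = B(κ₀)` for a chosen such `κ₀`, where
the choice depends only on the values of `κ` below `l` (e.g. choose as a function of the set
`{κ₀ ∈ F | κ ∈ cyl κ₀ (l(κ₀))}`), and `B κ = ∅` for the other `κ`.
-/

set_option autoImplicit false

open Set Topology

namespace SX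

private theorem vol_nn {d : ℕ} (b : Box d) : 0 ≤ b.vol :=
  Finset.prod_nonneg fun _ _ => le_max_left _ _

private theorem sum_biUnion_vol {d : ℕ} {ι : Type} [DecidableEq ι] [DecidableEq (Box d)] (s : Finset ι)
    (B : ι → Finset (Box d)) : ∑ b ∈ s.biUnion B, b.vol ≤ ∑ i ∈ s, ∑ b ∈ B i, b.vol := by
  induction s using Finset.induction_on with
  | empty => simp
  | insert a s ha ih =>
    rw [Finset.biUnion_insert, Finset.sum_insert ha]
    have h1 := Finset.sum_union_inter (s₁ := B a) (s₂ := s.biUnion B) (f := fun b : Box d => b.vol)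
    have h2 : 0 ≤ ∑ b ∈ B a ∩ s.biUnion B, b.vol := Finset.sum_nonneg fun b _ => vol_nn b
    linarith

private theorem cyl_sub {x : Can} {k l : ℕ} (h : k ≤ l) : cyl x l ⊆ cyl x k :=
  fun _ hy n hn => hy n (lt_of_lt_of_le hn h)

/-- extension by `false` -/
private def ex (k : ℕ) (w : Fin k → Bool) : Can := fun n => if hn : n < k then w ⟨n, hn⟩ else false

private theorem cyl_ex (τ : Can) (k : ℕ) : cyl (ex k fun i => τ i) k = cyl τ k := by
  have h1 : ∀ n < k, ex k (fun i => τ i) n = τ n := by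
    intro n hn
    unfold ex
    rw [dif_pos hn]
  ext y
  constructor
  · intro hy n hn
    rw [← h1 n hn]
    exact hy n hn
  · intro hy n hn
    rw [h1 n hn]
    exact hy n hn

theorem null_step {d : ℕ} (N : Set ℕ) {f : Can → Euc d} (hf : Continuous f) {Z : Set Can}
    (hZ : IsCompact Z) (nc : ∀ κ ∈ Z, ∀ τ k, ∃ a ∈ cyl τ k, ∃ b ∈ cyl τ k, f (mix N κ a) ≠ f (mix N κ b))
    (M : ℝ) (k : ℕ) (ε : ℝ) (hε : 0 < ε) :
    ∃ (l k' : ℕ) (B : Can → Finset (Box d)), k ≤ k' ∧ (∀ κ κ', (∀ i < l, κ i = κ' i) → B κ = B κ') ∧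
      (∀ κ, ∑ b ∈ B κ, b.vol ≤ ε) ∧
      ∀ κ ∈ Z, ∀ z : Euc d, ‖z‖ ≤ M → ∀ τ, ∃ a ∈ cyl τ k, ∀ a' ∈ cyl a k',
        ∃ b ∈ B κ, z - f (mix N κ a') ∈ b.set := by
  classical
  obtain ⟨C, hC⟩ := isCompact_univ.exists_bound_of_continuousOn (f := f) hf.continuousOn
  obtain ⟨M₀, hM₀⟩ := null_box d (max M C) (ε / 2 ^ k) (by positivity)
  have L1 : ∀ κ₀ ∈ Z, ∀ τ : Can, ∃ (l : ℕ) (B : Finset (Box d)), k ≤ l ∧
      ∑ b ∈ B, b.vol ≤ ε / 2 ^ k ∧ ∀ κ ∈ cyl κ₀ l, ∀ z : Euc d, ‖z‖ ≤ M →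
        ∃ a ∈ cyl τ k, ∀ a' ∈ cyl a l, ∃ b ∈ B, z - f (mix N κ a') ∈ b.set := by
    intro κ₀ hκ₀ τ
    have hg : Continuous fun a : Can => f (mix N κ₀ a) :=
      hf.comp ((continuous_mix N).comp (continuous_const.prodMk continuous_id))
    obtain ⟨a, ha, hinj⟩ := many hg (fun τ k => nc κ₀ hκ₀ τ k) M₀ τ k
    obtain ⟨δ, hδ, B, hB, hz⟩ := hM₀ M₀ le_rfl (fun i => f (mix N κ₀ (a i))) hinj
      (fun i => (hC _ trivial).trans (le_max_right _ _))
    obtain ⟨l₀, hl₀⟩ := osc hf hδ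
    refine ⟨max l₀ k, B, le_max_right _ _, hB, fun κ hκ z hzM => ?_⟩
    obtain ⟨i, hi⟩ := hz z (hzM.trans (le_max_left _ _))
    refine ⟨a i, ha i, fun a' ha' => hi _ ?_⟩
    refine (hl₀ _ _ ?_).le
    exact mix_agree N (fun j hj => hκ j (lt_of_lt_of_le hj (le_max_left _ _)))
      (fun j hj => ha' j (lt_of_lt_of_le hj (le_max_left _ _)))
  have L2 : ∀ κ₀ : Can, ∃ (l : ℕ) (B : Finset (Box d)), k ≤ l ∧ ∑ b ∈ B, b.vol ≤ ε ∧
      (κ₀ ∈ Z → ∀ κ ∈ cyl κ₀ l, ∀ z : Euc d, ‖z‖ ≤ M → ∀ τ,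
        ∃ a ∈ cyl τ k, ∀ a' ∈ cyl a l, ∃ b ∈ B, z - f (mix N κ a') ∈ b.set) := by
    intro κ₀
    by_cases hκ₀ : κ₀ ∈ Z
    · choose l B hl hB hr using L1 κ₀ hκ₀
      refine ⟨max k (Finset.univ.sup fun w : Fin k → Bool => l (ex k w)),
        Finset.univ.biUnion fun w : Fin k → Bool => B (ex k w), le_max_left _ _, ?_, ?_⟩
      · refine (sum_biUnion_vol _ _).trans ?_
        have h1 : ∑ w : Fin k → Bool, ∑ b ∈ B (ex k w), b.vol ≤ ∑ _w : Fin k → Bool, ε / 2 ^ k :=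
          Finset.sum_le_sum fun w _ => hB (ex k w)
        refine h1.trans (le_of_eq ?_)
        rw [Finset.sum_const, Finset.card_univ, Fintype.card_fun, Fintype.card_bool, Fintype.card_fin,
          nsmul_eq_mul]
        push_cast
        field_simp
      · intro _ κ hκ z hz τ
        have h1 : l (ex k fun i => τ i) ≤ max k (Finset.univ.sup fun w : Fin k → Bool => l (ex k w)) :=
          le_trans (Finset.le_sup (f := fun w : Fin k → Bool => l (ex k w))
            (Finset.mem_univ (fun i : Fin k => τ i))) (le_max_right _ _)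
        obtain ⟨a, ha, ha'⟩ := hr (ex k fun i => τ i) κ (cyl_sub h1 hκ) z hz
        rw [cyl_ex] at ha
        refine ⟨a, ha, fun a' h2 => ?_⟩
        obtain ⟨b, hb, hb'⟩ := ha' a' (cyl_sub h1 h2)
        exact ⟨b, Finset.mem_biUnion.2 ⟨_, Finset.mem_univ _, hb⟩, hb'⟩
    · exact ⟨k, ∅, le_rfl, by simpa using hε.le, fun h => absurd h hκ₀⟩
  choose l B₀ hl hB₀ hr using L2
  obtain ⟨t, htZ, ht⟩ := hZ.elim_nhds_subcover (fun κ => cyl κ (l κ))
    (fun κ _ => (isClopen_cyl κ (l κ)).isOpen.mem_nhds fun _ _ => rfl)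
  set L : ℕ := max k (t.sup l) with hL
  have hlL : ∀ κ₀ ∈ t, l κ₀ ≤ L := fun κ₀ h => (Finset.le_sup h).trans (le_max_right _ _)
  set T : Can → Set Can := fun κ => {κ₀ | κ₀ ∈ t ∧ κ ∈ cyl κ₀ (l κ₀)} with hT
  set F : Set Can → Finset (Box d) := fun s => if h : s.Nonempty then B₀ h.some else ∅ with hF
  refine ⟨L, L, fun κ => F (T κ), le_max_left _ _, ?_, ?_, ?_⟩
  · intro κ κ' h
    have h1 : T κ = T κ' := by
      ext κ₀
      simp only [hT, mem_setOf_eq]
      constructor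
      · rintro ⟨h2, h3⟩
        exact ⟨h2, fun n hn => by rw [← h n (lt_of_lt_of_le hn (hlL κ₀ h2))]; exact h3 n hn⟩
      · rintro ⟨h2, h3⟩
        exact ⟨h2, fun n hn => by rw [h n (lt_of_lt_of_le hn (hlL κ₀ h2))]; exact h3 n hn⟩
    simp only [h1]
  · intro κ
    simp only [hF]
    split_ifs with h
    · exact hB₀ _
    · simpa using hε.le
  · intro κ hκ z hz τ
    have hne : (T κ).Nonempty := by
      obtain ⟨κ₀, h1, h2⟩ := mem_iUnion₂.1 (ht hκ)
      exact ⟨κ₀, h1, h2⟩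
    have hmem := hne.some_mem
    obtain ⟨a, ha, ha'⟩ := hr hne.some (htZ _ hmem.1) κ hmem.2 z hz τ
    refine ⟨a, ha, fun a' h2 => ?_⟩
    obtain ⟨b, hb, hb'⟩ := ha' a' (cyl_sub (hlL _ hmem.1) h2)
    refine ⟨b, ?_, hb'⟩
    simp only [hF]
    rw [dif_pos hne]
    exact hb

end SX
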