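import Pool.Agent.Helper75.SX.RespDef
import Pool.Agent.Helper75.SX.NullStep

/-!
# Response systems, null case (module SX-25)

Let `(l, k', B)` be the objects given by `null_step N hf hZ nc (M := n) k (ε := (1/2)^n)`, as functions of `n` and
`k`: `lf n k`, `kf n k`, `Bf n k` (`choose`).  Define `Λ 0 = 0`, `Λ' n = kf n (Λ n)` and `Λ (n+1)` = a number larger than
`Λ' n` such that for every `j ≤ n` there is `p` with `Λ' n ≤ p < Λ (n+1)` and `β p = β j` (`hβ j (Λ' n)`, finitely many
`j`).  Let `Bn n = Bf n (Λ n) : Can → Finset (Box d)`, and `B n = {q | ∃ b ∈ Bn n q.1, q.2 ∈ b.set}`, an open set because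
`Bn n` is locally constant and boxes are open.  `resp`: `n₀ = ⌈M⌉₊`.

The code: `code κ (pair n i) = (Bn n κ).toList[i]` if `i < (Bn n κ).card` and the box `fun _ => (0, 1)` multiplied out
to volume `0` otherwise: use the junk box `fun _ => (0, 0)`, whose volume is `0` if `d ≥ 1`.  For `d = 0` the space has
one point and `nc` is impossible if `Z` is nonempty, but `valid` is demanded for every `κ`; in dimension `0` every box
has volume `1`, so `Valid Idl.null` is never true: this is why the hypothesis `1 ≤ d` is there.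
`valid`: the sum over `i` of the volumes for fixed `n` is at most `(1/2)^n`, hence the whole family is summable
(`summable_prod_of_nonneg` or via `Nat.pairEquiv`).  `loc`: `code κ k` depends on `κ` only through `Bn n κ`,
`n = (unpair k).1`.  `hit`: if `(κ, z) ∈ B n` then `z` is in the box `code κ (pair n i)` for some `i`, and
`pair n i ≥ n`; there are infinitely many such `n`, since every late block contains one (`K.blk n = j` implies
`n ≥ j` by `Tasks.blk_le`).
-/

set_option autoImplicit false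

open Set Topology

namespace SX

/-- the empty box -/
private def junk (d : ℕ) : Box d := fun _ => (0, 0)

private theorem vol_junk {d : ℕ} (hd : 1 ≤ d) : (junk d).vol = 0 := by
  unfold Box.vol junk
  refine Finset.prod_eq_zero (Finset.mem_univ (⟨0, hd⟩ : Fin d)) ?_
  simp

private theorem vol_nonneg' {d : ℕ} (b : Box d) : 0 ≤ b.vol :=
  Finset.prod_nonneg fun _ _ => le_max_left _ _

private theorem box_open {d : ℕ} (b : Box d) : IsOpen b.set := by
  have h1 : b.set = Set.pi univ fun i => Ioo ((b i).1 : ℝ) ((b i).2 : ℝ) := by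
    ext x
    simp [Box.set, Set.mem_pi]
  rw [h1]
  exact isOpen_set_pi finite_univ fun i _ => isOpen_Ioo

private theorem hasSum_list {d : ℕ} (hd : 1 ≤ d) (L : List (Box d)) :
    HasSum (fun i : ℕ => ((L[i]?).getD (junk d)).vol) ((L.map Box.vol).sum) := by
  induction L with
  | nil =>
    simp only [List.getElem?_nil, Option.getD_none, vol_junk hd, List.map_nil, List.sum_nil]
    exact hasSum_zero
  | cons b L ih =>
    rw [← hasSum_nat_add_iff' 1]
    simp only [List.getElem?_cons_succ, Finset.range_one, Finset.sum_singleton,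
      List.getElem?_cons_zero, Option.getD_some, List.map_cons, List.sum_cons, add_sub_cancel_left]
    exact ih

private theorem exists_room {J : Type} (β : ℕ → J) (hβ : ∀ n k, ∃ m, k ≤ m ∧ β m = β n) (n k : ℕ) :
    ∃ L, k ≤ L ∧ ∀ j ≤ n, ∃ p, k ≤ p ∧ p < L ∧ β p = β j := by
  choose m hm1 hm2 using hβ
  refine ⟨1 + k + ∑ j ∈ Finset.range (n + 1), m j k, by omega, fun j hj => ?_⟩
  refine ⟨m j k, hm1 j k, ?_, hm2 j k⟩
  have h1 : m j k ≤ ∑ j ∈ Finset.range (n + 1), m j k :=
    Finset.single_le_sum (f := fun j => m j k) (fun _ _ => Nat.zero_le _)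
      (Finset.mem_range.2 (by omega))
  omega

theorem resp_null (K : Tasks) {J : Type} (β : ℕ → J) (hβ : ∀ n k, ∃ m, k ≤ m ∧ β m = β n) {d : ℕ}
    (hd : 1 ≤ d) (N : Set ℕ) {f : Can → Euc d} (hf : Continuous f) {Z : Set Can} (hZ : IsCompact Z)
    (nc : ∀ κ ∈ Z, ∀ τ k, ∃ a ∈ cyl τ k, ∃ b ∈ cyl τ k, f (mix N κ a) ≠ f (mix N κ b)) :
    Nonempty (Resp K β Idl.null N f Z) := by
  classical
  have hstep := fun (n k : ℕ) => null_step N hf hZ nc (n : ℝ) k ((1 / 2 : ℝ) ^ n) (by positivity)
  choose lf kf Bf hk hloc hvol hresp using hstep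
  have hroom := exists_room β hβ
  choose rm hrm1 hrm2 using hroom
  let Λ : ℕ → ℕ := fun n => Nat.rec 0 (fun n Λn => rm n (kf n Λn)) n
  have hΛs : ∀ n, Λ (n + 1) = rm n (kf n (Λ n)) := fun _ => rfl
  set Bn : ℕ → Can → Finset (Box d) := fun n κ => Bf n (Λ n) κ with hBn
  set code : Can → ℕ → Box d := fun κ k =>
    (((Bn (Nat.unpair k).1 κ).toList)[(Nat.unpair k).2]?).getD (junk d) with hcode
  refine ⟨{ Λ := Λ
            Λ' := fun n => kf n (Λ n)
            hΛ := fun n => ⟨hk n (Λ n), by rw [hΛs]; exact hrm1 n _⟩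
            room := fun n j hj => by
              rw [hΛs]
              exact hrm2 n _ j hj
            B := fun n => {w | ∃ b ∈ Bn n w.1, w.2 ∈ b.set}
            opn := ?_
            resp := ?_
            code := code
            loc := ?_
            valid := ?_
            hit := ?_ }⟩
  · intro n
    rw [isOpen_iff_mem_nhds]
    rintro ⟨κ, z⟩ ⟨b, hb, hz⟩
    have h1 : cyl κ (lf n (Λ n)) ∈ 𝓝 κ := (isClopen_cyl κ _).isOpen.mem_nhds fun _ _ => rfl
    have h2 : b.set ∈ 𝓝 z := (box_open b).mem_nhds hz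
    filter_upwards [prod_mem_nhds h1 h2] with w hw
    refine ⟨b, ?_, hw.2⟩
    have h3 : Bn n w.1 = Bn n κ := hloc n (Λ n) w.1 κ fun i hi => hw.1 i hi
    rw [h3]
    exact hb
  · intro M
    refine ⟨⌈M⌉₊, fun n hn κ hκ z hz τ => ?_⟩
    have h1 : M ≤ (n : ℝ) := (Nat.le_ceil M).trans (by exact_mod_cast hn)
    obtain ⟨a, ha, ha'⟩ := hresp n (Λ n) κ hκ z (hz.trans h1) τ
    exact ⟨a, ha, fun a' h2 => ha' a' h2⟩
  · intro k
    refine ⟨lf (Nat.unpair k).1 (Λ (Nat.unpair k).1), fun κ κ' hκ => ?_⟩
    have h1 : Bn (Nat.unpair k).1 κ = Bn (Nat.unpair k).1 κ' := hloc _ _ κ κ' hκ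
    simp only [hcode]
    rw [h1]
  · intro κ
    show Summable fun k => (code κ k).vol
    rw [← Nat.pairEquiv.summable_iff]
    have hF : ((fun k => (code κ k).vol) ∘ Nat.pairEquiv) = fun w : ℕ × ℕ =>
        ((((Bn w.1 κ).toList)[w.2]?).getD (junk d)).vol := by
      funext w
      simp [hcode, Nat.pairEquiv_apply, Function.uncurry]
    rw [hF, summable_prod_of_nonneg (fun w => vol_nonneg' _)]
    refine ⟨fun n => (hasSum_list hd (Bn n κ).toList).summable, ?_⟩
    have hsum : ∀ n, ∑' i : ℕ, ((((Bn n κ).toList)[i]?).getD (junk d)).vol ≤ (1 / 2 : ℝ) ^ n := by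
      intro n
      have h1 := (hasSum_list hd (Bn n κ).toList).tsum_eq
      rw [Finset.sum_map_toList] at h1
      rw [h1]
      exact hvol n (Λ n) κ
    exact Summable.of_nonneg_of_le (fun n => tsum_nonneg fun i => vol_nonneg' _) hsum
      (summable_geometric_of_lt_one (by norm_num) (by norm_num))
  · rintro κ z ⟨j₀, hj₀⟩
    intro N'
    obtain ⟨n, hn, b, hb, hz⟩ := hj₀ (max j₀ N') (le_max_left _ _)
    have h1 : N' ≤ n := by
      have h2 := K.blk_le n
      rw [hn] at h2
      exact (le_max_right _ _).trans h2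
    obtain ⟨i, hi⟩ := List.getElem?_of_mem (Finset.mem_toList.2 hb)
    refine ⟨Nat.pair n i, h1.trans (Nat.left_le_pair n i), ?_⟩
    have h3 : code κ (Nat.pair n i) = b := by
      simp only [hcode, Nat.unpair_pair]
      rw [hi]
      rfl
    rw [h3]
    exact hz

end SX
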