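import Pool.Agent.Helper75.SX.FamD
import Pool.Agent.Helper75.SX.GenSeq

/-!
# Continuous reading of names (module SX-09)

* `read_seq`: `D k = {r | ∃ a, Frc r (fun G => X G k = a)}` is dense (`hX k`) and open (`Frc.anti`).  Apply `fusion`.
  For each condition `r ∈ D k` choose the value `v k r`; let `F x k = v k (h.node x k)`.  If `x, y` agree below `k`
  then `cyl x k = cyl y k` and `h.node x k = h.node y k`.  The last clause: for a.e. `G` containing `h.top`
  and the branch `x` of `G`, all `h.node x k` are in `G.S` (`node_mem`), and `Frc (h.node x k) (X G k = F x k)` for the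
  countably many pairs (`k`, representative of `cyl x k`): use that for every `k` there are only finitely
  (countably) many conditions `h.node x k`; e.g. quantify over `x` in the countable set of eventually false
  sequences, `eventually_countable_forall`.
* `read_real`: `D m = {r | ∃ y, Frc r (fun G => dist (X G) y < (1/2)^m)}`.  With chosen centres `y m r`, put
  `Y m x = y m (h.node x m)`.  For `m ≤ m'`: `dist (Y m x) (Y m' x) < 2 * (1/2)^m` since some filter `G` contains
  `h.node x m' ≤ h.node x m` and satisfies both statements (`frc_exists`, `Frc.and`, `Frc.anti`).  So `Y · x` is a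
  Cauchy sequence, let `f x` be its limit; `dist (Y m x) (f x) ≤ 2 * (1/2)^m` and `Y m x` depends only on the values
  of `x` below `m`, hence `f` is continuous; and `X G = f x` for a.e. `G` as before.
-/

set_option autoImplicit false

open Set Topology LM

namespace SX

variable {J : Type}

theorem node_congr {β : ℕ → J} {e : ℕ → Can → Can} (h : Sch β e) {x y : Can} {k : ℕ}
    (hxy : ∀ n < k, x n = y n) : h.node x k = h.node y k := by
  apply Cond.ext_S
  have h1 : cyl x k = cyl y k := by
    ext z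
    constructor
    · intro hz n hn
      rw [← hxy n hn]
      exact hz n hn
    · intro hz n hn
      rw [hxy n hn]
      exact hz n hn
  funext i
  rw [h.node_S, h.node_S, h1]

theorem node_anti {β : ℕ → J} {e : ℕ → Can → Can} (h : Sch β e) (x : Can) {k l : ℕ}
    (hkl : k ≤ l) : h.node x l ≤ h.node x k := by
  intro i
  rw [h.node_S, h.node_S]
  apply scv_mono
  intro z hz n hn
  exact hz n (by omega)

/-- a point from finitely many bits -/
def exb (k : ℕ) (w : Fin k → Bool) : Can := fun n => if hn : n < k then w ⟨n, hn⟩ else false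

theorem exb_apply {k : ℕ} (x : Can) : ∀ n < k, exb k (fun i => x i) n = x n := by
  intro n hn
  unfold exb
  rw [dif_pos hn]

theorem exb_congr {k : ℕ} {x y : Can} (hxy : ∀ n < k, x n = y n) :
    exb k (fun i => x i) = exb k (fun i => y i) := by
  have : (fun i : Fin k => x i) = fun i : Fin k => y i := by
    funext i
    exact hxy i i.2
  rw [this]

theorem read_seq [Nonempty J] {A : Type} (X : Flt (Cond J) → ℕ → A) (hX : ∀ k, DName fun G => X G k)
    (p : Cond J) {T : Set J} (hT : T.Countable) :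
    ∃ (β : ℕ → J) (e : ℕ → Can → Can) (h : Sch β e), h.top ≤ p ∧ T ⊆ range β ∧
      ∃ F : Can → ℕ → A, (∀ x y k, (∀ n < k, x n = y n) → F x k = F y k) ∧
        (∀ x k, Frc (h.node x k) fun G => X G k = F x k) ∧
        ∀ᶠ G in Gen (Cond J), h.top ∈ G.S → ∀ x, (∀ n, e n x = gen G (β n)) → X G = F x := by
  let D : ℕ → Set (Cond J) := fun k => {r | ∃ a, Frc r fun G => X G k = a}
  have hD : ∀ m q, ∃ r ∈ D m, r ≤ q := by
    intro m q
    obtain ⟨r, hr, a, ha⟩ := hX m q
    exact ⟨r, ⟨a, ha⟩, hr⟩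
  have hDo : ∀ m, ∀ q ∈ D m, ∀ r ≤ q, r ∈ D m := by
    rintro m q ⟨a, ha⟩ r hr
    exact ⟨a, ha.anti hr⟩
  obtain ⟨β, e, h, htop, hTr, hnode⟩ := fusion p hT D hD hDo
  have hnode' : ∀ m x, ∃ a, Frc (h.node x m) fun G => X G m = a := hnode
  choose v hv using hnode'
  refine ⟨β, e, h, htop, hTr, fun x k => v k (exb k fun i => x i), ?_, ?_, ?_⟩
  · intro x y k hxy
    simp only
    rw [exb_congr hxy]
  · intro x k
    have h1 := hv k (exb k fun i => x i)
    rw [node_congr h (exb_apply (k := k) x)] at h1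
    exact h1
  · have hae : ∀ᶠ G in Gen (Cond J), ∀ k, ∀ w : Fin k → Bool,
        h.node (exb k w) k ∈ G.S → X G k = v k (exb k w) := by
      rw [eventually_countable_forall]
      intro k
      rw [eventually_countable_forall]
      intro w
      exact hv k (exb k w)
    filter_upwards [hae, node_mem h] with G h1 h2 htopG x hx
    funext k
    apply h1 k
    rw [node_congr h (exb_apply (k := k) x)]
    exact h2 htopG x hx k

theorem read_real [Nonempty J] {d : ℕ} (X : Flt (Cond J) → Euc d) (hX : RName X)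
    (p : Cond J) {T : Set J} (hT : T.Countable) :
    ∃ (β : ℕ → J) (e : ℕ → Can → Can) (h : Sch β e), h.top ≤ p ∧ T ⊆ range β ∧
      ∃ f : Can → Euc d, Continuous f ∧
        ∀ᶠ G in Gen (Cond J), h.top ∈ G.S → ∀ x, (∀ n, e n x = gen G (β n)) → X G = f x := by
  let D : ℕ → Set (Cond J) := fun m => {r | ∃ y : Euc d, Frc r fun G => dist (X G) y < (1 / 2 : ℝ) ^ m}
  have hD : ∀ m q, ∃ r ∈ D m, r ≤ q := by
    intro m q
    obtain ⟨r, hr, y, hy⟩ := hX q ((1 / 2 : ℝ) ^ m) (by positivity)
    exact ⟨r, ⟨y, hy⟩, hr⟩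
  have hDo : ∀ m, ∀ q ∈ D m, ∀ r ≤ q, r ∈ D m := by
    rintro m q ⟨y, hy⟩ r hr
    exact ⟨y, hy.anti hr⟩
  obtain ⟨β, e, h, htop, hTr, hnode⟩ := fusion p hT D hD hDo
  have hnode' : ∀ m x, ∃ y : Euc d, Frc (h.node x m) fun G => dist (X G) y < (1 / 2 : ℝ) ^ m := hnode
  choose v hv using hnode'
  let Y : ℕ → Can → Euc d := fun m x => v m (exb m fun i => x i)
  have hYdef : ∀ m x, Y m x = v m (exb m fun i => x i) := fun _ _ => rfl
  have hY : ∀ m x, Frc (h.node x m) fun G => dist (X G) (Y m x) < (1 / 2 : ℝ) ^ m := by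
    intro m x
    have h1 := hv m (exb m fun i => x i)
    rw [node_congr h (exb_apply (k := m) x)] at h1
    exact h1
  have hdist : ∀ x, ∀ m m', m ≤ m' → dist (Y m x) (Y m' x) ≤ 2 * (1 / 2 : ℝ) ^ m := by
    intro x m m' hmm
    obtain ⟨G, _, h1, h2⟩ := frc_exists (((hY m x).anti (node_anti h x hmm)).and (hY m' x))
    have h3 : (1 / 2 : ℝ) ^ m' ≤ (1 / 2 : ℝ) ^ m :=
      pow_le_pow_of_le_one (by norm_num) (by norm_num) hmm
    calc dist (Y m x) (Y m' x) ≤ dist (X G) (Y m x) + dist (X G) (Y m' x) :=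
          dist_triangle_left _ _ _
      _ ≤ 2 * (1 / 2 : ℝ) ^ m := by linarith
  have hb0 : Filter.Tendsto (fun m : ℕ => (1 / 2 : ℝ) ^ m) Filter.atTop (𝓝 0) :=
    tendsto_pow_atTop_nhds_zero_of_lt_one (by norm_num) (by norm_num)
  have hb : Filter.Tendsto (fun m : ℕ => 2 * (1 / 2 : ℝ) ^ m) Filter.atTop (𝓝 0) := by
    simpa using hb0.const_mul 2
  have hC : ∀ x, ∃ l, Filter.Tendsto (fun m => Y m x) Filter.atTop (𝓝 l) := by
    intro x
    apply cauchySeq_tendsto_of_complete
    exact cauchySeq_of_le_tendsto_0' _ (fun m m' hmm => hdist x m m' hmm) hb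
  choose f hf using hC
  have hfd : ∀ x m, dist (Y m x) (f x) ≤ 2 * (1 / 2 : ℝ) ^ m := by
    intro x m
    refine le_of_tendsto (tendsto_const_nhds.dist (hf x)) ?_
    exact Filter.eventually_atTop.mpr ⟨m, fun m' hm => hdist x m m' hm⟩
  refine ⟨β, e, h, htop, hTr, f, ?_, ?_⟩
  · rw [Metric.continuous_iff']
    intro x ε hε
    have h1 : Filter.Tendsto (fun m : ℕ => 4 * (1 / 2 : ℝ) ^ m) Filter.atTop (𝓝 0) := by
      simpa using hb0.const_mul 4
    obtain ⟨m, hm⟩ := (h1.eventually (gt_mem_nhds hε)).exists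
    have h2 : cyl x m ∈ 𝓝 x := (isClopen_cyl x m).isOpen.mem_nhds (fun _ _ => rfl)
    filter_upwards [h2] with y hy
    have h3 : Y m y = Y m x := by
      rw [hYdef, hYdef, exb_congr (k := m) (x := y) (y := x) hy]
    have h4 := hfd y m
    have h5 := hfd x m
    rw [h3] at h4
    calc dist (f y) (f x) ≤ dist (Y m x) (f y) + dist (Y m x) (f x) := dist_triangle_left _ _ _
      _ ≤ 4 * (1 / 2 : ℝ) ^ m := by linarith
      _ < ε := hm
  · have hae : ∀ᶠ G in Gen (Cond J), ∀ k, ∀ w : Fin k → Bool,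
        h.node (exb k w) k ∈ G.S → dist (X G) (v k (exb k w)) < (1 / 2 : ℝ) ^ k := by
      rw [eventually_countable_forall]
      intro k
      rw [eventually_countable_forall]
      intro w
      exact hv k (exb k w)
    filter_upwards [hae, node_mem h] with G h1 h2 htopG x hx
    have h3 : ∀ m, dist (X G) (Y m x) < (1 / 2 : ℝ) ^ m := by
      intro m
      apply h1 m
      rw [node_congr h (exb_apply (k := m) x)]
      exact h2 htopG x hx m
    have h4 : ∀ m, dist (X G) (f x) ≤ 3 * (1 / 2 : ℝ) ^ m := by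
      intro m
      have h5 := h3 m
      have h6 := hfd x m
      calc dist (X G) (f x) ≤ dist (X G) (Y m x) + dist (Y m x) (f x) := dist_triangle _ _ _
        _ ≤ 3 * (1 / 2 : ℝ) ^ m := by linarith
    have h7 : Filter.Tendsto (fun m : ℕ => 3 * (1 / 2 : ℝ) ^ m) Filter.atTop (𝓝 0) := by
      simpa using hb0.const_mul 3
    have h8 : dist (X G) (f x) ≤ 0 := ge_of_tendsto' h7 h4
    exact dist_le_zero.mp h8

end SX
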