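import Pool.Agent.Helper75.SX.SysDef
import Pool.Agent.Helper75.SX.Read
import Pool.Agent.Helper75.SX.Delta
import Pool.Agent.Helper75.SX.Count

/-!
# Existence of systems (module SX-13)

For every `ξ : J` take a reading `(β ξ, e' ξ, f' ξ)` of `y ξ` below `r0` (`read_real` with `T = ∅`).  Apply `delta` to
the sets `range (β ξ)` (`O = J`): there are `O1 ⊆ J` with `𝔠 < #O1` and `R`.  To `ξ` assign its type:
* the pattern `fun n m => decide (β ξ n = β ξ m) : ℕ → ℕ → Bool`,
* `fun n => e' ξ n : ℕ → {g : Can → Can // Continuous g}`,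
* `f' ξ : {g : Can → Euc d // Continuous g}`,
* `fun n => if h : β ξ n ∈ R then some ⟨β ξ n, h⟩ else none : ℕ → Option R`.
The type of all types has cardinality at most `𝔠` (`mk_cont`, `mk_seq`, `mk_can`, `mk_euc`, `R` countable).  By `pigeon`
there is `O ⊆ O1` with `𝔠 < #O` on which the type is constant.  Put `e = e' ξ`, `f = f' ξ`, `N = {n | β ξ n ∈ R}` for
one (any) `ξ ∈ O`.  All clauses are immediate.
-/

set_option autoImplicit false

open Set Topology LM
open scoped Cardinal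

namespace SX

theorem sysex_prod {A B : Type} (hA : #A ≤ 𝔠) (hB : #B ≤ 𝔠) : #(A × B) ≤ 𝔠 := by
  rw [Cardinal.mk_prod, Cardinal.lift_id, Cardinal.lift_id]
  calc #A * #B ≤ 𝔠 * 𝔠 := mul_le_mul' hA hB
    _ = 𝔠 := Cardinal.continuum_mul_self

open Classical in
/-- the position in the root -/
noncomputable def sysexRt {J : Type} (R : Set J) (j : J) : Option R :=
  if h : j ∈ R then some ⟨j, h⟩ else none

theorem sysexRt_eq {J : Type} {R : Set J} {i j : J} (h : sysexRt R i = sysexRt R j) :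
    (i ∈ R ↔ j ∈ R) ∧ (i ∈ R → i = j) := by
  unfold sysexRt at h
  by_cases hi : i ∈ R
  · by_cases hj : j ∈ R
    · rw [dif_pos hi, dif_pos hj] at h
      have h1 := congrArg Subtype.val (Option.some.inj h)
      exact ⟨⟨fun _ => hj, fun _ => hi⟩, fun _ => h1⟩
    · rw [dif_pos hi, dif_neg hj] at h
      simp at h
  · by_cases hj : j ∈ R
    · rw [dif_neg hi, dif_pos hj] at h
      simp at h
    · exact ⟨⟨fun h => absurd h hi, fun h => absurd h hj⟩, fun h => absurd h hi⟩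

theorem exists_sys {J : Type} (hJ : 𝔠 < #J) {d : ℕ} (r0 : Cond J) (y : J → Flt (Cond J) → Euc d)
    (hy : ∀ j, RName (y j)) : Nonempty (Sys J d r0 y) := by
  classical
  have hne : Nonempty J := by
    by_contra hcon
    rw [not_nonempty_iff] at hcon
    have h1 : #J = 0 := Cardinal.mk_eq_zero J
    rw [h1] at hJ
    exact absurd hJ not_lt_zero
  have hrd := fun ξ : J => read_real (y ξ) (hy ξ) r0 (T := ∅) countable_empty
  choose β e h htop _ f hf hread using hrd
  obtain ⟨O1, hO1, R, hRc, hdelta⟩ := delta (fun ξ => range (β ξ)) (fun ξ => countable_range _) hJ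
  have hRo : #(Option R) ≤ 𝔠 := by
    have : Countable R := hRc.to_subtype
    exact (Cardinal.mk_le_aleph0 (α := Option R)).trans Cardinal.aleph0_le_continuum
  have hA : #((ℕ → ℕ → Bool) × (ℕ → {g : Can → Can // Continuous g}) ×
      {g : Can → Euc d // Continuous g} × (ℕ → Option R)) ≤ 𝔠 :=
    sysex_prod (mk_seq mk_can.le) (sysex_prod (mk_seq (mk_cont mk_can.le))
      (sysex_prod (mk_cont (mk_euc d)) (mk_seq hRo)))
  obtain ⟨a, ha⟩ := pigeon O1 hO1 (fun ξ : J =>
    ((fun n m => decide (β ξ n = β ξ m), fun n => ⟨e ξ n, (h ξ).cont n⟩, ⟨f ξ, hf ξ⟩,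
      fun n => sysexRt R (β ξ n)) : (ℕ → ℕ → Bool) × (ℕ → {g : Can → Can // Continuous g}) ×
      {g : Can → Euc d // Continuous g} × (ℕ → Option R))) hA
  set O := {ξ | ξ ∈ O1 ∧ ((fun n m => decide (β ξ n = β ξ m), fun n => ⟨e ξ n, (h ξ).cont n⟩,
    ⟨f ξ, hf ξ⟩, fun n => sysexRt R (β ξ n)) : (ℕ → ℕ → Bool) ×
      (ℕ → {g : Can → Can // Continuous g}) ×
      {g : Can → Euc d // Continuous g} × (ℕ → Option R)) = a} with hO
  have hOne : O.Nonempty := by
    by_contra hcon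
    rw [Set.not_nonempty_iff_eq_empty] at hcon
    rw [hcon] at ha
    simp at ha
  obtain ⟨ξ0, hξ0⟩ := hOne
  have heq : ∀ ξ ∈ O, ∀ η ∈ O, (∀ n m, β ξ n = β ξ m ↔ β η n = β η m) ∧ e ξ = e η ∧ f ξ = f η ∧
      ∀ n, sysexRt R (β ξ n) = sysexRt R (β η n) := by
    intro ξ hξ η hη
    have h1 := hξ.2.trans hη.2.symm
    have h2 := congrArg (fun z => z.1) h1
    have h3 := congrArg (fun z => z.2.1) h1
    have h4 := congrArg (fun z => z.2.2.1) h1
    have h5 := congrArg (fun z => z.2.2.2) h1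
    refine ⟨fun n m => ?_, ?_, congrArg Subtype.val h4, fun n => congrFun h5 n⟩
    · exact decide_eq_decide.1 (congrFun (congrFun h2 n) m)
    · funext n
      exact congrArg Subtype.val (congrFun h3 n)
  have key : ∀ ξ : J, ∀ e' : ℕ → Can → Can, ∀ f' : Can → Euc d, e ξ = e' → f ξ = f' →
      ∃ hs : Sch (β ξ) e', hs.top ≤ r0 ∧ ∀ᶠ G in Gen (Cond J), hs.top ∈ G.S →
        ∀ x, (∀ n, e' n x = gen G (β ξ n)) → y ξ G = f' x := by
    rintro ξ e' f' rfl rfl
    exact ⟨h ξ, htop ξ, hread ξ⟩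
  have key2 : ∀ ξ ∈ O, ∃ hs : Sch (β ξ) (e ξ0), hs.top ≤ r0 ∧
      ∀ᶠ G in Gen (Cond J), hs.top ∈ G.S →
        ∀ x, (∀ n, e ξ0 n x = gen G (β ξ n)) → y ξ G = f ξ0 x := fun ξ hξ =>
    key ξ _ _ (heq ξ hξ ξ0 hξ0).2.1 (heq ξ hξ ξ0 hξ0).2.2.1
  refine ⟨{ O := O
            big := ha
            R := R
            Rc := hRc
            β := β
            e := e ξ0
            f := f ξ0
            N := {n | β ξ0 n ∈ R}
            fc := hf ξ0
            sch := fun ξ hξ => (key2 ξ hξ).1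
            top_le := fun ξ hξ => (key2 ξ hξ).2.1
            read := fun ξ hξ => (key2 ξ hξ).2.2
            pat := fun ξ hξ η hη => (heq ξ hξ η hη).1
            memN := fun ξ hξ n => (sysexRt_eq ((heq ξ0 hξ0 ξ hξ).2.2.2 n)).1
            eqN := ?_
            delta := fun ξ hξ η hη hne => hdelta ξ hξ.1 η hη.1 hne }⟩
  intro ξ hξ η hη n hn
  have h1 := (sysexRt_eq ((heq ξ0 hξ0 ξ hξ).2.2.2 n)).2 hn
  have h2 := (sysexRt_eq ((heq ξ0 hξ0 η hη).2.2.2 n)).2 hn
  exact h1.symm.trans h2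

end SX
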