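import Pool.Agent.Helper75.SX.Local

/-!
# Root points of another scheme (module SX-27)

Fix for every `n ∈ N` a position `z n` with `β' (z n) = β n` (`hR`).  For `u : Can` and `n ∈ N` the point `e' (z n) u`
is `e n x` for some `x` (`hsub`), and all such `x` have the same value at `n` (`inj`).  Let `ψ u n` be this value for
`n ∈ N` and `false` for `n ∉ N`.  Then `e n (ψ u) = e' (z n) u` for `n ∈ N`: choose `x` with `e n x = e' (z n) u`; for
`m` with `β m = β n` we have `m ∈ N` (`hN`), `β' (z m) = β m = β n = β' (z n)`, so `e' (z m) u = e' (z n) u` (`coh`)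
`= e n x = e m x` (`coh`), so `ψ u m = x m`.  For any `n'` with `β' n' = β n`: `e' n' = e' (z n)` (`coh`).

Continuity: it suffices that for each `n ∈ N` the set `{u | ψ u n = true}` is clopen.  The sets
`e n '' {x | x n = true}` and `e n '' {x | x n = false}` are compact and disjoint (`inj`), and `ψ u n = t` iff
`e' (z n) u ∈ e n '' {x | x n = t}`; so both sets `{u | ψ u n = t}` are closed (preimages of closed sets under the
continuous map `e' (z n)`), and they are complementary.
-/

set_option autoImplicit false

open Set Topology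

namespace SX

variable {J : Type}

theorem exists_psi {β β' : ℕ → J} {e e' : ℕ → Can → Can} (h : Sch β e) (h' : Sch β' e') {N : Set ℕ}
    (hN : ∀ n m, β n = β m → (n ∈ N ↔ m ∈ N)) (hR : ∀ n ∈ N, β n ∈ range β')
    (hsub : ∀ n ∈ N, ∀ n', β' n' = β n → ∀ u, e' n' u ∈ range (e n)) :
    ∃ ψ : Can → Can, Continuous ψ ∧ (∀ n ∈ N, ∀ n', β' n' = β n → ∀ u, e n (ψ u) = e' n' u) ∧
      ∀ u, ∀ n, n ∉ N → ψ u n = false := by
  classical
  have hz0 : ∀ n, ∃ z, n ∈ N → β' z = β n := by
    intro n
    by_cases hn : n ∈ N
    · obtain ⟨z, hz⟩ := hR n hn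
      exact ⟨z, fun _ => hz⟩
    · exact ⟨0, fun hh => absurd hh hn⟩
  choose z hz using hz0
  have hx0 : ∀ n u, ∃ x, n ∈ N → e n x = e' (z n) u := by
    intro n u
    by_cases hn : n ∈ N
    · obtain ⟨x, hx⟩ := hsub n hn (z n) (hz n hn) u
      exact ⟨x, fun _ => hx⟩
    · exact ⟨fun _ => false, fun hh => absurd hh hn⟩
  choose x hx using hx0
  have h1 : ∀ n ∈ N, ∀ u, e n (fun m => if m ∈ N then x m u m else false) = e' (z n) u := by
    intro n hn u
    rw [← hx n u hn, h.inj]
    intro m hm
    have hmN : m ∈ N := (hN m n hm).2 hn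
    simp only [hmN, if_true]
    have h2 : e m (x m u) = e m (x n u) := by
      rw [hx m u hmN, h.coh m n hm, hx n u hn,
        h'.coh (z m) (z n) (by rw [hz m hmN, hz n hn, hm])]
    exact (h.inj m _ _).1 h2 m rfl
  refine ⟨fun u n => if n ∈ N then x n u n else false, ?_, ?_, ?_⟩
  · refine continuous_pi fun n => ?_
    by_cases hn : n ∈ N
    · simp only [hn, if_true]
      have h3 : ∀ t : Bool, IsClosed ((fun u => x n u n) ⁻¹' {t}) := by
        intro t
        have h4 : (fun u => x n u n) ⁻¹' {t} = (e' (z n)) ⁻¹' (e n '' {y | y n = t}) := by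
          ext u
          constructor
          · intro hu
            exact ⟨x n u, hu, hx n u hn⟩
          · rintro ⟨y, hy, hyu⟩
            have h5 : e n y = e n (x n u) := by rw [hyu, hx n u hn]
            have h6 := (h.inj n _ _).1 h5 n rfl
            change x n u n = t
            rw [← h6]
            exact hy
        rw [h4]
        have h7 : IsClosed {y : Can | y n = t} := isClosed_eq (continuous_apply n) continuous_const
        exact (h7.isCompact.image (h.cont n)).isClosed.preimage (h'.cont (z n))
      rw [continuous_bool_rng true]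
      refine ⟨h3 true, ?_⟩
      have h8 : (fun u => x n u n) ⁻¹' {true} = ((fun u => x n u n) ⁻¹' {false})ᶜ := by
        ext u
        simp
      rw [h8]
      exact (h3 false).isOpen_compl
    · simp only [hn, if_false]
      exact continuous_const
  · intro n hn n' hn' u
    rw [h1 n hn u, h'.coh n' (z n) (by rw [hn', hz n hn])]
  · intro u n hn
    simp only [hn, if_false]

end SX
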