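import Pool.Agent.Helper75.SX.RootDef
import Pool.Agent.Helper75.SX.Psi
import Pool.Agent.Helper75.SX.Kap
import Pool.Agent.Helper75.SX.KFB
import Pool.Agent.Helper75.SX.Read

/-!
# The translation lemma (module SX-29)

Let `s` be a system, `q` a root condition, `ξ₀ ∈ O`, `β = s.β ξ₀`, and `R` a response system for
`Z = {κ | ∀ n ∈ N, e n κ ∈ q.S (β n)}`.  Let `X` be a name for a point and `r ≤ q`.

By `read_real` (with `T = s.R`) there are `(β', e')`, `h'` and a continuous `g` with `h'.top ≤ r`, `s.R ⊆ range β'`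
and `X G = g x` for the branch `x`.  Since `range β'` is countable, `#O > 𝔠`, and the sets `range (s.β ξ) \ s.R` are
disjoint for different `ξ` (`delta`), there is `ξ ∈ O` with `range (s.β ξ) ∩ range β' ⊆ s.R` (every
`i ∈ range β' \ R` excludes at most one `ξ`; a set of cardinality `> 𝔠` is not countable).  Write `hξ = s.sch ξ _`.

`N` is a union of coordinates (`memN`).  For `n ∈ N`: `β n ∈ s.R ⊆ range β'` and for `β' n' = β n`:
`range (e' n') = h'.top.S (β n) ⊆ r.S (β n) ⊆ q.S (β n) ⊆ range (e n)` (`mem_scv`, `sub`).  Let `ψ` be given by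
`exists_psi` for `h = s.sch ξ₀`, `h'`; `ψ u ∈ Z` for all `u` (`e n (ψ u) = e' n' u ∈ q.S (β n)`).

Let `P n = {w : Can × Can | (ψ w.1, g w.1 - f (mix N (ψ w.1) w.2)) ∈ R.B n}`, open (continuity of `ψ, g, f`, and
`continuous_mix`).  Let `M` be a bound for `‖g‖` (compactness) and `n₀` from `R.resp M`.  Apply `kf` with
`β₁ = β'`, `β₂ = s.β ξ` (the hypothesis `room` for `s.β ξ` follows from `R.room` for `β` by `pat`), `Λ, Λ'` of `R`, to
get `φ₁, φ₂`; `Emb (s.β ξ) φ₂`.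

Let `r' = (h'.comp hφ₁).top.glue (hξ.comp hφ₂).top (range β')`.  Then `r' ≤ h'.top ≤ r`: for `i ∈ range β'` the coordinate is
`e' n '' range φ₁ ⊆ e' n '' univ`, for `i ∉ range β'` `h'.top.S i = univ`.  And `r' ≤ hξ.top`: for `i ∈ range β'`, if
`i ∉ range (s.β ξ)` then `hξ.top.S i = univ`; if `i ∈ range (s.β ξ)` then `i ∈ s.R`, `i = β n = s.β ξ n` with `n ∈ N`, and
`r'.S i ⊆ q.S i ⊆ range (e n)`.  For `i ∉ range β'`: `scv (s.β ξ) (e ∘ φ₂) univ i ⊆ scv (s.β ξ) e univ i`.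

For a.e. `G` containing `r'` (`s.read ξ`, reading of `X`): let `x` be the branch of `h'` (`exists_branch`), `X G = g x`,
and `x'` the branch of `hξ`, `s.e n x' = gen G (s.β ξ n)`, `y ξ G = f x'`.
(1) `x = φ₁ u` for some `u`: `gen G (β' n) ∈ r'.S (β' n) = (h'.comp hφ₁).top.S (β' n)`, so by `branch_of (h'.comp hφ₁) (gen G)`
there is `u` with `e' n (φ₁ u) = gen G (β' n) = e' n x` for all `n`, and `branch_unique`.
(2) There is `v` with `x' n = φ₂ v n` for all `n ∉ N`: for `n ∉ N`, `s.β ξ n ∉ s.R`, so `s.β ξ n ∉ range β'` and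
`gen G (s.β ξ n) ∈ r'.S (s.β ξ n) = scv (s.β ξ) (e ∘ φ₂) univ (s.β ξ n)`.  Apply `branch_of (hξ.comp hφ₂)` to
`c i = gen G i` for `i ∉ s.R` and `c i` = the point `e n (φ₂ 0)` for `i = s.β ξ n ∈ s.R` (well defined by `coh`): there is
`v` with `e n (φ₂ v) = c (s.β ξ n)` for all `n`, so `e n (φ₂ v) = e n x'` for `n ∉ N` and `φ₂ v n = x' n` (`inj`).
(3) For `n ∈ N`: `e n x' = gen G (s.β ξ n) = gen G (β n)` (`eqN`) `= e' n' x = e n (ψ x)`, so `x' n = ψ x n`.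
So `x' = mix N (ψ x) (φ₂ v)`, `κ := ψ x = kap β e N q G` (`kap_eq`, as `r' ≤ r ≤ q`), and for every block `j` with all its
`n ≥ n₀` (all `j ≥ n₀` will do: `blk n = j` implies `n ≥ j`) there is `n` with `K.blk n = j` and
`(κ, X G - y ξ G) = (ψ x, g x - f (mix N (ψ x) (φ₂ v))) ∈ R.B n`.  By `R.hit`: `X G - y ξ G ∈ bset I (R.code κ)`.
-/

set_option autoImplicit false

open Set Topology LM
open scoped Cardinal

namespace SX

variable {J : Type} {d : ℕ} {r0 : Cond J} {y : J → Flt (Cond J) → Euc d}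

private theorem exists_far (s : Sys J d r0 y) (β' : ℕ → J) :
    ∃ ξ ∈ s.O, range (s.β ξ) ∩ range β' ⊆ s.R := by
  by_contra hcon
  push Not at hcon
  have h1 : ∀ ξ : s.O, ∃ i, i ∈ range (s.β ξ) ∩ range β' ∧ i ∉ s.R := fun ξ =>
    Set.not_subset.1 (hcon ξ ξ.2)
  choose i hi1 hi2 using h1
  have hinj : Function.Injective (fun ξ : s.O => (⟨i ξ, (hi1 ξ).2⟩ : range β')) := by
    intro ξ η hξη
    by_contra hne
    have h2 : i ξ = i η := congrArg Subtype.val hξη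
    have hne' : (ξ : J) ≠ η := fun h => hne (Subtype.ext h)
    have h3 := s.delta ξ ξ.2 η η.2 hne'
    apply hi2 ξ
    rw [← h3]
    refine ⟨(hi1 ξ).1, ?_⟩
    rw [h2]
    exact (hi1 η).1
  have h2 := Cardinal.mk_le_of_injective hinj
  have h3 : #(range β') ≤ ℵ₀ := (countable_range β').le_aleph0
  exact absurd (s.big.trans_le (h2.trans (h3.trans Cardinal.aleph0_le_continuum))) (lt_irrefl _)

theorem trans (s : Sys J d r0 y) {q : Cond J} (hq : RootC s q) {ξ₀ : J} (hξ₀ : ξ₀ ∈ s.O) (K : Tasks)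
    (I : Idl) (R : Resp K (s.β ξ₀) I s.N s.f {κ | ∀ n ∈ s.N, s.e n κ ∈ q.S (s.β ξ₀ n)})
    (X : Flt (Cond J) → Euc d) (hX : RName X) {r : Cond J} (hr : r ≤ q) :
    ∃ ξ ∈ s.O, ∃ r' ≤ r, Frc r' fun G =>
      X G - y ξ G ∈ bset I (R.code (kap (s.β ξ₀) s.e s.N q G)) := by
  classical
  haveI : Nonempty J := ⟨ξ₀⟩
  obtain ⟨β', e', h', htop, hR', g, gc, hg⟩ := read_real X hX r (T := s.R) s.Rc
  obtain ⟨ξ, hξ, hfar⟩ := exists_far s β'
  have h : Sch (s.β ξ₀) s.e := s.sch ξ₀ hξ₀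
  have hξs : Sch (s.β ξ) s.e := s.sch ξ hξ
  have hN : ∀ n m, s.β ξ₀ n = s.β ξ₀ m → (n ∈ s.N ↔ m ∈ s.N) := by
    intro n m hnm
    rw [s.memN ξ₀ hξ₀ n, s.memN ξ₀ hξ₀ m, hnm]
  have hNR : ∀ n, n ∈ s.N ↔ s.β ξ₀ n ∈ s.R := s.memN ξ₀ hξ₀
  have hNR' : ∀ n, n ∈ s.N ↔ s.β ξ n ∈ s.R := s.memN ξ hξ
  have hex : ∀ n ∈ s.N, ∃ n', β' n' = s.β ξ₀ n := fun n hn => hR' ((hNR n).1 hn)
  have htopq : ∀ i, h'.top.S i ⊆ q.S i := fun i => (htop i).trans (hr i)
  have he'top : ∀ n u, e' n u ∈ h'.top.S (β' n) := by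
    intro n u
    rw [h'.top_S, mem_scv h']
    exact ⟨u, trivial, rfl⟩
  have hsub : ∀ n ∈ s.N, ∀ n', β' n' = s.β ξ₀ n → ∀ u, e' n' u ∈ range (s.e n) := by
    intro n hn n' hn' u
    have h1 := htopq _ (he'top n' u)
    rw [hn'] at h1
    exact hq.sub ξ₀ hξ₀ n hn h1
  obtain ⟨ψ, hψc, hψ1, hψ2⟩ := exists_psi h h' hN hex hsub
  have hψZ : ∀ u, ψ u ∈ {κ | ∀ n ∈ s.N, s.e n κ ∈ q.S (s.β ξ₀ n)} := by
    intro u n hn
    obtain ⟨n', hn'⟩ := hex n hn
    rw [hψ1 n hn n' hn' u, ← hn']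
    exact htopq _ (he'top n' u)
  set P : ℕ → Set (Can × Can) := fun n =>
    {w | (ψ w.1, g w.1 - s.f (mix s.N (ψ w.1) w.2)) ∈ R.B n} with hP
  have hPo : ∀ n, IsOpen (P n) := by
    intro n
    refine (R.opn n).preimage ?_
    have h1 : Continuous fun w : Can × Can => mix s.N (ψ w.1) w.2 :=
      (continuous_mix s.N).comp ((hψc.comp continuous_fst).prodMk continuous_snd)
    exact (hψc.comp continuous_fst).prodMk ((gc.comp continuous_fst).sub (s.fc.comp h1))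
  obtain ⟨M, hM⟩ := isCompact_univ.exists_bound_of_continuousOn (f := g) gc.continuousOn
  obtain ⟨n₀, hn₀⟩ := R.resp M
  obtain ⟨φ₁, φ₂, hφ₁, hφ₂, hkf⟩ := kf K β' (s.β ξ) h'.inf R.Λ R.Λ' R.hΛ
    (by
      intro n j hj
      obtain ⟨p, hp1, hp2, hp3⟩ := R.room n j hj
      exact ⟨p, hp1, hp2, (s.pat ξ hξ ξ₀ hξ₀ p j).2 hp3⟩)
    P hPo n₀
    (by
      intro n hn a τ
      obtain ⟨b, hb, hb'⟩ := hn₀ n hn (ψ a) (hψZ a) (g a) (hM a trivial) τ
      exact ⟨b, hb, fun b' hb'' => hb' b' hb''⟩)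
  set r' : Cond J := (h'.comp hφ₁).top.glue (hξs.comp hφ₂).top (range β') with hr'
  have hr'1 : ∀ i ∈ range β', r'.S i = (h'.comp hφ₁).top.S i := by
    intro i hi
    rw [hr', Cond.glue_S, if_pos hi]
  have hr'2 : ∀ i, i ∉ range β' → r'.S i = (hξs.comp hφ₂).top.S i := by
    intro i hi
    rw [hr', Cond.glue_S, if_neg hi]
  have hle1 : r' ≤ h'.top := by
    intro i
    by_cases hi : i ∈ range β'
    · rw [hr'1 i hi, Sch.top_S, Sch.top_S]
      intro c hc n hn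
      obtain ⟨u, _, hu⟩ := hc n hn
      exact ⟨φ₁ u, trivial, hu⟩
    · rw [h'.top_S, scv_univ hi]
      exact subset_univ _
  have hle2 : r' ≤ hξs.top := by
    intro i
    by_cases hi : i ∈ range β'
    · rw [hξs.top_S]
      intro c hc n hn
      have hiR : i ∈ s.R := hfar ⟨⟨n, hn⟩, hi⟩
      have hnN : n ∈ s.N := (hNR' n).2 (by rw [hn]; exact hiR)
      have h1 : c ∈ q.S (s.β ξ n) := by
        rw [hn]
        exact htopq i (hle1 i hc)
      rw [image_univ]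
      exact hq.sub ξ hξ n hnN h1
    · rw [hr'2 i hi, Sch.top_S, Sch.top_S]
      intro c hc n hn
      obtain ⟨u, _, hu⟩ := hc n hn
      exact ⟨φ₂ u, trivial, hu⟩
  refine ⟨ξ, hξ, r', hle1.trans htop, ?_⟩
  unfold Frc
  filter_upwards [hg, s.read ξ hξ] with G hG1 hG2 hGr
  have hGt : h'.top ∈ G.S := G.up hGr hle1
  have hGt2 : hξs.top ∈ G.S := G.up hGr hle2
  have hGq : q ∈ G.S := G.up hGt (htop.trans hr)
  obtain ⟨x, hx⟩ := exists_branch h' hGt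
  obtain ⟨x', hx'⟩ := exists_branch hξs hGt2
  have hXG := hG1 hGt x hx
  have hyG := hG2 hGt2 x' hx'
  obtain ⟨u, hu⟩ := branch_of (h'.comp hφ₁) (gen G) (by
    intro n
    have h1 := gen_mem hGr (β' n)
    rw [hr'1 _ ⟨n, rfl⟩, Sch.top_S, mem_scv (h'.comp hφ₁), image_univ] at h1
    exact h1)
  have hux : φ₁ u = x := branch_unique h' fun n => (hu n).trans (hx n).symm
  have hc : ∀ i : J, ∃ c : Can, (i ∉ s.R → c = gen G i) ∧
      (i ∈ s.R → ∀ n, s.β ξ n = i → c = s.e n (φ₂ fun _ => false)) := by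
    intro i
    by_cases hi : i ∈ s.R
    · by_cases hi2 : ∃ n, s.β ξ n = i
      · obtain ⟨n, hn⟩ := hi2
        refine ⟨s.e n (φ₂ fun _ => false), fun h2 => absurd hi h2, fun _ m hm => ?_⟩
        rw [hξs.coh n m (hn.trans hm.symm)]
      · exact ⟨fun _ => false, fun h2 => absurd hi h2, fun _ m hm => absurd ⟨m, hm⟩ hi2⟩
    · exact ⟨gen G i, fun _ => rfl, fun h2 => absurd h2 hi⟩
  choose c hc1 hc2 using hc
  obtain ⟨v, hv⟩ := branch_of (hξs.comp hφ₂) c (by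
    intro n
    by_cases hi : s.β ξ n ∈ s.R
    · rw [hc2 _ hi n rfl]
      exact ⟨_, rfl⟩
    · rw [hc1 _ hi]
      have h2 : s.β ξ n ∉ range β' := fun h3 => hi (hfar ⟨⟨n, rfl⟩, h3⟩)
      have h1 := gen_mem hGr (s.β ξ n)
      rw [hr'2 _ h2, Sch.top_S, mem_scv (hξs.comp hφ₂), image_univ] at h1
      exact h1)
  have hmix : x' = mix s.N (ψ x) (φ₂ v) := by
    funext n
    by_cases hn : n ∈ s.N
    · rw [mix_mem _ _ hn]
      obtain ⟨n', hn'⟩ := hex n hn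
      have h1 : s.e n x' = s.e n (ψ x) := by
        rw [hx' n, s.eqN ξ hξ ξ₀ hξ₀ n hn, hψ1 n hn n' hn' x, hx n', hn']
      exact (hξs.inj n _ _).1 h1 n rfl
    · rw [mix_notMem _ _ hn]
      have hnR : s.β ξ n ∉ s.R := fun h2 => hn ((hNR' n).2 h2)
      have h1 : s.e n (φ₂ v) = s.e n x' := by
        rw [hx' n, ← hc1 _ hnR]
        exact hv n
      exact ((hξs.inj n _ _).1 h1 n rfl).symm
  have hkap : kap (s.β ξ₀) s.e s.N q G = ψ x := by
    refine kap_eq h hN hGq ?_ (hψ2 x)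
    intro n hn
    obtain ⟨n', hn'⟩ := hex n hn
    rw [hψ1 n hn n' hn' x, hx n', hn']
  rw [hkap]
  refine R.hit (ψ x) _ ⟨n₀, fun j hj => ?_⟩
  obtain ⟨n, hn, hPn⟩ := hkf u v j (fun n hn => by
    have := K.blk_le n
    omega)
  refine ⟨n, hn, ?_⟩
  rw [hXG, hyG, hmix, ← hux]
  rw [← hux] at hmix
  exact hPn

end SX
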