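import Pool.Agent.Helper75.SX.RootB
import Pool.Agent.Helper75.SX.SysEx
import Pool.Agent.Helper75.SX.CC
import Pool.Agent.Helper75.SX.RespNull
import Pool.Agent.Helper75.SX.RespMeager
import Pool.Agent.Helper75.SX.Trans

/-!
# There is no Luzin subgroup (module SX-30)

Suppose `FSubgroup A p` and `FLuz J I A p`.  By the first clause of `FLuz` (for `p` itself) there are `r0 ≤ p` and
names `y j`, `j : J`, of pairwise different elements of `A`.  Let `s` be a system (`exists_sys`) with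
`#O = succ 𝔠` (`Sys.shrink`), `q` a root condition (`exists_root`), `ξ₀ ∈ O`, `β = s.β ξ₀`.  The set `Z = {κ | ∀ n ∈ N, e n κ ∈ q.S (β n)}` is compact (closed: each
`e n` is continuous and `q.S i` is closed), and `nc` holds for `κ ∈ Z` (`RootC.nc`; `s.β ξ n = β n` for `n ∈ N`).  Let `R` be a
response system (`resp_null`, `resp_meager` with `hβ = (s.sch ξ₀ _).inf`) and `c G = R.code (kap β e N q G)`; it is a
`CName` (`cname_kap`) and valid.  By the second clause of `FLuz` at `q ≤ r0 ≤ p` there are `r ≤ q`, `S`, `z`.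

For `j : J`, by `trans` for `X = y j` there are `ξ_j ∈ O`, `r_j ≤ r` with `Frc r_j (y j - y ξ_j ∈ bset I (c G))`; as
`A.mem r_j (y j)`, `A.mem r_j (y ξ_j)` (`mono`) we get `A.mem r_j (y j - y ξ_j)`, and `fun G => y j G - y ξ_j G` is an
`RName` (small lemma: differences of names).  So there are `r'_j ≤ r_j` and `s_j ∈ S` with
`Frc r'_j (y j G - y ξ_j G = z s_j G)`.

The map `j ↦ (ξ_j, s_j) ∈ O × S` has a fibre of
cardinality greater than `𝔠`: otherwise `#J ≤ #O * #S * 𝔠 ≤ succ 𝔠 * #S * 𝔠 < #J` (`#S < #J`, `succ 𝔠 < #J`, `J` infinite;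
`Cardinal.mul_lt_of_lt`).  By `cc` applied to `j ↦ r'_j` on this fibre there are `j ≠ j'` in the fibre and
`t ≤ r'_j, r'_{j'}`.  Then `t` forces `y j = y ξ + z s = y j'`, but `t ≤ r0` forces `y j ≠ y j'`: `frc_absurd`.

* `Sys.shrink`: replace `O` by a subset `O'` of cardinality `succ 𝔠` (`Cardinal.le_mk_iff_exists_subset`); all fields
  are inherited.
* `RName.sub`: given `p, ε` decide `X` and then `Y` up to `ε / 2`.
-/

set_option autoImplicit false

open Set Topology LM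
open scoped Cardinal

namespace SX

theorem Sys.shrink {J : Type} {d : ℕ} {r0 : Cond J} {y : J → Flt (Cond J) → Euc d} (s : Sys J d r0 y) :
    ∃ s' : Sys J d r0 y, #s'.O = Order.succ 𝔠 := by
  obtain ⟨O', hO', hcard⟩ := Cardinal.le_mk_iff_exists_subset.1 (Order.succ_le_of_lt s.big)
  refine ⟨{ O := O'
            big := by rw [hcard]; exact Order.lt_succ 𝔠
            R := s.R
            Rc := s.Rc
            β := s.β
            e := s.e
            f := s.f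
            N := s.N
            fc := s.fc
            sch := fun ξ hξ => s.sch ξ (hO' hξ)
            top_le := fun ξ hξ => s.top_le ξ (hO' hξ)
            read := fun ξ hξ => s.read ξ (hO' hξ)
            pat := fun ξ hξ η hη => s.pat ξ (hO' hξ) η (hO' hη)
            memN := fun ξ hξ => s.memN ξ (hO' hξ)
            eqN := fun ξ hξ η hη => s.eqN ξ (hO' hξ) η (hO' hη)
            delta := fun ξ hξ η hη => s.delta ξ (hO' hξ) η (hO' hη) }, hcard⟩

theorem RName.sub {C : Type} [Preorder C] {d : ℕ} {X Y : Flt C → Euc d} (hX : RName X) (hY : RName Y) :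
    RName fun G => X G - Y G := by
  intro p ε hε
  obtain ⟨r1, hr1, x, hx⟩ := hX p (ε / 2) (by positivity)
  obtain ⟨r2, hr2, y, hy⟩ := hY r1 (ε / 2) (by positivity)
  refine ⟨r2, hr2.trans hr1, x - y, ?_⟩
  refine ((hx.anti hr2).and hy).mono (le_refl r2) ?_
  rintro G ⟨h1, h2⟩
  refine (dist_sub_sub_le _ _ _ _).trans_lt ?_
  linarith

/-- a map into a small type has a large fibre -/
private theorem big_fibre {J B : Type} (F : J → B) (hJ : ℵ₀ ≤ #J) (hc : 𝔠 < #J) (hB : #B < #J) :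
    ∃ b, 𝔠 < #{j // F j = b} := by
  by_contra hcon
  push Not at hcon
  have h1 : #J = Cardinal.sum fun b => #{j // F j = b} := by
    rw [← Cardinal.mk_sigma]
    exact (Cardinal.mk_congr (Equiv.sigmaFiberEquiv F)).symm
  have h2 : (Cardinal.sum fun b => #{j // F j = b}) ≤ Cardinal.sum fun _ : B => 𝔠 :=
    Cardinal.sum_le_sum _ _ hcon
  rw [Cardinal.sum_const'] at h2
  have h3 : #B * 𝔠 < #J := Cardinal.mul_lt_of_lt hJ hB hc
  exact absurd (h1.le.trans h2) (not_le.2 h3)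

theorem no_group {J : Type} (hJ : Order.succ 𝔠 < #J) {d : ℕ} (hd : 1 ≤ d) (I : Idl)
    (A : SetName (Cond J) d) (p : Cond J) (hA : FSubgroup A p) : ¬ FLuz J I A p := by
  intro hL
  obtain ⟨⟨r0, hr0, y, hyN, hyA, hyne⟩, _⟩ := hL p (le_refl p)
  have hJ' : 𝔠 < #J := (Order.lt_succ 𝔠).trans hJ
  have hJinf : ℵ₀ ≤ #J := Cardinal.aleph0_le_continuum.trans hJ'.le
  obtain ⟨s0⟩ := exists_sys hJ' r0 y hyN
  obtain ⟨s, hs⟩ := s0.shrink
  obtain ⟨q, hq⟩ := exists_root s hyne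
  have hOne : s.O.Nonempty := by
    by_contra hcon
    rw [Set.not_nonempty_iff_eq_empty] at hcon
    have h1 := s.big
    rw [hcon] at h1
    simp at h1
  obtain ⟨ξ₀, hξ₀⟩ := hOne
  have h : Sch (s.β ξ₀) s.e := s.sch ξ₀ hξ₀
  have hN : ∀ n m, s.β ξ₀ n = s.β ξ₀ m → (n ∈ s.N ↔ m ∈ s.N) := by
    intro n m hnm
    rw [s.memN ξ₀ hξ₀ n, s.memN ξ₀ hξ₀ m, hnm]
  have hZ : IsCompact {κ : Can | ∀ n ∈ s.N, s.e n κ ∈ q.S (s.β ξ₀ n)} := by
    have h1 : {κ : Can | ∀ n ∈ s.N, s.e n κ ∈ q.S (s.β ξ₀ n)} =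
        ⋂ n ∈ s.N, (s.e n) ⁻¹' (q.S (s.β ξ₀ n)) := by
      ext κ
      simp
    rw [h1]
    exact (isClosed_biInter fun n _ => ((q.perf _).closed).preimage (h.cont n)).isCompact
  have nc : ∀ κ ∈ {κ : Can | ∀ n ∈ s.N, s.e n κ ∈ q.S (s.β ξ₀ n)}, ∀ τ k,
      ∃ a ∈ cyl τ k, ∃ b ∈ cyl τ k, s.f (mix s.N κ a) ≠ s.f (mix s.N κ b) := by
    intro κ hκ τ k
    refine hq.nc κ (fun ξ hξ n hn => ?_) τ k
    rw [s.eqN ξ hξ ξ₀ hξ₀ n hn]
    exact hκ n hn
  have hResp : Nonempty (Resp tasks (s.β ξ₀) I s.N s.f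
      {κ | ∀ n ∈ s.N, s.e n κ ∈ q.S (s.β ξ₀ n)}) := by
    cases I with
    | null => exact resp_null tasks (s.β ξ₀) h.inf hd s.N s.fc hZ nc
    | meager => exact resp_meager tasks (s.β ξ₀) h.inf hd s.N s.fc hZ nc
  obtain ⟨R⟩ := hResp
  have hcn : CName fun G : Flt (Cond J) => R.code (kap (s.β ξ₀) s.e s.N q G) :=
    cname_kap h hN (hq.sub ξ₀ hξ₀) R.code R.loc
  have hval : Frc q (fun G : Flt (Cond J) => Valid I (R.code (kap (s.β ξ₀) s.e s.N q G))) :=
    frc_of_ae (Filter.Eventually.of_forall fun G => R.valid _)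
  obtain ⟨r, hr, S, hS, z, _, hz⟩ := (hL q (hq.le.trans hr0)).2 _ hcn hval
  have key : ∀ j : J, ∃ (ξ : s.O) (t : Cond J) (σ : S), t ≤ r ∧
      Frc t fun G => y j G - y ξ G = z σ G := by
    intro j
    obtain ⟨ξ, hξ, r1, hr1, hfr⟩ := trans s hq hξ₀ tasks I R (y j) (hyN j) hr
    have hr1r0 : r1 ≤ r0 := ((hr1.trans hr).trans hq.le)
    have hmem := hA.2 r1 (hr1r0.trans hr0) (y j) (y ξ) (hyN j) (hyN ξ)
      (A.mono r0 r1 _ hr1r0 (hyA j)) (A.mono r0 r1 _ hr1r0 (hyA ξ))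
    obtain ⟨t, ht, σ, hσ, hfr2⟩ := hz r1 hr1 _ ((hyN j).sub (hyN ξ)) hmem hfr
    exact ⟨⟨ξ, hξ⟩, t, ⟨σ, hσ⟩, ht.trans hr1, hfr2⟩
  choose ξf tf σf htf hff using key
  have hB : #(s.O × S) < #J := by
    rw [Cardinal.mk_prod, Cardinal.lift_id, Cardinal.lift_id]
    refine Cardinal.mul_lt_of_lt hJinf ?_ hS
    rw [hs]
    exact hJ
  obtain ⟨⟨ξ, σ⟩, hb⟩ := big_fibre (fun j => (ξf j, σf j)) hJinf hJ' hB
  obtain ⟨⟨j, hj⟩, ⟨j', hj'⟩, hne, t, ht1, ht2⟩ :=
    cc (fun i : {j // (ξf j, σf j) = (ξ, σ)} => tf i) hb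
  have hne' : j ≠ j' := fun h2 => hne (Subtype.ext h2)
  have h1 := (hff j).anti ht1
  have h2 := (hff j').anti ht2
  rw [Prod.mk.injEq] at hj hj'
  rw [hj.1, hj.2] at h1
  rw [hj'.1, hj'.2] at h2
  have h3 : Frc t fun G => y j G = y j' G := by
    refine (h1.and h2).mono (le_refl t) ?_
    rintro G ⟨h4, h5⟩
    exact sub_left_inj.1 (h4.trans h5.symm)
  have ht0 : t ≤ r0 := ((ht1.trans (htf j)).trans hr).trans hq.le
  exact frc_absurd h3 ((hyne j j' hne').anti ht0)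

end SX
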