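import Pool.Agent.Helper75.SX.Defs

/-!
# Perfect subsets of Cantor space (module SX-01)

All statements are elementary facts about the space `Can = ℕ → Bool`.

* `isClopen_cyl`: finite intersection of the clopen sets `{y | y n = x n}`.
* `cyl_basis`: the product topology; e.g. `Pi` neighbourhoods: a neighbourhood of `x` contains a set
  `{y | ∀ n ∈ F, y n = x n}` for a finite set `F`; take `m` larger than all elements of `F`.
* `perf_cyl`: `Preperfect.open_inter` for the open set `cyl y k`, and closedness.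
* `perf_two`: `y ∈ P` is an accumulation point, so `P` is not a singleton.
* `perf_split`: choose `y ∈ P`, let `P' = P ∩ cyl y k` (perfect, nonempty), choose two different points
  `z, z'` of `P'`, which differ at some `n ≥ k`, and take `P' ∩ cyl z (n+1)`, `P' ∩ cyl z' (n+1)`.
* `perf_univ`: flip the value at a large position.
* `perf_image`: the image is compact, hence closed; the point `f y` is an accumulation point since every
  neighbourhood of `f y` contains `f '' cyl y k` for some `k` (continuity and `cyl_basis`).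
-/

set_option autoImplicit false

open Set Topology

namespace SX

/-- all points which agree with `x` below `m` -/
def cyl (x : Can) (m : ℕ) : Set Can := {y | ∀ n < m, y n = x n}

theorem isClopen_cyl (x : Can) (m : ℕ) : IsClopen (cyl x m) := by
  have h : cyl x m = ⋂ n ∈ Finset.range m, {y : Can | y n = x n} := by
    ext y
    simp [cyl]
  rw [h]
  apply isClopen_biInter_finset
  intro n _
  exact (isClopen_discrete ({x n} : Set Bool)).preimage (continuous_apply n)

theorem cyl_basis {x : Can} {U : Set Can} (hU : U ∈ 𝓝 x) : ∃ m, cyl x m ⊆ U := by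
  rw [nhds_pi, Filter.mem_pi] at hU
  obtain ⟨I, hI, t, ht, hsub⟩ := hU
  obtain ⟨m, hm⟩ := hI.bddAbove
  refine ⟨m + 1, fun y hy => hsub ?_⟩
  intro i hi
  have h1 : i ≤ m := hm hi
  have h2 : y i = x i := hy i (by omega)
  rw [h2]
  exact mem_of_mem_nhds (ht i)

private theorem cyl_nhds (x : Can) (m : ℕ) : cyl x m ∈ 𝓝 x :=
  (isClopen_cyl x m).isOpen.mem_nhds (fun _ _ => rfl)

private theorem preperf_iff {P : Set Can} :
    Preperfect P ↔ ∀ y ∈ P, ∀ k, ∃ z ∈ P, z ∈ cyl y k ∧ z ≠ y := by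
  constructor
  · intro h y hy k
    have h1 := accPt_iff_nhds.mp (h y hy) (cyl y k) (cyl_nhds y k)
    obtain ⟨z, ⟨hz1, hz2⟩, hz3⟩ := h1
    exact ⟨z, hz2, hz1, hz3⟩
  · intro h y hy
    rw [accPt_iff_nhds]
    intro U hU
    obtain ⟨k, hk⟩ := cyl_basis hU
    obtain ⟨z, hz1, hz2, hz3⟩ := h y hy k
    exact ⟨z, ⟨hk hz2, hz1⟩, hz3⟩

theorem perf_univ : Perfect (univ : Set Can) := by
  refine ⟨isClosed_univ, preperf_iff.mpr ?_⟩
  intro y _ k
  refine ⟨Function.update y k (!y k), mem_univ _, ?_, ?_⟩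
  · intro n hn
    rw [Function.update_of_ne (by omega)]
  · intro h
    have := congrFun h k
    simp at this

theorem perf_cyl {P : Set Can} (hP : Perfect P) (y : Can) (k : ℕ) : Perfect (P ∩ cyl y k) := by
  refine ⟨hP.closed.inter (isClopen_cyl y k).isClosed, ?_⟩
  rw [inter_comm]
  exact hP.acc.open_inter (isClopen_cyl y k).isOpen

theorem perf_two {P : Set Can} (hP : Perfect P) {y : Can} (hy : y ∈ P) : ∃ z ∈ P, z ≠ y := by
  obtain ⟨z, h1, _, h3⟩ := preperf_iff.mp hP.acc y hy 0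
  exact ⟨z, h1, h3⟩

theorem perf_split {P : Set Can} (hP : Perfect P) (hne : P.Nonempty) (k : ℕ) :
    ∃ Q : Bool → Set Can, (∀ b, Perfect (Q b) ∧ (Q b).Nonempty ∧ Q b ⊆ P ∧ ∃ y, Q b ⊆ cyl y k) ∧
      Disjoint (Q false) (Q true) := by
  obtain ⟨y, hy⟩ := hne
  obtain ⟨z, hz1, hz2, hz3⟩ := preperf_iff.mp hP.acc y hy k
  obtain ⟨n, hn⟩ := Function.ne_iff.mp hz3
  have hkn : k ≤ n := by
    by_contra hlt
    exact hn (hz2 n (by omega))
  refine ⟨fun b => P ∩ cyl (if b then y else z) (n + 1), ?_, ?_⟩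
  · intro b
    have hb : (if b then y else z) ∈ P := by
      split_ifs
      · exact hy
      · exact hz1
    refine ⟨perf_cyl hP _ _, ⟨_, hb, fun _ _ => rfl⟩, inter_subset_left,
      ⟨(if b then y else z), ?_⟩⟩
    rintro w ⟨_, hw⟩ i hi
    exact hw i (by omega)
  · rw [Set.disjoint_left]
    rintro w ⟨_, hw1⟩ ⟨_, hw2⟩
    have h1 := hw1 n (by omega)
    have h2 := hw2 n (by omega)
    simp at h1 h2
    exact hn (by rw [← h1, h2])

theorem perf_image {A : Set Can} (hA : IsCompact A) {f : Can → Can} (hf : Continuous f)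
    (h : ∀ y ∈ A, ∀ k, ∃ z ∈ A, z ∈ cyl y k ∧ f z ≠ f y) : Perfect (f '' A) := by
  refine ⟨(hA.image hf).isClosed, ?_⟩
  rintro _ ⟨y, hy, rfl⟩
  rw [accPt_iff_nhds]
  intro U hU
  have h1 : f ⁻¹' U ∈ 𝓝 y := hf.continuousAt hU
  obtain ⟨k, hk⟩ := cyl_basis h1
  obtain ⟨z, hz1, hz2, hz3⟩ := h y hy k
  exact ⟨f z, ⟨hk hz2, ⟨z, hz1, rfl⟩⟩, hz3⟩

end SX
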