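import Pool.Agent.Helper75.SX.RootDef
import Pool.Agent.Helper75.SX.Local

/-!
# Isomorphic readings of different reals are not constant on nodes (module SX-15)

Write `β = s.β ξ₀` for some `ξ₀ ∈ O`; `s.β ξ n = β n` for all `ξ ∈ O`, `n ∈ N` (`eqN`).  `s.O` has two
different elements `ξ, η` (`big`).

* `supp_sub_R`: `i ∉ R` implies `i ∉ range (β ξ)` or `i ∉ range (β η)` (`delta`), say the first; then
  `(top_ξ).S i = univ` (`scv_univ`) is contained in `r0.S i`.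
* `claimA`: suppose `f (mix N κ a) = f (mix N κ b)` for all `κ` in question and `a, b ∈ cyl τ k`.  Let
  `r = t.glue ((h_ξ.node τ k).glue (h_η.node τ k) (range (β ξ))) R`.  Then `r ≤ h_ξ.top`: for `i ∈ R` this is the
  hypothesis `ht` (every `i ∈ R` is of the form `β ξ n` with `n ∈ N` by `delta` and `memN`); for
  `i ∈ range (β ξ) \ R` use `node_le_top`; for the other `i` `h_ξ.top.S i = univ`.  Similarly `r ≤ h_η.top`: if
  `i ∈ range (β ξ) \ R` then `i ∉ range (β η)` by `delta`.  Hence `r ≤ r0`.  By `frc_exists` applied to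
  `s.read ξ`, `s.read η` (turned into statements forced by `r`) and `hy` there is a filter `G` containing `r` with
  `y ξ G = f x`, `y η G = f x'`, `y ξ G ≠ y η G`, where `x`, `x'` are the branches (`exists_branch`).  Take `κ = x`.
  For `n ∈ N`: `e n x = gen G (β n) ∈ r.S (β n) = t.S (β n)` (`gen_mem`), and `e n x' = gen G (β n) = e n x`, so
  `x' m = x m` for all `m ∈ N` (`inj`).  For `m ∉ N`: `e m x = gen G (β ξ m) ∈ r.S (β ξ m) = scv (β ξ) e (cyl τ k) (β ξ m)`, so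
  `e m x = e m z` with `z ∈ cyl τ k`, so `x m = z m`, which is `τ m` if `m < k`.  Similarly for `x'`.  Let
  `a = mix N τ x`, `b = mix N τ x'`.  Then `a, b ∈ cyl τ k`, `mix N κ a = x`, `mix N κ b = x'`.  So `f x = f x'`:
  contradiction.
-/

set_option autoImplicit false

open Set Topology LM
open scoped Cardinal

namespace SX

variable {J : Type} {d : ℕ} {r0 : Cond J} {y : J → Flt (Cond J) → Euc d}

private theorem two_mem (s : Sys J d r0 y) : ∃ ξ ∈ s.O, ∃ η ∈ s.O, ξ ≠ η := by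
  have h1 : (1 : Cardinal) < #s.O :=
    lt_of_le_of_lt (Cardinal.one_le_aleph0.trans Cardinal.aleph0_le_continuum) s.big
  rw [Cardinal.one_lt_iff_nontrivial] at h1
  obtain ⟨⟨ξ, hξ⟩, ⟨η, hη⟩, hne⟩ := h1.exists_pair_ne
  exact ⟨ξ, hξ, η, hη, fun h => hne (Subtype.ext h)⟩

theorem supp_sub_R (s : Sys J d r0 y) {i : J} (hi : i ∉ s.R) : r0.S i = univ := by
  obtain ⟨ξ, hξ, η, hη, hne⟩ := two_mem s
  have h1 : ∀ ζ (hζ : ζ ∈ s.O), i ∉ range (s.β ζ) → r0.S i = univ := by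
    intro ζ hζ hr
    have h2 := s.top_le ζ hζ i
    rw [Sch.top_S, scv_univ hr] at h2
    exact eq_univ_of_univ_subset h2
  by_cases h3 : i ∈ range (s.β ξ)
  · refine h1 η hη fun h4 => hi ?_
    rw [← s.delta ξ hξ η hη hne]
    exact ⟨h3, h4⟩
  · exact h1 ξ hξ h3

theorem claimA (s : Sys J d r0 y) (hy : ∀ i j, i ≠ j → Frc r0 fun G => y i G ≠ y j G) (t : Cond J)
    (ht : ∀ ξ ∈ s.O, ∀ n ∈ s.N, t.S (s.β ξ n) ⊆ range (s.e n)) (τ : Can) (k : ℕ) :
    ∃ κ, (∀ ξ ∈ s.O, ∀ n ∈ s.N, s.e n κ ∈ t.S (s.β ξ n)) ∧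
      ∃ a ∈ cyl τ k, ∃ b ∈ cyl τ k, s.f (mix s.N κ a) ≠ s.f (mix s.N κ b) := by
  classical
  obtain ⟨ξ, hξ, η, hη, hne⟩ := two_mem s
  have sξ := s.sch ξ hξ
  have sη := s.sch η hη
  have hdel := s.delta ξ hξ η hη hne
  obtain ⟨r, hr⟩ : ∃ r : Cond J,
      r = t.glue ((sξ.node τ k).glue (sη.node τ k) (range (s.β ξ))) s.R := ⟨_, rfl⟩
  have hrR : ∀ i ∈ s.R, r.S i = t.S i := by
    intro i hi
    rw [hr, Cond.glue_S, if_pos hi]
  have hrξ : ∀ i, i ∉ s.R → i ∈ range (s.β ξ) → r.S i = scv (s.β ξ) s.e (cyl τ k) i := by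
    intro i hi h2
    rw [hr, Cond.glue_S, if_neg hi, Cond.glue_S, if_pos h2, Sch.node_S]
  have hrη : ∀ i, i ∉ s.R → i ∉ range (s.β ξ) → r.S i = scv (s.β η) s.e (cyl τ k) i := by
    intro i hi h2
    rw [hr, Cond.glue_S, if_neg hi, Cond.glue_S, if_neg h2, Sch.node_S]
  have hle1 : r ≤ sξ.top := by
    intro i
    rw [Sch.top_S]
    by_cases hi : i ∈ s.R
    · rw [hrR i hi]
      rintro c hc n rfl
      rw [image_univ]
      exact ht ξ hξ n ((s.memN ξ hξ n).2 hi) hc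
    · by_cases h2 : i ∈ range (s.β ξ)
      · rw [hrξ i hi h2]
        exact scv_mono (subset_univ _) i
      · rw [scv_univ h2]
        exact subset_univ _
  have hle2 : r ≤ sη.top := by
    intro i
    rw [Sch.top_S]
    by_cases hi : i ∈ s.R
    · rw [hrR i hi]
      rintro c hc n rfl
      rw [image_univ]
      exact ht η hη n ((s.memN η hη n).2 hi) hc
    · by_cases h2 : i ∈ range (s.β ξ)
      · have h3 : i ∉ range (s.β η) := fun h4 => hi (hdel ▸ ⟨h2, h4⟩)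
        rw [scv_univ h3]
        exact subset_univ _
      · rw [hrη i hi h2]
        exact scv_mono (subset_univ _) i
  have hf1 : Frc r fun G => ∀ x, (∀ n, s.e n x = gen G (s.β ξ n)) → y ξ G = s.f x := by
    have h1 := s.read ξ hξ
    unfold Frc
    filter_upwards [h1] with G hG hGr
    exact hG (G.up hGr hle1)
  have hf2 : Frc r fun G => ∀ x, (∀ n, s.e n x = gen G (s.β η n)) → y η G = s.f x := by
    have h1 := s.read η hη
    unfold Frc
    filter_upwards [h1] with G hG hGr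
    exact hG (G.up hGr hle2)
  have hf3 : Frc r fun G => y ξ G ≠ y η G :=
    (hy ξ η hne).anti (le_trans hle1 (s.top_le ξ hξ))
  obtain ⟨G, hrG, ⟨hG1, hG2⟩, hG3⟩ := frc_exists ((hf1.and hf2).and hf3)
  obtain ⟨x, hx⟩ := exists_branch sξ (G.up hrG hle1)
  obtain ⟨x', hx'⟩ := exists_branch sη (G.up hrG hle2)
  have hxN : ∀ m ∈ s.N, x' m = x m := by
    intro m hm
    refine (sη.inj m x' x).1 ?_ m rfl
    rw [hx' m, hx m, s.eqN ξ hξ η hη m hm]
  have hx1 : ∀ m, m ∉ s.N → m < k → x m = τ m := by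
    intro m hm hk
    have h1 : s.β ξ m ∉ s.R := fun h => hm ((s.memN ξ hξ m).2 h)
    have h2 := gen_mem hrG (s.β ξ m)
    rw [hrξ _ h1 ⟨m, rfl⟩, mem_scv sξ, ← hx m] at h2
    obtain ⟨z, hz, hzx⟩ := h2
    rw [← hz m hk]
    exact ((sξ.inj m z x).1 hzx m rfl).symm
  have hx2 : ∀ m, m ∉ s.N → m < k → x' m = τ m := by
    intro m hm hk
    have h1 : s.β η m ∉ s.R := fun h => hm ((s.memN η hη m).2 h)
    have h3 : s.β η m ∉ range (s.β ξ) := fun h4 => h1 (hdel ▸ ⟨h4, ⟨m, rfl⟩⟩)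
    have h2 := gen_mem hrG (s.β η m)
    rw [hrη _ h1 h3, mem_scv sη, ← hx' m] at h2
    obtain ⟨z, hz, hzx⟩ := h2
    rw [← hz m hk]
    exact ((sη.inj m z x').1 hzx m rfl).symm
  refine ⟨x, ?_, mix s.N τ x, ?_, mix s.N τ x', ?_, ?_⟩
  · intro ζ hζ n hn
    have h1 : s.β ξ n ∈ s.R := (s.memN ξ hξ n).1 hn
    rw [s.eqN ζ hζ ξ hξ n hn, hx n, ← hrR _ h1]
    exact gen_mem hrG _
  · intro m hk
    by_cases hm : m ∈ s.N
    · rw [mix_mem _ _ hm]
    · rw [mix_notMem _ _ hm]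
      exact hx1 m hm hk
  · intro m hk
    by_cases hm : m ∈ s.N
    · rw [mix_mem _ _ hm]
    · rw [mix_notMem _ _ hm]
      exact hx2 m hm hk
  · have e1 : mix s.N x (mix s.N τ x) = x := by
      funext m
      by_cases hm : m ∈ s.N
      · rw [mix_mem _ _ hm]
      · rw [mix_notMem _ _ hm, mix_notMem _ _ hm]
    have e2 : mix s.N x (mix s.N τ x') = x' := by
      funext m
      by_cases hm : m ∈ s.N
      · rw [mix_mem _ _ hm, hxN m hm]
      · rw [mix_notMem _ _ hm, mix_notMem _ _ hm]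
    rw [e1, e2, ← hG1 x hx, ← hG2 x' hx']
    exact hG3

end SX
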