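import Pool.Agent.Helper75.SX.RootA
import Pool.Agent.Helper75.SX.FamD

/-!
# The root condition (module SX-16)

Fix `ξ₀ ∈ O`, `β = s.β ξ₀`, `h = s.sch ξ₀ _`.  Let `qR = h.top.glue (one J) R`.  Enumerate the pairs `(τ, k)` with
`τ` eventually false as `(τ m, k m)`, `m : ℕ`, and let
`Bad m = {κ | ∀ a ∈ cyl (τ m) (k m), ∀ b ∈ cyl (τ m) (k m), f (mix N κ a) = f (mix N κ b)}`: a closed set, and
`κ ∈ Bad m ↔ mask N κ ∈ Bad m` (`mix_mask`).  Let
`D m = {r | (¬ ∃ s, s ≤ r ∧ s ≤ qR) ∨ ∀ κ, (∀ n ∈ N, e n κ ∈ r.S (β n)) → κ ∉ Bad m}`.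
It is open.  It is dense: given `q`, if there is no `s ≤ q, qR` then `q ∈ D m`; otherwise apply `claimA` to `t = s`
and `(τ m, k m)`, which gives `κ₀ ∉ Bad m`, and then `localize` with `O = (Bad m)ᶜ`.

Let `(β', e')`, `h'` be given by `fusion` for `qR`, `T = R`, `D`, and `q = h'.top.glue (one J) R`.  Then
`q.S i ⊆ qR.S i = h.top.S i ⊆ r0.S i` for `i ∈ R`, and `q ≤ r0` by `supp_sub_R`; `q.S (β n) ⊆ h.top.S (β n) = range (e n)` for
`n ∈ N` (`mem_scv`), similarly for the other `ξ ∈ O` (`eqN`).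

`nc`: let `κ` be as in the clause, and `τ, k` arbitrary; let `m` be such that `cyl (τ m) (k m) = cyl τ k`.  For
`i ∈ R` let `c i = e n κ` where `n ∈ N`, `β n = i` (`R ⊆ range β` by `delta`; well defined by `coh`); then
`c i ∈ q.S i = h'.top.S i = range (e' n')` for every `n'` with `β' n' = i`.  For `i ∉ R` let `c i` be any element of
`h'.top.S i`.  By `branch_of` there is `x` with `e' n' x = c (β' n')` for all `n'`.  As `R ⊆ range β'`, we get
`e n κ = c (β n) ∈ (h'.node x m).S (β n)` for all `n ∈ N`.  Now `h'.node x m ∈ D m` and it is compatible with `qR`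
(`node_le_top` and `h'.top ≤ qR`), so `κ ∉ Bad m`.
-/

set_option autoImplicit false

open Set Topology LM
open scoped Cardinal

namespace SX

variable {J : Type} {d : ℕ} {r0 : Cond J} {y : J → Flt (Cond J) → Euc d}

private theorem cyl_enum : ∃ (τ : ℕ → Can) (k : ℕ → ℕ), ∀ (σ : Can) (l : ℕ), ∃ m, cyl (τ m) (k m) = cyl σ l := by
  obtain ⟨g, hg⟩ := exists_surjective_nat (Σ l : ℕ, (Fin l → Bool))
  refine ⟨fun m i => if h : i < (g m).1 then (g m).2 ⟨i, h⟩ else false, fun m => (g m).1, ?_⟩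
  intro σ l
  obtain ⟨m, hm⟩ := hg ⟨l, fun i => σ i⟩
  refine ⟨m, ?_⟩
  ext y
  simp only [cyl, mem_setOf_eq]
  rw [hm]
  constructor
  · intro h n hn
    have h1 := h n hn
    rw [dif_pos hn] at h1
    exact h1
  · intro h n hn
    rw [dif_pos hn]
    exact h n hn

theorem exists_root (s : Sys J d r0 y) (hy : ∀ i j, i ≠ j → Frc r0 fun G => y i G ≠ y j G) :
    ∃ q : Cond J, RootC s q := by
  classical
  -- two elements of `O`
  have hbig : 1 < #s.O := lt_of_lt_of_le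
    (Cardinal.one_lt_aleph0.trans_le Cardinal.aleph0_le_continuum) s.big.le
  obtain ⟨⟨ξ₀, hξ₀⟩, ⟨η, hη⟩, hne⟩ := Cardinal.one_lt_iff_nontrivial.1 hbig
  have hne' : ξ₀ ≠ η := fun h => hne (Subtype.ext h)
  haveI : Nonempty J := ⟨ξ₀⟩
  set β : ℕ → J := s.β ξ₀ with hβ
  have h : Sch β s.e := s.sch ξ₀ hξ₀
  have hN : ∀ n m, β n = β m → (n ∈ s.N ↔ m ∈ s.N) := by
    intro n m hnm
    rw [s.memN ξ₀ hξ₀ n, s.memN ξ₀ hξ₀ m]
    show β n ∈ s.R ↔ β m ∈ s.R
    rw [hnm]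
  have hNR : ∀ n, n ∈ s.N ↔ β n ∈ s.R := s.memN ξ₀ hξ₀
  have hβeq : ∀ ξ ∈ s.O, ∀ n ∈ s.N, s.β ξ n = β n := fun ξ hξ n hn => s.eqN ξ hξ ξ₀ hξ₀ n hn
  have hRβ : s.R ⊆ range β := by
    rw [← s.delta ξ₀ hξ₀ η hη hne']
    exact inter_subset_left
  set qR : Cond J := h.top.glue (one J) s.R with hqR
  have hqRS : ∀ i ∈ s.R, qR.S i = h.top.S i := by
    intro i hi
    rw [hqR, Cond.glue_S, if_pos hi]
  have hrange : ∀ n, h.top.S (β n) ⊆ range (s.e n) := by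
    intro n c hc
    rw [h.top_S, mem_scv h, image_univ] at hc
    exact hc
  obtain ⟨τ, k, hτk⟩ := cyl_enum
  set Bad : ℕ → Set Can := fun m => {κ | ∀ a ∈ cyl (τ m) (k m), ∀ b ∈ cyl (τ m) (k m),
    s.f (mix s.N κ a) = s.f (mix s.N κ b)} with hBad
  have hcm : ∀ a : Can, Continuous fun κ : Can => s.f (mix s.N κ a) := by
    intro a
    exact s.fc.comp ((continuous_mix s.N).comp (continuous_id.prodMk continuous_const))
  have hclosed : ∀ m, IsClosed (Bad m) := by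
    intro m
    have h1 : Bad m = ⋂ a ∈ cyl (τ m) (k m), ⋂ b ∈ cyl (τ m) (k m),
        {κ | s.f (mix s.N κ a) = s.f (mix s.N κ b)} := by
      ext κ
      simp [hBad]
    rw [h1]
    exact isClosed_biInter fun a _ => isClosed_biInter fun b _ => isClosed_eq (hcm a) (hcm b)
  have hmaskBad : ∀ m κ, mask s.N κ ∈ Bad m ↔ κ ∈ Bad m := by
    intro m κ
    simp only [hBad, mem_setOf_eq, mix_mask]
  set D : ℕ → Set (Cond J) := fun m => {r | (¬ ∃ t, t ≤ r ∧ t ≤ qR) ∨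
    ∀ κ, (∀ n ∈ s.N, s.e n κ ∈ r.S (β n)) → κ ∉ Bad m} with hD
  have hDo : ∀ m, ∀ q ∈ D m, ∀ r ≤ q, r ∈ D m := by
    rintro m q (h1 | h1) r hr
    · exact Or.inl fun ⟨t, ht1, ht2⟩ => h1 ⟨t, ht1.trans hr, ht2⟩
    · exact Or.inr fun κ hκ => h1 κ fun n hn => hr (β n) (hκ n hn)
  have hDd : ∀ m q, ∃ r ∈ D m, r ≤ q := by
    intro m q
    by_cases hq : ∃ t, t ≤ q ∧ t ≤ qR
    · obtain ⟨t, htq, htR⟩ := hq
      have ht : ∀ ξ ∈ s.O, ∀ n ∈ s.N, t.S (s.β ξ n) ⊆ range (s.e n) := by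
        intro ξ hξ n hn
        rw [hβeq ξ hξ n hn]
        refine (htR (β n)).trans ?_
        rw [hqRS _ ((hNR n).1 hn)]
        exact hrange n
      obtain ⟨κ₀, hκ₀, a, ha, b, hb, hab⟩ := claimA s hy t ht (τ m) (k m)
      have hκ₀' : ∀ n ∈ s.N, s.e n κ₀ ∈ t.S (β n) := by
        intro n hn
        have := hκ₀ ξ₀ hξ₀ n hn
        exact this
      obtain ⟨r', hr', _, hr2⟩ := localize h hN t κ₀ hκ₀' (O := (Bad m)ᶜ) (hclosed m).isOpen_compl (by
        rw [mem_compl_iff, hmaskBad]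
        exact fun hmem => hab (hmem a ha b hb))
      refine ⟨r', Or.inr fun κ hκ => ?_, hr'.trans htq⟩
      have := hr2 κ hκ
      rwa [mem_compl_iff, hmaskBad] at this
    · exact ⟨q, Or.inl hq, le_refl q⟩
  obtain ⟨β', e', h', htop, hR', hnode⟩ := fusion qR s.Rc D hDd hDo
  set q : Cond J := h'.top.glue (one J) s.R with hq
  have hqS : ∀ i ∈ s.R, q.S i = h'.top.S i := by
    intro i hi
    rw [hq, Cond.glue_S, if_pos hi]
  have hqS' : ∀ i, i ∉ s.R → q.S i = univ := by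
    intro i hi
    rw [hq, Cond.glue_S, if_neg hi]
    rfl
  have hqtop : ∀ i ∈ s.R, q.S i ⊆ h.top.S i := by
    intro i hi
    rw [hqS i hi, ← hqRS i hi]
    exact htop i
  refine ⟨q, ?_, hqS', ?_, ?_⟩
  · intro i
    by_cases hi : i ∈ s.R
    · exact (hqtop i hi).trans (s.top_le ξ₀ hξ₀ i)
    · rw [supp_sub_R s hi]
      exact subset_univ _
  · intro ξ hξ n hn
    rw [hβeq ξ hξ n hn]
    exact (hqtop _ ((hNR n).1 hn)).trans (hrange n)
  · intro κ hκ σ l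
    obtain ⟨m, hm⟩ := hτk σ l
    have hκ' : ∀ n ∈ s.N, s.e n κ ∈ q.S (β n) := fun n hn => hκ ξ₀ hξ₀ n hn
    have hc : ∀ i : J, ∃ c : Can, c ∈ h'.top.S i ∧ (i ∈ s.R → ∀ n, β n = i → s.e n κ = c) := by
      intro i
      by_cases hi : i ∈ s.R
      · obtain ⟨n, hn⟩ := hRβ hi
        refine ⟨s.e n κ, ?_, fun _ n' hn' => ?_⟩
        · rw [← hqS i hi, ← hn]
          exact hκ' n ((hNR n).2 (by rw [hn]; exact hi))
        · rw [h.coh n' n (hn'.trans hn.symm)]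
      · obtain ⟨c, hc⟩ := h'.top.ne i
        exact ⟨c, hc, fun h2 => absurd h2 hi⟩
    choose c hc1 hc2 using hc
    obtain ⟨x, hx⟩ := branch_of h' c (by
      intro n'
      have h1 := hc1 (β' n')
      rw [h'.top_S, mem_scv h', image_univ] at h1
      exact h1)
    have hin : ∀ n ∈ s.N, s.e n κ ∈ (h'.node x m).S (β n) := by
      intro n hn
      have h1 := (hNR n).1 hn
      obtain ⟨n', hn'⟩ := hR' h1
      rw [hc2 (β n) h1 n rfl, h'.node_S, ← hn', mem_scv h', ← hx n']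
      exact ⟨x, fun _ _ => rfl, rfl⟩
    have hnot : κ ∉ Bad m := by
      rcases hnode m x with h1 | h1
      · exact absurd ⟨h'.node x m, le_refl _, (h'.node_le_top x m).trans htop⟩ h1
      · exact h1 κ hin
    simp only [hBad, mem_setOf_eq] at hnot
    rw [hm] at hnot
    push Not at hnot
    exact hnot

end SX
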