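import Pool.Agent.Helper75.SX.SysDef

/-!
# Root conditions (definition)
-/

set_option autoImplicit false

open Set Topology LM
open scoped Cardinal

namespace SX

/-- A condition `q` with support in the root such that for the points `κ` of `q` the function `f (mix N κ ·)`
is not constant on any set `cyl τ k`. -/
structure RootC {J : Type} {d : ℕ} {r0 : Cond J} {y : J → Flt (Cond J) → Euc d} (s : Sys J d r0 y)
    (q : Cond J) : Prop where
  le : q ≤ r0
  supp : ∀ i, i ∉ s.R → q.S i = univ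
  sub : ∀ ξ ∈ s.O, ∀ n ∈ s.N, q.S (s.β ξ n) ⊆ range (s.e n)
  nc : ∀ κ, (∀ ξ ∈ s.O, ∀ n ∈ s.N, s.e n κ ∈ q.S (s.β ξ n)) → ∀ τ k,
    ∃ a ∈ cyl τ k, ∃ b ∈ cyl τ k, s.f (mix s.N κ a) ≠ s.f (mix s.N κ b)

end SX
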