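import Pool.Agent.Helper75.SX.Defs

/-!
# The codes are codes for null sets and for meager sets (module SX-40)

* `null_iff`: (←) `bset Idl.null c` is contained in the union of the boxes with index `≥ N`, of volume at most a tail of
  the convergent series `∑ (c k).vol`.  (`MeasureTheory.volume` of a box: `Real.volume_pi_Ioo`; `Box.vol` uses
  `max 0 _`.)  Or use the first Borel-Cantelli lemma `MeasureTheory.measure_limsup_atTop_eq_zero`.
  (→) For every `n` the null set `A` is contained in a countable union of open rational boxes of total volume at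
  most `(1/2)^n` (outer regularity / definition of Lebesgue measure: `A` is contained in an open set `U` of measure
  `< ε`; write `U` as a countable union of half-open dyadic cubes, which are disjoint, or cover by boxes:
  e.g. use dyadic cubes of the form `∏ [a_i 2^-k, (a_i+1) 2^-k)`, maximal ones contained in `U`, and enlarge each
  to an open rational box of at most `2^d * 2^d` times the volume, so start with `ε / 4^d`.)  Let `c (pair n k)` be the
  `k`-th box of the cover number `n`.  Since every `n` gives an index `pair n k ≥ n` every point of `A` is in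
  infinitely many boxes.
* `meager_iff`: (←) for each `m` the union `U m` of the boxes is open and dense, and `bset Idl.meager c` is the union of the
  complements, closed nowhere dense sets.  (→) `A` is contained in the complement of an intersection of dense
  open sets `U m` (`isMeagre_iff_countable_union_isNowhereDense` / `mem_residual_iff`); every open set is a countable
  union of rational boxes; use the empty box `fun _ => (0, 0)` (empty as `1 ≤ d`) to fill up the enumeration.
-/

set_option autoImplicit false

open Set Topology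

namespace SX

private theorem vol_nonneg {d : ℕ} (b : Box d) : 0 ≤ b.vol :=
  Finset.prod_nonneg fun _ _ => le_max_left _ _

private theorem volume_set {d : ℕ} (b : Box d) :
    MeasureTheory.volume b.set = ENNReal.ofReal b.vol := by
  have h1 : b.set = Set.pi Set.univ fun i => Set.Ioo ((b i).1 : ℝ) ((b i).2 : ℝ) := by
    ext x
    simp [Box.set]
  rw [h1, Real.volume_pi_Ioo, Box.vol, ENNReal.ofReal_prod_of_nonneg (fun _ _ => le_max_left _ _)]
  refine Finset.prod_congr rfl fun i _ => ?_
  rcases le_total 0 (((b i).2 : ℝ) - ((b i).1 : ℝ)) with h | h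
  · rw [max_eq_right h]
  · rw [max_eq_left h, ENNReal.ofReal_of_nonpos h, ENNReal.ofReal_zero]

private def ebox (d : ℕ) : Box d := fun _ => (0, 0)

private theorem ebox_set {d : ℕ} (hd : 1 ≤ d) : (ebox d).set = ∅ := by
  ext x
  simp only [Box.set, ebox, Set.mem_ofPred_eq, Set.mem_empty_iff_false, iff_false, not_forall]
  exact ⟨⟨0, hd⟩, fun h => lt_asymm (by simpa using h.1) (by simpa using h.2)⟩

private theorem ebox_vol {d : ℕ} (hd : 1 ≤ d) : (ebox d).vol = 0 := by
  have : MeasureTheory.volume (ebox d).set = 0 := by rw [ebox_set hd]; simp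
  rw [volume_set, ENNReal.ofReal_eq_zero] at this
  exact le_antisymm this (vol_nonneg _)

private theorem isOpen_set {d : ℕ} (b : Box d) : IsOpen b.set := by
  have h1 : b.set = Set.pi Set.univ fun i => Set.Ioo ((b i).1 : ℝ) ((b i).2 : ℝ) := by
    ext x
    simp [Box.set]
  rw [h1]
  exact isOpen_set_pi Set.finite_univ fun _ _ => isOpen_Ioo

private theorem box_of_ball {d : ℕ} (x : Euc d) {r : ℝ} (hr : 0 < r) :
    ∃ b : Box d, Metric.closedBall x r ⊆ b.set ∧ b.vol ≤ 2 ^ d * (2 * r) ^ d := by
  have h1 : ∀ i, ∃ q : ℚ, x i - 2 * r < q ∧ (q : ℝ) < x i - r := fun i =>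
    exists_rat_btwn (by linarith)
  have h2 : ∀ i, ∃ q : ℚ, x i + r < q ∧ (q : ℝ) < x i + 2 * r := fun i =>
    exists_rat_btwn (by linarith)
  choose a ha ha' using h1
  choose b hb hb' using h2
  refine ⟨fun i => (a i, b i), ?_, ?_⟩
  · intro y hy i
    have h3 : dist (y i) (x i) ≤ r := (dist_le_pi_dist y x i).trans (Metric.mem_closedBall.1 hy)
    rw [Real.dist_eq, abs_le] at h3
    constructor
    · show (a i : ℝ) < y i
      linarith [ha' i]
    · show y i < (b i : ℝ)
      linarith [hb i]
  · rw [Box.vol]
    have h3 : ∏ i : Fin d, max 0 ((b i : ℝ) - (a i : ℝ)) ≤ ∏ _i : Fin d, (4 * r) := by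
      refine Finset.prod_le_prod (fun _ _ => le_max_left _ _) fun i _ => max_le (by positivity) ?_
      linarith [ha i, hb' i]
    refine h3.trans (le_of_eq ?_)
    rw [Finset.prod_const, Finset.card_univ, Fintype.card_fin, ← mul_pow]
    congr 1
    ring

theorem null_iff {d : ℕ} (hd : 1 ≤ d) (A : Set (Euc d)) :
    MeasureTheory.volume A = 0 ↔ ∃ c : ℕ → Box d, Valid Idl.null c ∧ A ⊆ bset Idl.null c := by
  classical
  constructor
  · intro hA
    -- covers
    have hcov : ∀ n : ℕ, ∃ (t : Set (Euc d)) (b : Euc d → Box d), t.Countable ∧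
        (A ⊆ ⋃ x ∈ t, (b x).set) ∧
        (∑' x : t, ENNReal.ofReal (b x).vol) ≤ ENNReal.ofReal (2 ^ d) * (2⁻¹ : ENNReal) ^ n := by
      intro n
      obtain ⟨t, r, ht, -, hr, htA, hsum⟩ := Besicovitch.exists_closedBall_covering_tsum_measure_le
        (MeasureTheory.volume : MeasureTheory.Measure (Euc d))
        (ε := (2⁻¹ : ENNReal) ^ n) (pow_ne_zero _ (by simp)) (fun _ => Set.Ioi 0) A
        (fun x _ δ hδ => ⟨δ / 2, by simpa using hδ, by constructor <;> linarith⟩)
      have hb : ∀ x : Euc d, ∃ b : Box d, 0 < r x → (Metric.closedBall x (r x) ⊆ b.set ∧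
          b.vol ≤ 2 ^ d * (2 * r x) ^ d) := by
        intro x
        by_cases h : 0 < r x
        · obtain ⟨b, hb⟩ := box_of_ball x h
          exact ⟨b, fun _ => hb⟩
        · exact ⟨ebox d, fun h' => absurd h' h⟩
      choose b hb using hb
      refine ⟨t, b, ht, ?_, ?_⟩
      · intro y hy
        obtain ⟨x, hx, hyx⟩ := Set.mem_iUnion₂.1 (htA hy)
        exact Set.mem_iUnion₂.2 ⟨x, hx, (hb x (hr x hx)).1 hyx⟩
      · rw [hA, zero_add] at hsum
        refine le_trans ?_ (mul_le_mul_right hsum _)
        rw [← ENNReal.tsum_mul_left]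
        refine ENNReal.tsum_le_tsum fun x => ?_
        have hrx : 0 < r x := hr x x.2
        rw [Real.volume_pi_closedBall _ hrx.le, Fintype.card_fin, ← ENNReal.ofReal_mul (by positivity)]
        exact ENNReal.ofReal_le_ofReal (hb x hrx).2
    choose t b ht htA hsum using hcov
    have hcount : ∀ n, Countable (t n) := fun n => (ht n).to_subtype
    let T := Σ n : ℕ, t n
    have : Encodable T := Encodable.ofCountable T
    let c : ℕ → Box d := fun k => if h : ∃ s : T, Encodable.encode s = k then b h.choose.1 h.choose.2 else ebox d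
    have hc : ∀ s : T, c (Encodable.encode s) = b s.1 s.2 := by
      intro s
      have h : ∃ s' : T, Encodable.encode s' = Encodable.encode s := ⟨s, rfl⟩
      have h2 : h.choose = s := Encodable.encode_injective h.choose_spec
      simp only [c]
      rw [dif_pos h, h2]
    refine ⟨c, ?_, ?_⟩
    · show Summable fun k => (c k).vol
      have hinj : Function.Injective (Encodable.encode : T → ℕ) := Encodable.encode_injective
      rw [← hinj.summable_iff]
      · have h1 : (∑' s : T, ENNReal.ofReal (b s.1 s.2).vol) ≠ ⊤ := by
          rw [ENNReal.tsum_sigma']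
          refine ne_top_of_le_ne_top ?_ (ENNReal.tsum_le_tsum hsum)
          rw [ENNReal.tsum_mul_left]
          refine ENNReal.mul_ne_top ENNReal.ofReal_ne_top ?_
          rw [ENNReal.tsum_geometric]
          simp
        have h2 : Summable fun s : T => (ENNReal.ofReal (b s.1 s.2).vol).toReal :=
          ENNReal.summable_toReal h1
        refine h2.congr fun s => ?_
        rw [Function.comp_apply, hc, ENNReal.toReal_ofReal (vol_nonneg _)]
      · intro k hk
        have : ¬ ∃ s : T, Encodable.encode s = k := fun ⟨s, hs⟩ => hk ⟨s, hs⟩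
        show (c k).vol = 0
        simp only [c]
        rw [dif_neg this, ebox_vol hd]
    · intro x hx N
      have h1 : ∀ n, ∃ y : t n, x ∈ (b n y).set := by
        intro n
        obtain ⟨y, hy, hxy⟩ := Set.mem_iUnion₂.1 (htA n hx)
        exact ⟨⟨y, hy⟩, hxy⟩
      choose y hy using h1
      let f : ℕ → ℕ := fun n => Encodable.encode (⟨n, y n⟩ : T)
      have hf : Function.Injective f := by
        intro m n hmn
        have h2 := Encodable.encode_injective hmn
        exact congrArg Sigma.fst h2
      obtain ⟨n, hn⟩ : ∃ n, N ≤ f n := by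
        by_contra hcon
        push Not at hcon
        have h3 : (Set.range f).Finite := (Set.finite_Iio N).subset (by
          rintro _ ⟨n, rfl⟩
          exact hcon n)
        exact Set.infinite_range_of_injective hf h3
      refine ⟨f n, hn, ?_⟩
      show x ∈ (c (Encodable.encode (⟨n, y n⟩ : T))).set
      rw [hc]
      exact hy n
  · rintro ⟨c, hc, hA⟩
    refine MeasureTheory.measure_mono_null hA ?_
    have h1 : bset Idl.null c = Filter.limsup (fun k => (c k).set) Filter.atTop := by
      ext x
      rw [Filter.mem_limsup_iff_frequently_mem, Filter.frequently_atTop]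
      rfl
    rw [h1]
    refine MeasureTheory.measure_limsup_atTop_eq_zero ?_
    have h2 : Summable fun k => (c k).vol := hc
    simp only [volume_set]
    exact h2.tsum_ofReal_ne_top

theorem meager_iff {d : ℕ} (hd : 1 ≤ d) (A : Set (Euc d)) :
    IsMeagre A ↔ ∃ c : ℕ → Box d, Valid Idl.meager c ∧ A ⊆ bset Idl.meager c := by
  classical
  constructor
  · intro hA
    obtain ⟨S, hSo, hSd, hSc, hSA⟩ := mem_residual_iff.1 hA
    have hne : (insert Set.univ S).Nonempty := Set.insert_nonempty _ _
    obtain ⟨U, hU⟩ := (hSc.insert Set.univ).exists_eq_range hne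
    have hUo : ∀ m, IsOpen (U m) := by
      intro m
      have h1 : U m ∈ insert Set.univ S := by rw [hU]; exact ⟨m, rfl⟩
      rcases h1 with h1 | h1
      · rw [h1]; exact isOpen_univ
      · exact hSo _ h1
    have hUd : ∀ m, Dense (U m) := by
      intro m
      have h1 : U m ∈ insert Set.univ S := by rw [hU]; exact ⟨m, rfl⟩
      rcases h1 with h1 | h1
      · rw [h1]; exact dense_univ
      · exact hSd _ h1
    have : Nonempty (Box d) := ⟨ebox d⟩
    obtain ⟨e, he⟩ := exists_surjective_nat (Box d)
    let c' : ℕ → ℕ → Box d := fun m k => if (e k).set ⊆ U m then e k else ebox d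
    have hcU : ∀ m, ⋃ k, (c' m k).set = U m := by
      intro m
      apply Set.Subset.antisymm
      · refine Set.iUnion_subset fun k => ?_
        by_cases h : (e k).set ⊆ U m
        · simp only [c', if_pos h]; exact h
        · simp only [c', if_neg h]; rw [ebox_set hd]; exact Set.empty_subset _
      · intro x hx
        obtain ⟨ε, hε, hball⟩ := Metric.isOpen_iff.1 (hUo m) x hx
        have h1 : ∀ i, ∃ q : ℚ, x i - ε < q ∧ (q : ℝ) < x i := fun i => exists_rat_btwn (by linarith)
        have h2 : ∀ i, ∃ q : ℚ, x i < q ∧ (q : ℝ) < x i + ε := fun i => exists_rat_btwn (by linarith)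
        choose a ha ha' using h1
        choose b hb hb' using h2
        obtain ⟨k, hk⟩ := he (fun i => (a i, b i))
        have hxk : x ∈ (e k).set := by
          rw [hk]
          exact fun i => ⟨ha' i, hb i⟩
        have hsub : (e k).set ⊆ U m := by
          rw [hk]
          intro y hy
          apply hball
          rw [Metric.mem_ball, dist_pi_lt_iff hε]
          intro i
          have h3 : (a i : ℝ) < y i := (hy i).1
          have h4 : y i < (b i : ℝ) := (hy i).2
          rw [Real.dist_eq, abs_lt]
          constructor
          · linarith [ha i]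
          · linarith [hb' i]
        refine Set.mem_iUnion.2 ⟨k, ?_⟩
        simp only [c', if_pos hsub]
        exact hxk
    refine ⟨fun n => c' (Nat.unpair n).1 (Nat.unpair n).2, ?_, ?_⟩
    · intro m
      simp only [Nat.unpair_pair]
      rw [hcU m]
      exact hUd m
    · intro x hx
      have h1 : x ∉ ⋂₀ S := fun h => hSA h hx
      rw [Set.mem_sInter] at h1
      push Not at h1
      obtain ⟨V, hV, hxV⟩ := h1
      have h2 : V ∈ Set.range U := by rw [← hU]; exact Set.mem_insert_of_mem _ hV
      obtain ⟨m, rfl⟩ := h2
      refine ⟨m, fun k hk => hxV ?_⟩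
      simp only [Nat.unpair_pair] at hk
      rw [← hcU m]
      exact Set.mem_iUnion.2 ⟨k, hk⟩
  · rintro ⟨c, hc, hA⟩
    have hm : IsMeagre (bset Idl.meager c) := by
      have h1 : (bset Idl.meager c)ᶜ = ⋂ m, ⋃ k, (c (Nat.pair m k)).set := by
        ext x
        simp [bset]
      rw [IsMeagre, h1, countable_iInter_mem]
      intro m
      exact residual_of_dense_open (isOpen_iUnion fun k => isOpen_set _) (hc m)
    exact hm.mono hA

end SX
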