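import Pool.Agent.Helper75.SX.Sane
import Pool.Agent.Helper75.SX.Exist

/-!
# The notions for the trivial forcing are the usual ones

For the forcing with one condition, forcing is truth (`frc_unit`), the names are the points (`rname_unit`,
`cname_unit`), every set of points has a name (`nameOf`), and every name for a set is of this form (`exists_nameOf`);
`FSubgroup` means that the set is a subgroup (`subgroup_unit`) and `FLuz` means that the set is a κ-Luzin set in the
usual sense (`luz_unit_null`, `luz_unit_meager`).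
-/

set_option autoImplicit false

open Cardinal LM

namespace SX

/-- the only filter of the trivial forcing -/
def flt1 : Flt Unit := ⟨Set.univ, ⟨(), trivial⟩, fun _ _ => trivial, fun _ _ => ⟨(), trivial, le_refl _, le_refl _⟩⟩

theorem flt_unit (G : Flt Unit) : G = flt1 := by
  obtain ⟨S, ne, up, dir⟩ := G
  have h1 : S = Set.univ := by
    obtain ⟨x, hx⟩ := ne
    exact Set.eq_univ_of_forall fun _ => hx
  subst h1
  rfl

theorem frc_unit {p : Unit} {φ : Flt Unit → Prop} : Frc p φ ↔ φ flt1 := by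
  constructor
  · intro h
    obtain ⟨G, _, h1⟩ := frc_exists h
    rw [flt_unit G] at h1
    exact h1
  · intro h
    exact frc_of_ae (Filter.Eventually.of_forall fun G => by
      rw [flt_unit G]
      exact h)

theorem dname_unit {A : Type} (X : Flt Unit → A) : DName X :=
  fun p => ⟨p, le_refl p, X flt1, frc_unit.2 rfl⟩

theorem rname_unit {d : ℕ} (X : Flt Unit → Euc d) : RName X :=
  fun p ε hε => ⟨p, le_refl p, X flt1, frc_unit.2 (by simpa using hε)⟩

/-- the name of a set of points -/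
def nameOf {d : ℕ} (S : Set (Euc d)) : SetName Unit d where
  mem _ X := X flt1 ∈ S
  mono _ _ _ _ h := h
  dense p X h := by
    obtain ⟨r, _, h1⟩ := h p (le_refl p)
    exact h1
  congr p X Y h h1 := by
    have h2 := frc_unit.1 h
    rw [← h2]
    exact h1

theorem exists_nameOf {d : ℕ} (A : SetName Unit d) :
    ∃ S : Set (Euc d), ∀ p X, A.mem p X ↔ (nameOf S).mem p X := by
  refine ⟨{x | A.mem () fun _ => x}, fun p X => ?_⟩
  have h1 : X = fun _ => X flt1 := by
    funext G
    rw [flt_unit G]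
  constructor
  · intro h
    rw [h1] at h
    exact h
  · intro h
    have h2 : A.mem () fun _ => X flt1 := h
    rw [← h1] at h2
    exact h2

theorem subgroup_unit {d : ℕ} (S : Set (Euc d)) :
    (∀ p, FSubgroup (nameOf S) p) ↔ ∃ H : AddSubgroup (Euc d), (H : Set (Euc d)) = S := by
  constructor
  · intro h
    obtain ⟨h0, h1⟩ := h ()
    have h0' : (0 : Euc d) ∈ S := h0
    have h2 : ∀ x ∈ S, ∀ y ∈ S, x - y ∈ S := fun x hx y hy =>
      h1 () (le_refl _) (fun _ => x) (fun _ => y) (rname_unit _) (rname_unit _) hx hy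
    have h3 : ∀ x ∈ S, -x ∈ S := fun x hx => by
      have := h2 0 h0' x hx
      simpa using this
    refine ⟨⟨⟨⟨S, fun {a b} ha hb => ?_⟩, h0'⟩, fun {a} ha => h3 a ha⟩, rfl⟩
    have := h2 a ha (-b) (h3 b hb)
    simpa using this
  · rintro ⟨H, rfl⟩ p
    exact ⟨H.zero_mem, fun q _ X Y _ _ hX hY => H.sub_mem hX hY⟩

theorem luz_unit {d : ℕ} (J : Type) (I : Idl) (S : Set (Euc d)) :
    (∀ p, FLuz J I (nameOf S) p) ↔
      #J ≤ #S ∧ ∀ c : ℕ → Box d, Valid I c → #(S ∩ bset I c : Set (Euc d)) < #J := by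
  classical
  constructor
  · intro h
    obtain ⟨h1, h2⟩ := h () () (le_refl _)
    obtain ⟨r, _, y, _, hy, hne⟩ := h1
    refine ⟨?_, fun c hc => ?_⟩
    · refine Cardinal.mk_le_of_injective (f := fun j => (⟨y j flt1, hy j⟩ : S)) ?_
      intro i j hij
      by_contra hcon
      exact frc_unit.1 (hne i j hcon) (congrArg Subtype.val hij)
    · obtain ⟨r, _, T, hT, z, _, hz⟩ := h2 (fun _ => c) (fun k => dname_unit _) (frc_unit.2 hc)
      refine lt_of_le_of_lt ?_ hT
      have h3 : ∀ x : (S ∩ bset I c : Set (Euc d)), ∃ s : T, z s flt1 = x.1 := by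
        intro x
        obtain ⟨r'', _, s, hs, h4⟩ := hz r (le_refl r) (fun _ => x.1) (rname_unit _) x.2.1 (frc_unit.2 x.2.2)
        exact ⟨⟨s, hs⟩, (frc_unit.1 h4).symm⟩
      choose g hg using h3
      refine Cardinal.mk_le_of_injective (f := g) fun x x' h5 => ?_
      have h6 := hg x
      rw [h5, hg x'] at h6
      exact Subtype.ext h6.symm
  · rintro ⟨h1, h2⟩ p q _
    refine ⟨?_, fun c hc hv => ?_⟩
    · obtain ⟨g⟩ := h1
      refine ⟨q, le_refl q, fun j _ => (g j).1, fun j => rname_unit _, fun j => (g j).2, fun i j hij => ?_⟩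
      exact frc_unit.2 fun h3 => hij (g.injective (Subtype.ext h3))
    · have h3 := h2 (c flt1) (frc_unit.1 hv)
      obtain ⟨g⟩ := h3.le
      refine ⟨q, le_refl q, Set.range g, by rwa [Cardinal.mk_range_eq g g.injective],
        fun j _ => if h : ∃ x, g x = j then (Classical.choose h).1 else 0, fun _ _ => rname_unit _, ?_⟩
      intro r' _ X _ hX h4
      have h5 : X flt1 ∈ (S ∩ bset I (c flt1) : Set (Euc d)) := ⟨hX, frc_unit.1 h4⟩
      refine ⟨r', le_refl r', g ⟨_, h5⟩, ⟨_, rfl⟩, frc_unit.2 ?_⟩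
      have h6 : ∃ x, g x = g ⟨_, h5⟩ := ⟨_, rfl⟩
      dsimp only
      rw [dif_pos h6]
      have h7 := Classical.choose_spec h6
      rw [g.injective h7]

theorem luz_unit_null {d : ℕ} (hd : 1 ≤ d) (J : Type) (S : Set (Euc d)) :
    (∀ p, FLuz J Idl.null (nameOf S) p) ↔
      #J ≤ #S ∧ ∀ B : Set (Euc d), MeasureTheory.volume B = 0 → #(S ∩ B : Set (Euc d)) < #J := by
  rw [luz_unit]
  refine and_congr_right fun _ => ⟨fun h B hB => ?_, fun h c hc => ?_⟩
  · obtain ⟨c, hc, h1⟩ := (null_iff hd B).1 hB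
    exact lt_of_le_of_lt (Cardinal.mk_le_mk_of_subset (Set.inter_subset_inter_right S h1)) (h c hc)
  · exact h _ ((null_iff hd _).2 ⟨c, hc, subset_rfl⟩)

theorem luz_unit_meager {d : ℕ} (hd : 1 ≤ d) (J : Type) (S : Set (Euc d)) :
    (∀ p, FLuz J Idl.meager (nameOf S) p) ↔
      #J ≤ #S ∧ ∀ B : Set (Euc d), IsMeagre B → #(S ∩ B : Set (Euc d)) < #J := by
  rw [luz_unit]
  refine and_congr_right fun _ => ⟨fun h B hB => ?_, fun h c hc => ?_⟩
  · obtain ⟨c, hc, h1⟩ := (meager_iff hd B).1 hB
    exact lt_of_le_of_lt (Cardinal.mk_le_mk_of_subset (Set.inter_subset_inter_right S h1)) (h c hc)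
  · exact h _ ((meager_iff hd _).2 ⟨c, hc, subset_rfl⟩)

end SX
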