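import Pool.Agent.Helper75.SX.GenSeq

/-!
# Systems of isomorphic readings (definition)
-/

set_option autoImplicit false

open Set Topology LM
open scoped Cardinal

namespace SX

/-- More than continuum many names `y ξ`, `ξ ∈ O`, with isomorphic continuous readings `y ξ = f (x_ξ)`: the schemes
`(β ξ, e)` below `r0` have the same maps `e` and the same pattern of coordinates, their ranges form a Delta
system with root `R`, and `N` is the set of those positions which belong to coordinates in the root. -/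
structure Sys (J : Type) (d : ℕ) (r0 : Cond J) (y : J → Flt (Cond J) → Euc d) where
  O : Set J
  big : 𝔠 < #O
  R : Set J
  Rc : R.Countable
  β : J → ℕ → J
  e : ℕ → Can → Can
  f : Can → Euc d
  N : Set ℕ
  fc : Continuous f
  sch : ∀ ξ ∈ O, Sch (β ξ) e
  top_le : ∀ ξ (h : ξ ∈ O), (sch ξ h).top ≤ r0
  read : ∀ ξ (h : ξ ∈ O), ∀ᶠ G in Gen (Cond J), (sch ξ h).top ∈ G.S →
    ∀ x, (∀ n, e n x = gen G (β ξ n)) → y ξ G = f x
  pat : ∀ ξ ∈ O, ∀ η ∈ O, ∀ n m, β ξ n = β ξ m ↔ β η n = β η m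
  memN : ∀ ξ ∈ O, ∀ n, n ∈ N ↔ β ξ n ∈ R
  eqN : ∀ ξ ∈ O, ∀ η ∈ O, ∀ n ∈ N, β ξ n = β η n
  delta : ∀ ξ ∈ O, ∀ η ∈ O, ξ ≠ η → range (β ξ) ∩ range (β η) = R

end SX
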