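import Pool.Agent.Helper75.SX.Perf

/-!
# The list of tasks (module SX-17)

The block number `j` is repeated `4^j` times, and in block `j` the pairs `(s, t)` run through all pairs of
finite 0-1-sequences of length `j` (padded with `false`).  E.g. start of block `j`: `a j = ∑ i < j, 4^i`
(strictly increasing), `blk n = ` the unique `j` with `a j ≤ n < a (j+1)` (`Nat.find` or `Nat.findGreatest`), and with
`k = n - a (blk n) < 4 ^ blk n` let `s n i = k.testBit i` and `t n i = k.testBit (blk n + i)` for `i < blk n`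
(`cov`: given `u, v` and `j` take `k = ∑ i < j, (u i) 2^i + (v i) 2^(j+i)`; `Nat.ofBits` and
`Nat.testBit_ofBits_lt` may help).  Any other construction is fine.
-/

set_option autoImplicit false

open Set Topology

namespace SX

/-- In block `j` all pairs of 0-1-sequences of length `j` occur. -/
structure Tasks where
  blk : ℕ → ℕ
  s : ℕ → Can
  t : ℕ → Can
  zero : blk 0 = 0
  step : ∀ n, blk (n + 1) = blk n ∨ blk (n + 1) = blk n + 1
  fin : ∀ j, {n | blk n = j}.Finite
  cov : ∀ (j : ℕ) (u v : Can), ∃ n, blk n = j ∧ (∀ i < j, s n i = u i) ∧ ∀ i < j, t n i = v i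

private theorem exists_dec : ∃ dec : ℕ → ℕ → Can × Can, ∀ (j : ℕ) (u v : Can), ∃ k < 4 ^ j,
    (∀ i < j, (dec j k).1 i = u i) ∧ ∀ i < j, (dec j k).2 i = v i := by
  have h : ∀ j : ℕ, ∃ d : ℕ → Can × Can, ∀ u v : Can, ∃ k < 4 ^ j,
      (∀ i < j, (d k).1 i = u i) ∧ ∀ i < j, (d k).2 i = v i := by
    intro j
    have hc : Fintype.card ((Fin j → Bool) × (Fin j → Bool)) = 4 ^ j := by
      rw [Fintype.card_prod, Fintype.card_fun, Fintype.card_bool, Fintype.card_fin, ← mul_pow]
      norm_num
    let e : ((Fin j → Bool) × (Fin j → Bool)) ≃ Fin (4 ^ j) := Fintype.equivFinOfCardEq hc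
    refine ⟨fun k => if h : k < 4 ^ j then
      (fun i => if hi : i < j then (e.symm ⟨k, h⟩).1 ⟨i, hi⟩ else false,
        fun i => if hi : i < j then (e.symm ⟨k, h⟩).2 ⟨i, hi⟩ else false) else
      (fun _ => false, fun _ => false), fun u v => ?_⟩
    refine ⟨(e (fun i => u i, fun i => v i) : Fin (4 ^ j)), Fin.is_lt _, ?_, ?_⟩
    · intro i hi
      simp [hi]
    · intro i hi
      simp [hi]
  choose d hd using h
  exact ⟨d, hd⟩

private theorem exists_blk : ∃ (a blk : ℕ → ℕ), (∀ j, a (j + 1) = a j + 4 ^ j) ∧ blk 0 = 0 ∧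
    (∀ n, a (blk n) ≤ n) ∧ (∀ n, n < a (blk n + 1)) ∧
    (∀ n j, a j ≤ n → n < a (j + 1) → blk n = j) := by
  let a : ℕ → ℕ := fun j => ∑ i ∈ Finset.range j, 4 ^ i
  have ha : ∀ j, a (j + 1) = a j + 4 ^ j := fun j => Finset.sum_range_succ _ _
  have ha0 : a 0 = 0 := rfl
  have hs : StrictMono a := by
    apply strictMono_nat_of_lt_succ
    intro j
    rw [ha]
    have : 0 < 4 ^ j := by positivity
    omega
  have hid : ∀ j, j ≤ a j := fun j => hs.le_apply
  let blk : ℕ → ℕ := fun n => Nat.findGreatest (fun j => a j ≤ n) n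
  have h1 : ∀ n, a (blk n) ≤ n := by
    intro n
    have := Nat.findGreatest_spec (P := fun j => a j ≤ n) (Nat.zero_le n) (by rw [ha0]; exact Nat.zero_le n)
    exact this
  have h2 : ∀ n, n < a (blk n + 1) := by
    intro n
    by_contra hcon
    push Not at hcon
    have h3 : blk n + 1 ≤ n := le_trans (hid _) hcon
    have h4 := Nat.le_findGreatest (P := fun j => a j ≤ n) h3 hcon
    have h5 : blk n + 1 ≤ blk n := h4
    omega
  refine ⟨a, blk, ha, rfl, h1, h2, ?_⟩
  intro n j hj1 hj2
  have h3 := h1 n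
  have h4 := h2 n
  rcases lt_trichotomy (blk n) j with h | h | h
  · have := hs.monotone (show blk n + 1 ≤ j from h)
    omega
  · exact h
  · have := hs.monotone (show j + 1 ≤ blk n from h)
    omega

theorem Tasks.exist : Nonempty Tasks := by
  obtain ⟨dec, hdec⟩ := exists_dec
  obtain ⟨a, blk, ha, hb0, h1, h2, h3⟩ := exists_blk
  refine ⟨⟨blk, fun n => (dec (blk n) (n - a (blk n))).1, fun n => (dec (blk n) (n - a (blk n))).2,
    hb0, ?_, ?_, ?_⟩⟩
  · intro n
    have e1 := h1 n
    have e2 := h2 n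
    rcases Nat.lt_or_ge (n + 1) (a (blk n + 1)) with h | h
    · left
      exact h3 _ _ (by omega) h
    · right
      apply h3 _ _ h
      rw [ha]
      have : 0 < 4 ^ (blk n + 1) := by positivity
      omega
  · intro j
    refine (Set.finite_Iio (a (j + 1))).subset ?_
    intro n hn
    have hn' : blk n = j := hn
    have := h2 n
    rw [hn'] at this
    exact this
  · intro j u v
    obtain ⟨k, hk, hu, hv⟩ := hdec j u v
    have e1 : blk (a j + k) = j := h3 _ _ (Nat.le_add_right _ _) (by rw [ha]; omega)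
    refine ⟨a j + k, e1, ?_, ?_⟩
    · intro i hi
      show (dec (blk (a j + k)) (a j + k - a (blk (a j + k)))).1 i = u i
      rw [e1, Nat.add_sub_cancel_left]
      exact hu i hi
    · intro i hi
      show (dec (blk (a j + k)) (a j + k - a (blk (a j + k)))).2 i = v i
      rw [e1, Nat.add_sub_cancel_left]
      exact hv i hi

/-- the fixed list of tasks -/
noncomputable def tasks : Tasks := Classical.choice Tasks.exist

theorem Tasks.blk_le (K : Tasks) (n : ℕ) : K.blk n ≤ n := by
  induction n with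
  | zero => rw [K.zero]
  | succ n ih =>
    rcases K.step n with h | h <;> omega

theorem Tasks.mono (K : Tasks) : Monotone K.blk := by
  apply monotone_nat_of_le_succ
  intro n
  rcases K.step n with h | h <;> omega

/-- the time at which the block number `i` ends -/
theorem Tasks.exists_end (K : Tasks) (i : ℕ) : ∃ n, K.blk n = i ∧ K.blk (n + 1) = i + 1 := by
  classical
  have hex : ∃ n, K.blk n = i + 1 := by
    obtain ⟨n, hn, -⟩ := K.cov (i + 1) (fun _ => false) (fun _ => false)
    exact ⟨n, hn⟩
  have hspec := Nat.find_spec hex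
  have hmin := fun m => Nat.find_min hex (m := m)
  rcases Nat.eq_zero_or_pos (Nat.find hex) with h0 | h0
  · rw [h0, K.zero] at hspec
    omega
  · obtain ⟨m, hm⟩ : ∃ m, Nat.find hex = m + 1 := ⟨Nat.find hex - 1, by omega⟩
    have h1 := hmin m (by omega)
    rw [hm] at hspec
    refine ⟨m, ?_, hspec⟩
    rcases K.step m with h | h <;> omega

end SX
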